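import Pool.Agent.HExit.Energy

/-!
# HExit, module AR: arithmetic of `V1` and `V2`
-/

open MeasureTheory ProbabilityTheory Filter Topology
open scoped ENNReal

namespace HExit

/-! ### Cauchy-Schwarz -/

lemma cs_MM (v w : V1) : (3 * (v.a * w.a + v.b * w.b)) ^ 2 ≤ (v.x ^ 2 - 1) * (w.x ^ 2 - 1) := by
  have h1 : v.x ^ 2 - 1 = 3 * (v.a ^ 2 + v.b ^ 2) := by linarith [v.eq]
  have h2 : w.x ^ 2 - 1 = 3 * (w.a ^ 2 + w.b ^ 2) := by linarith [w.eq]
  rw [h1, h2]
  nlinarith [sq_nonneg (v.a * w.b - v.b * w.a)]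

lemma abs_MM (v w : V1) : |3 * (v.a * w.a + v.b * w.b)| < v.x * w.x := by
  have hx := v.pos
  have hy := w.pos
  refine abs_lt_of_sq_lt_sq ?_ (by positivity)
  refine lt_of_le_of_lt (cs_MM v w) ?_
  nlinarith [mul_pos hx hx, mul_pos hy hy]

lemma cs_NN (v : V1) (u : V2) : 3 * (v.a * u.c + v.b * u.d) ^ 2 ≤ (v.x ^ 2 - 1) * (3 * u.y ^ 2 - 1) := by
  have h1 : v.x ^ 2 - 1 = 3 * (v.a ^ 2 + v.b ^ 2) := by linarith [v.eq]
  have h2 : 3 * u.y ^ 2 - 1 = u.c ^ 2 + u.d ^ 2 := by linarith [u.eq]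
  rw [h1, h2]
  nlinarith [sq_nonneg (v.a * u.d - v.b * u.c)]

lemma abs_NN (v : V1) (u : V2) : |v.a * u.c + v.b * u.d| < v.x * u.y := by
  have hx := v.pos
  have hy := u.pos
  refine abs_lt_of_sq_lt_sq ?_ (by positivity)
  have := cs_NN v u
  nlinarith [mul_pos hx hx, mul_pos hy hy]

lemma cs_LL (u w : V2) : (u.c * w.c + u.d * w.d) ^ 2 ≤ (3 * u.y ^ 2 - 1) * (3 * w.y ^ 2 - 1) := by
  have h1 : 3 * u.y ^ 2 - 1 = u.c ^ 2 + u.d ^ 2 := by linarith [u.eq]
  have h2 : 3 * w.y ^ 2 - 1 = w.c ^ 2 + w.d ^ 2 := by linarith [w.eq]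
  rw [h1, h2]
  nlinarith [sq_nonneg (u.c * w.d - u.d * w.c)]

lemma abs_LL (u w : V2) : |u.c * w.c + u.d * w.d| < 3 * u.y * w.y := by
  have hx := u.pos
  have hy := w.pos
  refine abs_lt_of_sq_lt_sq ?_ (by positivity)
  have := cs_LL u w
  nlinarith [mul_pos hx hx, mul_pos hy hy]

theorem one_le_MM (v w : V1) : 1 ≤ MM v w := by
  have := (abs_lt.mp (abs_MM v w)).2
  unfold MM
  linarith

/-- `MM v w ≤ 2 v.x w.x` -/
theorem MM_le (v w : V1) : MM v w ≤ 2 * v.x * w.x := by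
  have := (abs_lt.mp (abs_MM v w)).1
  unfold MM
  linarith

theorem V1.ext_of_dist {v w : V1} (h1 : v.x = w.x)
    (h2 : (v.a - w.a) ^ 2 + (v.b - w.b) ^ 2 ≤ 0) : v = w := by
  have h3 : v.a - w.a = 0 := by
    have : (v.a - w.a) ^ 2 ≤ 0 := by nlinarith [sq_nonneg (v.b - w.b)]
    exact pow_eq_zero_iff (two_ne_zero) |>.mp (le_antisymm this (sq_nonneg _))
  have h4 : v.b - w.b = 0 := by
    have : (v.b - w.b) ^ 2 ≤ 0 := by nlinarith [sq_nonneg (v.a - w.a)]
    exact pow_eq_zero_iff (two_ne_zero) |>.mp (le_antisymm this (sq_nonneg _))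
  exact V1.ext h1 (by linarith) (by linarith)

theorem MM_eq_one {v w : V1} : MM v w = 1 ↔ v = w := by
  constructor
  · intro h
    have hcs := cs_MM v w
    have h3 : 3 * (v.a * w.a + v.b * w.b) = v.x * w.x - 1 := by unfold MM at h; linarith
    rw [h3] at hcs
    have h4 : (v.x - w.x) ^ 2 ≤ 0 := by nlinarith
    have h5 : v.x - w.x = 0 :=
      pow_eq_zero_iff (two_ne_zero) |>.mp (le_antisymm h4 (sq_nonneg _))
    have h6 : v.x = w.x := by linarith
    refine V1.ext_of_dist h6 ?_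
    have e1 := v.eq
    have e2 := w.eq
    rw [h6] at h3 e1
    nlinarith
  · rintro rfl
    exact MM_self v

theorem one_le_NN (v : V1) (u : V2) : 1 ≤ NN v u := by
  have := (abs_lt.mp (abs_NN v u)).2
  unfold NN
  linarith

theorem one_le_LL (u w : V2) : 1 ≤ LL u w := by
  have := (abs_lt.mp (abs_LL u w)).2
  unfold LL
  linarith

lemma LL_self (u : V2) : LL u u = 1 := by
  unfold LL
  have := u.eq
  nlinarith

theorem LL_eq_one {u w : V2} : LL u w = 1 ↔ u = w := by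
  constructor
  · intro h
    have hcs := cs_LL u w
    have h3 : u.c * w.c + u.d * w.d = 3 * u.y * w.y - 1 := by unfold LL at h; linarith
    rw [h3] at hcs
    have h4 : (u.y - w.y) ^ 2 ≤ 0 := by nlinarith
    have h5 : u.y - w.y = 0 :=
      pow_eq_zero_iff (two_ne_zero) |>.mp (le_antisymm h4 (sq_nonneg _))
    have h6 : u.y = w.y := by linarith
    have e1 := u.eq
    have e2 := w.eq
    rw [h6] at h3 e1
    have h7 : (u.c - w.c) ^ 2 + (u.d - w.d) ^ 2 ≤ 0 := by nlinarith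
    have h8 : u.c - w.c = 0 := by
      have : (u.c - w.c) ^ 2 ≤ 0 := by nlinarith [sq_nonneg (u.d - w.d)]
      exact pow_eq_zero_iff (two_ne_zero) |>.mp (le_antisymm this (sq_nonneg _))
    have h9 : u.d - w.d = 0 := by
      have : (u.d - w.d) ^ 2 ≤ 0 := by nlinarith [sq_nonneg (u.c - w.c)]
      exact pow_eq_zero_iff (two_ne_zero) |>.mp (le_antisymm this (sq_nonneg _))
    exact V2.ext h6 (by linarith) (by linarith)
  · rintro rfl
    exact LL_self u

lemma V2.odd (u : V2) : u.y % 2 = 1 ∧ u.c % 2 = 1 ∧ u.d % 2 = 1 := by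
  have h := u.eq
  have h4 : (3 * u.y ^ 2) % 4 = (1 + u.c ^ 2 + u.d ^ 2) % 4 := by rw [h]
  have hy : u.y % 4 = 0 ∨ u.y % 4 = 1 ∨ u.y % 4 = 2 ∨ u.y % 4 = 3 := by omega
  have hc : u.c % 4 = 0 ∨ u.c % 4 = 1 ∨ u.c % 4 = 2 ∨ u.c % 4 = 3 := by omega
  have hd : u.d % 4 = 0 ∨ u.d % 4 = 1 ∨ u.d % 4 = 2 ∨ u.d % 4 = 3 := by omega
  rcases hy with hy | hy | hy | hy <;> rcases hc with hc | hc | hc | hc <;>
    rcases hd with hd | hd | hd | hd <;>
    simp [pow_two, Int.add_emod, Int.mul_emod, hy, hc, hd] at h4 <;> omega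

theorem LL_odd (u w : V2) : Odd (LL u w) := by
  obtain ⟨h1, h2, h3⟩ := u.odd
  obtain ⟨k1, k2, k3⟩ := w.odd
  rw [Int.odd_iff]
  unfold LL
  simp [Int.sub_emod, Int.mul_emod, h1, h2, h3, k1, k2, k3]

/-- parity classes of the vertices of the first kind -/
lemma V1.parity (v : V1) : (v.x % 2 = 1 ∧ v.a % 2 = 0 ∧ v.b % 2 = 0) ∨
    (v.x % 2 = 0 ∧ v.a % 2 = 1 ∧ v.b % 2 = 0) ∨ (v.x % 2 = 0 ∧ v.a % 2 = 0 ∧ v.b % 2 = 1) := by
  have h := v.eq
  have h4 : (v.x ^ 2) % 4 = (1 + 3 * v.a ^ 2 + 3 * v.b ^ 2) % 4 := by rw [h]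
  have hx : v.x % 4 = 0 ∨ v.x % 4 = 1 ∨ v.x % 4 = 2 ∨ v.x % 4 = 3 := by omega
  have ha : v.a % 4 = 0 ∨ v.a % 4 = 1 ∨ v.a % 4 = 2 ∨ v.a % 4 = 3 := by omega
  have hb : v.b % 4 = 0 ∨ v.b % 4 = 1 ∨ v.b % 4 = 2 ∨ v.b % 4 = 3 := by omega
  rcases hx with hx | hx | hx | hx <;> rcases ha with ha | ha | ha | ha <;>
    rcases hb with hb | hb | hb | hb <;>
    simp [pow_two, Int.add_emod, Int.mul_emod, hx, ha, hb] at h4 <;> omega

lemma MM_two_class {s t : V1} (h : MM s t = 2) :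
    s.a % 2 + 2 * (s.b % 2) ≠ t.a % 2 + 2 * (t.b % 2) := by
  intro hc
  have h0 : (s.x * t.x - 3 * s.a * t.a - 3 * s.b * t.b) % 2 = 0 := by
    unfold MM at h; rw [h]; rfl
  rcases s.parity with ⟨p1, p2, p3⟩ | ⟨p1, p2, p3⟩ | ⟨p1, p2, p3⟩ <;>
  rcases t.parity with ⟨q1, q2, q3⟩ | ⟨q1, q2, q3⟩ | ⟨q1, q2, q3⟩ <;>
    simp [Int.sub_emod, Int.mul_emod, p1, p2, p3, q1, q2, q3] at h0 hc

/-- parity classes: among 4 vertices not all cosh-distances are 2 -/
theorem parity4 {v w v' w' : V1} (h1 : MM v w = 2) (h2 : MM v' w' = 2) (h3 : MM v v' = 2)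
    (h4 : MM v w' = 2) (h5 : MM w v' = 2) (h6 : MM w w' = 2) : False := by
  have key : ∀ s : V1, s.a % 2 + 2 * (s.b % 2) = 0 ∨ s.a % 2 + 2 * (s.b % 2) = 1 ∨
      s.a % 2 + 2 * (s.b % 2) = 2 := by
    intro s
    have := s.parity
    omega
  have a1 := MM_two_class h1
  have a2 := MM_two_class h2
  have a3 := MM_two_class h3
  have a4 := MM_two_class h4
  have a5 := MM_two_class h5
  have a6 := MM_two_class h6
  have b1 := key v
  have b2 := key w
  have b3 := key v'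
  have b4 := key w'
  generalize v.a % 2 + 2 * (v.b % 2) = c1 at *
  generalize w.a % 2 + 2 * (w.b % 2) = c2 at *
  generalize v'.a % 2 + 2 * (v'.b % 2) = c3 at *
  generalize w'.a % 2 + 2 * (w'.b % 2) = c4 at *
  rcases b1 with rfl | rfl | rfl <;> rcases b2 with rfl | rfl | rfl <;>
    rcases b3 with rfl | rfl | rfl <;> rcases b4 with rfl | rfl | rfl <;> simp_all

lemma gram_det (x0 x1 x2 y0 y1 y2 z0 z1 z2 t0 t1 t2 : ℤ) (m : ℤ)
    (h11 : -3 * x0 * x0 + x1 * x1 + x2 * x2 = -3) (h12 : -3 * x0 * y0 + x1 * y1 + x2 * y2 = -6)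
    (h13 : -3 * x0 * z0 + x1 * z1 + x2 * z2 = -6) (h14 : -3 * x0 * t0 + x1 * t1 + x2 * t2 = -3)
    (h22 : -3 * y0 * y0 + y1 * y1 + y2 * y2 = -3) (h23 : -3 * y0 * z0 + y1 * z1 + y2 * z2 = -3 * m)
    (h24 : -3 * y0 * t0 + y1 * t1 + y2 * t2 = -3) (h33 : -3 * z0 * z0 + z1 * z1 + z2 * z2 = -3)
    (h34 : -3 * z0 * t0 + z1 * t1 + z2 * t2 = -3) (h44 : -3 * t0 * t0 + t1 * t1 + t2 * t2 = -1) :
    (m - 1) * (m - 4) = 0 := by
  have key : ∀ p11 p12 p13 p14 p22 p23 p24 p33 p34 p44 : ℤ,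
      -3 * x0 * x0 + x1 * x1 + x2 * x2 = p11 → -3 * x0 * y0 + x1 * y1 + x2 * y2 = p12 →
      -3 * x0 * z0 + x1 * z1 + x2 * z2 = p13 → -3 * x0 * t0 + x1 * t1 + x2 * t2 = p14 →
      -3 * y0 * y0 + y1 * y1 + y2 * y2 = p22 → -3 * y0 * z0 + y1 * z1 + y2 * z2 = p23 →
      -3 * y0 * t0 + y1 * t1 + y2 * t2 = p24 → -3 * z0 * z0 + z1 * z1 + z2 * z2 = p33 →
      -3 * z0 * t0 + z1 * t1 + z2 * t2 = p34 → -3 * t0 * t0 + t1 * t1 + t2 * t2 = p44 →
      p11 * (p22 * (p33 * p44 - p34 * p34) - p23 * (p23 * p44 - p34 * p24)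
          + p24 * (p23 * p34 - p33 * p24))
        - p12 * (p12 * (p33 * p44 - p34 * p34) - p23 * (p13 * p44 - p34 * p14)
          + p24 * (p13 * p34 - p33 * p14))
        + p13 * (p12 * (p23 * p44 - p34 * p24) - p22 * (p13 * p44 - p34 * p14)
          + p24 * (p13 * p24 - p23 * p14))
        - p14 * (p12 * (p23 * p34 - p33 * p24) - p22 * (p13 * p34 - p33 * p14)
          + p23 * (p13 * p24 - p23 * p14)) = 0 := by
    intro p11 p12 p13 p14 p22 p23 p24 p33 p34 p44 e1 e2 e3 e4 e5 e6 e7 e8 e9 e10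
    subst e1 e2 e3 e4 e5 e6 e7 e8 e9 e10
    ring
  have := key _ _ _ _ _ _ _ _ _ _ h11 h12 h13 h14 h22 h23 h24 h33 h34 h44
  nlinarith [this]

/-- Gram determinant of `v, w, w', u` -/
theorem gram {v w w' : V1} {u : V2} (h1 : MM v w = 2) (h2 : MM v w' = 2) (h3 : NN v u = 1)
    (h4 : NN w u = 1) (h5 : NN w' u = 1) : w = w' ∨ MM w w' = 4 := by
  have hv := v.eq
  have hw := w.eq
  have hw' := w'.eq
  have hu := u.eq
  have := gram_det v.x (3 * v.a) (3 * v.b) w.x (3 * w.a) (3 * w.b) w'.x (3 * w'.a) (3 * w'.b)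
    u.y u.c u.d (MM w w') (by nlinarith) (by unfold MM at h1; nlinarith)
    (by unfold MM at h2; nlinarith) (by unfold NN at h3; nlinarith) (by nlinarith)
    (by unfold MM; ring) (by unfold NN at h4; nlinarith) (by nlinarith)
    (by unfold NN at h5; nlinarith) (by nlinarith)
  rcases mul_eq_zero.mp this with h | h
  · left; exact MM_eq_one.mp (by linarith)
  · right; linarith

/-! ### frames -/

/-- completeness relations of a frame -/
lemma frame_complete {v : V1} {e0 e1 e2 g0 g1 g2 : ℤ} (h1 : -3 * e0 ^ 2 + e1 ^ 2 + e2 ^ 2 = 1)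
    (h2 : -3 * g0 ^ 2 + g1 ^ 2 + g2 ^ 2 = 1) (h3 : -3 * e0 * g0 + e1 * g1 + e2 * g2 = 0)
    (h4 : -v.x * e0 + v.a * e1 + v.b * e2 = 0) (h5 : -v.x * g0 + v.a * g1 + v.b * g2 = 0) :
    v.x * v.x = 1 + 3 * e0 * e0 + 3 * g0 * g0 ∧ e0 * e1 + g0 * g1 = v.x * v.a ∧
    e0 * e2 + g0 * g2 = v.x * v.b ∧ e1 * e1 + g1 * g1 = 1 + 3 * v.a * v.a ∧
    e1 * e2 + g1 * g2 = 3 * v.a * v.b ∧ e2 * e2 + g2 * g2 = 1 + 3 * v.b * v.b := by
  have hv := v.eq
  have hPQ : (!![v.x, -v.a, -v.b; -3 * e0, e1, e2; -3 * g0, g1, g2] : Matrix (Fin 3) (Fin 3) ℤ) *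
      !![v.x, e0, g0; 3 * v.a, e1, g1; 3 * v.b, e2, g2] = 1 := by
    ext i j
    fin_cases i <;> fin_cases j <;>
      simp [Matrix.mul_apply, Fin.sum_univ_three] <;> linarith
  have hQP := mul_eq_one_comm.mp hPQ
  have c00 := congrFun (congrFun hQP 0) 0
  have c01 := congrFun (congrFun hQP 0) 1
  have c02 := congrFun (congrFun hQP 0) 2
  have c11 := congrFun (congrFun hQP 1) 1
  have c12 := congrFun (congrFun hQP 1) 2
  have c22 := congrFun (congrFun hQP 2) 2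
  simp [Matrix.mul_apply, Fin.sum_univ_three] at c00 c01 c02 c11 c12 c22
  refine ⟨by linarith, by linarith, by linarith, by linarith, by linarith, by linarith⟩

/-- an orthonormal frame (raw coordinates, form `-3,1,1`) at a vertex of the first kind -/
structure Frm where
  v : V1
  e0 : ℤ
  e1 : ℤ
  e2 : ℤ
  g0 : ℤ
  g1 : ℤ
  g2 : ℤ
  h1 : -3 * e0 ^ 2 + e1 ^ 2 + e2 ^ 2 = 1
  h2 : -3 * g0 ^ 2 + g1 ^ 2 + g2 ^ 2 = 1
  h3 : -3 * e0 * g0 + e1 * g1 + e2 * g2 = 0
  h4 : -v.x * e0 + v.a * e1 + v.b * e2 = 0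
  h5 : -v.x * g0 + v.a * g1 + v.b * g2 = 0

namespace Frm

variable (f : Frm)

lemma complete : f.v.x * f.v.x = 1 + 3 * f.e0 * f.e0 + 3 * f.g0 * f.g0 ∧
    f.e0 * f.e1 + f.g0 * f.g1 = f.v.x * f.v.a ∧
    f.e0 * f.e2 + f.g0 * f.g2 = f.v.x * f.v.b ∧ f.e1 * f.e1 + f.g1 * f.g1 = 1 + 3 * f.v.a * f.v.a ∧
    f.e1 * f.e2 + f.g1 * f.g2 = 3 * f.v.a * f.v.b ∧
    f.e2 * f.e2 + f.g2 * f.g2 = 1 + 3 * f.v.b * f.v.b :=
  frame_complete f.h1 f.h2 f.h3 f.h4 f.h5

/-- the image of a vertex of the first kind -/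
def to1 (w : V1) : V1 where
  x := w.x * f.v.x + 3 * w.a * f.e0 + 3 * w.b * f.g0
  a := w.x * f.v.a + w.a * f.e1 + w.b * f.g1
  b := w.x * f.v.b + w.a * f.e2 + w.b * f.g2
  eq := by
    linear_combination w.x ^ 2 * f.v.eq - 3 * w.a ^ 2 * f.h1 - 3 * w.b ^ 2 * f.h2
      - 6 * w.x * w.a * f.h4 - 6 * w.x * w.b * f.h5 - 6 * w.a * w.b * f.h3 + w.eq
  pos := by
    obtain ⟨c00, -⟩ := f.complete
    have hx := f.v.pos
    have hw := w.pos
    have h : |3 * w.a * f.e0 + 3 * w.b * f.g0| < w.x * f.v.x := by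
      refine abs_lt_of_sq_lt_sq ?_ (by positivity)
      have k1 : w.x ^ 2 - 1 = 3 * (w.a ^ 2 + w.b ^ 2) := by linarith [w.eq]
      have k2 : f.v.x ^ 2 - 1 = 3 * (f.e0 ^ 2 + f.g0 ^ 2) := by nlinarith
      have k3 : (3 * w.a * f.e0 + 3 * w.b * f.g0) ^ 2 ≤ (w.x ^ 2 - 1) * (f.v.x ^ 2 - 1) := by
        rw [k1, k2]
        nlinarith [sq_nonneg (w.a * f.g0 - w.b * f.e0)]
      nlinarith [mul_pos hx hx, mul_pos hw hw]
    have := (abs_lt.mp h).1
    linarith

/-- the coordinates of a vertex of the first kind -/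
def of1 (w : V1) : V1 where
  x := MM f.v w
  a := -w.x * f.e0 + w.a * f.e1 + w.b * f.e2
  b := -w.x * f.g0 + w.a * f.g1 + w.b * f.g2
  eq := by
    obtain ⟨c00, c01, c02, c11, c12, c22⟩ := f.complete
    unfold MM
    linear_combination w.x ^ 2 * c00 - 3 * w.a ^ 2 * c11 - 3 * w.b ^ 2 * c22
      + 6 * w.x * w.a * c01 + 6 * w.x * w.b * c02 - 6 * w.a * w.b * c12 + w.eq
  pos := lt_of_lt_of_le one_pos (one_le_MM _ _)

/-- the image of a vertex of the second kind -/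
def to2 (u : V2) : V2 where
  y := u.y * f.v.x + u.c * f.e0 + u.d * f.g0
  c := 3 * u.y * f.v.a + u.c * f.e1 + u.d * f.g1
  d := 3 * u.y * f.v.b + u.c * f.e2 + u.d * f.g2
  eq := by
    linear_combination 3 * u.y ^ 2 * f.v.eq - u.c ^ 2 * f.h1 - u.d ^ 2 * f.h2
      - 6 * u.y * u.c * f.h4 - 6 * u.y * u.d * f.h5 - 2 * u.c * u.d * f.h3 + u.eq
  pos := by
    obtain ⟨c00, -⟩ := f.complete
    have hx := f.v.pos
    have hw := u.pos
    have h : |u.c * f.e0 + u.d * f.g0| < u.y * f.v.x := by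
      refine abs_lt_of_sq_lt_sq ?_ (by positivity)
      have k1 : 3 * u.y ^ 2 - 1 = (u.c ^ 2 + u.d ^ 2) := by linarith [u.eq]
      have k2 : f.v.x ^ 2 - 1 = 3 * (f.e0 ^ 2 + f.g0 ^ 2) := by nlinarith
      have k3 : 3 * (u.c * f.e0 + u.d * f.g0) ^ 2 ≤ (3 * u.y ^ 2 - 1) * (f.v.x ^ 2 - 1) := by
        rw [k1, k2]
        nlinarith [sq_nonneg (u.c * f.g0 - u.d * f.e0)]
      nlinarith [mul_pos hx hx, mul_pos hw hw]
    have := (abs_lt.mp h).1
    linarith

/-- the coordinates of a vertex of the second kind -/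
def of2 (u : V2) : V2 where
  y := NN f.v u
  c := -3 * u.y * f.e0 + u.c * f.e1 + u.d * f.e2
  d := -3 * u.y * f.g0 + u.c * f.g1 + u.d * f.g2
  eq := by
    obtain ⟨c00, c01, c02, c11, c12, c22⟩ := f.complete
    unfold NN
    linear_combination 3 * u.y ^ 2 * c00 - u.c ^ 2 * c11 - u.d ^ 2 * c22
      + 6 * u.y * u.c * c01 + 6 * u.y * u.d * c02 - 2 * u.c * u.d * c12 + u.eq
  pos := lt_of_lt_of_le one_pos (one_le_NN _ _)

end Frm

/-- pairs of permutations of `V1`, `V2` which preserve the cosh-distances -/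
@[ext] structure Aut where
  f1 : V1 ≃ V1
  f2 : V2 ≃ V2
  hM : ∀ v w, MM (f1 v) (f1 w) = MM v w
  hN : ∀ v u, NN (f1 v) (f2 u) = NN v u
  hL : ∀ u w, LL (f2 u) (f2 w) = LL u w

/-- the automorphism given by a frame -/
def Frm.aut (f : Frm) : Aut where
  f1 :=
    { toFun := f.to1
      invFun := f.of1
      left_inv := by
        intro w
        refine V1.ext ?_ ?_ ?_
        · simp only [Frm.of1, Frm.to1, MM]
          linear_combination w.x * f.v.eq - 3 * w.a * f.h4 - 3 * w.b * f.h5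
        · simp only [Frm.of1, Frm.to1]
          linear_combination w.x * f.h4 + w.a * f.h1 + w.b * f.h3
        · simp only [Frm.of1, Frm.to1]
          linear_combination w.x * f.h5 + w.a * f.h3 + w.b * f.h2
      right_inv := by
        intro w
        obtain ⟨c00, c01, c02, c11, c12, c22⟩ := f.complete
        refine V1.ext ?_ ?_ ?_
        · simp only [Frm.of1, Frm.to1, MM]
          linear_combination w.x * c00 + 3 * w.a * c01 + 3 * w.b * c02
        · simp only [Frm.of1, Frm.to1, MM]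
          linear_combination -w.x * c01 + w.a * c11 + w.b * c12
        · simp only [Frm.of1, Frm.to1, MM]
          linear_combination -w.x * c02 + w.a * c12 + w.b * c22 }
  f2 :=
    { toFun := f.to2
      invFun := f.of2
      left_inv := by
        intro u
        refine V2.ext ?_ ?_ ?_
        · simp only [Frm.of2, Frm.to2, NN]
          linear_combination u.y * f.v.eq - u.c * f.h4 - u.d * f.h5
        · simp only [Frm.of2, Frm.to2]
          linear_combination 3 * u.y * f.h4 + u.c * f.h1 + u.d * f.h3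
        · simp only [Frm.of2, Frm.to2]
          linear_combination 3 * u.y * f.h5 + u.c * f.h3 + u.d * f.h2
      right_inv := by
        intro u
        obtain ⟨c00, c01, c02, c11, c12, c22⟩ := f.complete
        refine V2.ext ?_ ?_ ?_
        · simp only [Frm.of2, Frm.to2, NN]
          linear_combination u.y * c00 + u.c * c01 + u.d * c02
        · simp only [Frm.of2, Frm.to2, NN]
          linear_combination -3 * u.y * c01 + u.c * c11 + u.d * c12
        · simp only [Frm.of2, Frm.to2, NN]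
          linear_combination -3 * u.y * c02 + u.c * c12 + u.d * c22 }
  hM := by
    intro w w'
    show MM (f.to1 w) (f.to1 w') = MM w w'
    simp only [Frm.to1, MM]
    linear_combination w.x * w'.x * f.v.eq - 3 * w.a * w'.a * f.h1 - 3 * w.b * w'.b * f.h2
      - 3 * (w.x * w'.a + w'.x * w.a) * f.h4 - 3 * (w.x * w'.b + w'.x * w.b) * f.h5
      - 3 * (w.a * w'.b + w'.a * w.b) * f.h3
  hN := by
    intro w u
    show NN (f.to1 w) (f.to2 u) = NN w u
    simp only [Frm.to1, Frm.to2, NN]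
    linear_combination w.x * u.y * f.v.eq - w.x * u.c * f.h4 - w.x * u.d * f.h5
      - 3 * w.a * u.y * f.h4 - 3 * w.b * u.y * f.h5 - w.a * u.c * f.h1 - w.b * u.d * f.h2
      - (w.a * u.d + w.b * u.c) * f.h3
  hL := by
    intro u u'
    show LL (f.to2 u) (f.to2 u') = LL u u'
    simp only [Frm.to2, LL]
    linear_combination 3 * u.y * u'.y * f.v.eq - u.c * u'.c * f.h1 - u.d * u'.d * f.h2
      - 3 * (u.y * u'.c + u'.y * u.c) * f.h4 - 3 * (u.y * u'.d + u'.y * u.d) * f.h5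
      - (u.c * u'.d + u'.c * u.d) * f.h3

/-! ### existence of frames -/

/-- existence of a frame at `(x, a, b)` -/
def HasFrm (x a b : ℤ) : Prop := ∃ e0 e1 e2 g0 g1 g2 : ℤ, -3 * e0 ^ 2 + e1 ^ 2 + e2 ^ 2 = 1 ∧
    -3 * g0 ^ 2 + g1 ^ 2 + g2 ^ 2 = 1 ∧ -3 * e0 * g0 + e1 * g1 + e2 * g2 = 0 ∧
    -x * e0 + a * e1 + b * e2 = 0 ∧ -x * g0 + a * g1 + b * g2 = 0

lemma HasFrm.neg1 {x a b : ℤ} (h : HasFrm x (-a) b) : HasFrm x a b := by
  obtain ⟨e0, e1, e2, g0, g1, g2, h1, h2, h3, h4, h5⟩ := h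
  exact ⟨e0, -e1, e2, g0, -g1, g2, by linarith [neg_sq e1], by linarith [neg_sq g1], by linarith,
    by linarith, by linarith⟩

lemma HasFrm.neg2 {x a b : ℤ} (h : HasFrm x a (-b)) : HasFrm x a b := by
  obtain ⟨e0, e1, e2, g0, g1, g2, h1, h2, h3, h4, h5⟩ := h
  exact ⟨e0, e1, -e2, g0, g1, -g2, by linarith [neg_sq e2], by linarith [neg_sq g2], by linarith,
    by linarith, by linarith⟩

lemma HasFrm.swap {x a b : ℤ} (h : HasFrm x b a) : HasFrm x a b := by
  obtain ⟨e0, e1, e2, g0, g1, g2, h1, h2, h3, h4, h5⟩ := h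
  exact ⟨e0, e2, e1, g0, g2, g1, by linarith, by linarith, by linarith,
    by linarith, by linarith⟩

lemma hasFrm (n : ℕ) : ∀ x a b : ℤ, 0 < x → x ^ 2 = 1 + 3 * a ^ 2 + 3 * b ^ 2 → x ≤ n →
    HasFrm x a b := by
  induction n with
  | zero => intro x a b h1 _ h3; simp at h3; omega
  | succ n ih =>
    have key : ∀ x a b : ℤ, 0 < x → x ^ 2 = 1 + 3 * a ^ 2 + 3 * b ^ 2 → x ≤ n + 1 → 0 ≤ b →
        b ≤ a → HasFrm x a b := by
      intro x a b h1 h2 h3 h4 h5
      rcases eq_or_ne a 0 with ha | ha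
      · have hb : b = 0 := by omega
        subst ha hb
        exact ⟨0, 1, 0, 0, 0, 1, by norm_num, by norm_num, by norm_num, by norm_num, by norm_num⟩
      · have ha' : 1 ≤ a := by omega
        have hx : x < 3 * a := by nlinarith
        have hx2 : 0 < 2 * x - 3 * a := by nlinarith
        obtain ⟨e0, e1, e2, g0, g1, g2, k1, k2, k3, k4, k5⟩ :=
          ih (2 * x - 3 * a) (x - 2 * a) b hx2 (by nlinarith) (by omega)
        refine ⟨2 * e0 - e1, 3 * e0 - 2 * e1, e2, 2 * g0 - g1, 3 * g0 - 2 * g1, g2, ?_, ?_, ?_,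
          ?_, ?_⟩
        · linear_combination k1
        · linear_combination k2
        · linear_combination k3
        · linear_combination k4
        · linear_combination k5
    have key2 : ∀ x a b : ℤ, 0 < x → x ^ 2 = 1 + 3 * a ^ 2 + 3 * b ^ 2 → x ≤ n + 1 → 0 ≤ b →
        0 ≤ a → HasFrm x a b := by
      intro x a b h1 h2 h3 h4 h5
      rcases le_total b a with h | h
      · exact key x a b h1 h2 h3 h4 h
      · exact (key x b a h1 (by linarith) h3 h5 h).swap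
    have key3 : ∀ x a b : ℤ, 0 < x → x ^ 2 = 1 + 3 * a ^ 2 + 3 * b ^ 2 → x ≤ n + 1 → 0 ≤ b →
        HasFrm x a b := by
      intro x a b h1 h2 h3 h4
      rcases le_total 0 a with h | h
      · exact key2 x a b h1 h2 h3 h4 h
      · exact (key2 x (-a) b h1 (by rw [neg_sq]; exact h2) h3 h4 (by omega)).neg1
    intro x a b h1 h2 h3
    push_cast at h3
    rcases le_total 0 b with h | h
    · exact key3 x a b h1 h2 h3 h
    · exact (key3 x a (-b) h1 (by rw [neg_sq]; exact h2) h3 (by omega)).neg2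

/-- every vertex has an orthonormal frame of integer vectors (raw coordinates, form `-3,1,1`; the
vertex itself is the raw vector `(x, 3a, 3b)`) -/
theorem exists_frame (v : V1) : ∃ e0 e1 e2 g0 g1 g2 : ℤ, -3 * e0 ^ 2 + e1 ^ 2 + e2 ^ 2 = 1 ∧
    -3 * g0 ^ 2 + g1 ^ 2 + g2 ^ 2 = 1 ∧ -3 * e0 * g0 + e1 * g1 + e2 * g2 = 0 ∧
    -v.x * e0 + v.a * e1 + v.b * e2 = 0 ∧ -v.x * g0 + v.a * g1 + v.b * g2 = 0 :=
  hasFrm v.x.toNat v.x v.a v.b v.pos v.eq (Int.self_le_toNat _)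

lemma exists_Frm (v : V1) : ∃ f : Frm, f.v = v := by
  obtain ⟨e0, e1, e2, g0, g1, g2, h1, h2, h3, h4, h5⟩ := exists_frame v
  exact ⟨⟨v, e0, e1, e2, g0, g1, g2, h1, h2, h3, h4, h5⟩, rfl⟩

/-! ### neighbours in terms of frames -/

lemma sq_add_sq_eq_one {s t : ℤ} (h : s ^ 2 + t ^ 2 = 1) :
    (s = 1 ∧ t = 0) ∨ (s = -1 ∧ t = 0) ∨ (s = 0 ∧ t = 1) ∨ (s = 0 ∧ t = -1) := by
  have hs : -1 ≤ s ∧ s ≤ 1 := by constructor <;> nlinarith [sq_nonneg t]
  have ht : -1 ≤ t ∧ t ≤ 1 := by constructor <;> nlinarith [sq_nonneg s]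
  obtain ⟨h1, h2⟩ := hs
  obtain ⟨h3, h4⟩ := ht
  interval_cases s <;> interval_cases t <;> simp_all

lemma sq_add_sq_eq_two {s t : ℤ} (h : s ^ 2 + t ^ 2 = 2) : (s = 1 ∨ s = -1) ∧ (t = 1 ∨ t = -1) := by
  have hs : -1 ≤ s ∧ s ≤ 1 := by constructor <;> nlinarith [sq_nonneg t]
  have ht : -1 ≤ t ∧ t ≤ 1 := by constructor <;> nlinarith [sq_nonneg s]
  obtain ⟨h1, h2⟩ := hs
  obtain ⟨h3, h4⟩ := ht
  interval_cases s <;> interval_cases t <;> simp_all

/-- the four neighbours are `2 v ± 3 e`, `2 v ± 3 g` (raw) -/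
theorem adj_iff_frame {v : V1} {e0 e1 e2 g0 g1 g2 : ℤ} (h1 : -3 * e0 ^ 2 + e1 ^ 2 + e2 ^ 2 = 1)
    (h2 : -3 * g0 ^ 2 + g1 ^ 2 + g2 ^ 2 = 1) (h3 : -3 * e0 * g0 + e1 * g1 + e2 * g2 = 0)
    (h4 : -v.x * e0 + v.a * e1 + v.b * e2 = 0) (h5 : -v.x * g0 + v.a * g1 + v.b * g2 = 0) (w : V1) :
    MM v w = 2 ↔ ((w.x = 2 * v.x + 3 * e0 ∧ w.a = 2 * v.a + e1 ∧ w.b = 2 * v.b + e2) ∨
      (w.x = 2 * v.x - 3 * e0 ∧ w.a = 2 * v.a - e1 ∧ w.b = 2 * v.b - e2) ∨
      (w.x = 2 * v.x + 3 * g0 ∧ w.a = 2 * v.a + g1 ∧ w.b = 2 * v.b + g2) ∨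
      (w.x = 2 * v.x - 3 * g0 ∧ w.a = 2 * v.a - g1 ∧ w.b = 2 * v.b - g2)) := by
  have hv := v.eq
  constructor
  · intro h
    obtain ⟨c00, c01, c02, c11, c12, c22⟩ := frame_complete h1 h2 h3 h4 h5
    obtain ⟨s, hs⟩ : ∃ s, s = -w.x * e0 + w.a * e1 + w.b * e2 := ⟨_, rfl⟩
    obtain ⟨t, ht⟩ : ∃ t, t = -w.x * g0 + w.a * g1 + w.b * g2 := ⟨_, rfl⟩
    have hh : v.x * w.x - 3 * v.a * w.a - 3 * v.b * w.b = 2 := h
    have k1 : w.x = 2 * v.x + 3 * s * e0 + 3 * t * g0 := by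
      rw [hs, ht, ← hh]
      linear_combination (-w.x) * c00 - 3 * w.a * c01 - 3 * w.b * c02
    have k2 : w.a = 2 * v.a + s * e1 + t * g1 := by
      rw [hs, ht, ← hh]
      linear_combination w.x * c01 - w.a * c11 - w.b * c12
    have k3 : w.b = 2 * v.b + s * e2 + t * g2 := by
      rw [hs, ht, ← hh]
      linear_combination w.x * c02 - w.a * c12 - w.b * c22
    have hst : s ^ 2 + t ^ 2 = 1 := by
      have hw := w.eq
      rw [k1, k2, k3] at hw
      have : 3 * (s ^ 2 + t ^ 2) = 3 := by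
        linear_combination (-1) * hw + 4 * hv - 3 * s ^ 2 * h1 - 3 * t ^ 2 * h2 - 12 * s * h4
          - 12 * t * h5 - 6 * s * t * h3
      linarith
    rcases sq_add_sq_eq_one hst with ⟨rfl, rfl⟩ | ⟨rfl, rfl⟩ | ⟨rfl, rfl⟩ | ⟨rfl, rfl⟩
    · left; exact ⟨by linarith, by linarith, by linarith⟩
    · right; left; exact ⟨by linarith, by linarith, by linarith⟩
    · right; right; left; exact ⟨by linarith, by linarith, by linarith⟩
    · right; right; right; exact ⟨by linarith, by linarith, by linarith⟩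
  · unfold MM
    rintro (⟨k1, k2, k3⟩ | ⟨k1, k2, k3⟩ | ⟨k1, k2, k3⟩ | ⟨k1, k2, k3⟩) <;> rw [k1, k2, k3]
    · linear_combination 2 * hv - 3 * h4
    · linear_combination 2 * hv + 3 * h4
    · linear_combination 2 * hv - 3 * h5
    · linear_combination 2 * hv + 3 * h5

/-- the four neighbours of the second kind are `v ± e ± g` (raw) -/
theorem adj2_iff_frame {v : V1} {e0 e1 e2 g0 g1 g2 : ℤ} (h1 : -3 * e0 ^ 2 + e1 ^ 2 + e2 ^ 2 = 1)
    (h2 : -3 * g0 ^ 2 + g1 ^ 2 + g2 ^ 2 = 1) (h3 : -3 * e0 * g0 + e1 * g1 + e2 * g2 = 0)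
    (h4 : -v.x * e0 + v.a * e1 + v.b * e2 = 0) (h5 : -v.x * g0 + v.a * g1 + v.b * g2 = 0) (u : V2) :
    NN v u = 1 ↔ ∃ s t : ℤ, (s = 1 ∨ s = -1) ∧ (t = 1 ∨ t = -1) ∧ u.y = v.x + s * e0 + t * g0 ∧
      u.c = 3 * v.a + s * e1 + t * g1 ∧ u.d = 3 * v.b + s * e2 + t * g2 := by
  have hv := v.eq
  constructor
  · intro h
    obtain ⟨c00, c01, c02, c11, c12, c22⟩ := frame_complete h1 h2 h3 h4 h5
    obtain ⟨s, hs⟩ : ∃ s, s = -3 * u.y * e0 + u.c * e1 + u.d * e2 := ⟨_, rfl⟩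
    obtain ⟨t, ht⟩ : ∃ t, t = -3 * u.y * g0 + u.c * g1 + u.d * g2 := ⟨_, rfl⟩
    have hh : v.x * u.y - v.a * u.c - v.b * u.d = 1 := h
    have k1 : u.y = v.x + s * e0 + t * g0 := by
      have : u.y = (v.x * u.y - v.a * u.c - v.b * u.d) * v.x + s * e0 + t * g0 := by
        rw [hs, ht]
        linear_combination (-u.y) * c00 - u.c * c01 - u.d * c02
      rw [hh] at this
      linarith
    have k2 : u.c = 3 * v.a + s * e1 + t * g1 := by
      have : u.c = 3 * (v.x * u.y - v.a * u.c - v.b * u.d) * v.a + s * e1 + t * g1 := by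
        rw [hs, ht]
        linear_combination 3 * u.y * c01 - u.c * c11 - u.d * c12
      rw [hh] at this
      linarith
    have k3 : u.d = 3 * v.b + s * e2 + t * g2 := by
      have : u.d = 3 * (v.x * u.y - v.a * u.c - v.b * u.d) * v.b + s * e2 + t * g2 := by
        rw [hs, ht]
        linear_combination 3 * u.y * c02 - u.c * c12 - u.d * c22
      rw [hh] at this
      linarith
    have hst : s ^ 2 + t ^ 2 = 2 := by
      have hw := u.eq
      rw [k1, k2, k3] at hw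
      linear_combination (-1) * hw + 3 * hv - s ^ 2 * h1 - t ^ 2 * h2 - 6 * s * h4
          - 6 * t * h5 - 2 * s * t * h3
    obtain ⟨hs1, ht1⟩ := sq_add_sq_eq_two hst
    exact ⟨s, t, hs1, ht1, k1, k2, k3⟩
  · rintro ⟨s, t, -, -, k1, k2, k3⟩
    unfold NN
    rw [k1, k2, k3]
    linear_combination hv - s * h4 - t * h5

/-! ### estimates -/

theorem x_le_of_adj {v w : V1} (h : MM v w = 2) : w.x ≤ 4 * v.x := by
  have hcs := cs_MM v w
  have h3 : 3 * (v.a * w.a + v.b * w.b) = v.x * w.x - 2 := by unfold MM at h; linarith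
  rw [h3] at hcs
  have h4 : w.x * w.x ≤ 4 * v.x * w.x := by nlinarith [mul_pos v.pos v.pos]
  exact le_of_mul_le_mul_right h4 w.pos

lemma y_le_two {v : V1} {u : V2} (h : NN v u = 1) : u.y ≤ 2 * v.x := by
  have hcs := cs_NN v u
  have h3 : v.a * u.c + v.b * u.d = v.x * u.y - 1 := by unfold NN at h; linarith
  rw [h3] at hcs
  have h4 : u.y * u.y ≤ 2 * v.x * u.y := by nlinarith [mul_pos v.pos v.pos]
  exact le_of_mul_le_mul_right h4 u.pos

theorem y_le_of_adj {v : V1} {u : V2} (h : NN v u = 1) : u.y ≤ 4 * v.x := by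
  have := y_le_two h
  have := v.pos
  linarith

lemma x_le_six {v : V1} {u : V2} (h : NN v u = 1) : v.x ≤ 6 * u.y := by
  have hcs := cs_NN v u
  have h3 : v.a * u.c + v.b * u.d = v.x * u.y - 1 := by unfold NN at h; linarith
  rw [h3] at hcs
  have h4 : v.x * v.x ≤ 6 * u.y * v.x := by nlinarith [mul_pos u.pos u.pos]
  exact le_of_mul_le_mul_right h4 v.pos

theorem x_le_of_adj2 {v : V1} {u : V2} (h : NN v u = 1) : v.x ≤ 18 * u.y := by
  have := x_le_six h
  have := u.pos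
  linarith

lemma V1.one_lt {v : V1} (h : v ≠ o) : 2 ≤ v.x := by
  by_contra hc
  have hp := v.pos
  have hx : v.x = 1 := by omega
  apply h
  have he := v.eq
  rw [hx] at he
  refine V1.ext_of_dist (by rw [hx]; rfl) ?_
  show (v.a - 0) ^ 2 + (v.b - 0) ^ 2 ≤ 0
  nlinarith

/-- vertices given by a frame -/
lemma Frm.three_e0_lt (f : Frm) : |3 * f.e0| < 2 * f.v.x := by
  obtain ⟨c00, -⟩ := f.complete
  have hx := f.v.pos
  refine abs_lt_of_sq_lt_sq ?_ (by positivity)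
  nlinarith [sq_nonneg f.g0]

/-- the frame `(g, e)` -/
def Frm.swap (f : Frm) : Frm where
  v := f.v
  e0 := f.g0
  e1 := f.g1
  e2 := f.g2
  g0 := f.e0
  g1 := f.e1
  g2 := f.e2
  h1 := f.h2
  h2 := f.h1
  h3 := by linarith [f.h3]
  h4 := f.h5
  h5 := f.h4

/-- the frame `(-e, g)` -/
def Frm.neg (f : Frm) : Frm where
  v := f.v
  e0 := -f.e0
  e1 := -f.e1
  e2 := -f.e2
  g0 := f.g0
  g1 := f.g1
  g2 := f.g2
  h1 := by rw [neg_sq, neg_sq, neg_sq]; exact f.h1
  h2 := f.h2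
  h3 := by linarith [f.h3]
  h4 := by linarith [f.h4]
  h5 := f.h5

/-- the neighbour `2 v + 3 e` -/
def Frm.nb (f : Frm) : V1 := f.to1 w0

lemma Frm.nb_x (f : Frm) : f.nb.x = 2 * f.v.x + 3 * f.e0 := by
  simp only [Frm.nb, Frm.to1, w0]; ring
lemma Frm.nb_a (f : Frm) : f.nb.a = 2 * f.v.a + f.e1 := by
  simp only [Frm.nb, Frm.to1, w0]; ring
lemma Frm.nb_b (f : Frm) : f.nb.b = 2 * f.v.b + f.e2 := by
  simp only [Frm.nb, Frm.to1, w0]; ring

lemma Frm.MM_iff (f : Frm) (w : V1) : MM f.v w = 2 ↔ (w = f.nb ∨ w = f.neg.nb ∨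
    w = f.swap.nb ∨ w = f.swap.neg.nb) := by
  rw [adj_iff_frame f.h1 f.h2 f.h3 f.h4 f.h5]
  simp only [V1.ext_iff, Frm.nb_x, Frm.nb_a, Frm.nb_b]
  simp only [Frm.neg, Frm.swap, mul_neg, ← sub_eq_add_neg]

lemma Frm.MM_nb (f : Frm) : MM f.v f.nb = 2 := (f.MM_iff _).mpr (Or.inl rfl)

lemma descent_aux (f : Frm) (h : 2 ≤ f.v.x) (h1 : f.g0 ^ 2 ≤ f.e0 ^ 2) (h2 : f.e0 ≤ 0) :
    20 * f.nb.x ≤ 19 * f.v.x := by
  obtain ⟨c00, -⟩ := f.complete
  rw [f.nb_x]
  by_contra hc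
  push Not at hc
  have h3 : 60 * (-f.e0) < 21 * f.v.x := by linarith
  have h4 : (60 * (-f.e0)) ^ 2 < (21 * f.v.x) ^ 2 := by
    apply pow_lt_pow_left₀ h3 (by linarith) (by norm_num)
  nlinarith

theorem descent {v : V1} (h : v ≠ o) : ∃ w, MM v w = 2 ∧ 20 * w.x ≤ 19 * v.x := by
  have hx := V1.one_lt h
  obtain ⟨f, rfl⟩ := exists_Frm v
  rcases le_total (f.g0 ^ 2) (f.e0 ^ 2) with h1 | h1
  · rcases le_total f.e0 0 with h2 | h2
    · exact ⟨f.nb, f.MM_nb, descent_aux f hx h1 h2⟩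
    · refine ⟨f.neg.nb, f.neg.MM_nb, descent_aux f.neg hx ?_ ?_⟩
      · show f.g0 ^ 2 ≤ (-f.e0) ^ 2
        rw [neg_sq]; exact h1
      · show -f.e0 ≤ 0
        linarith
  · rcases le_total f.g0 0 with h2 | h2
    · exact ⟨f.swap.nb, f.swap.MM_nb, descent_aux f.swap hx h1 h2⟩
    · refine ⟨f.swap.neg.nb, f.swap.neg.MM_nb, descent_aux f.swap.neg hx ?_ ?_⟩
      · show f.e0 ^ 2 ≤ (-f.g0) ^ 2
        rw [neg_sq]; exact h1
      · show -f.g0 ≤ 0
        linarith

lemma reachable_o (n : ℕ) : ∀ v : V1, v.x ≤ n → HG.Reachable o v := by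
  induction n with
  | zero => intro v h; have := v.pos; simp at h; omega
  | succ n ih =>
    intro v h
    rcases eq_or_ne v o with rfl | hv
    · exact SimpleGraph.Reachable.refl _
    · obtain ⟨w, hw1, hw2⟩ := descent hv
      have hp := v.pos
      have : HG.Adj v w := hw1
      refine (ih w ?_).trans this.symm.reachable
      push_cast at h
      omega

theorem HG_connected : HG.Connected := by
  have : Nonempty V1 := ⟨o⟩
  refine SimpleGraph.Connected.mk fun v w => ?_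
  have h1 := reachable_o v.x.toNat v (Int.self_le_toNat _)
  have h2 := reachable_o w.x.toNat w (Int.self_le_toNat _)
  exact h1.symm.trans h2

lemma x_le_walk {v w : V1} (p : HG.Walk v w) : w.x ≤ 4 ^ p.length * v.x := by
  induction p with
  | nil => simp
  | cons h p ih =>
    rename_i a b c
    have h1 : b.x ≤ 4 * a.x := x_le_of_adj h
    rw [SimpleGraph.Walk.length_cons, pow_succ]
    have h2 : (0 : ℤ) < 4 ^ p.length := by positivity
    nlinarith

theorem x_le_pow (v : V1) : v.x ≤ 4 ^ HG.dist o v := by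
  obtain ⟨p, hp⟩ := HG_connected.exists_walk_length_eq_dist o v
  have := x_le_walk p
  rw [hp] at this
  simpa [o] using this

/-! ### straight lines -/

/-- the reversed edge -/
def DE.rev (e : DE) : DE := ⟨e.w, e.v, by rw [MM_comm]; exact e.h⟩

lemma DE.rev_rev (e : DE) : e.rev.rev = e := rfl

lemma DE.rev_next_rev_next (e : DE) : e.next.rev.next.rev = e := by
  refine DE.ext ?_ ?_
  · refine V1.ext ?_ ?_ ?_ <;> simp [DE.next, DE.rev]
  · rfl

lemma DE.next_rev_next_rev (e : DE) : e.rev.next.rev.next = e := by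
  have := DE.rev_next_rev_next e.rev
  have h2 := congrArg DE.rev this
  rw [DE.rev_rev, DE.rev_rev] at h2
  exact h2

theorem next_bijective : Function.Bijective DE.next := by
  constructor
  · intro e f h
    rw [← DE.rev_next_rev_next e, ← DE.rev_next_rev_next f, h]
  · intro e
    exact ⟨e.rev.next.rev, DE.next_rev_next_rev e⟩

lemma pth_zero (e : DE) : pth e 0 = e.v := rfl

lemma pth_succ (e : DE) (i : ℕ) : pth e (i + 1) = (DE.next^[i] e).w := by
  unfold pth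
  rw [Function.iterate_succ_apply']
  rfl

lemma pth_one (e : DE) : pth e 1 = e.w := rfl

theorem pth_adj (e : DE) (i : ℕ) : MM (pth e i) (pth e (i + 1)) = 2 := by
  rw [pth_succ]
  exact (DE.next^[i] e).h

lemma pth_rec (e : DE) (i : ℕ) : (pth e (i + 2)).x = 4 * (pth e (i + 1)).x - (pth e i).x ∧
    (pth e (i + 2)).a = 4 * (pth e (i + 1)).a - (pth e i).a ∧
    (pth e (i + 2)).b = 4 * (pth e (i + 1)).b - (pth e i).b := by
  have h2 : pth e (i + 2) = (DE.next^[i] e).next.w := by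
    rw [show i + 2 = (i + 1) + 1 from rfl, pth_succ, Function.iterate_succ_apply']
  have h1 : pth e (i + 1) = (DE.next^[i] e).w := pth_succ e i
  rw [h2, h1]
  exact ⟨rfl, rfl, rfl⟩

lemma MM_pth_rec (e : DE) (v : V1) (i : ℕ) :
    MM v (pth e (i + 2)) = 4 * MM v (pth e (i + 1)) - MM v (pth e i) := by
  obtain ⟨h1, h2, h3⟩ := pth_rec e i
  unfold MM
  rw [h1, h2, h3]
  ring

lemma two_mul_MM_pth_le (e : DE) (i : ℕ) : 2 * MM e.v (pth e i) ≤ MM e.v (pth e (i + 1)) := by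
  induction i with
  | zero => rw [pth_zero, pth_succ, MM_self]; exact le_of_eq e.h.symm
  | succ i ih =>
    have h1 := MM_pth_rec e e.v i
    have h2 := one_le_MM e.v (pth e (i + 1))
    rw [show i + 1 + 1 = i + 2 from rfl]
    linarith

theorem two_pow_le_MM_pth (e : DE) (i : ℕ) : 2 ^ i ≤ MM e.v (pth e i) := by
  induction i with
  | zero => rw [pth_zero, MM_self]; norm_num
  | succ i ih =>
    have := two_mul_MM_pth_le e i
    rw [pow_succ]
    linarith

/-! ### transitivity -/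

lemma Frm.to1_o (f : Frm) : f.to1 o = f.v := by
  refine V1.ext ?_ ?_ ?_ <;> simp [Frm.to1, o]

lemma Frm.aut_o (f : Frm) : f.aut.f1 o = f.v := f.to1_o

lemma Frm.aut_w0 (f : Frm) : f.aut.f1 w0 = f.nb := rfl

lemma Frm.aut_f2 (f : Frm) (u : V2) : f.aut.f2 u = f.to2 u := rfl

/-- the frame `(e, -g)` -/
def Frm.neg2 (f : Frm) : Frm := f.swap.neg.swap

lemma exists_Frm_edge {v w : V1} (h : MM v w = 2) : ∃ f : Frm, f.v = v ∧ f.nb = w := by
  obtain ⟨f, rfl⟩ := exists_Frm v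
  rcases (f.MM_iff w).mp h with h1 | h1 | h1 | h1
  · exact ⟨f, rfl, h1.symm⟩
  · exact ⟨f.neg, rfl, h1.symm⟩
  · exact ⟨f.swap, rfl, h1.symm⟩
  · exact ⟨f.swap.neg, rfl, h1.symm⟩

lemma Frm.NN_nb (f : Frm) (u : V2) : NN f.nb u = 2 * NN f.v u - (f.of2 u).c := by
  simp only [NN, f.nb_x, f.nb_a, f.nb_b, Frm.of2]
  ring

lemma Frm.NN_iff (f : Frm) (u : V2) : NN f.v u = 1 ↔ ((f.of2 u).c = 1 ∨ (f.of2 u).c = -1) ∧
    ((f.of2 u).d = 1 ∨ (f.of2 u).d = -1) := by
  have h := (f.of2 u).eq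
  have hy : (f.of2 u).y = NN f.v u := rfl
  constructor
  · intro h1
    rw [hy, h1] at h
    exact sq_add_sq_eq_two (by linarith)
  · rintro ⟨h1, h2⟩
    have h3 : (f.of2 u).c ^ 2 = 1 := by rcases h1 with h1 | h1 <;> rw [h1] <;> norm_num
    have h4 : (f.of2 u).d ^ 2 = 1 := by rcases h2 with h1 | h1 <;> rw [h1] <;> norm_num
    rw [h3, h4, hy] at h
    have h5 := one_le_NN f.v u
    nlinarith

lemma Frm.eq_of_of2 (f : Frm) {u : V2} (h1 : NN f.v u = 1) (h2 : (f.of2 u).c = 1)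
    (h3 : (f.of2 u).d = 1) : f.to2 u0 = u := by
  have h : f.of2 u = u0 := V2.ext h1 h2 h3
  rw [← h]
  exact f.aut.f2.apply_symm_apply u

/-- the automorphism group is transitive on flags -/
theorem exists_Frm_flag {v w : V1} {u : V2} (h1 : MM v w = 2) (h2 : NN v u = 1)
    (h3 : NN w u = 1) : ∃ f : Frm, f.v = v ∧ f.nb = w ∧ f.to2 u0 = u := by
  obtain ⟨f, rfl, rfl⟩ := exists_Frm_edge h1
  have hc : (f.of2 u).c = 1 := by
    have := f.NN_nb u
    linarith
  rcases ((f.NN_iff u).mp h2).2 with hd | hd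
  · exact ⟨f, rfl, rfl, f.eq_of_of2 h2 hc hd⟩
  · refine ⟨f.neg2, rfl, ?_, f.neg2.eq_of_of2 h2 hc ?_⟩
    · refine V1.ext ?_ ?_ ?_
      · rw [f.neg2.nb_x, f.nb_x]; rfl
      · rw [f.neg2.nb_a, f.nb_a]; rfl
      · rw [f.neg2.nb_b, f.nb_b]; rfl
    simp only [Frm.of2, Frm.neg2, Frm.neg, Frm.swap] at hd ⊢
    linarith

/-- the automorphism group is transitive on pairs of adjacent vertices of different kinds -/
theorem exists_Frm_NN {v : V1} {u : V2} (h2 : NN v u = 1) :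
    ∃ f : Frm, f.v = v ∧ f.to2 u0 = u := by
  obtain ⟨f, rfl⟩ := exists_Frm v
  rcases ((f.NN_iff u).mp h2).1 with hc | hc
  · obtain ⟨f', k1, -, k3⟩ := exists_Frm_flag f.MM_nb h2 (by rw [f.NN_nb, h2, hc]; norm_num)
    exact ⟨f', k1, k3⟩
  · have hc' : (f.neg.of2 u).c = 1 := by
      simp only [Frm.of2, Frm.neg] at hc ⊢
      linarith
    have h2' : NN f.neg.v u = 1 := h2
    obtain ⟨f', k1, -, k3⟩ := exists_Frm_flag f.neg.MM_nb h2
      (by rw [f.neg.NN_nb, h2', hc']; norm_num)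
    exact ⟨f', k1, k3⟩

lemma exists_NN_aux (u : V2) (n : ℕ) : ∀ v : V1, NN v u ≤ n → ∃ v, NN v u = 1 := by
  induction n with
  | zero => intro v h; have := one_le_NN v u; simp at h; omega
  | succ n ih =>
    intro v h
    push_cast at h
    by_cases h1 : NN v u = 1
    · exact ⟨v, h1⟩
    have h2 := one_le_NN v u
    obtain ⟨f, rfl⟩ := exists_Frm v
    have he := (f.of2 u).eq
    have hy : (f.of2 u).y = NN f.v u := rfl
    rw [hy] at he
    have key : ∀ g : Frm, g.v = f.v → NN f.v u < (g.of2 u).c → ∃ v, NN v u = 1 := by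
      intro g hg hlt
      refine ih g.nb ?_
      rw [g.NN_nb, hg]
      omega
    by_contra hcon
    have k1 : (f.of2 u).c ≤ NN f.v u := by
      by_contra hc; exact hcon (key f rfl (not_le.mp hc))
    have k2 : -(f.of2 u).c ≤ NN f.v u := by
      by_contra hc
      refine hcon (key f.neg rfl ?_)
      simp only [Frm.of2, Frm.neg] at hc ⊢
      linarith
    have k3 : (f.of2 u).d ≤ NN f.v u := by
      by_contra hc
      refine hcon (key f.swap rfl ?_)
      exact not_le.mp hc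
    have k4 : -(f.of2 u).d ≤ NN f.v u := by
      by_contra hc
      refine hcon (key f.swap.neg rfl ?_)
      simp only [Frm.of2, Frm.neg, Frm.swap] at hc ⊢
      linarith
    have k5 : 2 ≤ NN f.v u := by omega
    have k6 : (f.of2 u).c ^ 2 ≤ NN f.v u ^ 2 := by
      apply sq_le_sq'
      · linarith
      · exact k1
    have k7 : (f.of2 u).d ^ 2 ≤ NN f.v u ^ 2 := by
      apply sq_le_sq'
      · linarith
      · exact k3
    nlinarith

theorem exists_NN (u : V2) : ∃ v : V1, NN v u = 1 :=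
  exists_NN_aux u (NN o u).toNat o (Int.self_le_toNat _)

/-! ### counting -/

lemma nbr_o : {w : V1 | MM o w = 2} = ((({w0, ⟨2, -1, 0, by norm_num, by norm_num⟩,
    ⟨2, 0, 1, by norm_num, by norm_num⟩, ⟨2, 0, -1, by norm_num, by norm_num⟩} : Finset V1)) :
    Set V1) := by
  ext w
  simp only [Set.mem_ofPred_eq, Finset.coe_insert, Finset.coe_singleton, Set.mem_insert_iff,
    Set.mem_singleton_iff, V1.ext_iff, w0]
  have h0 : MM o w = w.x := by simp [MM, o]
  rw [h0]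
  constructor
  · intro h
    have he := w.eq
    rw [h] at he
    rcases sq_add_sq_eq_one (s := w.a) (t := w.b) (by linarith) with ⟨h1, h2⟩ | ⟨h1, h2⟩ |
      ⟨h1, h2⟩ | ⟨h1, h2⟩ <;> simp [h, h1, h2]
  · rintro (h | h | h | h) <;> exact h.1

lemma nbr2_o : {u : V2 | NN o u = 1} = ((({u0, ⟨1, -1, 1, by norm_num, by norm_num⟩,
    ⟨1, 1, -1, by norm_num, by norm_num⟩, ⟨1, -1, -1, by norm_num, by norm_num⟩} : Finset V2)) :
    Set V2) := by
  ext w
  simp only [Set.mem_ofPred_eq, Finset.coe_insert, Finset.coe_singleton, Set.mem_insert_iff,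
    Set.mem_singleton_iff, V2.ext_iff, u0]
  have h0 : NN o w = w.y := by simp [NN, o]
  rw [h0]
  constructor
  · intro h
    have he := w.eq
    rw [h] at he
    rcases sq_add_sq_eq_two (s := w.c) (t := w.d) (by linarith) with ⟨h1 | h1, h2 | h2⟩ <;>
      simp [h, h1, h2]
  · rintro (h | h | h | h) <;> exact h.1

lemma nbr21_u0 : {v : V1 | NN v u0 = 1} = ((({o, w0, ⟨2, 0, 1, by norm_num, by norm_num⟩,
    ⟨4, 1, 2, by norm_num, by norm_num⟩, ⟨4, 2, 1, by norm_num, by norm_num⟩,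
    ⟨5, 2, 2, by norm_num, by norm_num⟩} : Finset V1)) : Set V1) := by
  ext w
  simp only [Set.mem_ofPred_eq, Finset.coe_insert, Finset.coe_singleton, Set.mem_insert_iff,
    Set.mem_singleton_iff, V1.ext_iff, w0, o]
  have h0 : NN w u0 = w.x - w.a - w.b := by simp [NN, u0]
  rw [h0]
  constructor
  · intro h
    have he := w.eq
    have hx : w.x = 1 + w.a + w.b := by linarith
    rw [hx] at he
    have hq : (w.a - w.b) ^ 2 + (w.a - 1) ^ 2 + (w.b - 1) ^ 2 = 2 := by nlinarith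
    have ha : 0 ≤ w.a ∧ w.a ≤ 2 := by
      constructor <;> nlinarith [sq_nonneg (w.a - w.b), sq_nonneg (w.b - 1)]
    have hb : 0 ≤ w.b ∧ w.b ≤ 2 := by
      constructor <;> nlinarith [sq_nonneg (w.a - w.b), sq_nonneg (w.a - 1)]
    obtain ⟨a1, a2⟩ := ha
    obtain ⟨b1, b2⟩ := hb
    rw [hx]
    generalize w.a = a at *
    generalize w.b = b at *
    interval_cases a <;> interval_cases b <;> simp_all
  · rintro (h | h | h | h | h | h) <;> rw [h.1, h.2.1, h.2.2] <;> norm_num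

lemma Aut.image_nbr (A : Aut) (v : V1) : {w | MM (A.f1 v) w = 2} = A.f1 '' {w | MM v w = 2} := by
  ext w
  constructor
  · intro h
    refine ⟨A.f1.symm w, ?_, A.f1.apply_symm_apply w⟩
    show MM v (A.f1.symm w) = 2
    rw [← A.hM, A.f1.apply_symm_apply]
    exact h
  · rintro ⟨w', h, rfl⟩
    show MM (A.f1 v) (A.f1 w') = 2
    rw [A.hM]
    exact h

theorem ncard_nbr (v : V1) : (HG.neighborSet v).ncard = 4 := by
  obtain ⟨f, rfl⟩ := exists_Frm v
  show {w | MM f.v w = 2}.ncard = 4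
  rw [← f.aut_o, f.aut.image_nbr, Set.ncard_image_of_injective _ f.aut.f1.injective, nbr_o,
    Set.ncard_coe_finset]
  decide

theorem ncard_nbr2 (v : V1) : {u : V2 | NN v u = 1}.ncard = 4 := by
  obtain ⟨f, rfl⟩ := exists_Frm v
  have h : {u : V2 | NN f.v u = 1} = f.aut.f2 '' {u | NN o u = 1} := by
    ext u
    constructor
    · intro h
      refine ⟨f.aut.f2.symm u, ?_, f.aut.f2.apply_symm_apply u⟩
      show NN o (f.aut.f2.symm u) = 1
      rw [← f.aut.hN, f.aut.f2.apply_symm_apply, f.aut_o]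
      exact h
    · rintro ⟨w', h, rfl⟩
      show NN f.v (f.aut.f2 w') = 1
      rw [← f.aut_o, f.aut.hN]
      exact h
  rw [h, Set.ncard_image_of_injective _ f.aut.f2.injective, nbr2_o, Set.ncard_coe_finset]
  decide

theorem ncard_nbr21 (u : V2) : {v : V1 | NN v u = 1}.ncard = 6 := by
  obtain ⟨v, hv⟩ := exists_NN u
  obtain ⟨f, rfl, rfl⟩ := exists_Frm_NN hv
  have h : {v : V1 | NN v (f.to2 u0) = 1} = f.aut.f1 '' {v | NN v u0 = 1} := by
    ext w
    constructor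
    · intro h
      refine ⟨f.aut.f1.symm w, ?_, f.aut.f1.apply_symm_apply w⟩
      show NN (f.aut.f1.symm w) u0 = 1
      rw [← f.aut.hN, f.aut.f1.apply_symm_apply]
      exact h
    · rintro ⟨w', h, rfl⟩
      show NN (f.aut.f1 w') (f.aut.f2 u0) = 1
      rw [f.aut.hN]
      exact h
  rw [h, Set.ncard_image_of_injective _ f.aut.f1.injective, nbr21_u0, Set.ncard_coe_finset]
  decide

/-- two vertices of the second kind at an edge -/
lemma ncard_edge_V2 {v w : V1} (h : MM v w = 2) : {u : V2 | NN v u = 1 ∧ NN w u = 1}.ncard = 2 := by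
  obtain ⟨f, rfl, rfl⟩ := exists_Frm_edge h
  have h : {u : V2 | NN f.v u = 1 ∧ NN f.nb u = 1} =
      f.aut.f2 '' {u | NN o u = 1 ∧ NN w0 u = 1} := by
    ext u
    constructor
    · rintro ⟨h, h'⟩
      refine ⟨f.aut.f2.symm u, ⟨?_, ?_⟩, f.aut.f2.apply_symm_apply u⟩
      · show NN o (f.aut.f2.symm u) = 1
        rw [← f.aut.hN, f.aut.f2.apply_symm_apply, f.aut_o]
        exact h
      · show NN w0 (f.aut.f2.symm u) = 1
        rw [← f.aut.hN, f.aut.f2.apply_symm_apply, f.aut_w0]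
        exact h'
    · rintro ⟨w', ⟨h, h'⟩, rfl⟩
      refine ⟨?_, ?_⟩
      · show NN f.v (f.aut.f2 w') = 1
        rw [← f.aut_o, f.aut.hN]
        exact h
      · show NN f.nb (f.aut.f2 w') = 1
        rw [← f.aut_w0, f.aut.hN]
        exact h'
  rw [h, Set.ncard_image_of_injective _ f.aut.f2.injective]
  have h2 : {u | NN o u = 1 ∧ NN w0 u = 1} = ((({u0, ⟨1, 1, -1, by norm_num, by norm_num⟩} :
      Finset V2)) : Set V2) := by
    ext u
    simp only [Set.mem_ofPred_eq, Finset.coe_insert, Finset.coe_singleton, Set.mem_insert_iff,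
      Set.mem_singleton_iff, V2.ext_iff, u0]
    have h0 : NN o u = u.y := by simp [NN, o]
    have h1 : NN w0 u = 2 * u.y - u.c := by simp [NN, w0]
    rw [h0, h1]
    constructor
    · rintro ⟨k1, k2⟩
      have k3 : u.c = 1 := by linarith
      have he := u.eq
      rw [k1, k3] at he
      have k4 : (u.d - 1) * (u.d + 1) = 0 := by linarith
      rcases mul_eq_zero.mp k4 with k5 | k5
      · left; exact ⟨k1, k3, by linarith⟩
      · right; exact ⟨k1, k3, by linarith⟩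
    · rintro (⟨k1, k2, k3⟩ | ⟨k1, k2, k3⟩) <;> rw [k1, k2] <;> norm_num
  rw [h2, Set.ncard_coe_finset]
  decide

/-- two neighbours of `v` around a vertex of the second kind -/
lemma ncard_nbr_V2 {v : V1} {u : V2} (h : NN v u = 1) :
    {w : V1 | MM v w = 2 ∧ NN w u = 1}.ncard = 2 := by
  obtain ⟨f, rfl, rfl⟩ := exists_Frm_NN h
  have h : {w : V1 | MM f.v w = 2 ∧ NN w (f.to2 u0) = 1} =
      f.aut.f1 '' {w | MM o w = 2 ∧ NN w u0 = 1} := by
    ext w
    constructor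
    · rintro ⟨h, h'⟩
      refine ⟨f.aut.f1.symm w, ⟨?_, ?_⟩, f.aut.f1.apply_symm_apply w⟩
      · show MM o (f.aut.f1.symm w) = 2
        rw [← f.aut.hM, f.aut.f1.apply_symm_apply, f.aut_o]
        exact h
      · show NN (f.aut.f1.symm w) u0 = 1
        rw [← f.aut.hN, f.aut.f1.apply_symm_apply]
        exact h'
    · rintro ⟨w', ⟨h, h'⟩, rfl⟩
      refine ⟨?_, ?_⟩
      · show MM f.v (f.aut.f1 w') = 2
        rw [← f.aut_o, f.aut.hM]
        exact h
      · show NN (f.aut.f1 w') (f.aut.f2 u0) = 1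
        rw [f.aut.hN]
        exact h'
  rw [h, Set.ncard_image_of_injective _ f.aut.f1.injective]
  have h2 : {w | MM o w = 2 ∧ NN w u0 = 1} = ((({w0, ⟨2, 0, 1, by norm_num, by norm_num⟩} :
      Finset V1)) : Set V1) := by
    ext w
    simp only [Set.mem_ofPred_eq, Finset.coe_insert, Finset.coe_singleton, Set.mem_insert_iff,
      Set.mem_singleton_iff, V1.ext_iff, w0]
    have h0 : MM o w = w.x := by simp [MM, o]
    have h1 : NN w u0 = w.x - w.a - w.b := by simp [NN, u0]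
    rw [h0, h1]
    constructor
    · rintro ⟨k1, k2⟩
      have he := w.eq
      rw [k1] at he
      rcases sq_add_sq_eq_one (s := w.a) (t := w.b) (by linarith) with ⟨h1, h2⟩ | ⟨h1, h2⟩ |
        ⟨h1, h2⟩ | ⟨h1, h2⟩ <;> simp_all
    · rintro (⟨k1, k2, k3⟩ | ⟨k1, k2, k3⟩) <;> rw [k1, k2, k3] <;> norm_num
  rw [h2, Set.ncard_coe_finset]
  decide

/-- the face with vertices `v, w, u` -/
def mkFace {v w : V1} {u : V2} (h1 : MM v w = 2) (h2 : NN v u = 1) (h3 : NN w u = 1) : Face where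
  e := s(v, w)
  u := u
  he := h1
  hu := by
    intro y hy
    rcases Sym2.mem_iff.mp hy with rfl | rfl
    · exact h2
    · exact h3

theorem ncard_face_edge {s : Sym2 V1} (hs : s ∈ HG.edgeSet) : {F : Face | F.e = s}.ncard = 2 := by
  induction s with
  | _ v w =>
    have h : MM v w = 2 := hs
    rw [← ncard_edge_V2 h]
    refine Set.ncard_congr (fun F _ => F.u) ?_ ?_ ?_
    · intro F hF
      have hF' : F.e = s(v, w) := hF
      exact ⟨F.hu v (by rw [hF']; simp), F.hu w (by rw [hF']; simp)⟩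
    · intro F F' hF hF' hu
      exact Face.ext (by rw [show F.e = s(v, w) from hF, show F'.e = s(v, w) from hF']) hu
    · rintro u ⟨h1, h2⟩
      exact ⟨mkFace h h1 h2, rfl, rfl⟩

theorem ncard_face_vu {v : V1} {u : V2} (h : NN v u = 1) :
    {F : Face | F.u = u ∧ v ∈ F.e}.ncard = 2 := by
  rw [← ncard_nbr_V2 h]
  symm
  refine Set.ncard_congr (fun w hw => mkFace hw.1 h hw.2) ?_ ?_ ?_
  · intro w hw
    exact ⟨rfl, by show v ∈ s(v, w); simp⟩
  · intro w w' hw hw' he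
    have he2 := congrArg Face.e he
    have he3 : s(v, w) = s(v, w') := he2
    exact Sym2.congr_right.mp he3
  · rintro F ⟨h1, h2⟩
    obtain ⟨w, hw⟩ := Sym2.mem_iff_exists.mp h2
    have hMM : MM v w = 2 := by
      have := F.he
      rw [hw] at this
      exact this
    have hNN : NN w u = 1 := by
      rw [← h1]
      exact F.hu w (by rw [hw]; simp)
    exact ⟨w, ⟨hMM, hNN⟩, Face.ext hw.symm h1.symm⟩

theorem ncard_DE (v : V1) : {e : DE | e.v = v}.ncard = 4 := by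
  rw [← ncard_nbr v]
  refine Set.ncard_congr (fun e _ => e.w) ?_ ?_ ?_
  · rintro e rfl
    exact e.h
  · rintro e e' rfl he h
    exact DE.ext he.symm h
  · intro w hw
    exact ⟨⟨v, w, hw⟩, rfl, rfl⟩

/-! ### finiteness -/

/-- bounded sets of vertices are finite -/
theorem finite_x_le (R : ℤ) : {v : V1 | v.x ≤ R}.Finite := by
  have hinj : Function.Injective (fun v : V1 => (v.x, v.a, v.b)) := by
    intro v w h
    simp only [Prod.mk.injEq] at h
    exact V1.ext h.1 h.2.1 h.2.2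
  refine Set.Finite.of_finite_image (f := fun v : V1 => (v.x, v.a, v.b)) ?_ hinj.injOn
  refine ((Set.finite_Icc 0 R).prod ((Set.finite_Icc (-R) R).prod (Set.finite_Icc (-R) R))).subset
    ?_
  rintro _ ⟨v, hv, rfl⟩
  have hv' : v.x ≤ R := hv
  have hp := v.pos
  have he := v.eq
  have ha : |v.a| ≤ v.x := abs_le_of_sq_le_sq (by nlinarith [sq_nonneg v.b]) hp.le
  have hb : |v.b| ≤ v.x := abs_le_of_sq_le_sq (by nlinarith [sq_nonneg v.a]) hp.le
  rw [abs_le] at ha hb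
  simp only [Set.mem_prod, Set.mem_Icc]
  refine ⟨⟨hp.le, hv'⟩, ⟨by linarith [ha.1], by linarith [ha.2]⟩, ⟨by linarith [hb.1],
    by linarith [hb.2]⟩⟩

theorem finite_y_le (R : ℤ) : {u : V2 | u.y ≤ R}.Finite := by
  have hinj : Function.Injective (fun v : V2 => (v.y, v.c, v.d)) := by
    intro v w h
    simp only [Prod.mk.injEq] at h
    exact V2.ext h.1 h.2.1 h.2.2
  refine Set.Finite.of_finite_image (f := fun v : V2 => (v.y, v.c, v.d)) ?_ hinj.injOn
  refine ((Set.finite_Icc 0 R).prod ((Set.finite_Icc (-(2 * R)) (2 * R)).prod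
    (Set.finite_Icc (-(2 * R)) (2 * R)))).subset ?_
  rintro _ ⟨v, hv, rfl⟩
  have hv' : v.y ≤ R := hv
  have hp := v.pos
  have he := v.eq
  have ha : |v.c| ≤ 2 * v.y := abs_le_of_sq_le_sq (by nlinarith [sq_nonneg v.d]) (by linarith)
  have hb : |v.d| ≤ 2 * v.y := abs_le_of_sq_le_sq (by nlinarith [sq_nonneg v.c]) (by linarith)
  rw [abs_le] at ha hb
  simp only [Set.mem_prod, Set.mem_Icc]
  refine ⟨⟨hp.le, hv'⟩, ⟨by linarith [ha.1], by linarith [ha.2]⟩, ⟨by linarith [hb.1],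
    by linarith [hb.2]⟩⟩

theorem countable_V1 : Countable V1 := by
  refine Function.Injective.countable (f := fun v : V1 => (v.x, v.a, v.b)) ?_
  intro v w h
  simp only [Prod.mk.injEq] at h
  exact V1.ext h.1 h.2.1 h.2.2

theorem countable_V2 : Countable V2 := by
  refine Function.Injective.countable (f := fun v : V2 => (v.y, v.c, v.d)) ?_
  intro v w h
  simp only [Prod.mk.injEq] at h
  exact V2.ext h.1 h.2.1 h.2.2

theorem countable_Face : Countable Face := by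
  have := countable_V1
  have := countable_V2
  have : Countable (Sym2 V1) := by
    unfold Sym2
    infer_instance
  refine Function.Injective.countable (f := fun F : Face => (F.e, F.u)) ?_
  intro v w h
  simp only [Prod.mk.injEq] at h
  exact Face.ext h.1 h.2

theorem countable_VX : Countable VX := by
  have := countable_V1
  have := countable_V2
  have := countable_Face
  refine Function.Injective.countable (f := fun x : VX => match x with
    | VX.p v => (Sum.inl v : V1 ⊕ V2 ⊕ (Face × ℕ))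
    | VX.q u => Sum.inr (Sum.inl u)
    | VX.t F j => Sum.inr (Sum.inr (F, j))) ?_
  intro x y h
  cases x <;> cases y <;> simp at h
  · rw [h]
  · rw [h]
  · rw [h.1, h.2]

end HExit
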