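import Pool.Agent.HExit.Defs

/-!
# HExit: the arithmetic triangulation and its stacked refinements

`V1` : integer vectors `(x, 3a, 3b)` with `-3x^2+9a^2+9b^2 = -3`;
`V2` : integer vectors `(y, c, d)` with `-3y^2+c^2+d^2 = -1`.
-/

open MeasureTheory ProbabilityTheory Filter Topology
open scoped ENNReal

namespace HExit

/-- vertices of the first kind -/
@[ext] structure V1 where
  x : ℤ
  a : ℤ
  b : ℤ
  eq : x ^ 2 = 1 + 3 * a ^ 2 + 3 * b ^ 2
  pos : 0 < x
deriving DecidableEq

/-- vertices of the second kind -/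
@[ext] structure V2 where
  y : ℤ
  c : ℤ
  d : ℤ
  eq : 3 * y ^ 2 = 1 + c ^ 2 + d ^ 2
  pos : 0 < y
deriving DecidableEq

/-- the base point -/
def o : V1 := ⟨1, 0, 0, by norm_num, by norm_num⟩

/-- cosh of the distance of two vertices of the first kind -/
def MM (v w : V1) : ℤ := v.x * w.x - 3 * v.a * w.a - 3 * v.b * w.b
/-- `√3` times cosh of the distance is `3 * NN` -/
def NN (v : V1) (u : V2) : ℤ := v.x * u.y - v.a * u.c - v.b * u.d
/-- cosh of the distance of two vertices of the second kind -/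
def LL (u w : V2) : ℤ := 3 * u.y * w.y - u.c * w.c - u.d * w.d

lemma MM_comm (v w : V1) : MM v w = MM w v := by unfold MM; ring
lemma LL_comm (v w : V2) : LL v w = LL w v := by unfold LL; ring
lemma MM_self (v : V1) : MM v v = 1 := by
  unfold MM
  have := v.eq
  nlinarith

/-- the graph of the tiling `{6,4}` -/
def HG : SimpleGraph V1 where
  Adj v w := MM v w = 2
  symm := ⟨fun v w h => by rw [MM_comm]; exact h⟩
  loopless := ⟨fun v h => by rw [MM_self] at h; exact absurd h (by norm_num)⟩

/-- directed edges of the tiling -/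
@[ext] structure DE where
  v : V1
  w : V1
  h : MM v w = 2
deriving DecidableEq

/-- the next edge on the straight line -/
def DE.next (e : DE) : DE where
  v := e.w
  w := ⟨4 * e.w.x - e.v.x, 4 * e.w.a - e.v.a, 4 * e.w.b - e.v.b, by
      have h := e.h
      have h1 := e.v.eq
      have h2 := e.w.eq
      unfold MM at h
      nlinarith, by
      have h := e.h
      have h1 := e.v.eq
      have h2 := e.w.eq
      have h3 := e.v.pos
      have h4 := e.w.pos
      unfold MM at h
      by_contra hc
      push Not at hc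
      have h5 : 4 * e.w.x ≤ e.v.x := by omega
      have h6 : 0 ≤ (e.v.a * e.w.b - e.v.b * e.w.a) ^ 2 := sq_nonneg _
      have h7 : (3 * e.v.a * e.w.a + 3 * e.v.b * e.w.b) = e.v.x * e.w.x - 2 := by linarith
      have h8 : (3 * e.v.a * e.w.a + 3 * e.v.b * e.w.b) ^ 2
          ≤ (e.v.x ^ 2 - 1) * (e.w.x ^ 2 - 1) := by nlinarith
      rw [h7] at h8
      nlinarith [mul_pos h3 h4]⟩
  h := by
    have h := e.h
    have h2 := e.w.eq
    unfold MM at h ⊢
    nlinarith

/-- the vertices of the straight line which starts with the edge `e` -/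
def pth (e : DE) (i : ℕ) : V1 := (DE.next^[i] e).v

/-- sums over the endpoints of an edge -/
def sx (e : Sym2 V1) : ℤ := Sym2.lift ⟨fun v w => v.x + w.x, fun v w => by ring⟩ e
def sa (e : Sym2 V1) : ℤ := Sym2.lift ⟨fun v w => v.a + w.a, fun v w => by ring⟩ e
def sb (e : Sym2 V1) : ℤ := Sym2.lift ⟨fun v w => v.b + w.b, fun v w => by ring⟩ e

/-- the faces of the base triangulation: an edge of `HG` and a vertex of the second kind -/
@[ext] structure Face where
  e : Sym2 V1
  u : V2
  he : e ∈ HG.edgeSet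
  hu : ∀ v ∈ e, NN v u = 1

/-- the vertices: base vertices and stack vertices -/
inductive VX where
  | p (v : V1)
  | q (u : V2)
  | t (F : Face) (j : ℕ)

/-- adjacency in the triangulation with `k e` vertices stacked in the two faces at `e` -/
def adjX (k : Sym2 V1 → ℕ) : VX → VX → Prop
  | VX.p v, VX.p w => MM v w = 2
  | VX.p v, VX.q u => NN v u = 1
  | VX.q u, VX.p v => NN v u = 1
  | VX.q _, VX.q _ => False
  | VX.p v, VX.t F j => j < k F.e ∧ v ∈ F.e
  | VX.t F j, VX.p v => j < k F.e ∧ v ∈ F.e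
  | VX.q u, VX.t F j => j = 0 ∧ 0 < k F.e ∧ u = F.u
  | VX.t F j, VX.q u => j = 0 ∧ 0 < k F.e ∧ u = F.u
  | VX.t F i, VX.t F' j => F = F' ∧ (i = j + 1 ∨ j = i + 1) ∧ i < k F.e ∧ j < k F.e

/-- the triangulation with `k e` vertices stacked in the two faces at `e` -/
def GX (k : Sym2 V1 → ℕ) : SimpleGraph VX where
  Adj := adjX k
  symm := ⟨by
    intro x y h
    cases x <;> cases y <;> simp only [adjX] at h ⊢
    · rw [MM_comm]; exact h
    · exact h
    · exact h
    · exact h
    · exact h
    · exact h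
    · exact h
    · obtain ⟨h1, h2, h3, h4⟩ := h
      subst h1
      exact ⟨rfl, h2.symm, h4, h3⟩⟩
  loopless := ⟨by
    intro x h
    cases x <;> simp only [adjX] at h
    · rw [MM_self] at h; exact absurd h (by norm_num)
    · omega⟩

/-- its vertex set -/
def SX (k : Sym2 V1 → ℕ) : Set VX
  | VX.p _ => True
  | VX.q _ => True
  | VX.t F j => j < k F.e

/-! ### vectors of `ℝ^{3,1}` -/

/-- vectors of `ℝ^{3,1}`, form `-T^2 + |X|^2 + σ^2` -/
@[ext] structure R31 where
  T : ℝ
  X : ℂ
  σ : ℝ

namespace R31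

noncomputable instance : Add R31 := ⟨fun p q => ⟨p.T + q.T, p.X + q.X, p.σ + q.σ⟩⟩
noncomputable instance : SMul ℝ R31 := ⟨fun c p => ⟨c * p.T, c * p.X, c * p.σ⟩⟩

@[simp] lemma add_T (p q : R31) : (p + q).T = p.T + q.T := rfl
@[simp] lemma add_X (p q : R31) : (p + q).X = p.X + q.X := rfl
@[simp] lemma add_σ (p q : R31) : (p + q).σ = p.σ + q.σ := rfl
@[simp] lemma smul_T (c : ℝ) (p : R31) : (c • p).T = c * p.T := rfl
@[simp] lemma smul_X (c : ℝ) (p : R31) : (c • p).X = c * p.X := rfl
@[simp] lemma smul_σ (c : ℝ) (p : R31) : (c • p).σ = c * p.σ := rfl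

/-- the Lorentz form -/
noncomputable def ip (p q : R31) : ℝ :=
  -(p.T * q.T) + (p.X.re * q.X.re + p.X.im * q.X.im) + p.σ * q.σ

/-- the curvature -/
noncomputable def κ (p : R31) : ℝ := p.T + p.σ

/-- Euclidean centre of the disc -/
noncomputable def ctr (p : R31) : ℂ := p.X / (p.κ : ℂ)

end R31

/-- the circle of a vertex of the first kind -/
noncomputable def PV (v : V1) : R31 := ⟨√2 * v.x, √6 * (v.a + v.b * Complex.I), √3⟩

/-- the circle of a vertex of the second kind -/
noncomputable def PU (u : V2) : R31 :=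
  ⟨(2 + √2) * u.y, ((2 + √2) / √3) * (u.c + u.d * Complex.I), (2 * √2 + 1) / √3⟩

/-- the sum of the circles of the two endpoints of an edge -/
noncomputable def PE (e : Sym2 V1) : R31 := ⟨√2 * sx e, √6 * (sa e + sb e * Complex.I), 2 * √3⟩

/-- the circle orthogonal to the three circles of a face -/
noncomputable def PQ (F : Face) : R31 :=
  ⟨√3 * F.u.y + √6 / 3 * sx F.e,
    (F.u.c + √2 * sa F.e) + (F.u.d + √2 * sb F.e) * Complex.I, 2 + √2⟩

/-- the circles stacked in a face; `j = 0` is the circle of the vertex of the second kind -/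
noncomputable def PT (F : Face) (j : ℕ) : R31 :=
  PU F.u + (2 * (j : ℝ)) • PQ F + ((j : ℝ) ^ 2) • PE F.e

/-- the circle of a vertex -/
noncomputable def PX : VX → R31
  | VX.p v => PV v
  | VX.q u => PU u
  | VX.t F j => PT F (j + 1)

/-- the centre of a vertex -/
noncomputable def zX (x : VX) : ℂ := (PX x).ctr
/-- the radius of a vertex -/
noncomputable def rX (x : VX) : ℝ := 1 / (PX x).κ

/-! ### clusters -/

/-- the length of the path of the clusters of type `n` -/
def Lp (n : ℕ) : ℕ := n ^ 2

/-- the cluster of type `n` attached to the directed edge `e`: a straight path of length `n^2` and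
the ball of radius `√n` around its end point -/
def Kc (e : DE) (n : ℕ) : Set V1 :=
  {y | (∃ i ≤ Lp n, y = pth e i) ∨ HG.dist (pth e (Lp n)) y ≤ Nat.sqrt n}

/-- all edges of `HG` inside the cluster -/
def inK (e : DE) (n : ℕ) (s : Sym2 V1) : Prop := s ∈ HG.edgeSet ∧ ∀ y ∈ s, y ∈ Kc e n

/-- `n`-th cut-off radius -/
noncomputable def dl (n : ℕ) : ℝ := 2 ^ (-((n : ℝ) ^ 2 / 2))

open Classical in
/-- the test function of the cluster `(e, n)`, on base vertices of the first kind -/
noncomputable def psi1 (e : DE) (n : ℕ) (v : V1) : ℝ :=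
  max (min 1 (max 0 (2 - ‖zX (VX.p v) - zX (VX.p (pth e (Lp n)))‖ / dl n)))
    (if v ∈ Kc e n then 1 else 0)

/-- the square of the difference of the test function over an edge -/
noncomputable def dpsi (e : DE) (n : ℕ) (s : Sym2 V1) : ℝ :=
  Sym2.lift ⟨fun v w => (psi1 e n v - psi1 e n w) ^ 2, fun v w => by ring⟩ s

end HExit
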