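import Pool.Agent.HExit.Frame
import Pool.Agent.HExit.Arith

/-! # HExit, module COV: discs and dual discs cover the unit disc -/

open MeasureTheory ProbabilityTheory Filter Topology
open scoped ENNReal

namespace HExit

variable {v : V1} {e0 e1 e2 g0 g1 g2 : ℤ}

/-- a vertex which minimises the distance -/
lemma exists_min {p : ℂ} (hp : ‖p‖ < 1) : ∃ v : V1, ∀ w : V1,
    (1 + ‖p‖ ^ 2) / 2 / √3 * v.x - v.a * p.re - v.b * p.im ≤
    (1 + ‖p‖ ^ 2) / 2 / √3 * w.x - w.a * p.re - w.b * p.im := by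
  have hp0 : 0 ≤ ‖p‖ := norm_nonneg p
  have hs3 : √3 ^ 2 = (3 : ℝ) := Real.sq_sqrt (by norm_num)
  have hs30 : 0 < √3 := by positivity
  have hn : ‖p‖ ^ 2 = p.re ^ 2 + p.im ^ 2 := by
    rw [Complex.sq_norm, Complex.normSq_apply]; ring
  let f : V1 → ℝ := fun v => (1 + ‖p‖ ^ 2) / 2 / √3 * v.x - v.a * p.re - v.b * p.im
  have hc : 0 < (1 - ‖p‖) ^ 2 / 2 / √3 := by
    have : 0 < 1 - ‖p‖ := by linarith
    positivity
  have hlow : ∀ v : V1, (1 - ‖p‖) ^ 2 / 2 / √3 * v.x ≤ f v := by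
    intro v
    have hx : (0 : ℝ) < v.x := by exact_mod_cast v.pos
    have hv : (v.x : ℝ) ^ 2 = 1 + 3 * v.a ^ 2 + 3 * v.b ^ 2 := by exact_mod_cast v.eq
    have h1 : v.a * p.re + v.b * p.im ≤ ‖p‖ / √3 * v.x := by
      refine (abs_le_of_sq_le_sq' ?_ (by positivity)).2
      rw [mul_pow, div_pow, hs3, hn]
      nlinarith [sq_nonneg (v.a * p.im - v.b * p.re : ℝ), sq_nonneg p.re, sq_nonneg p.im]
    have h2 : f v - (1 - ‖p‖) ^ 2 / 2 / √3 * v.x = ‖p‖ / √3 * v.x -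
        (v.a * p.re + v.b * p.im) := by
      simp only [f]; ring
    linarith
  have hfin : {v : V1 | f v ≤ f o}.Finite := by
    obtain ⟨R, hR⟩ := exists_int_gt (f o / ((1 - ‖p‖) ^ 2 / 2 / √3))
    refine (finite_x_le R).subset ?_
    intro v hv
    have h1 := (hlow v).trans hv
    rw [← le_div_iff₀' hc] at h1
    have : (v.x : ℝ) ≤ R := by linarith
    exact_mod_cast this
  obtain ⟨v, hv, hmin⟩ := Set.exists_min_image _ f hfin ⟨o, (le_refl (f o) : f o ≤ f o)⟩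
  refine ⟨v, fun w => ?_⟩
  by_cases hw : f w ≤ f o
  · exact hmin w hw
  · exact (hv.trans (not_le.mp hw).le : f v ≤ f w)

lemma beta_le {p : ℂ} (h : IsFr v e0 e1 e2 g0 g1 g2) (hmin : ∀ w : V1,
    (1 + ‖p‖ ^ 2) / 2 / √3 * v.x - v.a * p.re - v.b * p.im ≤
    (1 + ‖p‖ ^ 2) / 2 / √3 * w.x - w.a * p.re - w.b * p.im) :
    -3 * ((1 + ‖p‖ ^ 2) / 2 / √3) * e0 + p.re * e1 + p.im * e2 ≤
      (1 + ‖p‖ ^ 2) / 2 / √3 * v.x - v.a * p.re - v.b * p.im := by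
  -- use the neighbour `2 v - 3 e`... the sign is chosen so that the inequality is about `e`
  have := hmin h.nb
  simp only [IsFr.nb] at this
  push_cast at this
  linarith

theorem cov (p : ℂ) (hp : ‖p‖ < 1) : (∃ v : V1, 0 < R31.ip (Npt p) (PV v)) ∨
    (∃ u : V2, 0 < R31.ip (Npt p) (PU u)) ∨ (∃ F : Face, 0 ≤ R31.ip (Npt p) (PQ F)) := by
  obtain ⟨v, hmin⟩ := exists_min hp
  obtain ⟨e0, e1, e2, g0, g1, g2, q1, q2, q3, q4, q5⟩ := exists_frame v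
  have h : IsFr v e0 e1 e2 g0 g1 g2 := ⟨q1, q2, q3, q4, q5⟩
  -- make both coordinates nonnegative
  have key : ∀ e0 e1 e2 g0 g1 g2 : ℤ, IsFr v e0 e1 e2 g0 g1 g2 →
      0 ≤ -3 * ((1 + ‖p‖ ^ 2) / 2 / √3) * e0 + p.re * e1 + p.im * e2 →
      0 ≤ -3 * ((1 + ‖p‖ ^ 2) / 2 / √3) * g0 + p.re * g1 + p.im * g2 →
      (∃ v : V1, 0 < R31.ip (Npt p) (PV v)) ∨
      (∃ u : V2, 0 < R31.ip (Npt p) (PU u)) ∨ (∃ F : Face, 0 ≤ R31.ip (Npt p) (PQ F)) := by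
    intro e0 e1 e2 g0 g1 g2 h he hg
    rcases le_total (-3 * ((1 + ‖p‖ ^ 2) / 2 / √3) * g0 + p.re * g1 + p.im * g2)
      (-3 * ((1 + ‖p‖ ^ 2) / 2 / √3) * e0 + p.re * e1 + p.im * e2) with hle | hle
    · exact cov_frame hp h hg hle (beta_le h hmin)
    · exact cov_frame hp h.swap he hle (beta_le h.swap hmin)
  rcases le_total 0 (-3 * ((1 + ‖p‖ ^ 2) / 2 / √3) * e0 + p.re * e1 + p.im * e2) with he | he <;>
  rcases le_total 0 (-3 * ((1 + ‖p‖ ^ 2) / 2 / √3) * g0 + p.re * g1 + p.im * g2) with hg | hg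
  · exact key _ _ _ _ _ _ h he hg
  · exact key _ _ _ _ _ _ h.neg2 he (by push_cast; linarith)
  · exact key _ _ _ _ _ _ h.neg1 (by push_cast; linarith) hg
  · exact key _ _ _ _ _ _ h.neg1.neg2 (by push_cast; linarith) (by push_cast; linarith)

end HExit
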