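import Pool.Agent.HExit.Energy
import Pool.Agent.HExit.Arith

/-!
# HExit: spectral gap of the tiling `{6,4}` and growth of its balls
-/

open MeasureTheory ProbabilityTheory Filter Topology
open scoped ENNReal

namespace HExit

namespace Gap

lemma poly_ineq {r : ℝ} (h1 : 1 ≤ r) (h2 : r ≤ 2) :
    4 + 2 * r ≤ (r * (2.82 - 0.35 * r ^ 2)) ^ 2 := by
  nlinarith [mul_nonneg (sub_nonneg.mpr h1) (sub_nonneg.mpr h2),
    mul_nonneg (mul_nonneg (sub_nonneg.mpr h1) (sub_nonneg.mpr h2)) (sq_nonneg r),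
    mul_nonneg (mul_nonneg (sub_nonneg.mpr h1) (sub_nonneg.mpr h2)) (sq_nonneg (r ^ 2)),
    mul_nonneg (mul_nonneg (sub_nonneg.mpr h1) (sub_nonneg.mpr h2)) (sub_nonneg.mpr h1)]

/-- scalar inequality for two opposite neighbours -/
lemma two_nbr {x e : ℝ} (hx : 0 < x) (he : 3 * e ^ 2 ≤ x ^ 2) :
    √(x / (2 * x + 3 * e)) + √(x / (2 * x - 3 * e)) ≤ 1.42 + 3.15 * (e / x) ^ 2 := by
  set t : ℝ := 3 * (e / x) with ht
  have hs : t ^ 2 ≤ 3 := by
    rw [ht, mul_pow, div_pow]
    have : e ^ 2 / x ^ 2 ≤ 1 / 3 := by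
      rw [div_le_div_iff₀ (by positivity) (by norm_num)]
      linarith
    linarith
  have ht2 : -2 < t ∧ t < 2 := by
    constructor <;> nlinarith
  have e1 : x / (2 * x + 3 * e) = 1 / (2 + t) := by
    rw [ht]
    have : 2 + 3 * (e / x) = (2 * x + 3 * e) / x := by field_simp
    rw [this, one_div_div]
  have e2 : x / (2 * x - 3 * e) = 1 / (2 - t) := by
    rw [ht]
    have : 2 - 3 * (e / x) = (2 * x - 3 * e) / x := by field_simp
    rw [this, one_div_div]
  have e3 : 1.42 + 3.15 * (e / x) ^ 2 = 1.42 + 0.35 * t ^ 2 := by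
    rw [ht]
    ring
  rw [e1, e2, e3]
  have hp : 0 < 2 + t := by linarith [ht2.1]
  have hq : 0 < 2 - t := by linarith [ht2.2]
  set r : ℝ := √(4 - t ^ 2) with hr
  have hr2 : r ^ 2 = 4 - t ^ 2 := Real.sq_sqrt (by linarith)
  have hr0 : 0 ≤ r := Real.sqrt_nonneg _
  have hr1 : 1 ≤ r := by nlinarith
  have hr3 : r ≤ 2 := by nlinarith [sq_nonneg t]
  set P : ℝ := √(1 / (2 + t)) with hP
  set Q : ℝ := √(1 / (2 - t)) with hQ
  have hP2 : P ^ 2 = 1 / (2 + t) := Real.sq_sqrt (by positivity)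
  have hQ2 : Q ^ 2 = 1 / (2 - t) := Real.sq_sqrt (by positivity)
  have hP0 : 0 ≤ P := Real.sqrt_nonneg _
  have hQ0 : 0 ≤ Q := Real.sqrt_nonneg _
  have hPQ : P * Q * r = 1 := by
    rw [hP, hQ, hr, ← Real.sqrt_mul (by positivity), ← Real.sqrt_mul (by positivity)]
    rw [Real.sqrt_eq_one]
    field_simp
    ring
  have hS : ((P + Q) * r) ^ 2 = 4 + 2 * r := by
    have : ((P + Q) * r) ^ 2 = (P ^ 2 + Q ^ 2) * r ^ 2 + 2 * (P * Q * r) * r := by ring
    rw [this, hPQ, hP2, hQ2, hr2]
    field_simp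
    ring
  have hT : (P + Q) * r ≤ r * (2.82 - 0.35 * r ^ 2) := by
    apply le_of_sq_le_sq
    · rw [hS]
      exact poly_ineq hr1 hr3
    · apply mul_nonneg hr0
      nlinarith
  have hT2 : P + Q ≤ 2.82 - 0.35 * r ^ 2 := by
    have hrp : 0 < r := by linarith
    rw [mul_comm r] at hT
    exact le_of_mul_le_mul_right hT hrp
  rw [hr2] at hT2
  linarith

/-- weight of an oriented edge -/
noncomputable def ph (v w : V1) : ℝ := √((v.x : ℝ) / w.x)

lemma ph_nonneg (v w : V1) : 0 ≤ ph v w := Real.sqrt_nonneg _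

lemma ph_mul (v w : V1) : ph v w * ph w v = 1 := by
  unfold ph
  have h1 : (0 : ℝ) < v.x := by exact_mod_cast v.pos
  have h2 : (0 : ℝ) < w.x := by exact_mod_cast w.pos
  rw [← Real.sqrt_mul (by positivity)]
  rw [Real.sqrt_eq_one]
  field_simp

lemma edge_ineq (a b : ℝ) (v w : V1) :
    a ^ 2 + b ^ 2 ≤ (a - b) ^ 2 + (a ^ 2 * ph v w + b ^ 2 * ph w v) := by
  have h1 := ph_mul v w
  have h2 := ph_nonneg v w
  have h3 := ph_nonneg w v
  have h4 : 0 < ph v w := by
    rcases h2.lt_or_eq with h | h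
    · exact h
    · rw [← h] at h1
      simp at h1
  -- `p a^2 + b^2 / p ≥ 2 a b`
  have h5 : 0 ≤ (ph v w * a - b) ^ 2 * ph w v := mul_nonneg (sq_nonneg _) h3
  have h6 : (ph v w * a - b) ^ 2 * ph w v
      = a ^ 2 * ph v w * (ph v w * ph w v) - 2 * a * b * (ph v w * ph w v) + b ^ 2 * ph w v := by
    ring
  rw [h6, h1] at h5
  linarith

lemma finite_nbr (v : V1) : (HG.neighborSet v).Finite := by
  apply Set.finite_of_ncard_ne_zero
  rw [ncard_nbr]
  norm_num

/-- the supersolution property -/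
lemma sum_ph (v : V1) : ∑ w ∈ (finite_nbr v).toFinset, ph v w ≤ 3.89 := by
  obtain ⟨e0, e1, e2, g0, g1, g2, h1, h2, h3, h4, h5⟩ := exists_frame v
  have hv := v.eq
  have hx := v.pos
  -- norm of the frame
  have hfr : 3 * e0 ^ 2 + 3 * g0 ^ 2 = v.x ^ 2 - 1 := by
    have hAB : (!![v.x, 3 * v.a, 3 * v.b; e0, e1, e2; g0, g1, g2] : Matrix (Fin 3) (Fin 3) ℤ)
        * !![v.x, -3 * e0, -3 * g0; -v.a, e1, g1; -v.b, e2, g2] = 1 := by
      ext i j
      fin_cases i <;> fin_cases j <;>
        simp [Matrix.mul_apply, Fin.sum_univ_three] <;> linarith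
    have hBA := mul_eq_one_comm.mp hAB
    have := congrFun (congrFun hBA 0) 0
    simp [Matrix.mul_apply, Fin.sum_univ_three] at this
    linarith
  have hxr : (0 : ℝ) < v.x := by exact_mod_cast hx
  have hfr' : 3 * (e0 : ℝ) ^ 2 + 3 * (g0 : ℝ) ^ 2 = (v.x : ℝ) ^ 2 - 1 := by exact_mod_cast hfr
  have b1 := two_nbr (e := (e0 : ℝ)) hxr (by nlinarith [sq_nonneg (g0 : ℝ)])
  have b2 := two_nbr (e := (g0 : ℝ)) hxr (by nlinarith [sq_nonneg (e0 : ℝ)])
  have b3 : ((e0 : ℝ) / v.x) ^ 2 + ((g0 : ℝ) / v.x) ^ 2 ≤ 1 / 3 := by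
    rw [div_pow, div_pow, ← add_div, div_le_div_iff₀ (by positivity) (by norm_num)]
    linarith
  -- the sum over the neighbours
  classical
  have key : ∑ w ∈ (finite_nbr v).toFinset, ph v w ≤
      √(v.x / (2 * v.x + 3 * e0)) + √(v.x / (2 * v.x - 3 * e0))
      + (√(v.x / (2 * v.x + 3 * g0)) + √(v.x / (2 * v.x - 3 * g0))) := by
    set N := (finite_nbr v).toFinset with hN
    have hmem : ∀ w ∈ N, MM v w = 2 := by
      intro w hw
      rw [hN, Set.Finite.mem_toFinset] at hw
      exact hw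
    have hunion : N = (N.filter fun w => w.x = 2 * v.x + 3 * e0 ∧ w.a = 2 * v.a + e1 ∧ w.b = 2 * v.b + e2)
        ∪ (N.filter fun w => w.x = 2 * v.x - 3 * e0 ∧ w.a = 2 * v.a - e1 ∧ w.b = 2 * v.b - e2)
        ∪ ((N.filter fun w => w.x = 2 * v.x + 3 * g0 ∧ w.a = 2 * v.a + g1 ∧ w.b = 2 * v.b + g2)
        ∪ (N.filter fun w => w.x = 2 * v.x - 3 * g0 ∧ w.a = 2 * v.a - g1 ∧ w.b = 2 * v.b - g2)) := by
      ext w
      simp only [Finset.mem_union, Finset.mem_filter]
      constructor
      · intro hw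
        have := (adj_iff_frame h1 h2 h3 h4 h5 w).mp (hmem w hw)
        tauto
      · tauto
    have hone : ∀ (X A B : ℤ), ∑ w ∈ N.filter (fun w => w.x = X ∧ w.a = A ∧ w.b = B), ph v w
        ≤ √((v.x : ℝ) / X) := by
      intro X A B
      by_cases hne : (N.filter (fun w => w.x = X ∧ w.a = A ∧ w.b = B)).Nonempty
      · obtain ⟨w, hw⟩ := hne
        have hs : N.filter (fun w => w.x = X ∧ w.a = A ∧ w.b = B) = {w} := by
          ext w'
          simp only [Finset.mem_filter, Finset.mem_singleton] at hw ⊢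
          constructor
          · intro h'
            apply V1.ext
            · rw [h'.2.1, hw.2.1]
            · rw [h'.2.2.1, hw.2.2.1]
            · rw [h'.2.2.2, hw.2.2.2]
          · intro h'
            rw [h']
            exact hw
        rw [hs, Finset.sum_singleton]
        simp only [Finset.mem_filter] at hw
        unfold ph
        rw [hw.2.1]
      · rw [Finset.not_nonempty_iff_eq_empty] at hne
        rw [hne, Finset.sum_empty]
        exact Real.sqrt_nonneg _
    rw [hunion]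
    have un : ∀ s t : Finset V1, ∑ w ∈ s ∪ t, ph v w ≤ ∑ w ∈ s, ph v w + ∑ w ∈ t, ph v w := by
      intro s t
      rw [← Finset.sum_union_inter]
      have : 0 ≤ ∑ w ∈ s ∩ t, ph v w := Finset.sum_nonneg fun w _ => ph_nonneg v w
      linarith
    have c1 := hone (2 * v.x + 3 * e0) (2 * v.a + e1) (2 * v.b + e2)
    have c2 := hone (2 * v.x - 3 * e0) (2 * v.a - e1) (2 * v.b - e2)
    have c3 := hone (2 * v.x + 3 * g0) (2 * v.a + g1) (2 * v.b + g2)
    have c4 := hone (2 * v.x - 3 * g0) (2 * v.a - g1) (2 * v.b - g2)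
    push_cast at c1 c2 c3 c4
    refine (un _ _).trans (add_le_add ((un _ _).trans (add_le_add c1 c2))
      ((un _ _).trans (add_le_add c3 c4)))
  linarith

/-- sums over edges and sums over ordered pairs -/
lemma tsum_edge {V : Type*} (G : SimpleGraph V) (A : V → V → ℝ≥0∞) (B : Sym2 V → ℝ≥0∞)
    (hB : ∀ v w, G.Adj v w → B s(v, w) = A v w + A w v) :
    ∑' s : G.edgeSet, B s = ∑' v, ∑' w : G.neighborSet v, A v w := by
  classical
  -- both sides are sums over darts
  have hL : ∑' s : G.edgeSet, B s = ∑' d : G.Dart, A d.fst d.snd := by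
    let f : G.Dart → G.edgeSet := fun d => ⟨d.edge, d.edge_mem⟩
    rw [← (Equiv.sigmaFiberEquiv f).tsum_eq, ENNReal.tsum_sigma']
    congr 1
    funext s
    obtain ⟨s, hs⟩ := s
    induction s with
    | _ v w =>
      have hvw : G.Adj v w := hs
      rw [hB v w hvw]
      -- the fibre
      let d1 : {d : G.Dart // f d = ⟨s(v, w), hs⟩} := ⟨⟨(v, w), hvw⟩, rfl⟩
      let d2 : {d : G.Dart // f d = ⟨s(v, w), hs⟩} := ⟨⟨(w, v), hvw.symm⟩, by
        apply Subtype.ext
        exact Sym2.eq_swap⟩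
      have hne : d1 ≠ d2 := by
        intro h
        have h1 : v = w := congrArg (fun d => d.1.fst) h
        exact hvw.ne h1
      have hfin : ∀ d : {d : G.Dart // f d = ⟨s(v, w), hs⟩}, d ∉ ({d1, d2} : Finset _) →
          A (Equiv.sigmaFiberEquiv f ⟨_, d⟩).fst (Equiv.sigmaFiberEquiv f ⟨_, d⟩).snd = 0 := by
        intro d hd
        exfalso
        apply hd
        have h1 : d.1.edge = s(v, w) := congrArg Subtype.val d.2
        have h2 : d.1.edge = (⟨(v, w), hvw⟩ : G.Dart).edge := h1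
        rw [SimpleGraph.dart_edge_eq_iff] at h2
        rcases h2 with h2 | h2
        · have : d = d1 := Subtype.ext h2
          simp [this]
        · have : d = d2 := Subtype.ext h2
          simp [this]
      rw [tsum_eq_sum hfin, Finset.sum_pair hne]
      rfl
  rw [hL]
  have hR : ∑' v, ∑' w : G.neighborSet v, A v w = ∑' p : (Σ v, G.neighborSet v), A p.1 p.2 := by
    rw [ENNReal.tsum_sigma']
  rw [hR]
  let e : (Σ v, G.neighborSet v) ≃ G.Dart :=
    { toFun := fun p => ⟨(p.1, p.2.1), p.2.2⟩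
      invFun := fun d => ⟨d.fst, ⟨d.snd, d.adj⟩⟩
      left_inv := fun p => rfl
      right_inv := fun d => rfl }
  rw [← e.tsum_eq]
  rfl

lemma tsum_nbr (v : V1) (F : V1 → ℝ≥0∞) :
    ∑' w : HG.neighborSet v, F w = ∑ w ∈ (finite_nbr v).toFinset, F w := by
  rw [← Finset.tsum_subtype']
  apply tsum_congr_set_coe
  simp

lemma card_nbr (v : V1) : (finite_nbr v).toFinset.card = 4 := by
  rw [← Set.ncard_eq_toFinset_card _ (finite_nbr v), ncard_nbr]

end Gap

theorem gap (g : V1 → ℝ) (hg : (Function.support g).Finite) :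
    ENNReal.ofReal (1 / 10) * ∑' v, ENNReal.ofReal (g v ^ 2) ≤ en HG g := by
  classical
  have hedge : ∑' s : HG.edgeSet, ENNReal.ofReal (Sym2.lift ⟨fun v w => g v ^ 2 + g w ^ 2,
      fun v w => by ring⟩ s.1) = ∑' v, ∑' w : HG.neighborSet v, ENNReal.ofReal (g v ^ 2) := by
    apply Gap.tsum_edge HG (fun v _ => ENNReal.ofReal (g v ^ 2))
      (fun s => ENNReal.ofReal (Sym2.lift ⟨fun v w => g v ^ 2 + g w ^ 2, fun v w => by ring⟩ s))
    intro v w _
    rw [Sym2.lift_mk, ENNReal.ofReal_add (by positivity) (by positivity)]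
  have hedge2 : ∑' s : HG.edgeSet, ENNReal.ofReal (Sym2.lift ⟨fun v w => g v ^ 2 * Gap.ph v w
      + g w ^ 2 * Gap.ph w v, fun v w => by ring⟩ s.1)
      = ∑' v, ∑' w : HG.neighborSet v, ENNReal.ofReal (g v ^ 2 * Gap.ph v w) := by
    apply Gap.tsum_edge HG (fun v w => ENNReal.ofReal (g v ^ 2 * Gap.ph v w))
      (fun s => ENNReal.ofReal (Sym2.lift ⟨fun v w => g v ^ 2 * Gap.ph v w
      + g w ^ 2 * Gap.ph w v, fun v w => by ring⟩ s))
    intro v w _
    rw [Sym2.lift_mk, ENNReal.ofReal_add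
      (mul_nonneg (by positivity) (Gap.ph_nonneg _ _))
      (mul_nonneg (by positivity) (Gap.ph_nonneg _ _))]
  have h1 : ∑' s : HG.edgeSet, ENNReal.ofReal (Sym2.lift ⟨fun v w => g v ^ 2 + g w ^ 2,
      fun v w => by ring⟩ s.1) ≤ en HG g + ∑' s : HG.edgeSet, ENNReal.ofReal
        (Sym2.lift ⟨fun v w => g v ^ 2 * Gap.ph v w
      + g w ^ 2 * Gap.ph w v, fun v w => by ring⟩ s.1) := by
    unfold en
    rw [← ENNReal.tsum_add]
    apply ENNReal.tsum_le_tsum
    rintro ⟨s, hs⟩
    induction s with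
    | _ v w =>
      simp only [Sym2.lift_mk, dsq_mk]
      rw [← ENNReal.ofReal_add (sq_nonneg _) (add_nonneg
        (mul_nonneg (by positivity) (Gap.ph_nonneg _ _))
        (mul_nonneg (by positivity) (Gap.ph_nonneg _ _)))]
      exact ENNReal.ofReal_le_ofReal (Gap.edge_ineq _ _ _ _)
  rw [hedge, hedge2] at h1
  have h2 : ∀ v, ∑' w : HG.neighborSet v, ENNReal.ofReal (g v ^ 2)
      = ENNReal.ofReal 4 * ENNReal.ofReal (g v ^ 2) := by
    intro v
    rw [Gap.tsum_nbr v (fun _ => ENNReal.ofReal (g v ^ 2)), Finset.sum_const, Gap.card_nbr,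
      nsmul_eq_mul]
    norm_num
  have h3 : ∀ v, ∑' w : HG.neighborSet v, ENNReal.ofReal (g v ^ 2 * Gap.ph v w)
      ≤ ENNReal.ofReal 3.89 * ENNReal.ofReal (g v ^ 2) := by
    intro v
    rw [Gap.tsum_nbr v (fun w => ENNReal.ofReal (g v ^ 2 * Gap.ph v w)),
      ← ENNReal.ofReal_sum_of_nonneg
        (fun w _ => mul_nonneg (by positivity) (Gap.ph_nonneg _ _)),
      ← Finset.mul_sum, ← ENNReal.ofReal_mul (by norm_num), mul_comm (3.89 : ℝ)]
    exact ENNReal.ofReal_le_ofReal (mul_le_mul_of_nonneg_left (Gap.sum_ph v) (by positivity))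
  have h4 : ENNReal.ofReal 4 * ∑' v, ENNReal.ofReal (g v ^ 2)
      ≤ en HG g + ENNReal.ofReal 3.89 * ∑' v, ENNReal.ofReal (g v ^ 2) := by
    rw [← ENNReal.tsum_mul_left, ← ENNReal.tsum_mul_left]
    calc _ = ∑' v, ∑' w : HG.neighborSet v, ENNReal.ofReal (g v ^ 2) := by
          congr 1
          funext v
          rw [h2]
      _ ≤ _ := h1
      _ ≤ _ := by
          gcongr with v
          exact h3 v
  have hfinsum : ∑' v, ENNReal.ofReal (g v ^ 2) ≠ ∞ := by
    rw [tsum_eq_sum (s := hg.toFinset)]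
    · exact ENNReal.sum_ne_top.mpr fun v _ => ENNReal.ofReal_ne_top
    · intro v hv
      have : g v = 0 := by
        by_contra hc
        exact hv (hg.mem_toFinset.mpr hc)
      rw [this]
      simp
  have h5 : ENNReal.ofReal (1 / 10) + ENNReal.ofReal 3.89 ≤ ENNReal.ofReal 4 := by
    rw [← ENNReal.ofReal_add (by norm_num) (by norm_num)]
    apply ENNReal.ofReal_le_ofReal
    norm_num
  have h6 : ENNReal.ofReal (1 / 10) * ∑' v, ENNReal.ofReal (g v ^ 2)
      + ENNReal.ofReal 3.89 * ∑' v, ENNReal.ofReal (g v ^ 2)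
      ≤ en HG g + ENNReal.ofReal 3.89 * ∑' v, ENNReal.ofReal (g v ^ 2) := by
    rw [← add_mul]
    exact (mul_le_mul_left h5 _).trans h4
  exact (ENNReal.add_le_add_iff_right (ENNReal.mul_ne_top ENNReal.ofReal_ne_top hfinsum)).mp h6

namespace Gap

/-- every vertex different from `x` has a neighbour closer to `x` -/
lemma exists_closer {x y : V1} {n : ℕ} (h : HG.dist x y = n + 1) :
    ∃ z, HG.dist x z = n ∧ HG.Adj z y := by
  obtain ⟨w, hw⟩ := (HG_connected.preconnected x y).exists_walk_length_eq_dist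
  rw [h] at hw
  have hadj : HG.Adj (w.getVert n) (w.getVert (n + 1)) := w.adj_getVert_succ (by omega)
  have hy : w.getVert (n + 1) = y := by rw [← hw, w.getVert_length]
  rw [hy] at hadj
  refine ⟨w.getVert n, ?_, hadj⟩
  have h1 : HG.dist x (w.getVert n) ≤ n := by
    refine (SimpleGraph.dist_le (w.take n)).trans ?_
    rw [SimpleGraph.Walk.take_length]
    exact min_le_left _ _
  have h2 := HG_connected.dist_triangle (u := x) (v := w.getVert n) (w := y)
  have h3 := SimpleGraph.dist_eq_one_iff_adj.mpr hadj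
  omega

lemma ball_succ_subset (x : V1) (n : ℕ) : {y | HG.dist x y ≤ n + 1} ⊆
    {x} ∪ ⋃ z ∈ {y | HG.dist x y ≤ n}, HG.neighborSet z := by
  intro y hy
  simp only [Set.mem_ofPred_eq] at hy
  rcases Nat.eq_zero_or_pos (HG.dist x y) with h0 | h0
  · left
    rw [HG_connected.dist_eq_zero_iff] at h0
    exact h0.symm
  · right
    obtain ⟨m, hm⟩ : ∃ m, HG.dist x y = m + 1 := ⟨HG.dist x y - 1, by omega⟩
    obtain ⟨z, hz, hzy⟩ := exists_closer hm
    simp only [Set.mem_iUnion]
    exact ⟨z, by show HG.dist x z ≤ n; omega, hzy⟩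

lemma ball_zero (x : V1) : {y | HG.dist x y ≤ 0} = {x} := by
  ext y
  simp only [Set.mem_ofPred_eq, Nat.le_zero, Set.mem_singleton_iff]
  rw [HG_connected.dist_eq_zero_iff]
  exact eq_comm

end Gap

theorem ball_finite (x : V1) (n : ℕ) : {y | HG.dist x y ≤ n}.Finite := by
  induction n with
  | zero =>
    rw [Gap.ball_zero]
    exact Set.finite_singleton x
  | succ n ih =>
    refine Set.Finite.subset ?_ (Gap.ball_succ_subset x n)
    exact (Set.finite_singleton x).union (ih.biUnion fun z _ => Gap.finite_nbr z)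

theorem ball_le (x : V1) (n : ℕ) : {y | HG.dist x y ≤ n}.ncard ≤ 4 ^ (n + 1) := by
  have key : 3 * {y | HG.dist x y ≤ n}.ncard + 1 ≤ 4 ^ (n + 1) := by
    induction n with
    | zero =>
      rw [Gap.ball_zero]
      simp
    | succ n ih =>
      have h1 := Set.ncard_le_ncard (Gap.ball_succ_subset x n)
        ((Set.finite_singleton x).union
          ((ball_finite x n).biUnion fun z _ => Gap.finite_nbr z))
      have h2 := Set.ncard_union_le {x} (⋃ z ∈ {y | HG.dist x y ≤ n}, HG.neighborSet z)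
      have h3 : (⋃ z ∈ {y | HG.dist x y ≤ n}, HG.neighborSet z).ncard
          ≤ {y | HG.dist x y ≤ n}.ncard * 4 := by
        classical
        have e1 : (⋃ z ∈ {y | HG.dist x y ≤ n}, HG.neighborSet z)
            = ((ball_finite x n).toFinset.biUnion fun z => (Gap.finite_nbr z).toFinset : Finset V1) := by
          ext w
          simp
        rw [e1, Set.ncard_coe_finset]
        refine (Finset.card_biUnion_le_card_mul _ _ 4 ?_).trans ?_
        · intro z _
          rw [Gap.card_nbr]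
        · rw [← Set.ncard_eq_toFinset_card _ (ball_finite x n)]
      rw [Set.ncard_singleton] at h2
      rw [pow_succ]
      omega
  omega

theorem le_ball (x : V1) (n : ℕ) : (41 / 40 : ℝ) ^ n ≤ {y | HG.dist x y ≤ n}.ncard := by
  classical
  induction n with
  | zero =>
    rw [Gap.ball_zero]
    simp
  | succ n ih =>
    set B := (ball_finite x n).toFinset with hB
    set B' := (ball_finite x (n + 1)).toFinset with hB'
    have hmB : ∀ y, y ∈ B ↔ HG.dist x y ≤ n := by intro y; simp [hB]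
    have hmB' : ∀ y, y ∈ B' ↔ HG.dist x y ≤ n + 1 := by intro y; simp [hB']
    have hsub : B ⊆ B' := by
      intro y hy
      rw [hmB] at hy
      rw [hmB']
      omega
    rw [Set.ncard_eq_toFinset_card _ (ball_finite x n)] at ih
    rw [Set.ncard_eq_toFinset_card _ (ball_finite x (n + 1))]
    let g : V1 → ℝ := fun y => if y ∈ B then 1 else 0
    have hg : (Function.support g).Finite := by
      refine B.finite_toSet.subset ?_
      intro y hy
      by_contra hc
      apply hy
      simp only [g]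
      rw [if_neg]
      exact hc
    have h1 := gap g hg
    have h2 : ∑' v, ENNReal.ofReal (g v ^ 2) = B.card := by
      rw [tsum_eq_sum (s := B)]
      · have : ∀ v ∈ B, ENNReal.ofReal (g v ^ 2) = 1 := by
          intro v hv
          simp [g, hv]
        rw [Finset.sum_congr rfl this]
        simp
      · intro v hv
        simp [g, hv]
    have h3 : en HG g ≤ 4 * ((B' \ B).card : ℝ≥0∞) := by
      have e1 := Gap.tsum_edge HG (fun v w => if v ∉ B ∧ w ∈ B then (1 : ℝ≥0∞) else 0)
        (fun s => ENNReal.ofReal (dsq g s)) (by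
          intro v w _
          simp only [dsq_mk, g]
          by_cases hv : v ∈ B <;> by_cases hw : w ∈ B <;> simp [hv, hw])
      unfold en
      rw [e1]
      rw [tsum_eq_sum (s := B' \ B)]
      · rw [mul_comm, ← nsmul_eq_mul, ← Finset.sum_const]
        apply Finset.sum_le_sum
        intro v _
        rw [Gap.tsum_nbr v (fun w => if v ∉ B ∧ w ∈ B then (1 : ℝ≥0∞) else 0)]
        refine (Finset.sum_le_sum (g := fun _ => (1 : ℝ≥0∞)) ?_).trans ?_
        · intro w _
          split_ifs <;> simp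
        · rw [Finset.sum_const, Gap.card_nbr]
          simp
      · intro v hv
        rw [Gap.tsum_nbr v (fun w => if v ∉ B ∧ w ∈ B then (1 : ℝ≥0∞) else 0)]
        apply Finset.sum_eq_zero
        intro w hw
        rw [if_neg]
        rintro ⟨h5, h6⟩
        apply hv
        rw [Finset.mem_sdiff]
        refine ⟨?_, h5⟩
        rw [hmB']
        rw [hmB] at h6
        rw [Set.Finite.mem_toFinset] at hw
        have hwv : HG.Adj w v := hw.symm
        have := HG_connected.dist_triangle (u := x) (v := w) (w := v)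
        have h7 := SimpleGraph.dist_eq_one_iff_adj.mpr hwv
        omega
    have h4 : (1 / 10 : ℝ) * B.card ≤ 4 * (B' \ B).card := by
      rw [h2] at h1
      have h5 := h1.trans h3
      have h6 : ENNReal.ofReal ((1 / 10 : ℝ) * B.card) ≤ ENNReal.ofReal (4 * (B' \ B).card) := by
        rw [ENNReal.ofReal_mul (by norm_num), ENNReal.ofReal_mul (by norm_num),
          ENNReal.ofReal_natCast, ENNReal.ofReal_natCast]
        simpa using h5
      exact (ENNReal.ofReal_le_ofReal_iff (by positivity)).mp h6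
    have h5 : ((B' \ B).card : ℝ) = B'.card - B.card := by
      rw [Finset.card_sdiff_of_subset hsub, Nat.cast_sub (Finset.card_le_card hsub)]
    rw [h5] at h4
    rw [pow_succ]
    linarith

end HExit
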