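import Pool.Agent.HExit.CutA
import Pool.Agent.HExit.Gap

/-!
# HExit: geometry and energy of the test functions, clusters
-/

open MeasureTheory ProbabilityTheory Filter Topology
open scoped ENNReal

namespace HExit

/-- test function on vertices of the second kind -/
noncomputable def psi2 (e : DE) (n : ℕ) (u : V2) : ℝ :=
  min 1 (max 0 (2 - ‖zX (VX.q u) - zX (VX.p (pth e (Lp n)))‖ / dl n))

/-! ### the cut-off function -/

/-- cut-off function at scale `δ` around `c` -/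
noncomputable def chi (c : ℂ) (δ : ℝ) (p : ℂ) : ℝ := min 1 (max 0 (2 - ‖p - c‖ / δ))

lemma chi_nonneg (c : ℂ) (δ : ℝ) (p : ℂ) : 0 ≤ chi c δ p := by
  unfold chi
  exact le_min (by norm_num) (le_max_left _ _)

lemma chi_le_one (c : ℂ) (δ : ℝ) (p : ℂ) : chi c δ p ≤ 1 := min_le_left _ _

lemma clamp_lip (a b : ℝ) : |min 1 (max 0 a) - min 1 (max 0 b)| ≤ |a - b| := by
  calc |min 1 (max 0 a) - min 1 (max 0 b)| ≤ |max 0 a - max 0 b| := by
        rcases le_total 1 (max 0 a) with h1 | h1 <;> rcases le_total 1 (max 0 b) with h2 | h2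
        · rw [min_eq_left h1, min_eq_left h2]; simp
        · rw [min_eq_left h1, min_eq_right h2, abs_of_nonneg (by linarith),
            abs_of_nonneg (by linarith)]
          linarith
        · rw [min_eq_right h1, min_eq_left h2, abs_of_nonpos (by linarith),
            abs_of_nonpos (by linarith)]
          linarith
        · rw [min_eq_right h1, min_eq_right h2]
    _ ≤ |a - b| := by
        rcases le_total 0 a with h1 | h1 <;> rcases le_total 0 b with h2 | h2
        · rw [max_eq_right h1, max_eq_right h2]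
        · rw [max_eq_right h1, max_eq_left h2, sub_zero, abs_of_nonneg h1,
            abs_of_nonneg (by linarith)]
          linarith
        · rw [max_eq_left h1, max_eq_right h2, zero_sub, abs_neg, abs_of_nonneg h2,
            abs_of_nonpos (by linarith)]
          linarith
        · rw [max_eq_left h1, max_eq_left h2]; simp

lemma chi_lip {c : ℂ} {δ : ℝ} (hδ : 0 < δ) (p q : ℂ) :
    |chi c δ p - chi c δ q| ≤ ‖p - q‖ / δ := by
  unfold chi
  refine (clamp_lip _ _).trans ?_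
  have h1 : 2 - ‖p - c‖ / δ - (2 - ‖q - c‖ / δ) = (‖q - c‖ - ‖p - c‖) / δ := by ring
  rw [h1, abs_div, abs_of_pos hδ]
  apply div_le_div_of_nonneg_right _ hδ.le
  calc |‖q - c‖ - ‖p - c‖| ≤ ‖(q - c) - (p - c)‖ := abs_norm_sub_norm_le _ _
    _ = ‖p - q‖ := by rw [sub_sub_sub_cancel_right, norm_sub_rev]

lemma chi_sq_le {c : ℂ} {δ : ℝ} (hδ : 0 < δ) {p q : ℂ} {r C : ℝ}
    (h : ‖p - q‖ ≤ C * r) : (chi c δ p - chi c δ q) ^ 2 ≤ C ^ 2 / δ ^ 2 * r ^ 2 := by
  have h1 := chi_lip (c := c) hδ p q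
  have h2 : |chi c δ p - chi c δ q| ≤ C * r / δ := h1.trans (by gcongr)
  rw [← sq_abs]
  calc |chi c δ p - chi c δ q| ^ 2 ≤ (C * r / δ) ^ 2 := by
        apply pow_le_pow_left₀ (abs_nonneg _) h2
    _ = C ^ 2 / δ ^ 2 * r ^ 2 := by ring

lemma chi_eq_one {c : ℂ} {δ : ℝ} (hδ : 0 < δ) {p : ℂ} (h : ‖p - c‖ ≤ δ) : chi c δ p = 1 := by
  unfold chi
  have h1 : ‖p - c‖ / δ ≤ 1 := (div_le_one hδ).mpr h
  rw [min_eq_left]
  apply le_max_of_le_right
  linarith

lemma chi_eq_zero {c : ℂ} {δ : ℝ} (hδ : 0 < δ) {p : ℂ} (h : 2 * δ ≤ ‖p - c‖) : chi c δ p = 0 := by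
  unfold chi
  have h1 : 2 ≤ ‖p - c‖ / δ := (le_div_iff₀ hδ).mpr h
  rw [max_eq_left (by linarith)]
  norm_num

/-! ### areas near the centre of the cut-off -/

lemma area_near (b : V1) {δ : ℝ} (hδ : 0 < δ) (hb : rX (VX.p b) ≤ δ) :
    ∑' v : {v : V1 | ‖zX (VX.p v) - zX (VX.p b)‖ < 2 * δ}, ENNReal.ofReal (rX (VX.p v) ^ 2)
      ≤ ENNReal.ofReal (16 * δ ^ 2) := by
  have := countable_V1
  have h := sum_sq_le (fun v : V1 => zX (VX.p v)) (fun v => rX (VX.p v))
    {v : V1 | ‖zX (VX.p v) - zX (VX.p b)‖ < 2 * δ} (zX (VX.p b)) (4 * δ)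
    (by positivity) (fun v _ => (rX_p_pos v).le) (fun v _ w _ h => sep_pp h) ?_
  · refine h.trans (le_of_eq ?_)
    congr 1
    ring
  · intro v hv
    simp only [Set.mem_ofPred_eq] at hv ⊢
    by_cases hvb : v = b
    · subst hvb
      rw [sub_self, norm_zero]
      linarith
    · have h1 := sep_pp hvb
      have h2 := rX_p_pos b
      linarith

lemma area_near' (b : V1) {δ : ℝ} (hδ : 0 < δ) :
    ∑' u : {u : V2 | ‖zX (VX.q u) - zX (VX.p b)‖ < 2 * δ}, ENNReal.ofReal (rX (VX.q u) ^ 2)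
      ≤ ENNReal.ofReal (16 * δ ^ 2) := by
  have := countable_V2
  have h := sum_sq_le (fun v : V2 => zX (VX.q v)) (fun v => rX (VX.q v))
    {v : V2 | ‖zX (VX.q v) - zX (VX.p b)‖ < 2 * δ} (zX (VX.p b)) (4 * δ)
    (by positivity) (fun v _ => (rX_q_pos v).le) (fun v _ w _ h => sep_qq h) ?_
  · refine h.trans (le_of_eq ?_)
    congr 1
    ring
  · intro v hv
    simp only [Set.mem_ofPred_eq] at hv ⊢
    have h1 := sep_pq b v
    rw [norm_sub_rev] at h1
    have h2 := rX_p_pos b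
    linarith

lemma chi_energy (b : V1) {δ : ℝ} (hδ : 0 < δ) (hb : rX (VX.p b) ≤ δ) :
    ∑' s : HG.edgeSet, ENNReal.ofReal (dsq (fun v => chi (zX (VX.p b)) δ (zX (VX.p v))) s)
      ≤ ENNReal.ofReal 1600 := by
  have h := tsum_edge_le_area
    (fun s => ENNReal.ofReal (dsq (fun v => chi (zX (VX.p b)) δ (zX (VX.p v))) s))
    {v : V1 | ‖zX (VX.p v) - zX (VX.p b)‖ < 2 * δ} (25 / δ ^ 2) (16 * δ ^ 2) (by positivity)
    ?_ ?_ (area_near b hδ hb)
  · refine h.trans (le_of_eq ?_)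
    congr 1
    field_simp
    norm_num
  · intro s _ hs
    induction s with
    | _ v w =>
      by_contra hc
      push Not at hc
      have h1 : ∀ y ∈ s(v, w), chi (zX (VX.p b)) δ (zX (VX.p y)) = 0 := by
        intro y hy
        apply chi_eq_zero hδ
        by_contra hn
        push Not at hn
        exact hc y hn hy
      apply hs
      simp only [dsq_mk]
      rw [h1 v (Sym2.mem_mk_left v w), h1 w (Sym2.mem_mk_right v w)]
      simp
  · intro v _ w hw
    apply ENNReal.ofReal_le_ofReal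
    simp only [dsq_mk]
    have := chi_sq_le (c := zX (VX.p b)) hδ (dist_pp_le hw)
    norm_num at this
    exact this

lemma chi_energy2 (b : V1) {δ : ℝ} (hδ : 0 < δ) (hb : rX (VX.p b) ≤ δ) :
    ∑' p : Pr, ENNReal.ofReal ((chi (zX (VX.p b)) δ (zX (VX.p p.1.1))
      - chi (zX (VX.p b)) δ (zX (VX.q p.1.2))) ^ 2) ≤ ENNReal.ofReal 16800 := by
  classical
  set f : V1 → V2 → ℝ≥0∞ := fun v u => ENNReal.ofReal ((chi (zX (VX.p b)) δ (zX (VX.p v))
      - chi (zX (VX.p b)) δ (zX (VX.q u))) ^ 2) with hf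
  set A : Set V1 := {v : V1 | ‖zX (VX.p v) - zX (VX.p b)‖ < 2 * δ} with hA
  set A' : Set V2 := {v : V2 | ‖zX (VX.q v) - zX (VX.p b)‖ < 2 * δ} with hA'
  have h1 := tsum_pair_le_area (fun v u => if v ∈ A then f v u else 0) A (81 / δ ^ 2)
    (16 * δ ^ 2) (by positivity) ?_ ?_ (area_near b hδ hb)
  · have h2 := tsum_pair_le_area' (fun v u => if u ∈ A' then f v u else 0) A' (121 / δ ^ 2)
      (16 * δ ^ 2) (by positivity) ?_ ?_ (area_near' b hδ)
    · calc ∑' p : Pr, f p.1.1 p.1.2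
          ≤ ∑' p : Pr, ((if p.1.1 ∈ A then f p.1.1 p.1.2 else 0)
            + (if p.1.2 ∈ A' then f p.1.1 p.1.2 else 0)) := by
            apply ENNReal.tsum_le_tsum
            intro p
            by_cases c1 : p.1.1 ∈ A
            · rw [if_pos c1]
              exact le_self_add
            · by_cases c2 : p.1.2 ∈ A'
              · rw [if_pos c2]
                exact le_add_self
              · have e1 : chi (zX (VX.p b)) δ (zX (VX.p p.1.1)) = 0 := by
                  apply chi_eq_zero hδ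
                  by_contra hn
                  push Not at hn
                  exact c1 hn
                have e2 : chi (zX (VX.p b)) δ (zX (VX.q p.1.2)) = 0 := by
                  apply chi_eq_zero hδ
                  by_contra hn
                  push Not at hn
                  exact c2 hn
                simp only [hf, e1, e2]
                simp
        _ = _ := ENNReal.tsum_add
        _ ≤ _ := add_le_add h1 h2
        _ = ENNReal.ofReal 16800 := by
            rw [← ENNReal.ofReal_add (by positivity) (by positivity)]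
            congr 1
            field_simp
            norm_num
    · intro v u _ h
      by_contra hc
      exact h (if_neg hc)
    · intro u hu v h
      show (if u ∈ A' then f v u else 0) ≤ _
      rw [if_pos hu]
      apply ENNReal.ofReal_le_ofReal
      have := chi_sq_le (c := zX (VX.p b)) hδ (dist_pq_le' h)
      norm_num at this
      exact this
  · intro v u _ h
    by_contra hc
    exact h (if_neg hc)
  · intro v hv u h
    show (if v ∈ A then f v u else 0) ≤ _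
    rw [if_pos hv]
    apply ENNReal.ofReal_le_ofReal
    have := chi_sq_le (c := zX (VX.p b)) hδ (dist_pq_le h)
    norm_num at this
    exact this

/-! ### walks and distances -/

lemma walk_bound {b y : V1} (w : HG.Walk b y) : rX (VX.p y) ≤ 4 ^ w.length * rX (VX.p b) ∧
    ‖zX (VX.p b) - zX (VX.p y)‖ ≤ 2 * (4 ^ w.length - 1) * rX (VX.p b) := by
  induction w with
  | nil => simp
  | @cons b c y h p ih =>
    obtain ⟨ih1, ih2⟩ := ih
    have h1 : rX (VX.p c) ≤ 4 * rX (VX.p b) := rX_le_of_adj h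
    have h2 : ‖zX (VX.p b) - zX (VX.p c)‖ ≤ 5 * rX (VX.p b) := dist_pp_le h
    have h3 : (1 : ℝ) ≤ 4 ^ p.length := one_le_pow₀ (by norm_num)
    have h4 := rX_p_pos b
    rw [SimpleGraph.Walk.length_cons, pow_succ]
    constructor
    · calc rX (VX.p y) ≤ 4 ^ p.length * rX (VX.p c) := ih1
        _ ≤ 4 ^ p.length * (4 * rX (VX.p b)) := by gcongr
        _ = _ := by ring
    · calc ‖zX (VX.p b) - zX (VX.p y)‖
          ≤ ‖zX (VX.p b) - zX (VX.p c)‖ + ‖zX (VX.p c) - zX (VX.p y)‖ := norm_sub_le_norm_sub_add_norm_sub _ _ _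
        _ ≤ 5 * rX (VX.p b) + 2 * (4 ^ p.length - 1) * rX (VX.p c) := add_le_add h2 ih2
        _ ≤ 5 * rX (VX.p b) + 2 * (4 ^ p.length - 1) * (4 * rX (VX.p b)) := by
            have : 0 ≤ 2 * ((4 : ℝ) ^ p.length - 1) := by linarith
            gcongr
        _ ≤ _ := by nlinarith

lemma dist_bound {b y : V1} {m : ℕ} (h : HG.dist b y ≤ m) :
    rX (VX.p y) ≤ 4 ^ m * rX (VX.p b) ∧
    ‖zX (VX.p y) - zX (VX.p b)‖ ≤ 2 * 4 ^ m * rX (VX.p b) := by
  obtain ⟨w, hw⟩ := HG_connected.exists_walk_length_eq_dist b y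
  obtain ⟨h1, h2⟩ := walk_bound w
  have h3 : (4 : ℝ) ^ w.length ≤ 4 ^ m := by
    apply pow_le_pow_right₀ (by norm_num)
    omega
  have h4 := rX_p_pos b
  constructor
  · exact h1.trans (by gcongr)
  · rw [norm_sub_rev]
    refine h2.trans ?_
    have : 2 * ((4 : ℝ) ^ w.length - 1) ≤ 2 * 4 ^ m := by linarith
    gcongr

/-- far end of the path -/
theorem x_end (e : DE) (n : ℕ) (h : HG.dist o e.v ≤ n) :
    (2 : ℝ) ^ ((n : ℝ) ^ 2 - 2 * n - 1) ≤ (pth e (Lp n)).x := by
  have h1 : (2 : ℤ) ^ (n ^ 2) ≤ MM e.v (pth e (Lp n)) := two_pow_le_MM_pth e (n ^ 2)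
  have h2 := MM_le e.v (pth e (Lp n))
  have h3 : e.v.x ≤ 4 ^ n := (x_le_pow e.v).trans (pow_le_pow_right₀ (by norm_num) h)
  have h4 := (pth e (Lp n)).pos
  have h5 : (2 : ℤ) ^ (n ^ 2) ≤ 2 * 4 ^ n * (pth e (Lp n)).x := by
    refine h1.trans (h2.trans ?_)
    gcongr
  have h6 : (2 : ℝ) ^ (n ^ 2) ≤ 2 * 4 ^ n * (pth e (Lp n)).x := by exact_mod_cast h5
  have h7 : (2 : ℝ) ^ ((n : ℝ) ^ 2 - 2 * n - 1) = 2 ^ (n ^ 2) / (2 * 4 ^ n) := by
    rw [Real.rpow_sub (by norm_num), Real.rpow_sub (by norm_num), Real.rpow_one]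
    have e1 : (2 : ℝ) ^ ((n : ℝ) ^ 2) = 2 ^ (n ^ 2) := by
      rw [← Real.rpow_natCast 2 (n ^ 2)]
      push_cast
      rfl
    have e2 : (2 : ℝ) ^ (2 * (n : ℝ)) = 4 ^ n := by
      rw [Real.rpow_mul (by norm_num), Real.rpow_natCast]
      norm_num
    rw [e1, e2]
    field_simp
  rw [h7, div_le_iff₀ (by positivity)]
  linarith

lemma dl_pos (n : ℕ) : 0 < dl n := by
  unfold dl
  positivity

/-- everything near the end of the path is much smaller than the scale of the cut-off -/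
lemma small_end {e : DE} {n : ℕ} (hn : 10 ≤ n) (h : HG.dist o e.v ≤ n) :
    32 * 4 ^ (Nat.sqrt n + 1) * rX (VX.p (pth e (Lp n))) ≤ dl n := by
  have h1 := rX_p_le (pth e (Lp n))
  have h2 := x_end e n h
  have hx := one_le_x (pth e (Lp n))
  have hnr : (10 : ℝ) ≤ n := by exact_mod_cast hn
  have h3 : (2 * (Nat.sqrt n + 1) + 5 : ℕ) ≤ n + 8 := by
    have := Nat.sqrt_le' n
    nlinarith
  have h4 : (32 : ℝ) * 4 ^ (Nat.sqrt n + 1) ≤ 2 ^ (n + 8) := by
    calc (32 : ℝ) * 4 ^ (Nat.sqrt n + 1) = 2 ^ (2 * (Nat.sqrt n + 1) + 5) := by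
          rw [pow_add (2 : ℝ) (2 * (Nat.sqrt n + 1)) 5, pow_mul (2 : ℝ)]
          norm_num
          ring
      _ ≤ 2 ^ (n + 8) := pow_le_pow_right₀ (by norm_num) h3
  have h5 : rX (VX.p (pth e (Lp n))) ≤ (2 : ℝ) ^ (-((n : ℝ) ^ 2 - 2 * n - 1)) := by
    rw [Real.rpow_neg (by norm_num), ← one_div]
    exact h1.trans (one_div_le_one_div_of_le (by positivity) h2)
  calc 32 * 4 ^ (Nat.sqrt n + 1) * rX (VX.p (pth e (Lp n)))
      ≤ 2 ^ (n + 8) * (2 : ℝ) ^ (-((n : ℝ) ^ 2 - 2 * n - 1)) := by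
        have := rX_p_pos (pth e (Lp n))
        gcongr
    _ = (2 : ℝ) ^ ((n : ℝ) + 8 + (-((n : ℝ) ^ 2 - 2 * n - 1))) := by
        rw [Real.rpow_add (by norm_num)]
        congr 1
        rw [← Real.rpow_natCast]
        push_cast
        rfl
    _ ≤ dl n := by
        unfold dl
        apply Real.rpow_le_rpow_of_exponent_le (by norm_num)
        nlinarith

/-! ### the test functions -/

/-- the path of the cluster -/
def Pt (e : DE) (n : ℕ) : Set V1 := {y | ∃ i ≤ Lp n, y = pth e i}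

lemma Pt_eq (e : DE) (n : ℕ) : Pt e n = (fun i => pth e i) '' (Set.Iic (Lp n)) := by
  ext y
  constructor
  · rintro ⟨i, hi, rfl⟩
    exact ⟨i, hi, rfl⟩
  · rintro ⟨i, hi, rfl⟩
    exact ⟨i, hi, rfl⟩

lemma Pt_finite (e : DE) (n : ℕ) : (Pt e n).Finite := by
  rw [Pt_eq]
  exact (Set.finite_Iic _).image _

lemma Pt_encard_le (e : DE) (n : ℕ) : (Pt e n).encard ≤ ((n ^ 2 + 1 : ℕ) : ℕ∞) := by
  rw [Pt_eq]
  refine (Set.encard_image_le _ _).trans (le_of_eq ?_)
  rw [← Finset.coe_Iic, Set.encard_coe_eq_coe_finsetCard, Nat.card_Iic]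
  rfl

lemma psi1_eq (e : DE) (n : ℕ) (v : V1) [Decidable (v ∈ Kc e n)] :
    psi1 e n v = max (chi (zX (VX.p (pth e (Lp n)))) (dl n) (zX (VX.p v)))
      (if v ∈ Kc e n then 1 else 0) := by
  unfold psi1 chi
  congr

lemma psi1_of_not_mem {e : DE} {n : ℕ} {v : V1} (h : v ∉ Kc e n) :
    psi1 e n v = chi (zX (VX.p (pth e (Lp n)))) (dl n) (zX (VX.p v)) := by
  classical
  rw [psi1_eq, if_neg h, max_eq_left (chi_nonneg _ _ _)]

lemma psi1_of_mem {e : DE} {n : ℕ} {v : V1} (h : v ∈ Kc e n) : psi1 e n v = 1 := by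
  classical
  rw [psi1_eq, if_pos h, max_eq_right (chi_le_one _ _ _)]

lemma psi1_nonneg (e : DE) (n : ℕ) (v : V1) : 0 ≤ psi1 e n v := by
  classical
  rw [psi1_eq]
  exact le_max_of_le_left (chi_nonneg _ _ _)

lemma psi1_le_one (e : DE) (n : ℕ) (v : V1) : psi1 e n v ≤ 1 := by
  classical
  by_cases h : v ∈ Kc e n
  · exact (psi1_of_mem h).le
  · rw [psi1_of_not_mem h]
    exact chi_le_one _ _ _

lemma psi2_eq (e : DE) (n : ℕ) (u : V2) :
    psi2 e n u = chi (zX (VX.p (pth e (Lp n)))) (dl n) (zX (VX.q u)) := rfl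

lemma sq_sub_le_one {a b : ℝ} (ha : 0 ≤ a) (ha1 : a ≤ 1) (hb : 0 ≤ b) (hb1 : b ≤ 1) :
    (a - b) ^ 2 ≤ 1 := by
  rw [sq_le_one_iff_abs_le_one, abs_le]
  constructor <;> linarith

lemma dist_succ {b v w : V1} {m : ℕ} (h : HG.dist b v ≤ m) (hvw : MM v w = 2) :
    HG.dist b w ≤ m + 1 := by
  have h1 : HG.dist b w ≤ HG.dist b v + HG.dist v w := HG_connected.dist_triangle
  have h2 : HG.dist v w = 1 := SimpleGraph.dist_eq_one_iff_adj.mpr hvw
  omega

lemma chi_near {e : DE} {n : ℕ} (hn : 10 ≤ n) (h : HG.dist o e.v ≤ n) {v : V1}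
    (hv : HG.dist (pth e (Lp n)) v ≤ Nat.sqrt n + 1) :
    chi (zX (VX.p (pth e (Lp n)))) (dl n) (zX (VX.p v)) = 1 := by
  apply chi_eq_one (dl_pos n)
  have h1 := (dist_bound hv).2
  have h2 := small_end hn h
  have h3 := rX_p_pos (pth e (Lp n))
  have h4 : 0 < (4 : ℝ) ^ (Nat.sqrt n + 1) * rX (VX.p (pth e (Lp n))) := by positivity
  linarith

lemma chi_near2 {e : DE} {n : ℕ} (hn : 10 ≤ n) (h : HG.dist o e.v ≤ n) {v : V1} {u : V2}
    (hv : HG.dist (pth e (Lp n)) v ≤ Nat.sqrt n + 1) (hvu : NN v u = 1) :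
    chi (zX (VX.p (pth e (Lp n)))) (dl n) (zX (VX.q u)) = 1 := by
  apply chi_eq_one (dl_pos n)
  have h1 := (dist_bound hv).2
  have h1' := (dist_bound hv).1
  have h2 := small_end hn h
  have h3 := rX_p_pos (pth e (Lp n))
  have h4 : 0 < (4 : ℝ) ^ (Nat.sqrt n + 1) * rX (VX.p (pth e (Lp n))) := by positivity
  have h5 := dist_pq_le hvu
  rw [norm_sub_rev] at h5
  have h6 := norm_sub_le_norm_sub_add_norm_sub (zX (VX.q u)) (zX (VX.p v))
    (zX (VX.p (pth e (Lp n))))
  linarith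

lemma r_end_le {e : DE} {n : ℕ} (hn : 10 ≤ n) (h : HG.dist o e.v ≤ n) :
    rX (VX.p (pth e (Lp n))) ≤ dl n := by
  have h2 := small_end hn h
  have h3 := rX_p_pos (pth e (Lp n))
  have h4 : (1 : ℝ) ≤ 4 ^ (Nat.sqrt n + 1) := one_le_pow₀ (by norm_num)
  nlinarith

open Classical in
lemma dpsi_le {e : DE} {n : ℕ} (hn : 10 ≤ n) (h : HG.dist o e.v ≤ n) {s : Sym2 V1}
    (hs : s ∈ HG.edgeSet) :
    ENNReal.ofReal (dpsi e n s) ≤
      ENNReal.ofReal (dsq (fun v => chi (zX (VX.p (pth e (Lp n)))) (dl n) (zX (VX.p v))) s)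
      + (if ∃ y ∈ Pt e n, y ∈ s then 1 else 0) := by
  induction s with
  | _ v w =>
    have hvw : MM v w = 2 := hs
    by_cases hp : ∃ y ∈ Pt e n, y ∈ s(v, w)
    · rw [if_pos hp]
      apply le_add_left
      rw [← ENNReal.ofReal_one]
      apply ENNReal.ofReal_le_ofReal
      exact sq_sub_le_one (psi1_nonneg _ _ _) (psi1_le_one _ _ _) (psi1_nonneg _ _ _)
        (psi1_le_one _ _ _)
    · rw [if_neg hp, add_zero]
      push Not at hp
      apply ENNReal.ofReal_le_ofReal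
      show (psi1 e n v - psi1 e n w) ^ 2 ≤ _
      simp only [dsq_mk]
      have hv : v ∉ Pt e n := fun hc => hp v hc (Sym2.mem_mk_left v w)
      have hw : w ∉ Pt e n := fun hc => hp w hc (Sym2.mem_mk_right v w)
      have key : ∀ {v w : V1}, MM v w = 2 → v ∈ Kc e n → v ∉ Pt e n → w ∉ Pt e n →
          psi1 e n v = 1 ∧ psi1 e n w = 1 := by
        intro v w hvw hv hv' hw'
        refine ⟨psi1_of_mem hv, ?_⟩
        by_cases hw : w ∈ Kc e n
        · exact psi1_of_mem hw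
        · rw [psi1_of_not_mem hw]
          apply chi_near hn h
          rcases hv with hv | hv
          · exact absurd hv hv'
          · exact dist_succ hv hvw
      by_cases hvK : v ∈ Kc e n
      · obtain ⟨e1, e2⟩ := key hvw hvK hv hw
        rw [e1, e2, sub_self, zero_pow two_ne_zero]
        exact sq_nonneg _
      · by_cases hwK : w ∈ Kc e n
        · obtain ⟨e1, e2⟩ := key (MM_comm v w ▸ hvw) hwK hw hv
          rw [e1, e2, sub_self, zero_pow two_ne_zero]
          exact sq_nonneg _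
        · rw [psi1_of_not_mem hvK, psi1_of_not_mem hwK]

open Classical in
lemma dpsi2_le {e : DE} {n : ℕ} (hn : 10 ≤ n) (h : HG.dist o e.v ≤ n) {v : V1} {u : V2}
    (hvu : NN v u = 1) :
    ENNReal.ofReal ((psi1 e n v - psi2 e n u) ^ 2) ≤
      ENNReal.ofReal ((chi (zX (VX.p (pth e (Lp n)))) (dl n) (zX (VX.p v))
        - chi (zX (VX.p (pth e (Lp n)))) (dl n) (zX (VX.q u))) ^ 2)
      + (if v ∈ Pt e n then 1 else 0) := by
  rw [psi2_eq]
  by_cases hp : v ∈ Pt e n
  · rw [if_pos hp]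
    apply le_add_left
    rw [← ENNReal.ofReal_one]
    apply ENNReal.ofReal_le_ofReal
    exact sq_sub_le_one (psi1_nonneg _ _ _) (psi1_le_one _ _ _) (chi_nonneg _ _ _)
      (chi_le_one _ _ _)
  · rw [if_neg hp, add_zero]
    by_cases hvK : v ∈ Kc e n
    · have h1 : HG.dist (pth e (Lp n)) v ≤ Nat.sqrt n := by
        rcases hvK with hv | hv
        · exact absurd hv hp
        · exact hv
      rw [psi1_of_mem hvK, chi_near2 hn h (h1.trans (Nat.le_succ _)) hvu]
      simp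
    · rw [psi1_of_not_mem hvK]

theorem dpsi_sum : ∃ C : ℝ, ∀ᶠ n : ℕ in atTop, ∀ e : DE, HG.dist o e.v ≤ n →
    (∑' s : HG.edgeSet, ENNReal.ofReal (dpsi e n s) ≤ ENNReal.ofReal (C * n ^ 2)) ∧
    (∑' p : {p : V1 × V2 // NN p.1 p.2 = 1},
      ENNReal.ofReal ((psi1 e n p.1.1 - psi2 e n p.1.2) ^ 2) ≤ ENNReal.ofReal (C * n ^ 2)) := by
  classical
  refine ⟨200, ?_⟩
  filter_upwards [eventually_ge_atTop 10] with n hn
  intro e he
  have hn' : (10 : ℝ) ≤ n := by exact_mod_cast hn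
  have hcard : ∑' _ : Pt e n, (4 : ℝ≥0∞) ≤ ENNReal.ofReal (4 * (n ^ 2 + 1)) := by
    rw [ENNReal.tsum_set_const]
    have h1 := Pt_encard_le e n
    have h2 : ((Pt e n).encard : ℝ≥0∞) ≤ ((n ^ 2 + 1 : ℕ) : ℝ≥0∞) := by
      have := ENat.toENNReal_le.mpr h1
      simpa using this
    calc ((Pt e n).encard : ℝ≥0∞) * 4 ≤ ((n ^ 2 + 1 : ℕ) : ℝ≥0∞) * 4 := by gcongr
      _ = ENNReal.ofReal (4 * (n ^ 2 + 1)) := by
          rw [ENNReal.ofReal_mul (by norm_num), mul_comm]
          congr 1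
          · norm_num
          · rw [← ENNReal.ofReal_natCast]
            push_cast
            rfl
  constructor
  · have h1 := chi_energy (pth e (Lp n)) (dl_pos n) (r_end_le hn he)
    have h2 : ∑' s : HG.edgeSet, (if ∃ y ∈ Pt e n, y ∈ (s : Sym2 V1) then (1 : ℝ≥0∞) else 0)
        ≤ ENNReal.ofReal (4 * (n ^ 2 + 1)) := by
      refine (tsum_edge_le (fun s => if ∃ y ∈ Pt e n, y ∈ s then (1 : ℝ≥0∞) else 0) (Pt e n)
        ?_).trans ?_
      · intro s _ hs
        by_contra hc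
        exact hs (if_neg hc)
      · refine (ENNReal.tsum_le_tsum (fun v : Pt e n => tsum_nbr_le v
          (fun w => if ∃ y ∈ Pt e n, y ∈ s((v : V1), w) then (1 : ℝ≥0∞) else 0) 1 ?_)).trans ?_
        · intro w _
          show (if ∃ y ∈ Pt e n, y ∈ s((v : V1), w) then (1 : ℝ≥0∞) else 0) ≤ 1
          split_ifs <;> simp
        · simpa using hcard
    calc ∑' s : HG.edgeSet, ENNReal.ofReal (dpsi e n s)
        ≤ ∑' s : HG.edgeSet, (ENNReal.ofReal
            (dsq (fun v => chi (zX (VX.p (pth e (Lp n)))) (dl n) (zX (VX.p v))) s)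
            + (if ∃ y ∈ Pt e n, y ∈ (s : Sym2 V1) then 1 else 0)) :=
          ENNReal.tsum_le_tsum (fun s => dpsi_le hn he s.2)
      _ = _ := ENNReal.tsum_add
      _ ≤ _ := add_le_add h1 h2
      _ = ENNReal.ofReal (1600 + 4 * (n ^ 2 + 1)) := by
          rw [← ENNReal.ofReal_add (by positivity) (by positivity)]
      _ ≤ _ := by
          apply ENNReal.ofReal_le_ofReal
          nlinarith
  · have h1 := chi_energy2 (pth e (Lp n)) (dl_pos n) (r_end_le hn he)
    have h2 : ∑' p : Pr, (if p.1.1 ∈ Pt e n then (1 : ℝ≥0∞) else 0)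
        ≤ ENNReal.ofReal (4 * (n ^ 2 + 1)) := by
      refine (tsum_pair_le (fun v _ => if v ∈ Pt e n then (1 : ℝ≥0∞) else 0) (Pt e n)
        ?_).trans ?_
      · intro v u _ hs
        by_contra hc
        exact hs (if_neg hc)
      · refine (ENNReal.tsum_le_tsum (fun v : Pt e n => tsum_nbr2_le v
          (fun _ => if (v : V1) ∈ Pt e n then (1 : ℝ≥0∞) else 0) 1 ?_)).trans ?_
        · intro w _
          show (if (v : V1) ∈ Pt e n then (1 : ℝ≥0∞) else 0) ≤ 1
          split_ifs <;> simp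
        · simpa using hcard
    calc ∑' p : Pr, ENNReal.ofReal ((psi1 e n p.1.1 - psi2 e n p.1.2) ^ 2)
        ≤ ∑' p : Pr, (ENNReal.ofReal ((chi (zX (VX.p (pth e (Lp n)))) (dl n) (zX (VX.p p.1.1))
            - chi (zX (VX.p (pth e (Lp n)))) (dl n) (zX (VX.q p.1.2))) ^ 2)
            + (if p.1.1 ∈ Pt e n then 1 else 0)) :=
          ENNReal.tsum_le_tsum (fun p => dpsi2_le hn he p.2)
      _ = _ := ENNReal.tsum_add
      _ ≤ _ := add_le_add h1 h2
      _ = ENNReal.ofReal (16800 + 4 * (n ^ 2 + 1)) := by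
          rw [← ENNReal.ofReal_add (by positivity) (by positivity)]
      _ ≤ _ := by
          apply ENNReal.ofReal_le_ofReal
          nlinarith

/-! ### the clusters -/

theorem Kc_finite (e : DE) (n : ℕ) : (Kc e n).Finite :=
  (Pt_finite e n).union (ball_finite _ _)

theorem le_ncard_Kc : ∀ᶠ n : ℕ in atTop, ∀ e : DE, n ^ 3 ≤ (Kc e n).ncard := by
  have h1 : ∀ᶠ m : ℕ in atTop, ((m + 1 : ℝ)) ^ 6 ≤ (41 / 40 : ℝ) ^ m := by
    have h := tendsto_pow_const_div_const_pow_of_one_lt 6 (r := (41 / 40 : ℝ)) (by norm_num)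
    have h2 : ∀ᶠ m : ℕ in atTop, (m : ℝ) ^ 6 / (41 / 40) ^ m < 1 / 64 :=
      h.eventually (gt_mem_nhds (by norm_num))
    filter_upwards [h2, eventually_ge_atTop 1] with m hm hm1
    rw [div_lt_iff₀ (by positivity)] at hm
    have hm1' : (1 : ℝ) ≤ m := by exact_mod_cast hm1
    have h3 : ((m : ℝ) + 1) ^ 6 ≤ (2 * m) ^ 6 := by
      apply pow_le_pow_left₀ (by positivity)
      linarith
    rw [mul_pow] at h3
    linarith
  have h2 : Tendsto Nat.sqrt atTop atTop := by
    apply tendsto_atTop_atTop.mpr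
    intro b
    refine ⟨b ^ 2, fun a ha => ?_⟩
    rw [Nat.le_sqrt']
    exact ha
  filter_upwards [h2.eventually h1] with n hn
  intro e
  have h3 := le_ball (pth e (Lp n)) (Nat.sqrt n)
  have h4 : {y | HG.dist (pth e (Lp n)) y ≤ Nat.sqrt n}.ncard ≤ (Kc e n).ncard := by
    apply Set.ncard_le_ncard _ (Kc_finite e n)
    intro y hy
    exact Or.inr hy
  have h5 : (n : ℝ) ≤ (Nat.sqrt n + 1) ^ 2 := by
    have := Nat.lt_succ_sqrt' n
    exact_mod_cast this.le
  have h6 : (n : ℝ) ^ 3 ≤ ((Kc e n).ncard : ℝ) := by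
    calc (n : ℝ) ^ 3 ≤ ((Nat.sqrt n + 1 : ℝ) ^ 2) ^ 3 := by gcongr
      _ = (Nat.sqrt n + 1 : ℝ) ^ 6 := by ring
      _ ≤ (41 / 40 : ℝ) ^ (Nat.sqrt n) := hn
      _ ≤ _ := h3
      _ ≤ _ := by exact_mod_cast h4
  exact_mod_cast h6

lemma path_walk (e : DE) (n : ℕ) (j : ℕ) (hj : j ≤ Lp n) :
    ∃ w : HG.Walk (pth e (Lp n - j)) (pth e (Lp n)), w.length = j ∧
      ∀ y ∈ w.support, y ∈ Kc e n := by
  induction j with
  | zero =>
    refine ⟨SimpleGraph.Walk.nil, rfl, ?_⟩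
    intro y hy
    rw [SimpleGraph.Walk.support_nil, List.mem_singleton] at hy
    exact Or.inl ⟨Lp n, le_rfl, by rw [hy]; rfl⟩
  | succ j ih =>
    obtain ⟨w, hw, hs⟩ := ih (by omega)
    have h1 : Lp n - (j + 1) + 1 = Lp n - j := by omega
    have h2 : HG.Adj (pth e (Lp n - (j + 1))) (pth e (Lp n - j)) := by
      have := pth_adj e (Lp n - (j + 1))
      rw [h1] at this
      exact this
    refine ⟨SimpleGraph.Walk.cons h2 w, by rw [SimpleGraph.Walk.length_cons, hw], ?_⟩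
    intro y hy
    rw [SimpleGraph.Walk.support_cons, List.mem_cons] at hy
    rcases hy with hy | hy
    · exact Or.inl ⟨_, Nat.sub_le _ _, hy⟩
    · exact hs y hy

lemma to_end (e : DE) (n : ℕ) {x : V1} (hx : x ∈ Kc e n) :
    ∃ w : HG.Walk x (pth e (Lp n)), w.length ≤ n ^ 2 ∧ ∀ y ∈ w.support, y ∈ Kc e n := by
  rcases hx with ⟨i, hi, rfl⟩ | hx
  · have h2 := path_walk e n (Lp n - i) (Nat.sub_le _ _)
    have h1 : Lp n - (Lp n - i) = i := by omega
    rw [h1] at h2
    obtain ⟨w, hw, hs⟩ := h2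
    exact ⟨w, by rw [hw]; exact Nat.sub_le _ _, hs⟩
  · obtain ⟨w, hw⟩ := HG_connected.exists_walk_length_eq_dist (pth e (Lp n)) x
    refine ⟨w.reverse, ?_, ?_⟩
    · rw [SimpleGraph.Walk.length_reverse, hw]
      refine hx.trans ?_
      have := Nat.sqrt_le' n
      nlinarith [Nat.sqrt_le_self n]
    · intro y hy
      rw [SimpleGraph.Walk.support_reverse, List.mem_reverse] at hy
      right
      show HG.dist _ _ ≤ _
      calc HG.dist (pth e (Lp n)) y ≤ (w.takeUntil y hy).length := SimpleGraph.dist_le _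
        _ ≤ w.length := SimpleGraph.Walk.length_takeUntil_le_length _ _
        _ ≤ _ := by rw [hw]; exact hx

/-- any two vertices of the cluster are joined by a walk of at most `3 n^2` edges inside it -/
theorem Kc_walk (e : DE) (n : ℕ) {x y : V1} (hx : x ∈ Kc e n) (hy : y ∈ Kc e n) :
    ∃ w : HG.Walk x y, w.length ≤ 3 * n ^ 2 ∧ ∀ s ∈ w.edges, inK e n s := by
  obtain ⟨w1, h1, h2⟩ := to_end e n hx
  obtain ⟨w2, h3, h4⟩ := to_end e n hy
  refine ⟨w1.append w2.reverse, ?_, ?_⟩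
  · rw [SimpleGraph.Walk.length_append, SimpleGraph.Walk.length_reverse]
    omega
  · intro s hs
    refine ⟨SimpleGraph.Walk.edges_subset_edgeSet _ hs, ?_⟩
    intro z hz
    have : z ∈ (w1.append w2.reverse).support := by
      obtain ⟨z', rfl⟩ := hz
      exact SimpleGraph.Walk.fst_mem_support_of_mem_edges _ hs
    rw [SimpleGraph.Walk.mem_support_append_iff] at this
    rcases this with h | h
    · exact h2 z h
    · rw [SimpleGraph.Walk.support_reverse, List.mem_reverse] at h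
      exact h4 z h

end HExit
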