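import Pool.Agent.HExit.Lorentz
import Pool.Agent.HExit.Arith

/-!
# HExit: inner products of the circles
-/

namespace HExit

open R31

lemma geo_sq2 : √(2 : ℝ) * √2 = 2 := Real.mul_self_sqrt (by norm_num)
lemma geo_sq3 : √(3 : ℝ) * √3 = 3 := Real.mul_self_sqrt (by norm_num)
lemma geo_s6 : √(6 : ℝ) = √2 * √3 := by
  rw [← Real.sqrt_mul (by norm_num)]; norm_num
lemma geo_pos2 : 0 < √(2 : ℝ) := Real.sqrt_pos.mpr (by norm_num)
lemma geo_pos3 : 0 < √(3 : ℝ) := Real.sqrt_pos.mpr (by norm_num)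
lemma geo_div3 (x : ℝ) : x / √3 = x * √3 / 3 := by
  have h3 := geo_sq3
  have h := geo_pos3
  rw [div_eq_div_iff h.ne' (by norm_num)]
  linear_combination (-x) * h3

@[simp] lemma PV_T (v : V1) : (PV v).T = √2 * v.x := rfl
@[simp] lemma PV_re (v : V1) : (PV v).X.re = √6 * v.a := by simp [PV]
@[simp] lemma PV_im (v : V1) : (PV v).X.im = √6 * v.b := by simp [PV]
@[simp] lemma PV_σ (v : V1) : (PV v).σ = √3 := rfl

@[simp] lemma PU_T (u : V2) : (PU u).T = (2 + √2) * u.y := rfl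
@[simp] lemma PU_re (u : V2) : (PU u).X.re = (2 + √2) / √3 * u.c := by
  simp only [PU]
  have h : (2 + (√2 : ℝ) : ℂ) / (√3 : ℝ) = (((2 + √2) / √3 : ℝ) : ℂ) := by push_cast; ring
  rw [h, Complex.re_ofReal_mul]
  simp
@[simp] lemma PU_im (u : V2) : (PU u).X.im = (2 + √2) / √3 * u.d := by
  simp only [PU]
  have h : (2 + (√2 : ℝ) : ℂ) / (√3 : ℝ) = (((2 + √2) / √3 : ℝ) : ℂ) := by push_cast; ring
  rw [h, Complex.im_ofReal_mul]
  simp
@[simp] lemma PU_σ (u : V2) : (PU u).σ = (2 * √2 + 1) / √3 := rfl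

@[simp] lemma PE_T (e : Sym2 V1) : (PE e).T = √2 * sx e := rfl
@[simp] lemma PE_re (e : Sym2 V1) : (PE e).X.re = √6 * sa e := by simp [PE]
@[simp] lemma PE_im (e : Sym2 V1) : (PE e).X.im = √6 * sb e := by simp [PE]
@[simp] lemma PE_σ (e : Sym2 V1) : (PE e).σ = 2 * √3 := rfl

@[simp] lemma PQ_T (F : Face) : (PQ F).T = √3 * F.u.y + √6 / 3 * sx F.e := rfl
@[simp] lemma PQ_re (F : Face) : (PQ F).X.re = F.u.c + √2 * sa F.e := by simp [PQ]
@[simp] lemma PQ_im (F : Face) : (PQ F).X.im = F.u.d + √2 * sb F.e := by simp [PQ]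
@[simp] lemma PQ_σ (F : Face) : (PQ F).σ = 2 + √2 := rfl

@[simp] lemma sx_mk (v w : V1) : sx s(v, w) = v.x + w.x := rfl
@[simp] lemma sa_mk (v w : V1) : sa s(v, w) = v.a + w.a := rfl
@[simp] lemma sb_mk (v w : V1) : sb s(v, w) = v.b + w.b := rfl

lemma PE_mk (v w : V1) : PE s(v, w) = PV v + PV w := by
  apply R31.ext
  · simp; ring
  · apply Complex.ext
    · simp; ring
    · simp; ring
  · simp; ring

lemma ip_PV_PV (v w : V1) : ip (PV v) (PV w) = 3 - 2 * (MM v w : ℝ) := by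
  have h2 := geo_sq2
  have h3 := geo_sq3
  simp only [ip, PV_T, PV_re, PV_im, PV_σ, MM, geo_s6]
  push_cast
  linear_combination (-(v.x * w.x : ℝ) + (v.a * w.a + v.b * w.b) * √3 * √3) * h2 +
    (1 + 2 * (v.a * w.a + v.b * w.b : ℝ)) * h3

lemma ip_PV_PU (v : V1) (u : V2) :
    ip (PV v) (PU u) = 2 * √2 + 1 - (2 * √2 + 2) * (NN v u : ℝ) := by
  have h2 := geo_sq2
  have h3 := geo_sq3
  simp only [ip, PV_T, PV_re, PV_im, PV_σ, PU_T, PU_re, PU_im, PU_σ, NN, geo_s6, geo_div3]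
  push_cast
  linear_combination (-(v.x * u.y : ℝ) + (v.a * u.c + v.b * u.d)) * h2 +
    ((2 * √2 + 1) / 3 + √2 * (2 + √2) / 3 * (v.a * u.c + v.b * u.d : ℝ)) * h3

lemma ip_PU_PU (u w : V2) :
    ip (PU u) (PU w) = (9 + 4 * √2 - (6 + 4 * √2) * (LL u w : ℝ)) / 3 := by
  have h2 := geo_sq2
  have h3 := geo_sq3
  simp only [ip, PU_T, PU_re, PU_im, PU_σ, LL, geo_div3]
  push_cast
  linear_combination (-(u.y * w.y : ℝ) + (u.c * w.c + u.d * w.d) / 3 + 4 / 3) * h2 +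
    ((2 * √2 + 1) ^ 2 / 9 + (2 + √2) ^ 2 / 9 * (u.c * w.c + u.d * w.d : ℝ)) * h3

lemma Face.exists_mk (F : Face) : ∃ v w : V1, F.e = s(v, w) ∧ MM v w = 2 ∧ NN v F.u = 1 ∧
    NN w F.u = 1 := by
  obtain ⟨e, u, he, hu⟩ := F
  induction e with
  | _ v w => exact ⟨v, w, rfl, he, hu v (Sym2.mem_mk_left v w), hu w (Sym2.mem_mk_right v w)⟩

lemma ip_PQ_PV_gen {F : Face} {v w : V1} (h : F.e = s(v, w)) (z : V1) :
    ip (PQ F) (PV z) = 2 * √3 + √2 * √3 - √2 * √3 * (NN z F.u : ℝ)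
      - 2 * √3 / 3 * (MM z v + MM z w : ℝ) := by
  have h2 := geo_sq2
  have h3 := geo_sq3
  simp only [ip, PV_T, PV_re, PV_im, PV_σ, PQ_T, PQ_re, PQ_im, PQ_σ, NN, MM, geo_s6, h, sx_mk,
    sa_mk, sb_mk]
  push_cast
  linear_combination (-(√3 / 3 * (v.x + w.x) * z.x : ℝ) +
    √3 * ((v.a + w.a) * z.a + (v.b + w.b) * z.b)) * h2

lemma ip_PQ_PU_gen {F : Face} {v w : V1} (h : F.e = s(v, w)) (z : V2) :
    ip (PQ F) (PU z) = (2 + √2) * √3 / 3 * (2 * √2 + 1 - (LL F.u z : ℝ)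
      - √2 * (NN v z + NN w z : ℝ)) := by
  have h2 := geo_sq2
  have h3 := geo_sq3
  simp only [ip, PU_T, PU_re, PU_im, PU_σ, PQ_T, PQ_re, PQ_im, PQ_σ, NN, LL, geo_s6, h, sx_mk,
    sa_mk, sb_mk, geo_div3]
  push_cast
  ring

lemma ip_PQ_PQ_gen {F F' : Face} {v w v' w' : V1} (h : F.e = s(v, w)) (h' : F'.e = s(v', w')) :
    ip (PQ F) (PQ F') = 6 + 4 * √2 - (LL F.u F'.u : ℝ)
      - √2 * (NN v F'.u + NN w F'.u + NN v' F.u + NN w' F.u : ℝ)
      - 2 / 3 * (MM v v' + MM v w' + MM w v' + MM w w' : ℝ) := by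
  have h2 := geo_sq2
  have h3 := geo_sq3
  simp only [ip, PQ_T, PQ_re, PQ_im, PQ_σ, NN, LL, MM, geo_s6, h, h', sx_mk,
    sa_mk, sb_mk]
  push_cast
  linear_combination (-(F.u.y * F'.u.y : ℝ) - √2 / 3 * (F.u.y * (v'.x + w'.x) +
    (v.x + w.x) * F'.u.y) - √2 * √2 / 9 * ((v.x + w.x) * (v'.x + w'.x))) * h3 +
    (-(1 / 3) * ((v.x + w.x) * (v'.x + w'.x) : ℝ) + ((v.a + w.a) * (v'.a + w'.a) +
      (v.b + w.b) * (v'.b + w'.b)) + 1) * h2

/-! ### the orthogonal circles -/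

lemma three_le_LL {u w : V2} (h : u ≠ w) : 3 ≤ LL u w := by
  have h1 := one_le_LL u w
  have h2 : LL u w ≠ 1 := fun hc => h (LL_eq_one.mp hc)
  obtain ⟨k, hk⟩ := LL_odd u w
  omega

lemma two_le_MM {v w : V1} (h : v ≠ w) : 2 ≤ MM v w := by
  have h1 := one_le_MM v w
  have h2 : MM v w ≠ 1 := fun hc => h (MM_eq_one.mp hc)
  omega

theorem ip_PQ_self (F : Face) : R31.ip (PQ F) (PQ F) = 1 := by
  obtain ⟨v, w, h, h1, h2, h3⟩ := F.exists_mk
  rw [ip_PQ_PQ_gen h h, LL_self, MM_self, MM_self, MM_comm w v, h1, h2, h3]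
  push_cast
  ring

theorem ip_PQ_PV_of_mem {F : Face} {v : V1} (hv : v ∈ F.e) : R31.ip (PQ F) (PV v) = 0 := by
  obtain ⟨x, y, h, h1, h2, h3⟩ := F.exists_mk
  rw [h, Sym2.mem_iff] at hv
  rw [ip_PQ_PV_gen h]
  rcases hv with rfl | rfl
  · rw [MM_self, h1, h2]; push_cast; ring
  · rw [MM_self, MM_comm v x, h1, h3]; push_cast; ring

theorem ip_PQ_PV {F : Face} {v : V1} (hv : v ∉ F.e) : R31.ip (PQ F) (PV v) < -1 := by
  obtain ⟨x, y, h, h1, h2, h3⟩ := F.exists_mk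
  rw [h, Sym2.mem_iff, not_or] at hv
  rw [ip_PQ_PV_gen h]
  have e1 : (1 : ℝ) ≤ NN v F.u := by exact_mod_cast one_le_NN v F.u
  have e2 : (2 : ℝ) ≤ MM v x := by exact_mod_cast two_le_MM hv.1
  have e3 : (2 : ℝ) ≤ MM v y := by exact_mod_cast two_le_MM hv.2
  have p2 := geo_pos2
  have p3 := geo_pos3
  have q3 : (1.7 : ℝ) ≤ √3 := Real.le_sqrt_of_sq_le (by norm_num)
  nlinarith [mul_le_mul_of_nonneg_left e1 (mul_pos p2 p3).le,
    mul_le_mul_of_nonneg_left e2 p3.le, mul_le_mul_of_nonneg_left e3 p3.le]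

theorem ip_PQ_PU_self (F : Face) : R31.ip (PQ F) (PU F.u) = 0 := by
  obtain ⟨x, y, h, h1, h2, h3⟩ := F.exists_mk
  rw [ip_PQ_PU_gen h, LL_self, h2, h3]
  push_cast; ring

theorem ip_PQ_PU {F : Face} {u : V2} (hu : u ≠ F.u) : R31.ip (PQ F) (PU u) < -1 := by
  obtain ⟨x, y, h, h1, h2, h3⟩ := F.exists_mk
  rw [ip_PQ_PU_gen h]
  have e1 : (1 : ℝ) ≤ NN x u := by exact_mod_cast one_le_NN x u
  have e2 : (1 : ℝ) ≤ NN y u := by exact_mod_cast one_le_NN y u
  have e3 : (3 : ℝ) ≤ LL F.u u := by exact_mod_cast three_le_LL (Ne.symm hu)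
  have p2 := geo_pos2
  have p3 := geo_pos3
  have q3 : (1.7 : ℝ) ≤ √3 := Real.le_sqrt_of_sq_le (by norm_num)
  have h4 : 2 * √2 + 1 - (LL F.u u : ℝ) - √2 * (NN x u + NN y u : ℝ) ≤ -2 := by
    nlinarith [mul_le_mul_of_nonneg_left e1 p2.le, mul_le_mul_of_nonneg_left e2 p2.le]
  have h5 : 0 < (2 + √2) * √3 / 3 := by positivity
  have h6 : 1 < (2 + √2) * √3 / 3 := by nlinarith
  nlinarith [mul_le_mul_of_nonneg_left h4 h5.le]

theorem ip_PE_PU_self (F : Face) : R31.ip (PE F.e) (PU F.u) = -2 := by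
  obtain ⟨x, y, h, h1, h2, h3⟩ := F.exists_mk
  rw [h, PE_mk, ip_add_left, ip_PV_PU, ip_PV_PU, h2, h3]
  push_cast; ring

theorem ip_PE_PE_self (F : Face) : R31.ip (PE F.e) (PE F.e) = 0 := by
  obtain ⟨x, y, h, h1, h2, h3⟩ := F.exists_mk
  rw [h, PE_mk, ip_add_left, ip_add_right, ip_add_right, ip_PV_PV, ip_PV_PV, ip_PV_PV, ip_PV_PV,
    MM_self, MM_self, MM_comm y x, h1]
  push_cast; ring

theorem ip_PE_PQ_self (F : Face) : R31.ip (PE F.e) (PQ F) = 0 := by
  obtain ⟨x, y, h, h1, h2, h3⟩ := F.exists_mk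
  rw [ip_comm, h, PE_mk, ip_add_right, ip_PQ_PV_of_mem, ip_PQ_PV_of_mem, add_zero]
  · rw [h]; exact Sym2.mem_mk_right _ _
  · rw [h]; exact Sym2.mem_mk_left _ _

lemma ne_of_MM_two {v w : V1} (h : MM v w = 2) : v ≠ w := by
  rintro rfl
  rw [MM_self] at h
  omega

lemma geo_aux1 {v w w' : V1} {u u' : V2} (h1 : MM v w = 2) (h1' : MM v w' = 2)
    (hu : NN v u = 1) (hw : NN w u = 1) (hw' : NN w' u' = 1) (hne : ¬ (w = w' ∧ u = u')) :
    21 ≤ 3 * LL u u' + 2 * (MM v v + MM v w' + MM w v + MM w w') := by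
  rw [MM_self, MM_comm w v, h1, h1']
  by_cases hu' : u = u'
  · subst hu'
    have hww : w ≠ w' := fun h => hne ⟨h, rfl⟩
    rcases gram h1 h1' hu hw hw' with h | h
    · exact absurd h hww
    · rw [h, LL_self]; norm_num
  · have h3 := three_le_LL hu'
    by_cases hww : w = w'
    · subst hww
      rw [MM_self]; omega
    · have := two_le_MM hww
      omega

lemma geo_aux {v w v' w' : V1} {u u' : V2} (h1 : MM v w = 2) (h1' : MM v' w' = 2)
    (hv : NN v u = 1) (hw : NN w u = 1) (hv' : NN v' u' = 1) (hw' : NN w' u' = 1)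
    (hne : ¬ (s(v, w) = s(v', w') ∧ u = u')) :
    21 ≤ 3 * LL u u' + 2 * (MM v v' + MM v w' + MM w v' + MM w w') := by
  by_cases c1 : v = v'
  · subst c1
    exact geo_aux1 h1 h1' hv hw hw' (fun h => hne ⟨by rw [h.1], h.2⟩)
  by_cases c2 : v = w'
  · subst c2
    have := geo_aux1 h1 ((MM_comm v v').trans h1') hv hw hv'
      (fun h => hne ⟨by rw [h.1]; exact Sym2.eq_swap, h.2⟩)
    linarith
  by_cases c3 : w = v'
  · subst c3
    have := geo_aux1 ((MM_comm w v).trans h1) h1' hw hv hw'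
      (fun h => hne ⟨by rw [h.1]; exact Sym2.eq_swap, h.2⟩)
    linarith
  by_cases c4 : w = w'
  · subst c4
    have := geo_aux1 ((MM_comm w v).trans h1) ((MM_comm w v').trans h1') hw hv hv'
      (fun h => hne ⟨by rw [h.1], h.2⟩)
    linarith
  have m1 := two_le_MM c1
  have m2 := two_le_MM c2
  have m3 := two_le_MM c3
  have m4 := two_le_MM c4
  by_cases hu' : u = u'
  · subst hu'
    rw [LL_self]
    by_contra hlt
    exact parity4 h1 h1' (by omega) (by omega) (by omega) (by omega)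
  · have h3 := three_le_LL hu'
    omega

theorem ip_PQ_PQ {F F' : Face} (h : F ≠ F') : R31.ip (PQ F) (PQ F') ≤ -1 := by
  obtain ⟨v, w, hF, h1, h2, h3⟩ := F.exists_mk
  obtain ⟨v', w', hF', h1', h2', h3'⟩ := F'.exists_mk
  rw [ip_PQ_PQ_gen hF hF']
  have hne : ¬ (s(v, w) = s(v', w') ∧ F.u = F'.u) := by
    rintro ⟨ha, hb⟩
    exact h (Face.ext (by rw [hF, hF', ha]) hb)
  have key := geo_aux h1 h1' h2 h3 h2' h3' hne
  have key' : (21 : ℝ) ≤ 3 * LL F.u F'.u + 2 * (MM v v' + MM v w' + MM w v' + MM w w') := by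
    exact_mod_cast key
  have e1 : (1 : ℝ) ≤ NN v F'.u := by exact_mod_cast one_le_NN v F'.u
  have e2 : (1 : ℝ) ≤ NN w F'.u := by exact_mod_cast one_le_NN w F'.u
  have e3 : (1 : ℝ) ≤ NN v' F.u := by exact_mod_cast one_le_NN v' F.u
  have e4 : (1 : ℝ) ≤ NN w' F.u := by exact_mod_cast one_le_NN w' F.u
  have p2 := geo_pos2
  nlinarith [mul_le_mul_of_nonneg_left e1 p2.le, mul_le_mul_of_nonneg_left e2 p2.le,
    mul_le_mul_of_nonneg_left e3 p2.le, mul_le_mul_of_nonneg_left e4 p2.le]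

/-! ### the circles of the vertices -/

lemma ip_PV_self (v : V1) : ip (PV v) (PV v) = 1 := by
  rw [ip_PV_PV, MM_self]; norm_num

lemma ip_PU_self (u : V2) : ip (PU u) (PU u) = 1 := by
  rw [ip_PU_PU, LL_self]; push_cast; ring

/-- inner product of circles of stacks of the same face -/
lemma ip_PT_PT_self (F : Face) (i j : ℕ) :
    ip (PT F i) (PT F j) = 1 - 2 * ((i : ℝ) - j) ^ 2 := by
  simp only [PT, ip_add_left, ip_add_right, ip_smul_left, ip_smul_right]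
  rw [ip_PU_self, ip_comm (PU F.u) (PQ F), ip_PQ_PU_self, ip_comm (PU F.u) (PE F.e),
    ip_PE_PU_self, ip_PQ_self, ip_comm (PQ F) (PE F.e), ip_PE_PQ_self, ip_PE_PE_self]
  ring

lemma ip_PE_PV_of_mem {F : Face} {v : V1} (hv : v ∈ F.e) : ip (PE F.e) (PV v) = 0 := by
  obtain ⟨x, y, h, h1, h2, h3⟩ := F.exists_mk
  rw [h, Sym2.mem_iff] at hv
  rw [h, PE_mk, ip_add_left, ip_PV_PV, ip_PV_PV]
  rcases hv with rfl | rfl
  · rw [MM_self, MM_comm y v, h1]; push_cast; ring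
  · rw [MM_self, h1]; push_cast; ring

lemma ip_PT_PV_of_mem {F : Face} {v : V1} (hv : v ∈ F.e) (j : ℕ) :
    ip (PT F j) (PV v) = -1 := by
  simp only [PT, ip_add_left, ip_smul_left]
  rw [ip_comm (PU F.u), ip_PV_PU, F.hu v hv, ip_PQ_PV_of_mem hv, ip_PE_PV_of_mem hv]
  push_cast; ring

lemma ip_PV_PU_le (v : V1) (u : V2) : ip (PV v) (PU u) ≤ -1 := by
  rw [ip_PV_PU]
  have e1 : (1 : ℝ) ≤ NN v u := by exact_mod_cast one_le_NN v u
  have p2 := geo_pos2
  nlinarith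

lemma ip_PV_PU_lt {v : V1} {u : V2} (h : NN v u ≠ 1) : ip (PV v) (PU u) < -1 := by
  rw [ip_PV_PU]
  have h1 := one_le_NN v u
  have e1 : (2 : ℝ) ≤ NN v u := by
    have : 2 ≤ NN v u := by omega
    exact_mod_cast this
  have p2 := geo_pos2
  nlinarith

lemma ip_PU_PU_lt {u w : V2} (h : u ≠ w) : ip (PU u) (PU w) < -1 := by
  rw [ip_PU_PU]
  have e1 : (3 : ℝ) ≤ LL u w := by exact_mod_cast three_le_LL h
  have p2 := geo_pos2
  nlinarith

lemma ip_PU_PU_le (u w : V2) : ip (PU u) (PU w) ≤ 1 := by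
  by_cases h : u = w
  · subst h; rw [ip_PU_self]
  · linarith [ip_PU_PU_lt h]

lemma ip_PV_PV_le {v w : V1} (h : v ≠ w) : ip (PV v) (PV w) ≤ -1 := by
  rw [ip_PV_PV]
  have e1 : (2 : ℝ) ≤ MM v w := by exact_mod_cast two_le_MM h
  linarith

lemma ip_PE_PV_le {F : Face} {v : V1} (hv : v ∉ F.e) : ip (PE F.e) (PV v) ≤ -2 := by
  obtain ⟨x, y, h, h1, h2, h3⟩ := F.exists_mk
  rw [h, Sym2.mem_iff, not_or] at hv
  rw [h, PE_mk, ip_add_left]
  have e1 := ip_PV_PV_le (Ne.symm hv.1)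
  have e2 := ip_PV_PV_le (Ne.symm hv.2)
  linarith

lemma ip_PE_PV_nonpos (F : Face) (v : V1) : ip (PE F.e) (PV v) ≤ 0 := by
  by_cases h : v ∈ F.e
  · rw [ip_PE_PV_of_mem h]
  · linarith [ip_PE_PV_le h]

lemma ip_PE_PU_le (F : Face) (u : V2) : ip (PE F.e) (PU u) ≤ -2 := by
  obtain ⟨x, y, h, h1, h2, h3⟩ := F.exists_mk
  rw [h, PE_mk, ip_add_left]
  have e1 := ip_PV_PU_le x u
  have e2 := ip_PV_PU_le y u
  linarith

lemma ip_PE_PE_nonpos (F F' : Face) : ip (PE F.e) (PE F'.e) ≤ 0 := by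
  obtain ⟨x, y, h, h1, h2, h3⟩ := F'.exists_mk
  rw [h, PE_mk, ip_add_right]
  have e1 := ip_PE_PV_nonpos F x
  have e2 := ip_PE_PV_nonpos F y
  linarith

lemma ip_PQ_PV_nonpos (F : Face) (v : V1) : ip (PQ F) (PV v) ≤ 0 := by
  by_cases h : v ∈ F.e
  · rw [ip_PQ_PV_of_mem h]
  · linarith [ip_PQ_PV h]

lemma ip_PQ_PE_nonpos (F F' : Face) : ip (PQ F) (PE F'.e) ≤ 0 := by
  obtain ⟨x, y, h, h1, h2, h3⟩ := F'.exists_mk
  rw [h, PE_mk, ip_add_right]
  have e1 := ip_PQ_PV_nonpos F x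
  have e2 := ip_PQ_PV_nonpos F y
  linarith

lemma ip_PQ_PU_nonpos (F : Face) (u : V2) : ip (PQ F) (PU u) ≤ 0 := by
  by_cases h : u = F.u
  · rw [h, ip_PQ_PU_self]
  · linarith [ip_PQ_PU h]

lemma ip_PT_PV_lt {F : Face} {v : V1} (hv : v ∉ F.e) {j : ℕ} (hj : 1 ≤ j) :
    ip (PT F j) (PV v) < -1 := by
  simp only [PT, ip_add_left, ip_smul_left]
  have e1 := ip_PV_PU_le v F.u
  rw [ip_comm] at e1
  have e2 := ip_PQ_PV hv
  have e3 := ip_PE_PV_le hv
  have hj' : (1 : ℝ) ≤ j := by exact_mod_cast hj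
  have e4 : 2 * (j : ℝ) * ip (PQ F) (PV v) < 0 := by
    apply mul_neg_of_pos_of_neg
    · linarith
    · linarith
  have e5 : (j : ℝ) ^ 2 * ip (PE F.e) (PV v) ≤ 0 :=
    mul_nonpos_of_nonneg_of_nonpos (by positivity) (by linarith)
  linarith

lemma ip_PT_PU_lt {F : Face} {u : V2} (hu : u ≠ F.u) (j : ℕ) :
    ip (PT F j) (PU u) < -1 := by
  simp only [PT, ip_add_left, ip_smul_left]
  have e1 := ip_PU_PU_lt (Ne.symm hu)
  have e2 := ip_PQ_PU_nonpos F u
  have e3 := ip_PE_PU_le F u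
  have e4 : 2 * (j : ℝ) * ip (PQ F) (PU u) ≤ 0 :=
    mul_nonpos_of_nonneg_of_nonpos (by positivity) (by linarith)
  have e5 : (j : ℝ) ^ 2 * ip (PE F.e) (PU u) ≤ 0 :=
    mul_nonpos_of_nonneg_of_nonpos (by positivity) (by linarith)
  linarith

lemma PT_zero (F : Face) : PT F 0 = PU F.u := by
  apply R31.ext
  · simp [PT]
  · apply Complex.ext
    · simp [PT]
    · simp [PT]
  · simp [PT]

lemma ip_PT_PT_lt {F F' : Face} (h : F ≠ F') {i j : ℕ} (hi : 1 ≤ i) (hj : 1 ≤ j) :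
    ip (PT F i) (PT F' j) < -1 := by
  simp only [PT, ip_add_left, ip_add_right, ip_smul_left, ip_smul_right]
  have hi' : (1 : ℝ) ≤ i := by exact_mod_cast hi
  have hj' : (1 : ℝ) ≤ j := by exact_mod_cast hj
  have a1 := ip_PU_PU_le F.u F'.u
  have a2 := ip_PQ_PU_nonpos F' F.u
  have a3 := ip_PE_PU_le F' F.u
  have a4 := ip_PQ_PU_nonpos F F'.u
  have a5 := ip_PE_PU_le F F'.u
  have a6 := ip_PQ_PQ h
  have a7 := ip_PQ_PE_nonpos F F'
  have a8 := ip_PQ_PE_nonpos F' F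
  have a9 := ip_PE_PE_nonpos F F'
  rw [ip_comm] at a2 a3 a8
  have i0 : (0 : ℝ) ≤ i := by linarith
  have j0 : (0 : ℝ) ≤ j := by linarith
  have ii : (1 : ℝ) ≤ (i : ℝ) ^ 2 := by nlinarith
  have jj : (1 : ℝ) ≤ (j : ℝ) ^ 2 := by nlinarith
  have b2 : 2 * (j : ℝ) * ip (PU F.u) (PQ F') ≤ 0 :=
    mul_nonpos_of_nonneg_of_nonpos (by positivity) a2
  have b3 : (j : ℝ) ^ 2 * ip (PU F.u) (PE F'.e) ≤ -2 := by nlinarith
  have b4 : 2 * (i : ℝ) * ip (PQ F) (PU F'.u) ≤ 0 :=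
    mul_nonpos_of_nonneg_of_nonpos (by positivity) a4
  have b5 : (i : ℝ) ^ 2 * ip (PE F.e) (PU F'.u) ≤ -2 := by nlinarith
  have b6 : 2 * (i : ℝ) * (2 * (j : ℝ) * ip (PQ F) (PQ F')) ≤ 0 :=
    mul_nonpos_of_nonneg_of_nonpos (by positivity)
      (mul_nonpos_of_nonneg_of_nonpos (by positivity) (by linarith))
  have b7 : 2 * (i : ℝ) * ((j : ℝ) ^ 2 * ip (PQ F) (PE F'.e)) ≤ 0 :=
    mul_nonpos_of_nonneg_of_nonpos (by positivity)
      (mul_nonpos_of_nonneg_of_nonpos (by positivity) (by linarith))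
  have b8 : (i : ℝ) ^ 2 * (2 * (j : ℝ) * ip (PE F.e) (PQ F')) ≤ 0 :=
    mul_nonpos_of_nonneg_of_nonpos (by positivity)
      (mul_nonpos_of_nonneg_of_nonpos (by positivity) (by linarith))
  have b9 : (i : ℝ) ^ 2 * ((j : ℝ) ^ 2 * ip (PE F.e) (PE F'.e)) ≤ 0 :=
    mul_nonpos_of_nonneg_of_nonpos (by positivity)
      (mul_nonpos_of_nonneg_of_nonpos (by positivity) (by linarith))
  linarith

theorem ip_PX_self (x : VX) : R31.ip (PX x) (PX x) = 1 := by
  cases x with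
  | p v => exact ip_PV_self v
  | q u => exact ip_PU_self u
  | t F j =>
    show ip (PT F (j + 1)) (PT F (j + 1)) = 1
    rw [ip_PT_PT_self]; ring

/-- adjacent vertices (all stacks present) have inner product `-1`, other pairs less -/
theorem ip_PX (k : Sym2 V1 → ℕ) {x y : VX} (hx : x ∈ SX k) (hy : y ∈ SX k) (hxy : x ≠ y) :
    ((GX k).Adj x y → R31.ip (PX x) (PX y) = -1) ∧
      (¬ (GX k).Adj x y → R31.ip (PX x) (PX y) < -1) := by
  have main : ∀ x y : VX, x ∈ SX k → y ∈ SX k → x ≠ y →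
      (adjX k x y → R31.ip (PX x) (PX y) = -1) ∧
      (¬ adjX k x y → R31.ip (PX x) (PX y) < -1) := by
    intro x y hx hy hxy
    cases x with
    | p v =>
      cases y with
      | p w =>
        have hvw : v ≠ w := fun h => hxy (by rw [h])
        refine ⟨fun h => ?_, fun h => ?_⟩
        · show ip (PV v) (PV w) = -1
          have h' : MM v w = 2 := h
          rw [ip_PV_PV, h']; push_cast; ring
        · show ip (PV v) (PV w) < -1
          have h' : MM v w ≠ 2 := h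
          have h2 := two_le_MM hvw
          have h3 : (3 : ℝ) ≤ MM v w := by
            have : 3 ≤ MM v w := by omega
            exact_mod_cast this
          rw [ip_PV_PV]; linarith
      | q u =>
        refine ⟨fun h => ?_, fun h => ?_⟩
        · show ip (PV v) (PU u) = -1
          have h' : NN v u = 1 := h
          rw [ip_PV_PU, h']; push_cast; ring
        · exact ip_PV_PU_lt h
      | t F j =>
        have hj : j < k F.e := hy
        refine ⟨fun h => ?_, fun h => ?_⟩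
        · have h' : j < k F.e ∧ v ∈ F.e := h
          show ip (PV v) (PT F (j + 1)) = -1
          rw [ip_comm, ip_PT_PV_of_mem h'.2]
        · have h' : ¬ (j < k F.e ∧ v ∈ F.e) := h
          show ip (PV v) (PT F (j + 1)) < -1
          rw [ip_comm]
          exact ip_PT_PV_lt (fun hc => h' ⟨hj, hc⟩) (by omega)
    | q u =>
      cases y with
      | p v =>
        refine ⟨fun h => ?_, fun h => ?_⟩
        · show ip (PU u) (PV v) = -1
          have h' : NN v u = 1 := h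
          rw [ip_comm, ip_PV_PU, h']; push_cast; ring
        · show ip (PU u) (PV v) < -1
          rw [ip_comm]
          exact ip_PV_PU_lt h
      | q u' =>
        refine ⟨fun h => h.elim, fun _ => ?_⟩
        exact ip_PU_PU_lt (fun h => hxy (by rw [h]))
      | t F j =>
        have hj : j < k F.e := hy
        refine ⟨fun h => ?_, fun h => ?_⟩
        · have h' : j = 0 ∧ 0 < k F.e ∧ u = F.u := h
          show ip (PU u) (PT F (j + 1)) = -1
          rw [ip_comm, h'.1, h'.2.2, ← PT_zero, ip_PT_PT_self]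
          push_cast; ring
        · have h' : ¬ (j = 0 ∧ 0 < k F.e ∧ u = F.u) := h
          show ip (PU u) (PT F (j + 1)) < -1
          rw [ip_comm]
          by_cases hu : u = F.u
          · have hj0 : j ≠ 0 := fun hc => h' ⟨hc, by omega, hu⟩
            rw [hu, ← PT_zero, ip_PT_PT_self]
            have : (1 : ℝ) ≤ j := by
              have : 1 ≤ j := by omega
              exact_mod_cast this
            push_cast
            nlinarith
          · exact ip_PT_PU_lt hu _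
    | t F i =>
      have hi : i < k F.e := hx
      cases y with
      | p v =>
        refine ⟨fun h => ?_, fun h => ?_⟩
        · have h' : i < k F.e ∧ v ∈ F.e := h
          exact ip_PT_PV_of_mem h'.2 _
        · have h' : ¬ (i < k F.e ∧ v ∈ F.e) := h
          exact ip_PT_PV_lt (fun hc => h' ⟨hi, hc⟩) (by omega)
      | q u =>
        refine ⟨fun h => ?_, fun h => ?_⟩
        · have h' : i = 0 ∧ 0 < k F.e ∧ u = F.u := h
          show ip (PT F (i + 1)) (PU u) = -1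
          rw [h'.1, h'.2.2, ← PT_zero, ip_PT_PT_self]
          push_cast; ring
        · have h' : ¬ (i = 0 ∧ 0 < k F.e ∧ u = F.u) := h
          show ip (PT F (i + 1)) (PU u) < -1
          by_cases hu : u = F.u
          · have hj0 : i ≠ 0 := fun hc => h' ⟨hc, by omega, hu⟩
            rw [hu, ← PT_zero, ip_PT_PT_self]
            have : (1 : ℝ) ≤ i := by
              have : 1 ≤ i := by omega
              exact_mod_cast this
            push_cast
            nlinarith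
          · exact ip_PT_PU_lt hu _
      | t F' j =>
        have hj : j < k F'.e := hy
        refine ⟨fun h => ?_, fun h => ?_⟩
        · have h' : F = F' ∧ (i = j + 1 ∨ j = i + 1) ∧ i < k F.e ∧ j < k F.e := h
          obtain ⟨rfl, h2, -, -⟩ := h'
          show ip (PT F (i + 1)) (PT F (j + 1)) = -1
          rw [ip_PT_PT_self]
          rcases h2 with rfl | rfl
          · push_cast; ring
          · push_cast; ring
        · have h' : ¬ (F = F' ∧ (i = j + 1 ∨ j = i + 1) ∧ i < k F.e ∧ j < k F.e) := h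
          show ip (PT F (i + 1)) (PT F' (j + 1)) < -1
          by_cases hF : F = F'
          · subst hF
            have hij : i ≠ j := fun hc => hxy (by rw [hc])
            have h2 : ¬ (i = j + 1 ∨ j = i + 1) := fun hc => h' ⟨rfl, hc, hi, hj⟩
            rw [ip_PT_PT_self]
            have h3 : i + 2 ≤ j ∨ j + 2 ≤ i := by omega
            rcases h3 with h3 | h3
            · have h4 : (i : ℝ) + 2 ≤ j := by exact_mod_cast h3
              push_cast
              nlinarith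
            · have h4 : (j : ℝ) + 2 ≤ i := by exact_mod_cast h3
              push_cast
              nlinarith
          · exact ip_PT_PT_lt hF (by omega) (by omega)
  exact main x y hx hy hxy

end HExit
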