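import Pool.Agent.HExit.Base

/-!
# HExit: discs and triangles as vectors of `ℝ^{3,1}`
-/

open MeasureTheory ProbabilityTheory Filter Topology
open scoped ENNReal

namespace HExit

namespace R31

lemma ip_comm (p q : R31) : ip p q = ip q p := by unfold ip; ring
lemma ip_add_left (p q r : R31) : ip (p + q) r = ip p r + ip q r := by
  unfold ip; simp; ring
lemma ip_add_right (p q r : R31) : ip p (q + r) = ip p q + ip p r := by
  unfold ip; simp; ring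
lemma ip_smul_left (c : ℝ) (p q : R31) : ip (c • p) q = c * ip p q := by
  unfold ip; simp; ring
lemma ip_smul_right (c : ℝ) (p q : R31) : ip p (c • q) = c * ip p q := by
  unfold ip; simp; ring
lemma κ_add (p q : R31) : κ (p + q) = κ p + κ q := by unfold κ; simp; ring
lemma κ_smul (c : ℝ) (p : R31) : κ (c • p) = c * κ p := by unfold κ; simp; ring

lemma ctr_re (p : R31) : p.ctr.re = p.X.re / p.κ := by
  unfold ctr
  rw [Complex.div_ofReal_re]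
lemma ctr_im (p : R31) : p.ctr.im = p.X.im / p.κ := by
  unfold ctr
  rw [Complex.div_ofReal_im]

lemma normSq_sub (a b : ℂ) : ‖a - b‖ ^ 2 = (a.re - b.re) ^ 2 + (a.im - b.im) ^ 2 := by
  rw [← Complex.normSq_eq_norm_sq, Complex.normSq_apply]
  simp only [Complex.sub_re, Complex.sub_im]
  ring
lemma normSq_eq (a : ℂ) : ‖a‖ ^ 2 = a.re ^ 2 + a.im ^ 2 := by
  rw [← Complex.normSq_eq_norm_sq, Complex.normSq_apply]
  ring

/-- distance of the centres of two circles -/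
lemma dist_sq {p q : R31} (hp : ip p p = 1) (hq : ip q q = 1) (hp0 : 0 < κ p) (hq0 : 0 < κ q) :
    ‖p.ctr - q.ctr‖ ^ 2 = (1 / κ p + 1 / κ q) ^ 2 - 2 * (ip p q + 1) / (κ p * κ q) := by
  rw [normSq_sub, ctr_re, ctr_re, ctr_im, ctr_im]
  field_simp
  unfold ip at hp hq ⊢
  unfold κ at *
  linear_combination (q.T + q.σ) ^ 2 * hp + (p.T + p.σ) ^ 2 * hq

lemma dist_eq {p q : R31} (hp : ip p p = 1) (hq : ip q q = 1) (hp0 : 0 < κ p) (hq0 : 0 < κ q)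
    (h : ip p q = -1) : ‖p.ctr - q.ctr‖ = 1 / κ p + 1 / κ q := by
  have h1 := dist_sq hp hq hp0 hq0
  rw [h] at h1
  simp only [neg_add_cancel, mul_zero, zero_div, sub_zero] at h1
  exact (pow_left_inj₀ (norm_nonneg _) (by positivity) (by norm_num)).mp h1

lemma dist_ge {p q : R31} (hp : ip p p = 1) (hq : ip q q = 1) (hp0 : 0 < κ p) (hq0 : 0 < κ q)
    (h : ip p q ≤ -1) : 1 / κ p + 1 / κ q ≤ ‖p.ctr - q.ctr‖ := by
  have h1 := dist_sq hp hq hp0 hq0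
  have h2 : 0 ≤ - (2 * (ip p q + 1) / (κ p * κ q)) := by
    rw [← neg_div]
    apply div_nonneg _ (by positivity)
    linarith
  apply le_of_sq_le_sq _ (norm_nonneg _)
  rw [h1]
  linarith

lemma dist_gt {p q : R31} (hp : ip p p = 1) (hq : ip q q = 1) (hp0 : 0 < κ p) (hq0 : 0 < κ q)
    (h : ip p q < -1) : 1 / κ p + 1 / κ q < ‖p.ctr - q.ctr‖ := by
  have h1 := dist_sq hp hq hp0 hq0
  have h2 : 0 < - (2 * (ip p q + 1) / (κ p * κ q)) := by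
    rw [← neg_div]
    apply div_pos _ (by positivity)
    linarith
  apply lt_of_pow_lt_pow_left₀ 2 (norm_nonneg _)
  rw [h1]
  linarith

/-- the norm of the centre -/
lemma norm_ctr_sq {p : R31} (hp : ip p p = 1) (hp0 : 0 < κ p) :
    ‖p.ctr‖ ^ 2 = 1 / κ p ^ 2 + 1 - 2 * p.σ / κ p := by
  rw [normSq_eq, ctr_re, ctr_im]
  field_simp
  unfold ip at hp
  unfold κ at *
  linear_combination hp

/-- the disc is inside the unit disc iff `σ > 1` -/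
lemma inside {p : R31} (hp : ip p p = 1) (hp0 : 0 < κ p) (hσ : 1 < p.σ) (hT : 0 < p.T) :
    ‖p.ctr‖ + 1 / κ p < 1 := by
  have h1 := norm_ctr_sq hp hp0
  have h2 : 1 < κ p := by unfold κ; linarith
  have h3 : ‖p.ctr‖ ^ 2 < (1 - 1 / κ p) ^ 2 := by
    rw [h1]
    have : (1 - 1 / κ p) ^ 2 = 1 / κ p ^ 2 + 1 - 2 / κ p := by
      field_simp
      ring
    rw [this]
    have h4 : 2 / κ p < 2 * p.σ / κ p := by
      apply div_lt_div_of_pos_right _ hp0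
      linarith
    linarith
  have h5 : 0 ≤ 1 - 1 / κ p := by
    have : 1 / κ p < 1 := by rw [div_lt_one hp0]; exact h2
    linarith
  have := lt_of_pow_lt_pow_left₀ 2 h5 h3
  linarith

/-- the centre is close to the unit circle -/
lemma one_sub_norm_sq_le {p : R31} (hp : ip p p = 1) (hp0 : 0 < κ p) :
    1 - ‖p.ctr‖ ^ 2 ≤ 2 * p.σ / κ p := by
  rw [norm_ctr_sq hp hp0]
  have : 0 < 1 / κ p ^ 2 := by positivity
  linarith

end R31

open R31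

/-- null vector of the point `p` -/
noncomputable def Npt (p : ℂ) : R31 := ⟨(1 + ‖p‖ ^ 2) / 2, p, (1 - ‖p‖ ^ 2) / 2⟩

/-- null vector of the point at infinity -/
noncomputable def Zinf : R31 := ⟨-1, 0, 1⟩

lemma ip_Zinf (p : R31) : ip p Zinf = κ p := by
  unfold ip Zinf κ
  simp

lemma ip_Npt_self (p : ℂ) : ip (Npt p) (Npt p) = 0 := by
  unfold ip Npt
  simp only
  rw [normSq_eq]
  ring

lemma κ_Npt (p : ℂ) : κ (Npt p) = 1 := by
  unfold κ Npt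
  simp only
  ring

/-- power of a point with respect to a circle -/
lemma ip_Npt {P : R31} (hP : ip P P = 1) (h0 : 0 < κ P) (p : ℂ) :
    ip (Npt p) P = κ P / 2 * ((1 / κ P) ^ 2 - ‖p - P.ctr‖ ^ 2) := by
  rw [normSq_sub, ctr_re, ctr_im]
  unfold ip Npt
  simp only
  rw [normSq_eq]
  field_simp
  unfold ip at hP
  unfold κ at *
  linear_combination hP

lemma ip_Npt_pos_iff {P : R31} (hP : ip P P = 1) (h0 : 0 < κ P) (p : ℂ) :
    0 < ip (Npt p) P ↔ ‖p - P.ctr‖ < 1 / κ P := by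
  rw [ip_Npt hP h0]
  rw [mul_pos_iff_of_pos_left (by positivity), sub_pos]
  exact pow_lt_pow_iff_left₀ (norm_nonneg _) (by positivity) (by norm_num)

lemma ip_Npt_nonneg_iff {P : R31} (hP : ip P P = 1) (h0 : 0 < κ P) (p : ℂ) :
    0 ≤ ip (Npt p) P ↔ ‖p - P.ctr‖ ≤ 1 / κ P := by
  rw [ip_Npt hP h0]
  rw [mul_nonneg_iff_of_pos_left (by positivity), sub_nonneg]
  exact pow_le_pow_iff_left₀ (norm_nonneg _) (by positivity) (by norm_num)

lemma ip_Npt_nonpos_iff {P : R31} (hP : ip P P = 1) (h0 : 0 < κ P) (p : ℂ) :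
    ip (Npt p) P ≤ 0 ↔ 1 / κ P ≤ ‖p - P.ctr‖ := by
  rw [← not_lt, ip_Npt_pos_iff hP h0, not_lt]

lemma ip_Npt_neg_iff {P : R31} (hP : ip P P = 1) (h0 : 0 < κ P) (p : ℂ) :
    ip (Npt p) P < 0 ↔ 1 / κ P < ‖p - P.ctr‖ := by
  rw [← not_le, ip_Npt_nonneg_iff hP h0, not_le]

/-- three mutually tangent circles and the circle orthogonal to them -/
structure Tri (P₁ P₂ P₃ Q : R31) : Prop where
  u1 : ip P₁ P₁ = 1
  u2 : ip P₂ P₂ = 1
  u3 : ip P₃ P₃ = 1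
  uQ : ip Q Q = 1
  k1 : 0 < κ P₁
  k2 : 0 < κ P₂
  k3 : 0 < κ P₃
  kQ : 0 < κ Q
  t12 : ip P₁ P₂ = -1
  t13 : ip P₁ P₃ = -1
  t23 : ip P₂ P₃ = -1
  o1 : ip P₁ Q = 0
  o2 : ip P₂ Q = 0
  o3 : ip P₃ Q = 0

/-- coordinates of a point with respect to a triangle -/
lemma coords_of_combo {P₁ P₂ P₃ : R31} (h1 : 0 < κ P₁) (h2 : 0 < κ P₂) (h3 : 0 < κ P₃)
    {p : ℂ} {l₁ l₂ l₃ : ℝ} (hl : l₁ + l₂ + l₃ = 1)
    (hp : p = l₁ * P₁.ctr + l₂ * P₂.ctr + l₃ * P₃.ctr) :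
    ∃ d : ℝ, ∀ W : R31, ip (Npt p) W = l₁ / κ P₁ * ip P₁ W + l₂ / κ P₂ * ip P₂ W
      + l₃ / κ P₃ * ip P₃ W + d * κ W := by
  have hre : p.re = l₁ / κ P₁ * P₁.X.re + l₂ / κ P₂ * P₂.X.re + l₃ / κ P₃ * P₃.X.re := by
    rw [hp]
    simp only [Complex.add_re, Complex.mul_re, Complex.ofReal_re, Complex.ofReal_im, zero_mul,
      sub_zero, ctr_re]
    ring
  have him : p.im = l₁ / κ P₁ * P₁.X.im + l₂ / κ P₂ * P₂.X.im + l₃ / κ P₃ * P₃.X.im := by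
    rw [hp]
    simp only [Complex.add_im, Complex.mul_im, Complex.ofReal_re, Complex.ofReal_im, zero_mul,
      add_zero, ctr_im]
    ring
  have hk : l₁ / κ P₁ * κ P₁ + l₂ / κ P₂ * κ P₂ + l₃ / κ P₃ * κ P₃ = 1 := by
    field_simp
    linarith
  refine ⟨(Npt p).σ - (l₁ / κ P₁ * P₁.σ + l₂ / κ P₂ * P₂.σ + l₃ / κ P₃ * P₃.σ), fun W => ?_⟩
  have hσ : (Npt p).T = 1 - (Npt p).σ := by
    unfold Npt
    simp only
    ring
  have hX : (Npt p).X = p := rfl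
  generalize hs : (Npt p).σ = s at *
  generalize l₁ / κ P₁ = c₁ at *
  generalize l₂ / κ P₂ = c₂ at *
  generalize l₃ / κ P₃ = c₃ at *
  unfold κ at *
  unfold ip
  rw [hσ, hX, hs, hre, him]
  linear_combination (W.T) * hk

/-- a point of the triangle which is outside the three open discs is in the dual disc -/
lemma Tri.dual_of_mem {P₁ P₂ P₃ Q : R31} (h : Tri P₁ P₂ P₃ Q) {p : ℂ}
    (hp : p ∈ convexHull ℝ {P₁.ctr, P₂.ctr, P₃.ctr}) (n1 : ip (Npt p) P₁ ≤ 0)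
    (n2 : ip (Npt p) P₂ ≤ 0) (n3 : ip (Npt p) P₃ ≤ 0) : 0 ≤ ip (Npt p) Q := by
  obtain ⟨l₁, l₂, l₃, h1, h2, h3, hl, hp'⟩ : ∃ l₁ l₂ l₃ : ℝ, 0 ≤ l₁ ∧ 0 ≤ l₂ ∧ 0 ≤ l₃ ∧
      l₁ + l₂ + l₃ = 1 ∧ p = l₁ * P₁.ctr + l₂ * P₂.ctr + l₃ * P₃.ctr := by
    rw [convexHull_insert (by simp)] at hp
    simp only [convexHull_pair, segment_eq_image, mem_convexJoin, Set.mem_singleton_iff,
      exists_eq_left, Set.mem_image, Set.mem_Icc] at hp
    obtain ⟨b, ⟨t, ⟨ht0, ht1⟩, rfl⟩, s, ⟨hs0, hs1⟩, rfl⟩ := hp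
    refine ⟨1 - s, s * (1 - t), s * t, by linarith, by nlinarith, by nlinarith, by ring, ?_⟩
    simp only [Complex.real_smul]
    push_cast
    ring
  obtain ⟨d, hd⟩ := coords_of_combo h.k1 h.k2 h.k3 hl hp'
  have e0 := hd (Npt p)
  rw [ip_Npt_self, κ_Npt, ip_comm P₁, ip_comm P₂, ip_comm P₃] at e0
  have eQ := hd Q
  rw [h.o1, h.o2, h.o3] at eQ
  have hd0 : 0 ≤ d := by
    have a1 : l₁ / κ P₁ * ip (Npt p) P₁ ≤ 0 :=
      mul_nonpos_of_nonneg_of_nonpos (div_nonneg h1 h.k1.le) n1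
    have a2 : l₂ / κ P₂ * ip (Npt p) P₂ ≤ 0 :=
      mul_nonpos_of_nonneg_of_nonpos (div_nonneg h2 h.k2.le) n2
    have a3 : l₃ / κ P₃ * ip (Npt p) P₃ ≤ 0 :=
      mul_nonpos_of_nonneg_of_nonpos (div_nonneg h3 h.k3.le) n3
    linarith
  rw [eQ]
  have := mul_nonneg hd0 h.kQ.le
  linarith

/-- the triangle contains no centre of another disc -/
lemma Tri.empty {P₁ P₂ P₃ Q : R31} (h : Tri P₁ P₂ P₃ Q) {X : R31} (hX : ip X X = 1)
    (hk : 0 < κ X) (h1 : ip X P₁ ≤ -1) (h2 : ip X P₂ ≤ -1) (h3 : ip X P₃ ≤ -1)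
    (hQ : ip X Q ≤ -1) : X.ctr ∉ convexHull ℝ {P₁.ctr, P₂.ctr, P₃.ctr} := by
  intro hmem
  have key : ∀ {P : R31}, ip P P = 1 → 0 < κ P → ip X P ≤ -1 → ip (Npt X.ctr) P < 0 := by
    intro P hP hk' hXP
    rw [ip_Npt_neg_iff hP hk']
    have := dist_ge hX hP hk hk' hXP
    have h4 : 0 < 1 / κ X := by positivity
    linarith
  have h5 := h.dual_of_mem hmem (key h.u1 h.k1 h1).le (key h.u2 h.k2 h2).le (key h.u3 h.k3 h3).le
  exact absurd (key h.uQ h.kQ hQ) (not_lt.mpr h5)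

/-- real barycentric coordinates exist -/
lemma Tri.exists_bary {P₁ P₂ P₃ Q : R31} (h : Tri P₁ P₂ P₃ Q) (p : ℂ) :
    ∃ l₁ l₂ l₃ : ℝ, l₁ + l₂ + l₃ = 1 ∧ p = l₁ * P₁.ctr + l₂ * P₂.ctr + l₃ * P₃.ctr := by
  have d12 := dist_sq h.u1 h.u2 h.k1 h.k2
  have d13 := dist_sq h.u1 h.u3 h.k1 h.k3
  have d23 := dist_sq h.u2 h.u3 h.k2 h.k3
  rw [h.t12] at d12
  rw [h.t13] at d13
  rw [h.t23] at d23
  have r1 : 0 < 1 / κ P₁ := by have := h.k1; positivity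
  have r2 : 0 < 1 / κ P₂ := by have := h.k2; positivity
  have r3 : 0 < 1 / κ P₃ := by have := h.k3; positivity
  generalize 1 / κ P₁ = a at *
  generalize 1 / κ P₂ = b at *
  generalize 1 / κ P₃ = c at *
  simp only [neg_add_cancel, mul_zero, zero_div, sub_zero, normSq_sub] at d12 d13 d23
  generalize P₁.ctr = c₁ at *
  generalize P₂.ctr = c₂ at *
  generalize P₃.ctr = c₃ at *
  obtain ⟨x1, y1⟩ := c₁
  obtain ⟨x2, y2⟩ := c₂
  obtain ⟨x3, y3⟩ := c₃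
  obtain ⟨x, y⟩ := p
  simp only at d12 d13 d23
  have hD : ((x2 - x1) * (y3 - y1) - (y2 - y1) * (x3 - x1)) ^ 2 = 4 * a * b * c * (a + b + c) := by
    have e1 : ((x2 - x1) * (y3 - y1) - (y2 - y1) * (x3 - x1)) ^ 2
        = ((x1 - x2) ^ 2 + (y1 - y2) ^ 2) * ((x1 - x3) ^ 2 + (y1 - y3) ^ 2)
          - ((((x1 - x2) ^ 2 + (y1 - y2) ^ 2) + ((x1 - x3) ^ 2 + (y1 - y3) ^ 2)
            - ((x2 - x3) ^ 2 + (y2 - y3) ^ 2)) / 2) ^ 2 := by ring
    rw [e1, d12, d13, d23]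
    ring
  have hD0 : (x2 - x1) * (y3 - y1) - (y2 - y1) * (x3 - x1) ≠ 0 := by
    intro h0
    rw [h0] at hD
    have : 0 < 4 * a * b * c * (a + b + c) := by positivity
    rw [← hD] at this
    norm_num at this
  set D := (x2 - x1) * (y3 - y1) - (y2 - y1) * (x3 - x1) with hDdef
  set l2 := ((x - x1) * (y3 - y1) - (y - y1) * (x3 - x1)) / D with hl2
  set l3 := ((x2 - x1) * (y - y1) - (y2 - y1) * (x - x1)) / D with hl3
  refine ⟨1 - l2 - l3, l2, l3, by ring, ?_⟩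
  apply Complex.ext
  · simp only [Complex.add_re, Complex.mul_re, Complex.ofReal_re, Complex.ofReal_im, zero_mul,
      sub_zero]
    rw [hl2, hl3]
    field_simp
    rw [hDdef]
    ring
  · simp only [Complex.add_im, Complex.mul_im, Complex.ofReal_re, Complex.ofReal_im, zero_mul,
      add_zero]
    rw [hl2, hl3]
    field_simp
    rw [hDdef]
    ring

/-- a point of the dual disc which is outside the three open discs is in the triangle -/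
lemma Tri.mem_of_dual {P₁ P₂ P₃ Q : R31} (h : Tri P₁ P₂ P₃ Q) {p : ℂ}
    (n1 : ip (Npt p) P₁ ≤ 0) (n2 : ip (Npt p) P₂ ≤ 0) (n3 : ip (Npt p) P₃ ≤ 0)
    (nQ : 0 ≤ ip (Npt p) Q) : p ∈ convexHull ℝ {P₁.ctr, P₂.ctr, P₃.ctr} := by
  obtain ⟨l₁, l₂, l₃, hl, hp⟩ := h.exists_bary p
  obtain ⟨d, hd⟩ := coords_of_combo h.k1 h.k2 h.k3 hl hp
  have k1 := h.k1
  have k2 := h.k2
  have k3 := h.k3
  have eQ := hd Q
  rw [h.o1, h.o2, h.o3] at eQ
  have hd0 : 0 ≤ d := by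
    by_contra hc
    push Not at hc
    have := mul_neg_of_neg_of_pos hc h.kQ
    linarith
  have e1 := hd P₁
  have e2 := hd P₂
  have e3 := hd P₃
  rw [h.u1, ip_comm P₂ P₁, ip_comm P₃ P₁, h.t12, h.t13] at e1
  rw [h.u2, h.t12, ip_comm P₃ P₂, h.t23] at e2
  rw [h.u3, h.t13, h.t23] at e3
  have a1 : 0 ≤ l₁ := by
    have h5 : 0 ≤ l₁ / κ P₁ := by nlinarith [mul_nonneg hd0 k2.le, mul_nonneg hd0 k3.le]
    have := mul_nonneg h5 k1.le
    rwa [div_mul_cancel₀ _ k1.ne'] at this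
  have a2 : 0 ≤ l₂ := by
    have h5 : 0 ≤ l₂ / κ P₂ := by nlinarith [mul_nonneg hd0 k1.le, mul_nonneg hd0 k3.le]
    have := mul_nonneg h5 k2.le
    rwa [div_mul_cancel₀ _ k2.ne'] at this
  have a3 : 0 ≤ l₃ := by
    have h5 : 0 ≤ l₃ / κ P₃ := by nlinarith [mul_nonneg hd0 k1.le, mul_nonneg hd0 k2.le]
    have := mul_nonneg h5 k3.le
    rwa [div_mul_cancel₀ _ k3.ne'] at this
  rw [hp]
  have := (convex_convexHull ℝ ({P₁.ctr, P₂.ctr, P₃.ctr} : Set ℂ))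
  have m1 : P₁.ctr ∈ convexHull ℝ ({P₁.ctr, P₂.ctr, P₃.ctr} : Set ℂ) :=
    subset_convexHull ℝ _ (by simp)
  have m2 : P₂.ctr ∈ convexHull ℝ ({P₁.ctr, P₂.ctr, P₃.ctr} : Set ℂ) :=
    subset_convexHull ℝ _ (by simp)
  have m3 : P₃.ctr ∈ convexHull ℝ ({P₁.ctr, P₂.ctr, P₃.ctr} : Set ℂ) :=
    subset_convexHull ℝ _ (by simp)
  have := this.sum_mem (t := Finset.univ) (w := ![l₁, l₂, l₃]) (z := ![P₁.ctr, P₂.ctr, P₃.ctr])
    (by intro i _; fin_cases i <;> simpa) (by simp [Fin.sum_univ_three, hl])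
    (by intro i _; fin_cases i <;> simpa)
  simpa [Fin.sum_univ_three] using this

/-- the centre of the dual circle is in the triangle -/
lemma Tri.ctr_dual_mem {P₁ P₂ P₃ Q : R31} (h : Tri P₁ P₂ P₃ Q) :
    Q.ctr ∈ convexHull ℝ {P₁.ctr, P₂.ctr, P₃.ctr} := by
  have key : ∀ {P : R31}, ip P P = 1 → 0 < κ P → ip P Q = 0 → ip (Npt Q.ctr) P ≤ 0 := by
    intro P hP hk hPQ
    rw [ip_Npt_nonpos_iff hP hk]
    have h1 := dist_sq h.uQ hP h.kQ hk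
    rw [ip_comm Q P, hPQ] at h1
    apply le_of_sq_le_sq _ (norm_nonneg _)
    rw [h1]
    have kQ := h.kQ
    have : (1 / κ Q + 1 / κ P) ^ 2 - 2 * (0 + 1) / (κ Q * κ P) = (1 / κ Q) ^ 2 + (1 / κ P) ^ 2 := by
      field_simp
      ring
    rw [this]
    have : 0 ≤ (1 / κ Q) ^ 2 := by positivity
    linarith
  apply h.mem_of_dual (key h.u1 h.k1 h.o1) (key h.u2 h.k2 h.o2) (key h.u3 h.k3 h.o3)
  rw [ip_Npt_nonneg_iff h.uQ h.kQ]
  simp only [sub_self, norm_zero]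
  have kQ := h.kQ
  positivity

/-- the centre of the circle inscribed in the interstice is in the triangle -/
lemma Tri.ctr_inner_mem {P₁ P₂ P₃ Q R : R31} (h : Tri P₁ P₂ P₃ Q)
    (hR : R = P₁ + P₂ + P₃ + (2 : ℝ) • Q) :
    R.ctr ∈ convexHull ℝ {P₁.ctr, P₂.ctr, P₃.ctr} := by
  have k1 := h.k1
  have k2 := h.k2
  have k3 := h.k3
  have kQ := h.kQ
  have hκ : κ R = κ P₁ + κ P₂ + κ P₃ + 2 * κ Q := by
    rw [hR, κ_add, κ_add, κ_add, κ_smul]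
  have hκ0 : 0 < κ R := by rw [hκ]; positivity
  have m1 : P₁.ctr ∈ convexHull ℝ ({P₁.ctr, P₂.ctr, P₃.ctr} : Set ℂ) :=
    subset_convexHull ℝ _ (by simp)
  have m2 : P₂.ctr ∈ convexHull ℝ ({P₁.ctr, P₂.ctr, P₃.ctr} : Set ℂ) :=
    subset_convexHull ℝ _ (by simp)
  have m3 : P₃.ctr ∈ convexHull ℝ ({P₁.ctr, P₂.ctr, P₃.ctr} : Set ℂ) :=
    subset_convexHull ℝ _ (by simp)
  have m4 := h.ctr_dual_mem
  have := (convex_convexHull ℝ ({P₁.ctr, P₂.ctr, P₃.ctr} : Set ℂ)).sum_mem (t := Finset.univ)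
    (w := ![κ P₁ / κ R, κ P₂ / κ R, κ P₃ / κ R, 2 * κ Q / κ R])
    (z := ![P₁.ctr, P₂.ctr, P₃.ctr, Q.ctr])
    (by intro i _; fin_cases i <;> simp <;> positivity)
    (by
      simp only [Fin.sum_univ_four, Matrix.cons_val_zero, Matrix.cons_val_one, Matrix.cons_val]
      rw [← add_div, ← add_div, ← add_div, ← hκ, div_self hκ0.ne'])
    (by intro i _; fin_cases i <;> simpa)
  convert this using 1
  simp only [Fin.sum_univ_four, Matrix.cons_val_zero, Matrix.cons_val_one, Matrix.cons_val,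
    Complex.real_smul]
  have e : R.ctr = R.X / (κ R : ℂ) := rfl
  have e1 : P₁.ctr = P₁.X / (κ P₁ : ℂ) := rfl
  have e2 : P₂.ctr = P₂.X / (κ P₂ : ℂ) := rfl
  have e3 : P₃.ctr = P₃.X / (κ P₃ : ℂ) := rfl
  have e4 : Q.ctr = Q.X / (κ Q : ℂ) := rfl
  have eX : R.X = P₁.X + P₂.X + P₃.X + 2 * Q.X := by
    rw [hR]
    simp
  rw [e, e1, e2, e3, e4, eX]
  have c1 : (κ P₁ : ℂ) ≠ 0 := by exact_mod_cast k1.ne'
  have c2 : (κ P₂ : ℂ) ≠ 0 := by exact_mod_cast k2.ne'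
  have c3 : (κ P₃ : ℂ) ≠ 0 := by exact_mod_cast k3.ne'
  have c4 : (κ Q : ℂ) ≠ 0 := by exact_mod_cast kQ.ne'
  have c5 : (κ R : ℂ) ≠ 0 := by exact_mod_cast hκ0.ne'
  push_cast
  field_simp

end HExit
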