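import Pool.Agent.HExit.Energy
import Pool.Agent.HExit.Lorentz
import Pool.Agent.HExit.Arith
import Pool.Agent.HExit.Geo

/-!
# HExit: geometry and energy of the test functions
-/

open MeasureTheory ProbabilityTheory Filter Topology
open scoped ENNReal

namespace HExit

/-! ### radii -/

lemma κ_PV (v : V1) : (PV v).κ = √2 * v.x + √3 := rfl
lemma κ_PU (u : V2) : (PU u).κ = (2 + √2) * u.y + (2 * √2 + 1) / √3 := rfl

lemma one_le_x (v : V1) : (1 : ℝ) ≤ v.x := by exact_mod_cast v.pos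
lemma one_le_y (u : V2) : (1 : ℝ) ≤ u.y := by exact_mod_cast u.pos

lemma κ_PV_pos (v : V1) : 0 < (PV v).κ := by
  rw [κ_PV]
  have := one_le_x v
  positivity
lemma κ_PU_pos (u : V2) : 0 < (PU u).κ := by
  rw [κ_PU]
  have := one_le_y u
  positivity

lemma rX_p_pos (v : V1) : 0 < rX (VX.p v) := one_div_pos.mpr (κ_PV_pos v)
lemma rX_q_pos (u : V2) : 0 < rX (VX.q u) := one_div_pos.mpr (κ_PU_pos u)

lemma one_le_sqrt2 : (1 : ℝ) ≤ √2 := by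
  rw [Real.one_le_sqrt]; norm_num

lemma rX_p_le (v : V1) : rX (VX.p v) ≤ 1 / v.x := by
  have h := one_le_x v
  apply one_div_le_one_div_of_le (by linarith)
  show (v.x : ℝ) ≤ (PV v).κ
  rw [κ_PV]
  nlinarith [one_le_sqrt2, Real.sqrt_nonneg 3]

lemma rX_le_of_le {x y : VX} {C : ℝ} (hC : 0 < C) (hy : 0 < (PX y).κ)
    (h : (PX y).κ ≤ C * (PX x).κ) : rX x ≤ C * rX y := by
  have hx : 0 < (PX x).κ := by
    by_contra hc
    push Not at hc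
    have := mul_nonpos_of_nonneg_of_nonpos hC.le hc
    linarith
  unfold rX
  rw [mul_one_div, div_le_div_iff₀ hx hy, one_mul]
  exact h

lemma rX_le_of_adj {v w : V1} (h : MM v w = 2) : rX (VX.p w) ≤ 4 * rX (VX.p v) := by
  apply rX_le_of_le (x := VX.p w) (y := VX.p v) (by norm_num) (κ_PV_pos v)
  show (PV v).κ ≤ 4 * (PV w).κ
  rw [κ_PV, κ_PV]
  have h1 : (v.x : ℝ) ≤ 4 * w.x := by exact_mod_cast x_le_of_adj (MM_comm v w ▸ h)
  nlinarith [one_le_sqrt2, Real.sqrt_nonneg 3]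

lemma sqrt2_lt : √2 < 1.415 := by
  rw [Real.sqrt_lt' (by norm_num)]; norm_num
lemma lt_sqrt2 : 1.414 < √2 := by
  rw [Real.lt_sqrt (by norm_num)]; norm_num
lemma sqrt3_lt : √3 < 1.733 := by
  rw [Real.sqrt_lt' (by norm_num)]; norm_num
lemma lt_sqrt3 : 1.732 < √3 := by
  rw [Real.lt_sqrt (by norm_num)]; norm_num

lemma rX_q_le {v : V1} {u : V2} (h : NN v u = 1) : rX (VX.q u) ≤ 8 * rX (VX.p v) := by
  apply rX_le_of_le (x := VX.q u) (y := VX.p v) (by norm_num) (κ_PV_pos v)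
  show (PV v).κ ≤ 8 * (PU u).κ
  rw [κ_PV, κ_PU]
  have h1 : (v.x : ℝ) ≤ 18 * u.y := by exact_mod_cast x_le_of_adj2 h
  have h2 : 2 ≤ (2 * √2 + 1) / √3 := by
    rw [le_div_iff₀ (by positivity)]
    nlinarith [lt_sqrt2, sqrt3_lt]
  have h3 := one_le_y u
  nlinarith [lt_sqrt2, sqrt2_lt, sqrt3_lt, lt_sqrt3]

lemma rX_p_le_q {v : V1} {u : V2} (h : NN v u = 1) : rX (VX.p v) ≤ 10 * rX (VX.q u) := by
  apply rX_le_of_le (x := VX.p v) (y := VX.q u) (by norm_num) (κ_PU_pos u)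
  show (PU u).κ ≤ 10 * (PV v).κ
  rw [κ_PV, κ_PU]
  have h1 : (u.y : ℝ) ≤ 4 * v.x := by exact_mod_cast y_le_of_adj h
  have h2 : (2 * √2 + 1) / √3 ≤ 3 := by
    rw [div_le_iff₀ (by positivity)]
    nlinarith [sqrt2_lt, lt_sqrt3]
  have h3 := one_le_x v
  nlinarith [lt_sqrt2, sqrt2_lt, sqrt3_lt, lt_sqrt3]

/-! ### centres -/

lemma mem_SX_p (k : Sym2 V1 → ℕ) (v : V1) : VX.p v ∈ SX k := trivial
lemma mem_SX_q (k : Sym2 V1 → ℕ) (u : V2) : VX.q u ∈ SX k := trivial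

lemma ip_le (x y : VX) (hx : x ∈ SX 0) (hy : y ∈ SX 0) (hxy : x ≠ y) :
    R31.ip (PX x) (PX y) ≤ -1 := by
  have h := ip_PX 0 hx hy hxy
  by_cases hc : (GX 0).Adj x y
  · exact (h.1 hc).le
  · exact (h.2 hc).le

lemma sep_pp {v w : V1} (h : v ≠ w) :
    rX (VX.p v) + rX (VX.p w) ≤ ‖zX (VX.p v) - zX (VX.p w)‖ :=
  R31.dist_ge (ip_PX_self (VX.p v)) (ip_PX_self (VX.p w)) (κ_PV_pos v) (κ_PV_pos w)
    (ip_le _ _ (mem_SX_p _ _) (mem_SX_p _ _) (by simpa using h))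

lemma sep_qq {v w : V2} (h : v ≠ w) :
    rX (VX.q v) + rX (VX.q w) ≤ ‖zX (VX.q v) - zX (VX.q w)‖ :=
  R31.dist_ge (ip_PX_self (VX.q v)) (ip_PX_self (VX.q w)) (κ_PU_pos v) (κ_PU_pos w)
    (ip_le _ _ (mem_SX_q _ _) (mem_SX_q _ _) (by simpa using h))

lemma sep_pq (v : V1) (u : V2) :
    rX (VX.p v) + rX (VX.q u) ≤ ‖zX (VX.p v) - zX (VX.q u)‖ :=
  R31.dist_ge (ip_PX_self (VX.p v)) (ip_PX_self (VX.q u)) (κ_PV_pos v) (κ_PU_pos u)
    (ip_le _ _ (mem_SX_p _ _) (mem_SX_q _ _) (by simp))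

lemma dist_pp {v w : V1} (h : MM v w = 2) :
    ‖zX (VX.p v) - zX (VX.p w)‖ = rX (VX.p v) + rX (VX.p w) := by
  apply R31.dist_eq (ip_PX_self (VX.p v)) (ip_PX_self (VX.p w)) (κ_PV_pos v) (κ_PV_pos w)
  apply (ip_PX 0 (mem_SX_p _ _) (mem_SX_p _ _) _).1 h
  intro hc
  rw [VX.p.injEq] at hc
  rw [hc, MM_self] at h
  norm_num at h

lemma dist_pq {v : V1} {u : V2} (h : NN v u = 1) :
    ‖zX (VX.p v) - zX (VX.q u)‖ = rX (VX.p v) + rX (VX.q u) := by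
  apply R31.dist_eq (ip_PX_self (VX.p v)) (ip_PX_self (VX.q u)) (κ_PV_pos v) (κ_PU_pos u)
  exact (ip_PX 0 (mem_SX_p _ _) (mem_SX_q _ _) (by simp)).1 h

lemma dist_pp_le {v w : V1} (h : MM v w = 2) :
    ‖zX (VX.p v) - zX (VX.p w)‖ ≤ 5 * rX (VX.p v) := by
  rw [dist_pp h]
  have := rX_le_of_adj h
  linarith

lemma dist_pq_le {v : V1} {u : V2} (h : NN v u = 1) :
    ‖zX (VX.p v) - zX (VX.q u)‖ ≤ 9 * rX (VX.p v) := by
  rw [dist_pq h]
  have := rX_q_le h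
  linarith

lemma dist_pq_le' {v : V1} {u : V2} (h : NN v u = 1) :
    ‖zX (VX.p v) - zX (VX.q u)‖ ≤ 11 * rX (VX.q u) := by
  rw [dist_pq h]
  have := rX_p_le_q h
  linarith

theorem one_sub_norm_zX_le (v : V1) : 1 - ‖zX (VX.p v)‖ ≤ 4 / v.x := by
  have h0 := one_le_x v
  have hs6 : √6 * √6 = 6 := Real.mul_self_sqrt (by norm_num)
  have h1 : 1 - ‖zX (VX.p v)‖ ^ 2 ≤ 2 * √3 / (PV v).κ :=
    R31.one_sub_norm_sq_le (ip_PX_self (VX.p v)) (κ_PV_pos v)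
  have h2 : 2 * √3 / (PV v).κ ≤ 4 / v.x := by
    rw [div_le_div_iff₀ (κ_PV_pos v) (by linarith), κ_PV]
    nlinarith [lt_sqrt2, sqrt2_lt, sqrt3_lt, lt_sqrt3]
  by_cases h3 : ‖zX (VX.p v)‖ ≤ 1
  · have := norm_nonneg (zX (VX.p v))
    nlinarith
  · push Not at h3
    have : 0 < 4 / (v.x : ℝ) := by positivity
    linarith

lemma norm_zX_p (v : V1) : ‖zX (VX.p v)‖ + rX (VX.p v) < 1 := by
  apply R31.inside (ip_PX_self (VX.p v)) (κ_PV_pos v)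
  · show (1 : ℝ) < √3
    have := lt_sqrt3
    linarith
  · show (0 : ℝ) < √2 * v.x
    have := one_le_x v
    positivity

/-! ### area -/

lemma sum_sq_le {ι : Type*} [Countable ι] (z : ι → ℂ) (r : ι → ℝ) (A : Set ι) (c : ℂ) (R : ℝ)
    (hR : 0 ≤ R) (hr : ∀ i ∈ A, 0 ≤ r i)
    (hdis : ∀ i ∈ A, ∀ j ∈ A, i ≠ j → r i + r j ≤ ‖z i - z j‖)
    (hin : ∀ i ∈ A, ‖z i - c‖ + r i ≤ R) :
    ∑' i : A, ENNReal.ofReal (r i ^ 2) ≤ ENNReal.ofReal (R ^ 2) := by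
  have h1 : volume (⋃ i : A, Metric.ball (z i) (r i)) = ∑' i : A, volume (Metric.ball (z i) (r i)) := by
    apply measure_iUnion
    · intro i j hij
      apply Metric.ball_disjoint_ball
      rw [dist_eq_norm]
      exact hdis i i.2 j j.2 (fun h => hij (Subtype.ext h))
    · intro i
      exact Metric.isOpen_ball.measurableSet
  have h2 : volume (⋃ i : A, Metric.ball (z i) (r i)) ≤ volume (Metric.ball c R) := by
    apply measure_mono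
    apply Set.iUnion_subset
    intro i
    apply Metric.ball_subset_ball'
    rw [dist_eq_norm]
    have := hin i i.2
    linarith
  rw [h1, Complex.volume_ball] at h2
  have h3 : ∀ i : A, volume (Metric.ball (z i) (r i)) = ENNReal.ofReal (r i ^ 2) * NNReal.pi := by
    intro i
    rw [Complex.volume_ball, ENNReal.ofReal_pow (hr i i.2)]
  simp_rw [h3] at h2
  rw [ENNReal.tsum_mul_right, ← ENNReal.ofReal_pow hR] at h2
  have hpi : (NNReal.pi : ℝ≥0∞) ≠ 0 := by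
    have := NNReal.pi_pos
    exact_mod_cast this.ne'
  rwa [ENNReal.mul_le_mul_iff_left hpi ENNReal.coe_ne_top] at h2

/-! ### sums over edges -/

lemma tsum_edge_le (f : Sym2 V1 → ℝ≥0∞) (A : Set V1)
    (h : ∀ s ∈ HG.edgeSet, f s ≠ 0 → ∃ v ∈ A, v ∈ s) :
    ∑' s : HG.edgeSet, f s ≤ ∑' v : A, ∑' w : HG.neighborSet v, f s(v, w) := by
  classical
  have h1 : ∑' s : HG.edgeSet, f s = ∑' s : {s : HG.edgeSet // f s ≠ 0}, f s := by
    rw [← tsum_subtype_eq_of_support_subset (s := {s : HG.edgeSet | f s ≠ 0})]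
    · rfl
    · intro s hs
      exact hs
  have h2 : ∀ s : {s : HG.edgeSet // f s ≠ 0}, ∃ p : Σ v : A, HG.neighborSet v,
      (s : Sym2 V1) = s((p.1 : V1), (p.2 : V1)) := by
    intro s
    obtain ⟨v, hv, hvs⟩ := h s.1 s.1.2 s.2
    obtain ⟨w, hw⟩ := hvs
    refine ⟨⟨⟨v, hv⟩, ⟨w, ?_⟩⟩, hw⟩
    have := s.1.2
    rw [hw, SimpleGraph.mem_edgeSet] at this
    exact this
  choose φ hφ using h2
  rw [h1]
  have h3 : Function.Injective φ := by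
    intro s t hst
    apply Subtype.ext
    apply Subtype.ext
    rw [hφ s, hφ t, hst]
  calc ∑' s : {s : HG.edgeSet // f s ≠ 0}, f s
      = ∑' s : {s : HG.edgeSet // f s ≠ 0},
        (fun p : Σ v : A, HG.neighborSet v => f s((p.1 : V1), (p.2 : V1))) (φ s) := by
        apply tsum_congr
        intro s
        show f s = f s(((φ s).1 : V1), ((φ s).2 : V1))
        rw [← hφ s]
    _ ≤ ∑' p : Σ v : A, HG.neighborSet v, f s((p.1 : V1), (p.2 : V1)) :=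
        ENNReal.tsum_comp_le_tsum_of_injective h3 _
    _ = _ := ENNReal.tsum_sigma' _

lemma encard_of_ncard {α : Type*} {s : Set α} {n : ℕ} (hn : n ≠ 0) (h : s.ncard = n) :
    s.encard = n := by
  have hf : s.Finite := Set.finite_of_ncard_ne_zero (by rw [h]; exact hn)
  rw [← hf.cast_ncard_eq, h]

lemma tsum_nbr_le (v : V1) (f : V1 → ℝ≥0∞) (c : ℝ≥0∞) (h : ∀ w, MM v w = 2 → f w ≤ c) :
    ∑' w : HG.neighborSet v, f w ≤ 4 * c := by
  calc ∑' w : HG.neighborSet v, f w ≤ ∑' _ : HG.neighborSet v, c :=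
        ENNReal.tsum_le_tsum (fun w => h w w.2)
    _ = 4 * c := by
        rw [ENNReal.tsum_set_const, encard_of_ncard (by norm_num) (ncard_nbr v)]
        rfl

/-- pairs of a vertex of the first kind and an adjacent vertex of the second kind -/
abbrev Pr := {p : V1 × V2 // NN p.1 p.2 = 1}

lemma tsum_pair_le (f : V1 → V2 → ℝ≥0∞) (A : Set V1)
    (h : ∀ v u, NN v u = 1 → f v u ≠ 0 → v ∈ A) :
    ∑' p : Pr, f p.1.1 p.1.2 ≤ ∑' v : A, ∑' u : {u | NN v u = 1}, f v u := by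
  classical
  have h1 : ∑' p : Pr, f p.1.1 p.1.2 = ∑' p : {p : Pr // f p.1.1 p.1.2 ≠ 0}, f p.1.1.1 p.1.1.2 := by
    rw [← tsum_subtype_eq_of_support_subset (s := {p : Pr | f p.1.1 p.1.2 ≠ 0})]
    · rfl
    · intro s hs
      exact hs
  rw [h1]
  let φ : {p : Pr // f p.1.1 p.1.2 ≠ 0} → Σ v : A, {u | NN v u = 1} := fun p =>
    ⟨⟨p.1.1.1, h _ _ p.1.2 p.2⟩, ⟨p.1.1.2, p.1.2⟩⟩
  have h3 : Function.Injective φ := by
    rintro ⟨⟨⟨a, b⟩, h1⟩, h2⟩ ⟨⟨⟨c, d⟩, h3⟩, h4⟩ hst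
    simp only [φ, Sigma.mk.injEq, Subtype.mk.injEq] at hst
    obtain ⟨rfl, h5⟩ := hst
    simp only [heq_eq_eq, Subtype.mk.injEq] at h5
    subst h5
    rfl
  calc ∑' p : {p : Pr // f p.1.1 p.1.2 ≠ 0}, f p.1.1.1 p.1.1.2
      = ∑' p : {p : Pr // f p.1.1 p.1.2 ≠ 0},
        (fun q : Σ v : A, {u | NN v u = 1} => f q.1 q.2) (φ p) := rfl
    _ ≤ ∑' q : Σ v : A, {u | NN v u = 1}, f q.1 q.2 :=
        ENNReal.tsum_comp_le_tsum_of_injective h3 _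
    _ = _ := ENNReal.tsum_sigma' _

lemma tsum_pair_le' (f : V1 → V2 → ℝ≥0∞) (A : Set V2)
    (h : ∀ v u, NN v u = 1 → f v u ≠ 0 → u ∈ A) :
    ∑' p : Pr, f p.1.1 p.1.2 ≤ ∑' u : A, ∑' v : {v | NN v u = 1}, f v u := by
  classical
  have h1 : ∑' p : Pr, f p.1.1 p.1.2 = ∑' p : {p : Pr // f p.1.1 p.1.2 ≠ 0}, f p.1.1.1 p.1.1.2 := by
    rw [← tsum_subtype_eq_of_support_subset (s := {p : Pr | f p.1.1 p.1.2 ≠ 0})]
    · rfl
    · intro s hs
      exact hs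
  rw [h1]
  let φ : {p : Pr // f p.1.1 p.1.2 ≠ 0} → Σ u : A, {v | NN v u = 1} := fun p =>
    ⟨⟨p.1.1.2, h _ _ p.1.2 p.2⟩, ⟨p.1.1.1, p.1.2⟩⟩
  have h3 : Function.Injective φ := by
    rintro ⟨⟨⟨a, b⟩, h1⟩, h2⟩ ⟨⟨⟨c, d⟩, h3⟩, h4⟩ hst
    simp only [φ, Sigma.mk.injEq, Subtype.mk.injEq] at hst
    obtain ⟨rfl, h5⟩ := hst
    simp only [heq_eq_eq, Subtype.mk.injEq] at h5
    subst h5
    rfl
  calc ∑' p : {p : Pr // f p.1.1 p.1.2 ≠ 0}, f p.1.1.1 p.1.1.2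
      = ∑' p : {p : Pr // f p.1.1 p.1.2 ≠ 0},
        (fun q : Σ u : A, {v | NN v u = 1} => f q.2 q.1) (φ p) := rfl
    _ ≤ ∑' q : Σ u : A, {v | NN v u = 1}, f q.2 q.1 :=
        ENNReal.tsum_comp_le_tsum_of_injective h3 _
    _ = _ := ENNReal.tsum_sigma' _

lemma tsum_nbr2_le (v : V1) (f : V2 → ℝ≥0∞) (c : ℝ≥0∞) (h : ∀ u, NN v u = 1 → f u ≤ c) :
    ∑' u : {u | NN v u = 1}, f u ≤ 4 * c := by
  calc ∑' u : {u | NN v u = 1}, f u ≤ ∑' _ : {u | NN v u = 1}, c :=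
        ENNReal.tsum_le_tsum (fun u => h u u.2)
    _ = 4 * c := by
        rw [ENNReal.tsum_set_const, encard_of_ncard (by norm_num) (ncard_nbr2 v)]
        rfl

lemma tsum_nbr21_le (u : V2) (f : V1 → ℝ≥0∞) (c : ℝ≥0∞) (h : ∀ v, NN v u = 1 → f v ≤ c) :
    ∑' v : {v | NN v u = 1}, f v ≤ 6 * c := by
  calc ∑' v : {v | NN v u = 1}, f v ≤ ∑' _ : {v | NN v u = 1}, c :=
        ENNReal.tsum_le_tsum (fun v => h v v.2)
    _ = 6 * c := by
        rw [ENNReal.tsum_set_const, encard_of_ncard (by norm_num) (ncard_nbr21 u)]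
        rfl

/-- sums over edges with terms bounded by the areas of the discs of `A` -/
lemma tsum_edge_le_area (f : Sym2 V1 → ℝ≥0∞) (A : Set V1) (C S : ℝ) (hC : 0 ≤ C)
    (h : ∀ s ∈ HG.edgeSet, f s ≠ 0 → ∃ v ∈ A, v ∈ s)
    (hf : ∀ v ∈ A, ∀ w, MM v w = 2 → f s(v, w) ≤ ENNReal.ofReal (C * rX (VX.p v) ^ 2))
    (hA : ∑' v : A, ENNReal.ofReal (rX (VX.p v) ^ 2) ≤ ENNReal.ofReal S) :
    ∑' s : HG.edgeSet, f s ≤ ENNReal.ofReal (4 * C * S) := by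
  calc ∑' s : HG.edgeSet, f s ≤ ∑' v : A, ∑' w : HG.neighborSet v, f s(v, w) :=
        tsum_edge_le f A h
    _ ≤ ∑' v : A, 4 * ENNReal.ofReal (C * rX (VX.p v) ^ 2) :=
        ENNReal.tsum_le_tsum (fun v => tsum_nbr_le v _ _ (fun w hw => hf v v.2 w hw))
    _ = 4 * (ENNReal.ofReal C * ∑' v : A, ENNReal.ofReal (rX (VX.p v) ^ 2)) := by
        rw [ENNReal.tsum_mul_left]
        simp_rw [ENNReal.ofReal_mul hC]
        rw [ENNReal.tsum_mul_left]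
    _ ≤ 4 * (ENNReal.ofReal C * ENNReal.ofReal S) := by gcongr
    _ = ENNReal.ofReal (4 * C * S) := by
        rw [← ENNReal.ofReal_mul hC, mul_assoc, ENNReal.ofReal_mul (by norm_num : (0:ℝ) ≤ 4)]
        norm_num

lemma tsum_pair_le_area (f : V1 → V2 → ℝ≥0∞) (A : Set V1) (C S : ℝ) (hC : 0 ≤ C)
    (h : ∀ v u, NN v u = 1 → f v u ≠ 0 → v ∈ A)
    (hf : ∀ v ∈ A, ∀ u, NN v u = 1 → f v u ≤ ENNReal.ofReal (C * rX (VX.p v) ^ 2))
    (hA : ∑' v : A, ENNReal.ofReal (rX (VX.p v) ^ 2) ≤ ENNReal.ofReal S) :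
    ∑' p : Pr, f p.1.1 p.1.2 ≤ ENNReal.ofReal (4 * C * S) := by
  calc ∑' p : Pr, f p.1.1 p.1.2 ≤ ∑' v : A, ∑' u : {u | NN v u = 1}, f v u :=
        tsum_pair_le f A h
    _ ≤ ∑' v : A, 4 * ENNReal.ofReal (C * rX (VX.p v) ^ 2) :=
        ENNReal.tsum_le_tsum (fun v => tsum_nbr2_le v _ _ (fun w hw => hf v v.2 w hw))
    _ = 4 * (ENNReal.ofReal C * ∑' v : A, ENNReal.ofReal (rX (VX.p v) ^ 2)) := by
        rw [ENNReal.tsum_mul_left]
        simp_rw [ENNReal.ofReal_mul hC]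
        rw [ENNReal.tsum_mul_left]
    _ ≤ 4 * (ENNReal.ofReal C * ENNReal.ofReal S) := by gcongr
    _ = ENNReal.ofReal (4 * C * S) := by
        rw [← ENNReal.ofReal_mul hC, mul_assoc, ENNReal.ofReal_mul (by norm_num : (0:ℝ) ≤ 4)]
        norm_num

lemma tsum_pair_le_area' (f : V1 → V2 → ℝ≥0∞) (A : Set V2) (C S : ℝ) (hC : 0 ≤ C)
    (h : ∀ v u, NN v u = 1 → f v u ≠ 0 → u ∈ A)
    (hf : ∀ u ∈ A, ∀ v, NN v u = 1 → f v u ≤ ENNReal.ofReal (C * rX (VX.q u) ^ 2))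
    (hA : ∑' u : A, ENNReal.ofReal (rX (VX.q u) ^ 2) ≤ ENNReal.ofReal S) :
    ∑' p : Pr, f p.1.1 p.1.2 ≤ ENNReal.ofReal (6 * C * S) := by
  calc ∑' p : Pr, f p.1.1 p.1.2 ≤ ∑' u : A, ∑' v : {v | NN v u = 1}, f v u :=
        tsum_pair_le' f A h
    _ ≤ ∑' u : A, 6 * ENNReal.ofReal (C * rX (VX.q u) ^ 2) :=
        ENNReal.tsum_le_tsum (fun u => tsum_nbr21_le u (fun v => f v u) _
          (fun w hw => hf u u.2 w hw))
    _ = 6 * (ENNReal.ofReal C * ∑' u : A, ENNReal.ofReal (rX (VX.q u) ^ 2)) := by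
        rw [ENNReal.tsum_mul_left]
        simp_rw [ENNReal.ofReal_mul hC]
        rw [ENNReal.tsum_mul_left]
    _ ≤ 6 * (ENNReal.ofReal C * ENNReal.ofReal S) := by gcongr
    _ = ENNReal.ofReal (6 * C * S) := by
        rw [← ENNReal.ofReal_mul hC, mul_assoc, ENNReal.ofReal_mul (by norm_num : (0:ℝ) ≤ 6)]
        norm_num

lemma area_all : ∑' v : (Set.univ : Set V1), ENNReal.ofReal (rX (VX.p v) ^ 2)
    ≤ ENNReal.ofReal 1 := by
  have := countable_V1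
  have := sum_sq_le (fun v : V1 => zX (VX.p v)) (fun v => rX (VX.p v)) Set.univ 0 1
    (by norm_num) (fun v _ => (rX_p_pos v).le) (fun v _ w _ h => sep_pp h)
    (fun v _ => by rw [sub_zero]; exact (norm_zX_p v).le)
  simpa using this

theorem sum_dz_ne_top : ∑' s : HG.edgeSet, ENNReal.ofReal (dz s) ≠ ∞ := by
  apply ne_top_of_le_ne_top _
    (tsum_edge_le_area (fun s => ENNReal.ofReal (dz s)) Set.univ 25 1 (by norm_num)
      _ _ area_all)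
  · exact ENNReal.ofReal_ne_top
  · intro s _ _
    induction s with
    | _ v w => exact ⟨v, trivial, Sym2.mem_mk_left v w⟩
  · intro v _ w h
    apply ENNReal.ofReal_le_ofReal
    show ‖zX (VX.p v) - zX (VX.p w)‖ ^ 2 ≤ _
    have h1 := dist_pp_le h
    have h2 := norm_nonneg (zX (VX.p v) - zX (VX.p w))
    nlinarith

theorem sum_dz2_ne_top : ∑' p : {p : V1 × V2 // NN p.1 p.2 = 1},
    ENNReal.ofReal (‖zX (VX.p p.1.1) - zX (VX.q p.1.2)‖ ^ 2) ≠ ∞ := by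
  apply ne_top_of_le_ne_top _
    (tsum_pair_le_area (fun v u => ENNReal.ofReal (‖zX (VX.p v) - zX (VX.q u)‖ ^ 2)) Set.univ 81 1
      (by norm_num) _ _ area_all)
  · exact ENNReal.ofReal_ne_top
  · intro v u _ _
    trivial
  · intro v _ w h
    apply ENNReal.ofReal_le_ofReal
    have h1 := dist_pq_le h
    have h2 := norm_nonneg (zX (VX.p v) - zX (VX.q w))
    nlinarith

end HExit
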