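import Mathlib

/-!
# HExit: exit measure of circle packed random walks (MP_77deba_pr): general definitions
-/

open MeasureTheory ProbabilityTheory Filter Topology
open scoped ENNReal

namespace HExit

/-! ### circle packed triangulations of the unit disc -/

/-- `z`, `r` are the centres and radii of a circle packing, with carrier the open unit disc, of the
triangulation with vertex set `S` and graph `G`.  The faces are the triangles spanned by the centres
of three pairwise adjacent vertices which contain no other centre; they cover the unit disc. -/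
structure IsDiscPacking {V : Type*} (S : Set V) (G : SimpleGraph V) (z : V → ℂ) (r : V → ℝ) :
    Prop where
  supp : ∀ x y, G.Adj x y → x ∈ S
  pos : ∀ x ∈ S, 0 < r x
  inside : ∀ x ∈ S, ‖z x‖ + r x < 1
  sep : ∀ x ∈ S, ∀ y ∈ S, x ≠ y → r x + r y ≤ ‖z x - z y‖
  adj : ∀ x ∈ S, ∀ y ∈ S, x ≠ y → (G.Adj x y ↔ ‖z x - z y‖ = r x + r y)
  locfin : ∀ ρ : ℝ, ρ < 1 → {x | x ∈ S ∧ ‖z x‖ ≤ ρ}.Finite
  cover : ∀ p : ℂ, ‖p‖ < 1 → ∃ a b c, G.Adj a b ∧ G.Adj b c ∧ G.Adj a c ∧
    p ∈ convexHull ℝ {z a, z b, z c} ∧
    ∀ x ∈ S, z x ∈ convexHull ℝ {z a, z b, z c} → x = a ∨ x = b ∨ x = c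

/-- deleting any finite set of vertices from the graph induced on `S` leaves exactly one infinite
connected component -/
def OneEnded {V : Type*} (S : Set V) (G : SimpleGraph V) : Prop :=
  ∀ F : Set V, F.Finite →
    ∃! c : (G.induce (S \ F)).ConnectedComponent, c.supp.Infinite

/-! ### simple random walk -/

open Classical in
/-- the transition probabilities of simple random walk: uniform on the neighbours -/
noncomputable def stepMeasure {V : Type*} [MeasurableSpace V] (G : SimpleGraph V) (x : V) :
    Measure V :=
  if (G.neighborSet x).Finite ∧ (G.neighborSet x).Nonempty then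
    uniformOn (G.neighborSet x) else Measure.dirac x

instance {V : Type*} [MeasurableSpace V] [MeasurableSingletonClass V] (G : SimpleGraph V) (x : V) :
    IsProbabilityMeasure (stepMeasure G x) := by
  unfold stepMeasure
  split_ifs with h
  · exact isProbabilityMeasure_uniformOn h.1 h.2
  · infer_instance

/-- the transition kernel of simple random walk on a graph with discrete vertex set -/
noncomputable def stepKernel {V : Type*} [MeasurableSpace V] [DiscreteMeasurableSpace V]
    (G : SimpleGraph V) : Kernel V V where
  toFun := stepMeasure G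
  measurable' := Measurable.of_discrete

instance {V : Type*} [MeasurableSpace V] [DiscreteMeasurableSpace V] (G : SimpleGraph V) :
    IsMarkovKernel (stepKernel G) := ⟨fun x => by
      show IsProbabilityMeasure (stepMeasure G x)
      infer_instance⟩

/-- the law of simple random walk on `G` started at `x` -/
noncomputable def srw {V : Type*} [MeasurableSpace V] [DiscreteMeasurableSpace V]
    (G : SimpleGraph V) (x : V) : Measure (ℕ → V) :=
  Kernel.trajMeasure (X := fun _ => V) (Measure.dirac x)
    (fun n => (stepKernel G).comap (fun h : (Π _ : Finset.Iic n, V) => h ⟨n, by simp⟩)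
      (measurable_pi_apply _))

/-- the arc of the unit circle which starts at angle `α` and has length `l` -/
def arc (α l : ℝ) : Set ℂ := {ξ | ∃ θ : ℝ, α ≤ θ ∧ θ ≤ α + l ∧ ξ = Complex.exp (θ * Complex.I)}

/-- probability that simple random walk started at `x` converges to a point of `I` -/
noncomputable def exitProb {V : Type*} [MeasurableSpace V] [DiscreteMeasurableSpace V]
    (G : SimpleGraph V) (x : V) (z : V → ℂ) (I : Set ℂ) : ℝ≥0∞ :=
  srw G x {X | ∃ ξ ∈ I, Tendsto (fun n => z (X n)) atTop (𝓝 ξ)}

/-! ### unimodular random rooted graphs -/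

/-- the vertex set of the connected graph with root `x` -/
def comp {V : Type*} (G : SimpleGraph V) (x : V) : Set V := {y | G.Reachable x y}

/-- The random rooted graph (connected component of `ρ` in `G`) is unimodular: mass transport
principle for all measurable, isomorphism invariant, nonnegative functions of doubly rooted graphs. -/
def Unimodular {Ω V : Type*} [MeasurableSpace Ω] (μ : Measure Ω) (G : Ω → SimpleGraph V)
    (ρ : Ω → V) : Prop :=
  ∀ f : (V → V → Prop) → V → V → ℝ≥0∞,
    (∀ x y, Measurable (fun A => f A x y)) →
    (∀ (σ : Equiv.Perm V) (A : V → V → Prop) (x y : V),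
      f (fun a b => A (σ.symm a) (σ.symm b)) (σ x) (σ y) = f A x y) →
    ∫⁻ ω, ∑' y : comp (G ω) (ρ ω), f (G ω).Adj (ρ ω) y ∂μ
      = ∫⁻ ω, ∑' y : comp (G ω) (ρ ω), f (G ω).Adj y (ρ ω) ∂μ

end HExit
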