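import Pool.Agent.HExit.Arith
import Pool.Agent.HExit.Gap

/-!
# HExit: energies on the stacked triangulations
-/

open MeasureTheory ProbabilityTheory Filter Topology
open scoped ENNReal

namespace HExit

namespace EN

lemma finite_of_ncard {α : Type*} {s : Set α} {n : ℕ} (h : s.ncard = n + 1) : s.Finite :=
  Set.finite_of_ncard_ne_zero (by omega)

lemma tsum_fin_const {α : Type*} {s : Set α} (hs : s.Finite) (c : ℝ≥0∞) :
    ∑' _ : s, c = s.ncard * c := by
  classical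
  have := hs.fintype
  rw [tsum_fintype, Finset.sum_const, Finset.card_univ, nsmul_eq_mul, ← Nat.card_eq_fintype_card,
    Nat.card_coe_set_eq]

lemma tsum_fiber_eq {α β : Type*} (π : α → β) (n : ℕ) (hn : n ≠ 0)
    (h : ∀ b, (π ⁻¹' {b}).ncard = n) (Θ : β → ℝ≥0∞) :
    ∑' a, Θ (π a) = ∑' b, n * Θ b := by
  rw [← ENNReal.tsum_fiberwise (fun a => Θ (π a)) π]
  apply tsum_congr
  intro b
  have h1 : ∀ a : (π ⁻¹' {b} : Set α), Θ (π a) = Θ b := fun a => by
    have : π a = b := a.2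
    rw [this]
  rw [tsum_congr h1, tsum_fin_const (Set.finite_of_ncard_ne_zero (by rw [h b]; exact hn)), h b]

lemma tsum_fiber_le {α β : Type*} (π : α → β) (n : ℕ)
    (h : ∀ b, (π ⁻¹' {b}).Finite ∧ (π ⁻¹' {b}).ncard ≤ n) (Θ : β → ℝ≥0∞) :
    ∑' a, Θ (π a) ≤ ∑' b, n * Θ b := by
  rw [← ENNReal.tsum_fiberwise (fun a => Θ (π a)) π]
  apply ENNReal.tsum_le_tsum
  intro b
  have h1 : ∀ a : (π ⁻¹' {b} : Set α), Θ (π a) = Θ b := fun a => by
    have : π a = b := a.2
    rw [this]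
  rw [tsum_congr h1, tsum_fin_const (h b).1]
  gcongr
  exact (h b).2

lemma tsum_range_le {α β : Type*} (f : α → β) (φ : β → ℝ≥0∞) :
    ∑' x : Set.range f, φ x ≤ ∑' a, φ (f a) :=
  ENNReal.tsum_le_tsum_comp_of_surjective (f := Set.rangeFactorization f)
    Set.rangeFactorization_surjective (fun x : Set.range f => φ x)

lemma tsum_sym2 {V : Type*} {v w : V} (h : v ≠ w) (Ψ : V → ℝ≥0∞) :
    ∑' x : {x // x ∈ s(v, w)}, Ψ x = Ψ v + Ψ w := by
  classical
  have h1 : ∑' x : {x // x ∈ s(v, w)}, Ψ x = ∑' x : ({v, w} : Finset V), Ψ x := by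
    have e : {x | x ∈ s(v, w)} = (({v, w} : Finset V) : Set V) := by
      ext x
      simp
    exact tsum_congr_set_coe Ψ e
  rw [h1, Finset.tsum_subtype, Finset.sum_pair h]

lemma p_inj : Function.Injective VX.p := fun _ _ h => VX.p.inj h

/-! ### local finiteness -/

lemma finite_faces_v (v : V1) : {F : Face | v ∈ F.e}.Finite := by
  have h1 : (⋃ w ∈ HG.neighborSet v, {F : Face | F.e = s(v, w)}).Finite := by
    apply (finite_of_ncard (ncard_nbr v)).biUnion
    intro w hw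
    exact finite_of_ncard (ncard_face_edge (s := s(v, w)) hw)
  apply h1.subset
  intro F hF
  obtain ⟨w, hw⟩ : ∃ w, F.e = s(v, w) := hF
  rw [Set.mem_iUnion₂]
  refine ⟨w, ?_, hw⟩
  have := F.he
  rw [hw] at this
  exact this

lemma finite_faces_u (u : V2) : {F : Face | F.u = u}.Finite := by
  have h1 : (⋃ v ∈ {v : V1 | NN v u = 1}, {F : Face | F.u = u ∧ v ∈ F.e}).Finite := by
    apply (finite_of_ncard (ncard_nbr21 u)).biUnion
    intro v hv
    exact finite_of_ncard (ncard_face_vu hv)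
  apply h1.subset
  intro F hF
  have hF' : F.u = u := hF
  obtain ⟨v, hv⟩ : ∃ v, v ∈ F.e := by
    induction F.e with
    | _ a b => exact ⟨a, Sym2.mem_mk_left a b⟩
  rw [Set.mem_iUnion₂]
  refine ⟨v, ?_, hF', hv⟩
  have := F.hu v hv
  rw [hF'] at this
  exact this

lemma finite_mem_sym2 {V : Type*} (s : Sym2 V) : {v | v ∈ s}.Finite := by
  induction s with
  | _ a b =>
    have : {v | v ∈ s(a, b)} = {a, b} := by
      ext v
      simp
    rw [this]
    exact Set.toFinite _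

end EN

open EN

theorem finite_nbrX (k : Sym2 V1 → ℕ) (x : VX) : ((GX k).neighborSet x).Finite := by
  cases x with
  | p v =>
    have h1 : (VX.p '' (HG.neighborSet v) ∪ VX.q '' {u : V2 | NN v u = 1} ∪
        ⋃ F ∈ {F : Face | v ∈ F.e}, (VX.t F) '' (Set.Iio (k F.e))).Finite := by
      refine (((finite_of_ncard (ncard_nbr v)).image _).union
        ((finite_of_ncard (ncard_nbr2 v)).image _)).union ?_
      exact (finite_faces_v v).biUnion (fun F _ => (Set.finite_Iio _).image _)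
    apply h1.subset
    intro y hy
    have hy' : adjX k (VX.p v) y := hy
    cases y with
    | p w => exact Or.inl (Or.inl ⟨w, hy', rfl⟩)
    | q u => exact Or.inl (Or.inr ⟨u, hy', rfl⟩)
    | t F j =>
      right
      rw [Set.mem_iUnion₂]
      exact ⟨F, hy'.2, j, hy'.1, rfl⟩
  | q u =>
    have h1 : (VX.p '' {v : V1 | NN v u = 1} ∪ (fun F => VX.t F 0) '' {F : Face | F.u = u}).Finite :=
      ((finite_of_ncard (ncard_nbr21 u)).image _).union ((finite_faces_u u).image _)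
    apply h1.subset
    intro y hy
    have hy' : adjX k (VX.q u) y := hy
    cases y with
    | p w => exact Or.inl ⟨w, hy', rfl⟩
    | q u => exact hy'.elim
    | t F j =>
      obtain ⟨h2, _, h3⟩ := hy'
      subst h2
      exact Or.inr ⟨F, h3.symm, rfl⟩
  | t F j =>
    have h1 : (VX.p '' {v | v ∈ F.e} ∪ {VX.q F.u} ∪ (VX.t F) '' (Set.Iic (j + 1))).Finite :=
      (((finite_mem_sym2 F.e).image _).union (Set.finite_singleton _)).union
        ((Set.finite_Iic _).image _)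
    apply h1.subset
    intro y hy
    have hy' : adjX k (VX.t F j) y := hy
    cases y with
    | p w => exact Or.inl (Or.inl ⟨w, hy'.2, rfl⟩)
    | q u =>
      obtain ⟨_, _, h3⟩ := hy'
      left
      right
      rw [h3]
      rfl
    | t F' i =>
      obtain ⟨h2, h3, _, _⟩ := hy'
      subst h2
      right
      refine ⟨i, ?_, rfl⟩
      rw [Set.mem_Iic]
      omega

namespace EN

variable (k : Sym2 V1 → ℕ)

/-- index type of the edges between a stack vertex and a vertex of the first kind -/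
abbrev I3 := Σ F : Face, {v // v ∈ F.e} × Fin (k F.e)

def f1 (s : HG.edgeSet) : Sym2 VX := Sym2.map VX.p s
def f2 (p : {p : V1 × V2 // NN p.1 p.2 = 1}) : Sym2 VX := s(VX.p p.1.1, VX.q p.1.2)
def f3 (a : I3 k) : Sym2 VX := s(VX.p a.2.1, VX.t a.1 a.2.2)
def f4 (F : Face) : Sym2 VX := s(VX.q F.u, VX.t F 0)
def f5 (p : Face × ℕ) : Sym2 VX := s(VX.t p.1 p.2, VX.t p.1 (p.2 + 1))

lemma edge_cover : (GX k).edgeSet ⊆ Set.range f1 ∪ Set.range f2 ∪ Set.range (f3 k) ∪
    Set.range f4 ∪ Set.range f5 := by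
  intro s hs
  induction s with
  | _ x y =>
    have h : adjX k x y := hs
    cases x with
    | p v =>
      cases y with
      | p w => exact Or.inl (Or.inl (Or.inl (Or.inl ⟨⟨s(v, w), h⟩, rfl⟩)))
      | q u => exact Or.inl (Or.inl (Or.inl (Or.inr ⟨⟨(v, u), h⟩, rfl⟩)))
      | t F j => exact Or.inl (Or.inl (Or.inr ⟨⟨F, ⟨v, h.2⟩, ⟨j, h.1⟩⟩, rfl⟩))
    | q u =>
      cases y with
      | p w => exact Or.inl (Or.inl (Or.inl (Or.inr ⟨⟨(w, u), h⟩, Sym2.eq_swap⟩)))
      | q u => exact h.elim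
      | t F j =>
        obtain ⟨h2, _, h3⟩ := h
        subst h2
        refine Or.inl (Or.inr ⟨F, ?_⟩)
        rw [h3]
        rfl
    | t F j =>
      cases y with
      | p w => exact Or.inl (Or.inl (Or.inr ⟨⟨F, ⟨w, h.2⟩, ⟨j, h.1⟩⟩, Sym2.eq_swap⟩))
      | q u =>
        obtain ⟨h2, _, h3⟩ := h
        subst h2
        refine Or.inl (Or.inr ⟨F, ?_⟩)
        rw [h3]
        exact Sym2.eq_swap
      | t F' i =>
        obtain ⟨h2, h3, _, _⟩ := h
        subst h2
        right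
        rcases h3 with h3 | h3
        · refine ⟨(F, i), ?_⟩
          rw [h3]
          exact Sym2.eq_swap
        · refine ⟨(F, j), ?_⟩
          rw [h3]
          rfl

lemma edge_sum_le (φ : Sym2 VX → ℝ≥0∞) : ∑' s : (GX k).edgeSet, φ s ≤
    ∑' s, φ (f1 s) + ∑' p, φ (f2 p) + ∑' a, φ (f3 k a) + ∑' F, φ (f4 F) + ∑' p, φ (f5 p) := by
  refine (ENNReal.tsum_mono_subtype φ (edge_cover k)).trans ?_
  refine (ENNReal.tsum_union_le φ _ _).trans (add_le_add ?_ (tsum_range_le _ φ))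
  refine (ENNReal.tsum_union_le φ _ _).trans (add_le_add ?_ (tsum_range_le _ φ))
  refine (ENNReal.tsum_union_le φ _ _).trans (add_le_add ?_ (tsum_range_le _ φ))
  exact (ENNReal.tsum_union_le φ _ _).trans (add_le_add (tsum_range_le _ φ) (tsum_range_le _ φ))

lemma f1_mem (s : HG.edgeSet) : f1 s ∈ (GX k).edgeSet := by
  obtain ⟨s, hs⟩ := s
  induction s with
  | _ v w => exact hs

lemma f3_mem (a : I3 k) : f3 k a ∈ (GX k).edgeSet := by
  obtain ⟨F, ⟨v, hv⟩, j⟩ := a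
  exact ⟨j.2, hv⟩

lemma le_edge_sum (φ : Sym2 VX → ℝ≥0∞) :
    ∑' s, φ (f1 s) + ∑' a, φ (f3 k a) ≤ ∑' s : (GX k).edgeSet, φ s := by
  let f : HG.edgeSet ⊕ I3 k → (GX k).edgeSet := Sum.elim (fun s => ⟨f1 s, f1_mem k s⟩)
    (fun a => ⟨f3 k a, f3_mem k a⟩)
  have hf : Function.Injective f := by
    rintro (s | a) (s' | a') h
    · have h1 : f1 s = f1 s' := congrArg Subtype.val h
      have h2 := Sym2.map.injective p_inj h1
      exact congrArg Sum.inl (Subtype.ext h2)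
    · exfalso
      have h1 : f1 s = f3 k a' := congrArg Subtype.val h
      have h2 : VX.t a'.1 a'.2.2 ∈ f1 s := by
        rw [h1]
        exact Sym2.mem_mk_right _ _
      obtain ⟨v, _, hv⟩ := Sym2.mem_map.mp h2
      cases hv
    · exfalso
      have h1 : f3 k a = f1 s' := congrArg Subtype.val h
      have h2 : VX.t a.1 a.2.2 ∈ f1 s' := by
        rw [← h1]
        exact Sym2.mem_mk_right _ _
      obtain ⟨v, _, hv⟩ := Sym2.mem_map.mp h2
      cases hv
    · have h1 : f3 k a = f3 k a' := congrArg Subtype.val h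
      obtain ⟨F, ⟨v, hv⟩, j⟩ := a
      obtain ⟨F', ⟨v', hv'⟩, j'⟩ := a'
      unfold f3 at h1
      rw [Sym2.eq_iff] at h1
      rcases h1 with ⟨h2, h3⟩ | ⟨h2, _⟩
      · simp only at h2 h3
        obtain rfl := VX.p.inj h2
        obtain ⟨h4, h5⟩ := VX.t.inj h3
        subst h4
        have h6 : j = j' := Fin.ext h5
        subst h6
        rfl
      · simp only at h2
        cases h2
  have h1 := ENNReal.tsum_comp_le_tsum_of_injective hf (fun s => φ s)
  rw [Summable.tsum_sum ENNReal.summable ENNReal.summable] at h1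
  exact h1

lemma dsq_f1 (g : VX → ℝ) (s : HG.edgeSet) : dsq g (f1 s) = dsq (fun v => g (VX.p v)) s := by
  obtain ⟨s, hs⟩ := s
  induction s with
  | _ v w => rfl

lemma tsum_face (Φ : Sym2 V1 → ℝ≥0∞) : ∑' F : Face, Φ F.e = ∑' s : HG.edgeSet, 2 * Φ s := by
  have h := tsum_fiber_eq (fun F : Face => (⟨F.e, F.he⟩ : HG.edgeSet)) 2 (by norm_num) (by
    rintro ⟨s, hs⟩
    rw [← ncard_face_edge hs]
    congr 1
    ext F
    simp) (fun s => Φ s)
  exact_mod_cast h

/-- the endpoints of the edge of a face -/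
lemma face_edge (F : Face) {v : V1} (hv : v ∈ F.e) : ∃ w, F.e = s(v, w) ∧ v ≠ w := by
  obtain ⟨w, hw⟩ : ∃ w, F.e = s(v, w) := hv
  refine ⟨w, hw, ?_⟩
  have h := F.he
  rw [hw] at h
  exact HG.ne_of_adj h

lemma sum_I3 (φ : Sym2 VX → ℝ≥0∞) : ∑' a, φ (f3 k a) =
    ∑' F : Face, ∑' v : {v // v ∈ F.e}, ∑ j : Fin (k F.e), φ s(VX.p v, VX.t F j) := by
  rw [ENNReal.tsum_sigma']
  apply tsum_congr
  intro F
  rw [ENNReal.tsum_prod']
  apply tsum_congr
  intro v
  rw [tsum_fintype]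
  rfl

end EN

/-- upper bound for functions which are constant on each stack, equal to the value at an endpoint -/
theorem en_le (k : Sym2 V1 → ℕ) (g : VX → ℝ)
    (hg : ∀ F : Face, ∃ v ∈ F.e, ∀ j : ℕ, g (VX.t F j) = g (VX.p v)) :
    en (GX k) g ≤ ∑' s : HG.edgeSet, (1 + 2 * (k s : ℝ≥0∞)) *
        ENNReal.ofReal (dsq (fun v => g (VX.p v)) s)
      + 3 * ∑' p : {p : V1 × V2 // NN p.1 p.2 = 1},
        ENNReal.ofReal ((g (VX.p p.1.1) - g (VX.q p.1.2)) ^ 2) := by
  refine (edge_sum_le k (fun s => ENNReal.ofReal (dsq g s))).trans ?_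
  set S2 : ℝ≥0∞ := ∑' p : {p : V1 × V2 // NN p.1 p.2 = 1},
        ENNReal.ofReal ((g (VX.p p.1.1) - g (VX.q p.1.2)) ^ 2) with hS2
  have e1 : ∑' s, ENNReal.ofReal (dsq g (f1 s))
      = ∑' s : HG.edgeSet, ENNReal.ofReal (dsq (fun v => g (VX.p v)) s) :=
    tsum_congr (fun s => by rw [dsq_f1])
  have e2 : ∑' p, ENNReal.ofReal (dsq g (f2 p)) = S2 := rfl
  have e3 : ∑' a, ENNReal.ofReal (dsq g (f3 k a)) = ∑' s : HG.edgeSet,
      2 * ((k s : ℝ≥0∞) * ENNReal.ofReal (dsq (fun v => g (VX.p v)) s)) := by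
    rw [sum_I3 k (fun s => ENNReal.ofReal (dsq g s)), ← tsum_face
      (fun s => (k s : ℝ≥0∞) * ENNReal.ofReal (dsq (fun v => g (VX.p v)) s))]
    apply tsum_congr
    intro F
    obtain ⟨v, hv, hc⟩ := hg F
    obtain ⟨w, hw, hne⟩ := face_edge F hv
    have h1 : ∀ x : {x // x ∈ F.e}, ∑ j : Fin (k F.e),
        ENNReal.ofReal (dsq g s(VX.p x, VX.t F j))
        = (k F.e : ℝ≥0∞) * ENNReal.ofReal ((g (VX.p x) - g (VX.p v)) ^ 2) := by
      intro x
      have h2 : ∀ j ∈ (Finset.univ : Finset (Fin (k F.e))),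
          ENNReal.ofReal (dsq g s(VX.p x, VX.t F j))
          = ENNReal.ofReal ((g (VX.p x) - g (VX.p v)) ^ 2) := by
        intro j _
        rw [dsq_mk, hc]
      rw [Finset.sum_congr rfl h2, Finset.sum_const, Finset.card_univ, Fintype.card_fin,
        nsmul_eq_mul]
    rw [tsum_congr h1, ENNReal.tsum_mul_left]
    congr 1
    rw [hw, tsum_sym2 hne (fun x => ENNReal.ofReal ((g (VX.p x) - g (VX.p v)) ^ 2)), dsq_mk,
      sub_self]
    rw [zero_pow (by norm_num), ENNReal.ofReal_zero, zero_add]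
    congr 1
    ring
  have e4 : ∑' F, ENNReal.ofReal (dsq g (f4 F)) ≤ 2 * S2 := by
    choose vF hvF hcF using hg
    have h1 : ∀ F, ENNReal.ofReal (dsq g (f4 F))
        = ENNReal.ofReal ((g (VX.p (vF F)) - g (VX.q F.u)) ^ 2) := by
      intro F
      unfold f4
      rw [dsq_mk, hcF]
      congr 1
      ring
    rw [tsum_congr h1]
    have h2 := tsum_fiber_le (fun F : Face =>
      (⟨(vF F, F.u), F.hu _ (hvF F)⟩ : {p : V1 × V2 // NN p.1 p.2 = 1})) 2 (by
        rintro ⟨⟨v, u⟩, h⟩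
        have hfin := finite_of_ncard (ncard_face_vu h)
        have hsub : ((fun F : Face =>
            (⟨(vF F, F.u), F.hu _ (hvF F)⟩ : {p : V1 × V2 // NN p.1 p.2 = 1})) ⁻¹' {⟨(v, u), h⟩})
            ⊆ {F : Face | F.u = u ∧ v ∈ F.e} := by
          intro F hF
          have hF' : (vF F, F.u) = (v, u) := congrArg Subtype.val hF
          rw [Prod.mk.injEq] at hF'
          refine ⟨hF'.2, ?_⟩
          rw [← hF'.1]
          exact hvF F
        exact ⟨hfin.subset hsub, (Set.ncard_le_ncard hsub hfin).trans (ncard_face_vu h).le⟩)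
      (fun p => ENNReal.ofReal ((g (VX.p p.1.1) - g (VX.q p.1.2)) ^ 2))
    refine h2.trans (le_of_eq ?_)
    rw [ENNReal.tsum_mul_left]
    rfl
  have e5 : ∑' p, ENNReal.ofReal (dsq g (f5 p)) = 0 := by
    rw [ENNReal.tsum_eq_zero]
    rintro ⟨F, j⟩
    obtain ⟨v, _, hc⟩ := hg F
    unfold f5
    rw [dsq_mk, hc, hc, sub_self]
    simp
  rw [e1, e2, e3, e5, add_zero]
  have h6 : ∑' s : HG.edgeSet, (1 + 2 * (k s : ℝ≥0∞)) *
        ENNReal.ofReal (dsq (fun v => g (VX.p v)) s)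
      = ∑' s : HG.edgeSet, ENNReal.ofReal (dsq (fun v => g (VX.p v)) s) + ∑' s : HG.edgeSet,
      2 * ((k s : ℝ≥0∞) * ENNReal.ofReal (dsq (fun v => g (VX.p v)) s)) := by
    rw [← ENNReal.tsum_add]
    apply tsum_congr
    intro s
    ring
  rw [h6]
  have h7 : (3 : ℝ≥0∞) * S2 = S2 + 2 * S2 := by ring
  rw [h7]
  calc _ ≤ ∑' s : HG.edgeSet, ENNReal.ofReal (dsq (fun v => g (VX.p v)) s) + S2
        + ∑' s : HG.edgeSet, 2 * ((k s : ℝ≥0∞) * ENNReal.ofReal (dsq (fun v => g (VX.p v)) s))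
        + 2 * S2 := by gcongr
    _ = _ := by ring

/-- lower bound -/
theorem le_en (k : Sym2 V1 → ℕ) (g : VX → ℝ) :
    ∑' s : HG.edgeSet, (1 + (k s : ℝ≥0∞)) * ENNReal.ofReal (dsq (fun v => g (VX.p v)) s)
      ≤ en (GX k) g := by
  refine le_trans ?_ (le_edge_sum k (fun s => ENNReal.ofReal (dsq g s)))
  have e1 : ∑' s, ENNReal.ofReal (dsq g (f1 s))
      = ∑' s : HG.edgeSet, ENNReal.ofReal (dsq (fun v => g (VX.p v)) s) :=
    tsum_congr (fun s => by rw [dsq_f1])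
  have e3 : ∑' s : HG.edgeSet, (k s : ℝ≥0∞) * ENNReal.ofReal (dsq (fun v => g (VX.p v)) s)
      ≤ ∑' a, ENNReal.ofReal (dsq g (f3 k a)) := by
    have h1 : ∑' s : HG.edgeSet, (k s : ℝ≥0∞) * ENNReal.ofReal (dsq (fun v => g (VX.p v)) s)
        = ∑' F : Face, (k F.e : ℝ≥0∞) * ENNReal.ofReal (dsq (fun v => g (VX.p v)) F.e / 2) := by
      rw [tsum_face (fun s => (k s : ℝ≥0∞) * ENNReal.ofReal (dsq (fun v => g (VX.p v)) s / 2))]
      apply tsum_congr
      intro s
      have h2 : ENNReal.ofReal (dsq (fun v => g (VX.p v)) s)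
          = 2 * ENNReal.ofReal (dsq (fun v => g (VX.p v)) s / 2) := by
        have h3 : (2 : ℝ≥0∞) = ENNReal.ofReal 2 := by simp
        rw [h3, ← ENNReal.ofReal_mul (by norm_num)]
        congr 1
        ring
      rw [h2]
      ring
    rw [h1, sum_I3 k (fun s => ENNReal.ofReal (dsq g s))]
    apply ENNReal.tsum_le_tsum
    intro F
    obtain ⟨v, hv⟩ : ∃ v, v ∈ F.e := by
      induction F.e with
      | _ a b => exact ⟨a, Sym2.mem_mk_left a b⟩
    obtain ⟨w, hw, hne⟩ := face_edge F hv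
    have h2 : ∑' x : {x // x ∈ F.e}, ∑ j : Fin (k F.e), ENNReal.ofReal (dsq g s(VX.p x, VX.t F j))
        = ∑ j : Fin (k F.e), ENNReal.ofReal ((g (VX.p v) - g (VX.t F j)) ^ 2)
          + ∑ j : Fin (k F.e), ENNReal.ofReal ((g (VX.p w) - g (VX.t F j)) ^ 2) := by
      have h3 : ∑' x : {x // x ∈ F.e},
          ∑ j : Fin (k F.e), ENNReal.ofReal (dsq g s(VX.p x, VX.t F j))
          = ∑' x : {x // x ∈ s(v, w)},
          ∑ j : Fin (k F.e), ENNReal.ofReal (dsq g s(VX.p x, VX.t F j)) := by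
        have e : {x | x ∈ F.e} = {x | x ∈ s(v, w)} := by rw [hw]
        exact tsum_congr_set_coe (fun x => ∑ j : Fin (k F.e),
          ENNReal.ofReal (dsq g s(VX.p x, VX.t F j))) e
      rw [h3, tsum_sym2 hne (fun x => ∑ j : Fin (k F.e),
        ENNReal.ofReal (dsq g s(VX.p x, VX.t F j)))]
      rfl
    rw [h2, ← Finset.sum_add_distrib]
    have h4 : (k F.e : ℝ≥0∞) * ENNReal.ofReal (dsq (fun v => g (VX.p v)) F.e / 2)
        = ∑ _j : Fin (k F.e), ENNReal.ofReal (dsq (fun v => g (VX.p v)) F.e / 2) := by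
      rw [Finset.sum_const, Finset.card_univ, Fintype.card_fin, nsmul_eq_mul]
    rw [h4]
    apply Finset.sum_le_sum
    intro j _
    rw [← ENNReal.ofReal_add (sq_nonneg _) (sq_nonneg _)]
    apply ENNReal.ofReal_le_ofReal
    have h5 : dsq (fun v => g (VX.p v)) F.e = (g (VX.p v) - g (VX.p w)) ^ 2 := by
      rw [hw, dsq_mk]
    rw [h5]
    nlinarith [sq_nonneg ((g (VX.p v) - g (VX.t F j)) + (g (VX.p w) - g (VX.t F j)))]
  rw [e1]
  have h6 : ∑' s : HG.edgeSet, (1 + (k s : ℝ≥0∞)) *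
        ENNReal.ofReal (dsq (fun v => g (VX.p v)) s)
      = ∑' s : HG.edgeSet, ENNReal.ofReal (dsq (fun v => g (VX.p v)) s) + ∑' s : HG.edgeSet,
      (k s : ℝ≥0∞) * ENNReal.ofReal (dsq (fun v => g (VX.p v)) s) := by
    rw [← ENNReal.tsum_add]
    apply tsum_congr
    intro s
    ring
  rw [h6]
  gcongr

theorem gapX (k : Sym2 V1 → ℕ) (g : VX → ℝ) (hg : (Function.support g).Finite) :
    ENNReal.ofReal (1 / 10) * ∑' x : Set.range VX.p, ENNReal.ofReal (g x ^ 2) ≤ en (GX k) g := by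
  have h1 : ∑' x : Set.range VX.p, ENNReal.ofReal (g x ^ 2)
      = ∑' v, ENNReal.ofReal (g (VX.p v) ^ 2) :=
    tsum_range (fun x => ENNReal.ofReal (g x ^ 2)) p_inj
  rw [h1]
  have h2 : (Function.support fun v => g (VX.p v)).Finite :=
    hg.preimage p_inj.injOn
  refine (gap (fun v => g (VX.p v)) h2).trans (le_trans ?_ (le_en k g))
  apply ENNReal.tsum_le_tsum
  intro s
  exact le_mul_of_one_le_left zero_le le_self_add

namespace EN

lemma cap_p (k : Sym2 V1 → ℕ) (v : V1) (g : VX → ℝ) (hg : (Function.support g).Finite) :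
    ENNReal.ofReal (1 / 10 * g (VX.p v) ^ 2) ≤ en (GX k) g := by
  refine le_trans ?_ (gapX k g hg)
  rw [ENNReal.ofReal_mul (by norm_num)]
  gcongr
  exact ENNReal.le_tsum (f := fun x : Set.range VX.p => ENNReal.ofReal (g x ^ 2)) ⟨VX.p v, v, rfl⟩

lemma cap_nbr (k : Sym2 V1 → ℕ) (v : V1) (x : VX) (h : (GX k).Adj (VX.p v) x) (g : VX → ℝ)
    (hg : (Function.support g).Finite) :
    ENNReal.ofReal (1 / 22 * g x ^ 2) ≤ en (GX k) g := by
  have h1 := cap_p k v g hg
  have h2 : ENNReal.ofReal ((g (VX.p v) - g x) ^ 2) ≤ en (GX k) g :=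
    ENNReal.le_tsum (f := fun s : (GX k).edgeSet => ENNReal.ofReal (dsq g s)) ⟨s(VX.p v, x), h⟩
  have h3 : ENNReal.ofReal (1 / 22 * g x ^ 2) ≤
      ENNReal.ofReal (10 / 11 * (1 / 10 * g (VX.p v) ^ 2) + 1 / 11 * (g (VX.p v) - g x) ^ 2) := by
    apply ENNReal.ofReal_le_ofReal
    nlinarith [sq_nonneg (g (VX.p v) + (g (VX.p v) - g x))]
  refine h3.trans ?_
  rw [ENNReal.ofReal_add (by positivity) (by positivity), ENNReal.ofReal_mul (by norm_num),
    ENNReal.ofReal_mul (p := 1 / 11) (by norm_num)]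
  calc ENNReal.ofReal (10 / 11) * ENNReal.ofReal (1 / 10 * g (VX.p v) ^ 2)
      + ENNReal.ofReal (1 / 11) * ENNReal.ofReal ((g (VX.p v) - g x) ^ 2)
      ≤ ENNReal.ofReal (10 / 11) * en (GX k) g + ENNReal.ofReal (1 / 11) * en (GX k) g := by
        gcongr
    _ = en (GX k) g := by
        rw [← add_mul, ← ENNReal.ofReal_add (by norm_num) (by norm_num)]
        norm_num

end EN

theorem capX (k : Sym2 V1 → ℕ) : ∀ x ∈ SX k, ∃ c : ℝ, 0 < c ∧ ∀ g : VX → ℝ,
    (Function.support g).Finite → ENNReal.ofReal (c * g x ^ 2) ≤ en (GX k) g := by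
  intro x hx
  cases x with
  | p v => exact ⟨1 / 10, by norm_num, fun g hg => cap_p k v g hg⟩
  | q u =>
    obtain ⟨v, hv⟩ : {v : V1 | NN v u = 1}.Nonempty := by
      apply Set.nonempty_of_ncard_ne_zero
      rw [ncard_nbr21 u]
      norm_num
    exact ⟨1 / 22, by norm_num, fun g hg => cap_nbr k v (VX.q u) hv g hg⟩
  | t F j =>
    obtain ⟨v, hv⟩ : ∃ v, v ∈ F.e := by
      induction F.e with
      | _ a b => exact ⟨a, Sym2.mem_mk_left a b⟩
    exact ⟨1 / 22, by norm_num, fun g hg => cap_nbr k v (VX.t F j) ⟨hx, hv⟩ g hg⟩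

end HExit
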