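import Pool.Agent.HExit.Base

/-!
# HExit: energies, harmonic functions, the good event (definitions)
-/

open MeasureTheory ProbabilityTheory Filter Topology
open scoped ENNReal

namespace HExit

/-- squared difference over an edge -/
noncomputable def dsq {V : Type*} (g : V → ℝ) (s : Sym2 V) : ℝ :=
  Sym2.lift ⟨fun v w => (g v - g w) ^ 2, fun v w => by ring⟩ s

@[simp] lemma dsq_mk {V : Type*} (g : V → ℝ) (v w : V) : dsq g s(v, w) = (g v - g w) ^ 2 := rfl

lemma dsq_nonneg {V : Type*} (g : V → ℝ) (s : Sym2 V) : 0 ≤ dsq g s := by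
  induction s with
  | _ v w => rw [dsq_mk]; positivity

/-- Dirichlet energy -/
noncomputable def en {V : Type*} (G : SimpleGraph V) (g : V → ℝ) : ℝ≥0∞ :=
  ∑' s : G.edgeSet, ENNReal.ofReal (dsq g s)

/-- harmonic functions -/
def IsHarm {V : Type*} (G : SimpleGraph V) (h : V → ℝ) : Prop :=
  ∀ x, ∑ᶠ y ∈ G.neighborSet x, (h y - h x) = 0

/-- squared distance of the centres of the endpoints of an edge of `HG` -/
noncomputable def dz (s : Sym2 V1) : ℝ :=
  Sym2.lift ⟨fun v w => ‖zX (VX.p v) - zX (VX.p w)‖ ^ 2, fun v w => by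
    show ‖zX (VX.p v) - zX (VX.p w)‖ ^ 2 = ‖zX (VX.p w) - zX (VX.p v)‖ ^ 2
    rw [norm_sub_rev]⟩ s

/-- the good event of level `n` for the weights `k` -/
def Good (M : ℝ) (k : Sym2 V1 → ℕ) (n : ℕ) : Prop :=
  ∃ (e : DE) (w : HG.Walk o e.v), w.length ≤ n ∧ (∀ s, inK e n s → n ^ 5 ≤ k s) ∧
    ∑' s : {s // s ∈ HG.edgeSet ∧ ¬ inK e n s}, (k s : ℝ≥0∞) * ENNReal.ofReal (dpsi e n s)
      ≤ ENNReal.ofReal (M * n ^ 2) ∧
    ∑' s : {s // s ∈ HG.edgeSet ∧ ¬ inK e n s ∧ ∃ y ∈ w.support, y ∈ s}, (k s : ℝ≥0∞)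
      ≤ ENNReal.ofReal (M * n)

/-! ### the random environment -/

/-- index set of the marks -/
abbrev Idx := DE × ℕ

/-- the size of the ball of radius `n` of `HG` -/
noncomputable def Jn (n : ℕ) : ℕ := {v : V1 | HG.dist o v ≤ n}.ncard

/-- the law of a mark of type `n`: it is `true` with probability `1 / (2 * Jn n)` -/
noncomputable def markLaw (n : ℕ) : Measure Bool :=
  ENNReal.ofReal (1 / (2 * Jn n)) • Measure.dirac true
    + ENNReal.ofReal (1 - 1 / (2 * Jn n)) • Measure.dirac false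

/-- the law of the marks -/
noncomputable def PP : Measure (Idx → Bool) := Measure.infinitePi fun i => markLaw i.2

open Classical in
/-- the weight of an edge, as an extended number -/
noncomputable def kE (ω : Idx → Bool) (s : Sym2 V1) : ℝ≥0∞ :=
  ∑' i : Idx, if ω i = true ∧ inK i.1 i.2 s then (i.2 : ℝ≥0∞) ^ 5 else 0

/-- the weight of an edge -/
noncomputable def kk (ω : Idx → Bool) (s : Sym2 V1) : ℕ := ⌊(kE ω s).toReal⌋₊

/-- three reference vertices -/
def w0 : V1 := ⟨2, 1, 0, by norm_num, by norm_num⟩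
def u0 : V2 := ⟨1, 1, 1, by norm_num, by norm_num⟩

/-- the reference face -/
def F0 : Face := ⟨s(o, w0), u0, by
    show MM o w0 = 2
    decide, by
    intro v hv
    rcases Sym2.mem_iff.mp hv with rfl | rfl <;> decide⟩

/-- representatives of the orbits of vertices -/
def root : ℕ → VX
  | 0 => VX.p o
  | 1 => VX.q u0
  | (j + 2) => VX.t F0 j

/-- their weights -/
noncomputable def cw : ℕ → ℝ≥0∞
  | 0 => 1 / 8
  | 1 => 1 / 12
  | _ => 1 / 2

open Classical in
/-- the law of the marks and of the type of the root, not normalised -/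
noncomputable def mu0 : Measure ((Idx → Bool) × ℕ) :=
  (PP.prod Measure.count).withDensity
    (fun p => if root p.2 ∈ SX (kk p.1) then cw p.2 else 0)

/-- the law of the marks and of the type of the root -/
noncomputable def muR : Measure ((Idx → Bool) × ℕ) := (mu0 Set.univ)⁻¹ • mu0

end HExit
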