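import Pool.Agent.HExit.Env2

/-!
# HExit: the good event happens infinitely often with positive probability
-/

open MeasureTheory ProbabilityTheory Filter Topology
open scoped ENNReal

namespace HExit

/-! ### independence of one mark from the others -/

theorem indep_mark (i : Idx) (B : Set (Idx → Bool)) (hB : MeasurableSet B)
    (hinv : ∀ ω b, Function.update ω i b ∈ B ↔ ω ∈ B) :
    PP ({ω | ω i = true} ∩ B) = qn i.2 * PP B := by
  classical
  have hI : iIndepFun (fun (j : Idx) (ω : Idx → Bool) => ω j) PP :=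
    iIndepFun_infinitePi (P := fun i : Idx => markLaw i.2) (X := fun _ ω => ω)
      (fun _ => measurable_id)
  have hle : ∀ j : Idx, MeasurableSpace.comap (fun ω : Idx → Bool => ω j) inferInstance ≤
      (inferInstance : MeasurableSpace (Idx → Bool)) := fun j =>
    measurable_iff_comap_le.1 (measurable_pi_apply j)
  have hS := indep_iSup_of_disjoint hle hI.iIndep (S := {i}) (T := {i}ᶜ) disjoint_compl_right
  rw [Indep_iff] at hS
  rw [← PP_true i]
  refine hS _ _ ?_ ?_
  · have h1 : MeasurableSpace.comap (fun ω : Idx → Bool => ω i) inferInstance ≤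
        ⨆ j ∈ ({i} : Set Idx), MeasurableSpace.comap (fun ω : Idx → Bool => ω j) inferInstance :=
      le_iSup₂_of_le i (Set.mem_singleton i) le_rfl
    exact h1 _ ⟨{true}, measurableSet_singleton true, rfl⟩
  · -- the restriction to the other coordinates
    have hρ : @Measurable _ _ (⨆ j ∈ ({i}ᶜ : Set Idx),
        MeasurableSpace.comap (fun ω : Idx → Bool => ω j) inferInstance) inferInstance
        (fun (ω : Idx → Bool) (j : {j // j ≠ i}) => ω j) := by
      refine @measurable_pi_lambda _ _ _ (_) _ _ fun j => ?_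
      have h1 : MeasurableSpace.comap (fun ω : Idx → Bool => ω j) inferInstance ≤
          ⨆ j ∈ ({i}ᶜ : Set Idx), MeasurableSpace.comap (fun ω : Idx → Bool => ω j)
            inferInstance := le_iSup₂_of_le j.1 j.2 le_rfl
      exact measurable_iff_comap_le.2 h1
    have hext : Measurable fun (η : {j // j ≠ i} → Bool) (j : Idx) =>
        if h : j = i then false else η ⟨j, h⟩ := by
      refine measurable_pi_lambda _ fun j => ?_
      by_cases h : j = i
      · simp only [h, dite_true]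
        exact measurable_const
      · simp only [h, dite_false]
        exact measurable_pi_apply _
    have hB' := hρ (hext hB)
    convert hB' using 1
    ext ω
    simp only [Set.mem_preimage]
    rw [← hinv ω false]
    have e : Function.update ω i false = fun j => if h : j = i then false else ω j := by
      funext j
      by_cases h : j = i
      · subst h; simp
      · simp [h]
    rw [e]

/-! ### Bonferroni inequality -/

theorem bonferroni (S : Finset DE) (D : DE → Set (Idx → Bool)) (hD : ∀ e, MeasurableSet (D e)) :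
    2 * ∑ e ∈ S, PP (D e) ≤ 2 * PP (⋃ e ∈ S, D e) +
      ∑ e ∈ S, ∑ f ∈ S.erase e, PP (D e ∩ D f) := by
  classical
  have hU : MeasurableSet (⋃ e ∈ S, D e) := Finset.measurableSet_biUnion S fun e _ => hD e
  have key : ∀ ω, 2 * ∑ e ∈ S, (D e).indicator (1 : (Idx → Bool) → ℝ≥0∞) ω ≤
      2 * (⋃ e ∈ S, D e).indicator (1 : (Idx → Bool) → ℝ≥0∞) ω +
        ∑ e ∈ S, ∑ f ∈ S.erase e, (D e ∩ D f).indicator (1 : (Idx → Bool) → ℝ≥0∞) ω := by
    intro ω
    have h1 : ∑ e ∈ S, (D e).indicator (1 : (Idx → Bool) → ℝ≥0∞) ω = ((S.filter fun e => ω ∈ D e).card : ℝ≥0∞) := by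
      rw [Finset.card_filter]
      push_cast
      exact Finset.sum_congr rfl fun e _ => by simp [Set.indicator_apply]
    have h2 : ∑ e ∈ S, ∑ f ∈ S.erase e, (D e ∩ D f).indicator (1 : (Idx → Bool) → ℝ≥0∞) ω =
        (((S.filter fun e => ω ∈ D e).card * ((S.filter fun e => ω ∈ D e).card - 1) : ℕ) : ℝ≥0∞) := by
      have h3 : ∀ e ∈ S, ∑ f ∈ S.erase e, (D e ∩ D f).indicator (1 : (Idx → Bool) → ℝ≥0∞) ω =
          if ω ∈ D e then (((S.filter fun e => ω ∈ D e).card - 1 : ℕ) : ℝ≥0∞) else 0 := by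
        intro e he
        by_cases h : ω ∈ D e
        · rw [if_pos h]
          have h4 : (S.filter fun e => ω ∈ D e).card - 1 =
              ((S.erase e).filter fun e => ω ∈ D e).card := by
            rw [Finset.filter_erase, Finset.card_erase_of_mem (by simp [he, h])]
          rw [h4, Finset.card_filter]
          push_cast
          exact Finset.sum_congr rfl fun f _ => by simp [Set.indicator_apply, h]
        · rw [if_neg h]
          exact Finset.sum_eq_zero fun f _ => by simp [h]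
      rw [Finset.sum_congr rfl h3, ← Finset.sum_filter, Finset.sum_const, nsmul_eq_mul]
      push_cast
      rfl
    rw [h1, h2]
    rcases Nat.eq_zero_or_pos (S.filter fun e => ω ∈ D e).card with h0 | h0
    · rw [h0]; simp
    · obtain ⟨e, he⟩ := Finset.card_pos.1 h0
      rw [Finset.mem_filter] at he
      have h4 : ω ∈ ⋃ e ∈ S, D e := Set.mem_biUnion he.1 he.2
      rw [Set.indicator_of_mem h4]
      simp only [Pi.one_apply, mul_one]
      norm_cast
      obtain ⟨N, hN⟩ : ∃ N, (S.filter fun e => ω ∈ D e).card = N + 1 := ⟨_, (Nat.succ_pred_eq_of_pos h0).symm⟩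
      rw [hN, Nat.add_sub_cancel]
      have h6 : 2 * N ≤ (N + 1) * N := by
        rcases N with _ | N
        · simp
        · exact Nat.mul_le_mul_right _ (by omega)
      omega
  have h := lintegral_mono (μ := PP) key
  rw [lintegral_const_mul _ (Finset.measurable_sum _ fun e _ => measurable_one.indicator (hD e)),
    lintegral_finsetSum _ (fun e _ => measurable_one.indicator (hD e)),
    lintegral_add_left ((measurable_one.indicator hU).const_mul _),
    lintegral_const_mul _ (measurable_one.indicator hU), lintegral_indicator_one hU,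
    lintegral_finsetSum _ (fun e _ => Finset.measurable_sum _ fun f _ =>
      measurable_one.indicator ((hD e).inter (hD f)))] at h
  simp only [lintegral_indicator_one (hD _)] at h
  have h5 : ∀ e ∈ S, ∫⁻ ω, ∑ f ∈ S.erase e, (D e ∩ D f).indicator (1 : (Idx → Bool) → ℝ≥0∞) ω ∂PP =
      ∑ f ∈ S.erase e, PP (D e ∩ D f) := by
    intro e _
    rw [lintegral_finsetSum _ (fun f _ => measurable_one.indicator ((hD e).inter (hD f)))]
    exact Finset.sum_congr rfl fun f _ => lintegral_indicator_one ((hD e).inter (hD f))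
  rw [Finset.sum_congr rfl h5] at h
  exact h


/-! ### the good event -/

/-- a directed edge which starts at a given vertex -/
noncomputable def eAt (v : V1) : DE :=
  (Set.nonempty_of_ncard_ne_zero (by rw [ncard_DE v]; norm_num : {e : DE | e.v = v}.ncard ≠ 0)).some

theorem eAt_v (v : V1) : (eAt v).v = v :=
  (Set.nonempty_of_ncard_ne_zero (by rw [ncard_DE v]; norm_num :
    {e : DE | e.v = v}.ncard ≠ 0)).some_mem

open Classical in
/-- one directed edge for each vertex of the ball of radius `n` -/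
noncomputable def Sn (n : ℕ) : Finset DE := (ball_finite o n).toFinset.image eAt

theorem mem_Sn {n : ℕ} {e : DE} (he : e ∈ Sn n) : HG.dist o e.v ≤ n := by
  unfold Sn at he
  rw [Finset.mem_image] at he
  obtain ⟨v, hv, rfl⟩ := he
  rw [eAt_v]
  simpa using hv

theorem card_Sn (n : ℕ) : (Sn n).card = Jn n := by
  unfold Sn Jn
  rw [Finset.card_image_of_injective, ← Set.ncard_eq_toFinset_card _ (ball_finite o n)]
  intro v w h
  rw [← eAt_v v, ← eAt_v w, h]

theorem Jn_mul_qn (n : ℕ) : (Jn n : ℝ≥0∞) * qn n = ENNReal.ofReal (1 / 2) := by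
  have h : (0 : ℝ) < Jn n := by exact_mod_cast Jn_pos n
  unfold qn
  rw [← ENNReal.ofReal_natCast, ← ENNReal.ofReal_mul (by positivity)]
  congr 1
  field_simp

/-- the cost functionals of a cluster -/
noncomputable def Y1 (e : DE) (n : ℕ) (ω : Idx → Bool) : ℝ≥0∞ :=
  ∑' s : {s // s ∈ HG.edgeSet ∧ ¬ inK e n s}, kE ω s * ENNReal.ofReal (dpsi e n s)

noncomputable def Y2 (e : DE) (n : ℕ) (w : HG.Walk o e.v) (ω : Idx → Bool) : ℝ≥0∞ :=
  ∑' s : {s // s ∈ HG.edgeSet ∧ ¬ inK e n s ∧ ∃ y ∈ w.support, y ∈ s}, kE ω s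

theorem measurable_Y1 (e : DE) (n : ℕ) : Measurable (Y1 e n) :=
  Measurable.tsum fun s => (measurable_kE (s : Sym2 V1)).mul_const _

theorem measurable_Y2 (e : DE) (n : ℕ) (w : HG.Walk o e.v) : Measurable (Y2 e n w) :=
  Measurable.tsum fun s => measurable_kE (s : Sym2 V1)

open Classical in
theorem kE_update (e : DE) (n : ℕ) (ω : Idx → Bool) (b : Bool) (s : Sym2 V1) (hs : ¬ inK e n s) :
    kE (Function.update ω (e, n) b) s = kE ω s := by
  unfold kE
  refine tsum_congr fun i => ?_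
  by_cases h : i = (e, n)
  · subst h
    simp only [hs, and_false]
  · rw [Function.update_of_ne h]

theorem Y1_update (e : DE) (n : ℕ) (ω : Idx → Bool) (b : Bool) :
    Y1 e n (Function.update ω (e, n) b) = Y1 e n ω := by
  unfold Y1
  exact tsum_congr fun s => by rw [kE_update e n ω b s s.2.2]

theorem Y2_update (e : DE) (n : ℕ) (w : HG.Walk o e.v) (ω : Idx → Bool) (b : Bool) :
    Y2 e n w (Function.update ω (e, n) b) = Y2 e n w ω := by
  unfold Y2
  exact tsum_congr fun s => by rw [kE_update e n ω b s s.2.2.1]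

/-- edges at a vertex -/
theorem edges_at (y : V1) : {s : Sym2 V1 | s ∈ HG.edgeSet ∧ y ∈ s} ⊆
    (fun e : DE => s(e.v, e.w)) '' {e : DE | e.v = y} := by
  rintro s ⟨hs, hy⟩
  obtain ⟨z, rfl⟩ := Sym2.mem_iff_exists.1 hy
  exact ⟨⟨y, z, hs⟩, rfl, rfl⟩

theorem finite_DE_at (y : V1) : {e : DE | e.v = y}.Finite :=
  Set.finite_of_ncard_ne_zero (by rw [ncard_DE]; norm_num)

theorem finite_edges_at (y : V1) : {s : Sym2 V1 | s ∈ HG.edgeSet ∧ y ∈ s}.Finite :=
  ((finite_DE_at y).image _).subset (edges_at y)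

theorem ncard_edges_at (y : V1) : {s : Sym2 V1 | s ∈ HG.edgeSet ∧ y ∈ s}.ncard ≤ 4 := by
  refine (Set.ncard_le_ncard (edges_at y) ((finite_DE_at y).image _)).trans ?_
  refine (Set.ncard_image_le (finite_DE_at y)).trans ?_
  rw [ncard_DE]

theorem edges_walk {v : V1} (w : HG.Walk o v) (e : DE) (n : ℕ) :
    {s : Sym2 V1 | s ∈ HG.edgeSet ∧ ¬ inK e n s ∧ ∃ y ∈ w.support, y ∈ s} ⊆
      ⋃ y ∈ w.support.toFinset, {s : Sym2 V1 | s ∈ HG.edgeSet ∧ y ∈ s} := by
  rintro s ⟨h1, -, y, hy, hys⟩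
  simp only [List.mem_toFinset, Set.mem_iUnion, Set.mem_ofPred_eq, exists_prop]
  exact ⟨y, hy, h1, hys⟩

theorem finite_edges_walk {v : V1} (w : HG.Walk o v) (e : DE) (n : ℕ) :
    {s : Sym2 V1 | s ∈ HG.edgeSet ∧ ¬ inK e n s ∧ ∃ y ∈ w.support, y ∈ s}.Finite :=
  (Set.Finite.biUnion (Finset.finite_toSet _) fun y _ => finite_edges_at y).subset
    (edges_walk w e n)

theorem ncard_edges_walk {v : V1} (w : HG.Walk o v) (e : DE) (n : ℕ) :
    {s : Sym2 V1 | s ∈ HG.edgeSet ∧ ¬ inK e n s ∧ ∃ y ∈ w.support, y ∈ s}.ncard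
      ≤ (w.length + 1) * 4 := by
  refine (Set.ncard_le_ncard (edges_walk w e n)
    (Set.Finite.biUnion (Finset.finite_toSet _) fun y _ => finite_edges_at y)).trans ?_
  refine (Finset.set_ncard_biUnion_le _ _).trans ?_
  refine (Finset.sum_le_card_nsmul _ _ 4 fun y _ => ncard_edges_at y).trans ?_
  rw [smul_eq_mul]
  refine Nat.mul_le_mul_right _ ?_
  rw [← SimpleGraph.Walk.length_support]
  exact List.toFinset_card_le _


theorem tsum_subtype_le {α : Type*} {T : Set α} (hT : T.Finite) (f : T → ℝ≥0∞) (x : ℝ≥0∞)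
    (h : ∀ s, f s ≤ x) : ∑' s : T, f s ≤ T.ncard * x := by
  have := hT.fintype
  rw [tsum_fintype]
  refine (Finset.sum_le_card_nsmul _ _ x fun s _ => h s).trans ?_
  rw [nsmul_eq_mul, Finset.card_univ, ← Nat.card_eq_fintype_card]
  rfl

theorem lint_Y1_le {C : ℝ} (hC : ∀ s : Sym2 V1, ∫⁻ ω, kE ω s ∂PP ≤ ENNReal.ofReal C) (e : DE)
    (n : ℕ) : ∫⁻ ω, Y1 e n ω ∂PP ≤
      ENNReal.ofReal C * ∑' s : HG.edgeSet, ENNReal.ofReal (dpsi e n s) := by
  unfold Y1
  rw [lintegral_tsum fun s : {s // s ∈ HG.edgeSet ∧ ¬ inK e n s} =>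
    ((measurable_kE (s : Sym2 V1)).mul_const _).aemeasurable]
  calc ∑' s : {s // s ∈ HG.edgeSet ∧ ¬ inK e n s}, ∫⁻ ω, kE ω s * ENNReal.ofReal (dpsi e n s) ∂PP
      ≤ ∑' s : {s // s ∈ HG.edgeSet ∧ ¬ inK e n s},
          ENNReal.ofReal C * ENNReal.ofReal (dpsi e n s) := by
        refine ENNReal.tsum_le_tsum fun s => ?_
        rw [lintegral_mul_const _ (measurable_kE (s : Sym2 V1))]
        exact mul_le_mul_left (hC s) _
    _ ≤ _ := by
        rw [ENNReal.tsum_mul_left]
        refine mul_le_mul_right ?_ _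
        exact ENNReal.tsum_comp_le_tsum_of_injective
          (f := fun s : {s // s ∈ HG.edgeSet ∧ ¬ inK e n s} => (⟨s.1, s.2.1⟩ : HG.edgeSet))
          (fun s t h => Subtype.ext (congrArg (fun x : HG.edgeSet => (x : Sym2 V1)) h))
          (fun s : HG.edgeSet => ENNReal.ofReal (dpsi e n s))

theorem lint_Y2_le {C : ℝ} (hC : ∀ s : Sym2 V1, ∫⁻ ω, kE ω s ∂PP ≤ ENNReal.ofReal C) (e : DE)
    (n : ℕ) (w : HG.Walk o e.v) : ∫⁻ ω, Y2 e n w ω ∂PP ≤
      (((w.length + 1) * 4 : ℕ) : ℝ≥0∞) * ENNReal.ofReal C := by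
  unfold Y2
  rw [lintegral_tsum fun s : {s // s ∈ HG.edgeSet ∧ ¬ inK e n s ∧ ∃ y ∈ w.support, y ∈ s} =>
    (measurable_kE (s : Sym2 V1)).aemeasurable]
  refine (tsum_subtype_le (finite_edges_walk w e n) _ (ENNReal.ofReal C) fun s => hC s).trans ?_
  refine mul_le_mul_left ?_ _
  exact_mod_cast ncard_edges_walk w e n

/-- Markov inequality in the form needed below -/
theorem markov {f : (Idx → Bool) → ℝ≥0∞} (hf : Measurable f) {a : ℝ} (ha : 0 < a)
    (h : ∫⁻ ω, f ω ∂PP ≤ ENNReal.ofReal (a / 8)) :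
    PP {ω | ¬ f ω ≤ ENNReal.ofReal a} ≤ ENNReal.ofReal (1 / 8) := by
  have h0 : ENNReal.ofReal a ≠ 0 := by simpa using ha
  calc PP {ω | ¬ f ω ≤ ENNReal.ofReal a} ≤ PP {ω | ENNReal.ofReal a ≤ f ω} :=
        measure_mono fun ω (hω : ¬ f ω ≤ ENNReal.ofReal a) => (not_le.1 hω).le
    _ ≤ (∫⁻ ω, f ω ∂PP) / ENNReal.ofReal a :=
        meas_ge_le_lintegral_div hf.aemeasurable h0 ENNReal.ofReal_ne_top
    _ ≤ ENNReal.ofReal (a / 8) / ENNReal.ofReal a := by gcongr
    _ = ENNReal.ofReal (1 / 8) := by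
        rw [← ENNReal.ofReal_div_of_pos ha]
        congr 1
        field_simp

theorem exists_short_walk {n : ℕ} {v : V1} (h : HG.dist o v ≤ n) :
    ∃ w : HG.Walk o v, w.length ≤ n := by
  obtain ⟨w, hw⟩ := HG_connected.exists_walk_length_eq_dist o v
  exact ⟨w, by omega⟩

theorem good_of {M : ℝ} {n : ℕ} {ω : Idx → Bool} (hk : ∀ s : Sym2 V1, (kk ω s : ℝ≥0∞) = kE ω s)
    {e : DE} (w : HG.Walk o e.v) (hw : w.length ≤ n) (hA : ω (e, n) = true)
    (h1 : Y1 e n ω ≤ ENNReal.ofReal (M * n ^ 2)) (h2 : Y2 e n w ω ≤ ENNReal.ofReal (M * n)) :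
    Good M (kk ω) n := by
  classical
  refine ⟨e, w, hw, fun s hs => ?_, ?_, ?_⟩
  · have h : ((n ^ 5 : ℕ) : ℝ≥0∞) ≤ kE ω s := by
      unfold kE
      refine le_trans ?_ (ENNReal.le_tsum (e, n))
      rw [if_pos ⟨hA, hs⟩]
      push_cast
      exact le_rfl
    rw [← hk s] at h
    exact_mod_cast h
  · simp only [hk]
    exact h1
  · simp only [hk]
    exact h2

theorem good_often : ∃ M : ℝ, ¬ ∀ᵐ ω ∂PP, ¬ ∃ᶠ n in atTop, Good M (kk ω) n := by
  classical
  obtain ⟨C0, hC0⟩ := moment_kE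
  obtain ⟨C1, hC1⟩ := dpsi_sum
  rw [eventually_atTop] at hC1
  obtain ⟨n0, hn0⟩ := hC1
  -- positive constants
  obtain ⟨C, hCpos, hC⟩ : ∃ C : ℝ, 0 < C ∧ ∀ s : Sym2 V1, ∫⁻ ω, kE ω s ∂PP ≤ ENNReal.ofReal C :=
    ⟨max C0 1, lt_of_lt_of_le one_pos (le_max_right _ _), fun s => (hC0 s).1.trans
      (ENNReal.ofReal_le_ofReal (le_max_left _ _))⟩
  obtain ⟨D, hDpos, hD⟩ : ∃ D : ℝ, 0 < D ∧ C1 ≤ D :=
    ⟨max C1 1, lt_of_lt_of_le one_pos (le_max_right _ _), le_max_left _ _⟩
  set M : ℝ := 8 * C * D + 64 * C with hM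
  have hMpos : 0 < M := by positivity
  refine ⟨M, fun hnot => ?_⟩
  -- choice of the walks
  have hwalk : ∀ (n : ℕ) (e : DE), ∃ w : HG.Walk o e.v, e ∈ Sn n → w.length ≤ n := by
    intro n e
    by_cases h : e ∈ Sn n
    · obtain ⟨w, hw⟩ := exists_short_walk (mem_Sn h)
      exact ⟨w, fun _ => hw⟩
    · obtain ⟨w⟩ := HG_connected.preconnected o e.v
      exact ⟨w, fun h' => absurd h' h⟩
  choose w hw using hwalk
  let B : ℕ → DE → Set (Idx → Bool) := fun n e =>
    {ω | Y1 e n ω ≤ ENNReal.ofReal (M * n ^ 2)} ∩ {ω | Y2 e n (w n e) ω ≤ ENNReal.ofReal (M * n)}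
  have hBm : ∀ n e, MeasurableSet (B n e) := fun n e =>
    (measurableSet_le (measurable_Y1 e n) measurable_const).inter
      (measurableSet_le (measurable_Y2 e n (w n e)) measurable_const)
  let A : ℕ → DE → Set (Idx → Bool) := fun n e => {ω | ω (e, n) = true}
  let G : ℕ → Set (Idx → Bool) := fun n => ⋃ e ∈ Sn n, A n e ∩ B n e
  have hGm : ∀ n, MeasurableSet (G n) := fun n =>
    Finset.measurableSet_biUnion _ fun e _ => (measurable_mark (e, n)).inter (hBm n e)
  have hBprob : ∀ n, n0 ≤ n → 1 ≤ n → ∀ e ∈ Sn n, ENNReal.ofReal (3 / 4) ≤ PP (B n e) := by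
    intro n hn hn1 e he
    have hn' : (1 : ℝ) ≤ n := by exact_mod_cast hn1
    have m1 : PP {ω | ¬ Y1 e n ω ≤ ENNReal.ofReal (M * n ^ 2)} ≤ ENNReal.ofReal (1 / 8) := by
      refine markov (measurable_Y1 e n) (by positivity) ?_
      refine (lint_Y1_le hC e n).trans ?_
      refine (mul_le_mul_right (hn0 n hn e (mem_Sn he)).1 _).trans ?_
      rw [← ENNReal.ofReal_mul hCpos.le]
      refine ENNReal.ofReal_le_ofReal ?_
      have h1 : 0 ≤ C * (n : ℝ) ^ 2 := by positivity
      rw [hM]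
      nlinarith
    have m2 : PP {ω | ¬ Y2 e n (w n e) ω ≤ ENNReal.ofReal (M * n)} ≤ ENNReal.ofReal (1 / 8) := by
      refine markov (measurable_Y2 e n (w n e)) (by positivity) ?_
      refine (lint_Y2_le hC e n (w n e)).trans ?_
      rw [← ENNReal.ofReal_natCast, ← ENNReal.ofReal_mul (by positivity)]
      refine ENNReal.ofReal_le_ofReal ?_
      have h1 : ((w n e).length : ℝ) ≤ n := by exact_mod_cast hw n e he
      push_cast
      rw [hM]
      have h2 : 0 ≤ C * D * (n : ℝ) := by positivity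
      nlinarith [mul_le_mul_of_nonneg_left h1 hCpos.le, mul_le_mul_of_nonneg_left hn' hCpos.le]
    have h3 : PP (B n e)ᶜ ≤ ENNReal.ofReal (1 / 4) := by
      have h4 : (B n e)ᶜ = {ω | ¬ Y1 e n ω ≤ ENNReal.ofReal (M * n ^ 2)} ∪
          {ω | ¬ Y2 e n (w n e) ω ≤ ENNReal.ofReal (M * n)} := by
        simp only [B, Set.compl_inter]
        rfl
      rw [h4]
      refine (measure_union_le _ _).trans ((add_le_add m1 m2).trans ?_)
      rw [← ENNReal.ofReal_add (by norm_num) (by norm_num)]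
      exact ENNReal.ofReal_le_ofReal (by norm_num)
    have h5 : PP (B n e) = 1 - PP (B n e)ᶜ := by
      rw [prob_compl_eq_one_sub (hBm n e), ENNReal.sub_sub_cancel ENNReal.one_ne_top prob_le_one]
    rw [h5]
    refine le_trans ?_ (tsub_le_tsub_left h3 1)
    rw [← ENNReal.ofReal_one, ← ENNReal.ofReal_sub _ (by norm_num)]
    exact ENNReal.ofReal_le_ofReal (by norm_num)
  have hGprob : ∀ n, n0 ≤ n → 1 ≤ n → ENNReal.ofReal (1 / 4) ≤ PP (G n) := by
    intro n hn hn1
    have hb := bonferroni (Sn n) (fun e => A n e ∩ B n e)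
      (fun e => (measurable_mark (e, n)).inter (hBm n e))
    have h1 : ∀ e ∈ Sn n, qn n * ENNReal.ofReal (3 / 4) ≤ PP (A n e ∩ B n e) := by
      intro e he
      have h2 : PP (A n e ∩ B n e) = qn n * PP (B n e) := by
        refine indep_mark (e, n) (B n e) (hBm n e) fun ω b => ?_
        change (Y1 e n _ ≤ _ ∧ Y2 e n (w n e) _ ≤ _) ↔ (Y1 e n ω ≤ _ ∧ Y2 e n (w n e) ω ≤ _)
        rw [Y1_update, Y2_update]
      rw [h2]
      exact mul_le_mul_right (hBprob n hn hn1 e he) _
    have h2 : 2 * ((Jn n : ℝ≥0∞) * (qn n * ENNReal.ofReal (3 / 4))) ≤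
        2 * ∑ e ∈ Sn n, PP (A n e ∩ B n e) := by
      refine mul_le_mul_right ?_ _
      rw [← card_Sn, ← nsmul_eq_mul]
      exact Finset.card_nsmul_le_sum _ _ _ h1
    have h3 : ∑ e ∈ Sn n, ∑ f ∈ (Sn n).erase e, PP ((A n e ∩ B n e) ∩ (A n f ∩ B n f)) ≤
        (Jn n : ℝ≥0∞) * ((Jn n : ℝ≥0∞) * (qn n * qn n)) := by
      have h4 : ∀ e ∈ Sn n, ∑ f ∈ (Sn n).erase e, PP ((A n e ∩ B n e) ∩ (A n f ∩ B n f)) ≤
          (Jn n : ℝ≥0∞) * (qn n * qn n) := by
        intro e _
        refine (Finset.sum_le_card_nsmul _ _ (qn n * qn n) fun f hf => ?_).trans ?_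
        · have hne : (e, n) ≠ (f, n) := by
            intro h
            exact (Finset.ne_of_mem_erase hf) (congrArg Prod.fst h).symm
          rw [← PP_true_true hne]
          exact measure_mono fun ω hω => ⟨hω.1.1, hω.2.1⟩
        · rw [nsmul_eq_mul]
          refine mul_le_mul_left ?_ _
          have := Finset.card_erase_le (s := Sn n) (a := e)
          rw [card_Sn] at this
          exact_mod_cast this
      refine (Finset.sum_le_card_nsmul _ _ _ h4).trans ?_
      rw [nsmul_eq_mul, card_Sn]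
    have h5 := (h2.trans hb).trans (add_le_add le_rfl h3)
    have e1 : 2 * ((Jn n : ℝ≥0∞) * (qn n * ENNReal.ofReal (3 / 4))) = ENNReal.ofReal (3 / 4) := by
      rw [← mul_assoc (Jn n : ℝ≥0∞), Jn_mul_qn, ← ENNReal.ofReal_mul (by norm_num),
        show (2 : ℝ≥0∞) = ENNReal.ofReal 2 by simp, ← ENNReal.ofReal_mul (by norm_num)]
      norm_num
    have e2 : (Jn n : ℝ≥0∞) * ((Jn n : ℝ≥0∞) * (qn n * qn n)) = ENNReal.ofReal (1 / 4) := by
      have : (Jn n : ℝ≥0∞) * ((Jn n : ℝ≥0∞) * (qn n * qn n)) =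
          ((Jn n : ℝ≥0∞) * qn n) * ((Jn n : ℝ≥0∞) * qn n) := by ring
      rw [this, Jn_mul_qn, ← ENNReal.ofReal_mul (by norm_num)]
      norm_num
    rw [e1, e2] at h5
    have hfin : PP (⋃ e ∈ Sn n, A n e ∩ B n e) ≠ ∞ := measure_ne_top _ _
    rw [← ENNReal.ofReal_toReal hfin, show (2 : ℝ≥0∞) = ENNReal.ofReal 2 by simp,
      ← ENNReal.ofReal_mul (by norm_num), ← ENNReal.ofReal_add (by positivity) (by norm_num),
      ENNReal.ofReal_le_ofReal_iff (by positivity)] at h5
    change _ ≤ PP (⋃ e ∈ Sn n, A n e ∩ B n e)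
    rw [← ENNReal.ofReal_toReal hfin]
    exact ENNReal.ofReal_le_ofReal (by linarith)
  -- the limit superior
  let E : ℕ → Set (Idx → Bool) := fun m => ⋃ n ≥ m, G n
  have hEm : ∀ m, MeasurableSet (E m) := fun m =>
    MeasurableSet.iUnion fun n => MeasurableSet.iUnion fun _ => hGm n
  have hanti : Antitone E := by
    intro a b hab
    exact Set.iUnion_mono fun n => Set.iUnion_subset fun h =>
      Set.subset_iUnion_of_subset (hab.trans h) le_rfl
  have hlim := tendsto_measure_iInter_atTop (μ := PP) (fun m => (hEm m).nullMeasurableSet) hanti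
    ⟨0, measure_ne_top _ _⟩
  have hge : ENNReal.ofReal (1 / 4) ≤ PP (⋂ m, E m) := by
    refine ge_of_tendsto' hlim fun m => ?_
    refine (hGprob (max m (max n0 1)) ((le_max_left _ _).trans (le_max_right _ _))
      ((le_max_right _ _).trans (le_max_right _ _))).trans ?_
    exact measure_mono (Set.subset_iUnion₂_of_subset (max m (max n0 1)) (le_max_left _ _) le_rfl)
  have hzero : PP (⋂ m, E m) = 0 := by
    have hae : ∀ᵐ ω ∂PP, ω ∉ ⋂ m, E m := by
      filter_upwards [hnot, kk_eq_kE] with ω h1 h2 h3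
      refine h1 (frequently_atTop.2 fun a => ?_)
      have h4 := Set.mem_iInter.1 h3 a
      simp only [E, G, Set.mem_iUnion, exists_prop] at h4
      obtain ⟨n, hn, e, he, hA, hB1, hB2⟩ := h4
      exact ⟨n, hn, good_of h2 (w n e) (hw n e he) hA hB1 hB2⟩
    rw [ae_iff] at hae
    have hset : {ω | ¬ ω ∉ ⋂ m, E m} = ⋂ m, E m := by
      ext ω
      exact not_not
    rwa [hset] at hae
  rw [hzero] at hge
  have : (0 : ℝ≥0∞) < ENNReal.ofReal (1 / 4) := by simp
  exact absurd hge (not_le.2 this)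

end HExit
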