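import Pool.Agent.HExit.Arith
import Pool.Agent.HExit.Gap
import Pool.Agent.HExit.Cut

/-!
# HExit: counting clusters which contain a given vertex
-/

open MeasureTheory ProbabilityTheory Filter Topology
open scoped ENNReal

namespace HExit

theorem iter_bij (i : ℕ) : Function.Bijective (DE.next^[i]) := next_bijective.iterate i

theorem ncard_pth (i : ℕ) (y : V1) : {e : DE | pth e i = y}.ncard = 4 := by
  rw [← ncard_DE y, ← Set.ncard_image_of_injective _ (iter_bij i).injective]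
  congr 1
  ext e
  constructor
  · rintro ⟨f, hf, rfl⟩
    exact hf
  · intro he
    obtain ⟨f, rfl⟩ := (iter_bij i).surjective e
    exact ⟨f, he, rfl⟩

theorem finite_pth (i : ℕ) (y : V1) : {e : DE | pth e i = y}.Finite :=
  Set.finite_of_ncard_ne_zero (by rw [ncard_pth]; norm_num)

/-- bound for the number of clusters of type `n` which contain a given vertex -/
def Nc (n : ℕ) : ℕ := (n ^ 2 + 1) * 4 + 4 ^ (Nat.sqrt n + 1) * 4

theorem Kc_subset (n : ℕ) (y : V1) : {e : DE | y ∈ Kc e n} ⊆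
    (⋃ i ∈ Finset.range (n ^ 2 + 1), {e : DE | pth e i = y}) ∪
      ⋃ z ∈ (ball_finite y (Nat.sqrt n)).toFinset, {e : DE | pth e (Lp n) = z} := by
  intro e he
  rcases he with ⟨i, hi, h⟩ | h
  · left
    simp only [Finset.mem_range, Set.mem_iUnion, Set.mem_ofPred_eq, exists_prop]
    exact ⟨i, by unfold Lp at hi; omega, h.symm⟩
  · right
    simp only [Set.Finite.mem_toFinset, Set.mem_iUnion, Set.mem_ofPred_eq, exists_prop]
    exact ⟨_, by rw [SimpleGraph.dist_comm]; exact h, rfl⟩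

theorem finite_Kc (n : ℕ) (y : V1) : {e : DE | y ∈ Kc e n}.Finite := by
  refine Set.Finite.subset (Set.Finite.union ?_ ?_) (Kc_subset n y)
  · exact Set.Finite.biUnion (Finset.finite_toSet _) fun i _ => finite_pth i y
  · exact Set.Finite.biUnion (Finset.finite_toSet _) fun z _ => finite_pth _ z

theorem ncard_Kc_le (n : ℕ) (y : V1) : {e : DE | y ∈ Kc e n}.ncard ≤ Nc n := by
  refine (Set.ncard_le_ncard (Kc_subset n y) (Set.Finite.union ?_ ?_)).trans
    ((Set.ncard_union_le _ _).trans (Nat.add_le_add ?_ ?_))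
  · exact Set.Finite.biUnion (Finset.finite_toSet _) fun i _ => finite_pth i y
  · exact Set.Finite.biUnion (Finset.finite_toSet _) fun z _ => finite_pth _ z
  · refine (Finset.set_ncard_biUnion_le _ _).trans ?_
    simp only [ncard_pth, Finset.sum_const, Finset.card_range, smul_eq_mul]
    exact le_rfl
  · refine (Finset.set_ncard_biUnion_le _ _).trans ?_
    simp only [ncard_pth, Finset.sum_const, smul_eq_mul]
    refine Nat.mul_le_mul_right _ ?_
    rw [← Set.ncard_eq_toFinset_card _ (ball_finite y (Nat.sqrt n))]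
    exact ball_le y _

theorem inK_subset (n : ℕ) (v w : V1) : {e : DE | inK e n s(v, w)} ⊆ {e : DE | v ∈ Kc e n} :=
  fun _ he => he.2 v (Sym2.mem_mk_left v w)

theorem finite_inK (n : ℕ) (s : Sym2 V1) : {e : DE | inK e n s}.Finite := by
  induction s with
  | _ v w => exact (finite_Kc n v).subset (inK_subset n v w)

theorem ncard_inK_le (n : ℕ) (s : Sym2 V1) : {e : DE | inK e n s}.ncard ≤ Nc n := by
  induction s with
  | _ v w => exact (Set.ncard_le_ncard (inK_subset n v w) (finite_Kc n v)).trans (ncard_Kc_le n v)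

/-- `4 ^ √n` is subexponential -/
theorem four_pow_sqrt_le : ∃ C : ℝ, 0 ≤ C ∧ ∀ n : ℕ, (4 : ℝ) ^ Nat.sqrt n ≤ C * (81 / 80) ^ n := by
  have h4 : (4 : ℝ) ≤ (81 / 80) ^ 112 := by norm_num
  refine ⟨(81 / 80) ^ (56 ^ 2), by positivity, fun n => ?_⟩
  calc (4 : ℝ) ^ Nat.sqrt n ≤ ((81 / 80) ^ 112) ^ Nat.sqrt n :=
        pow_le_pow_left₀ (by norm_num) h4 _
    _ = (81 / 80) ^ (112 * Nat.sqrt n) := by rw [← pow_mul]
    _ ≤ (81 / 80) ^ (56 ^ 2 + n) := by
        refine pow_le_pow_right₀ (by norm_num) ?_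
        have h1 := Nat.sqrt_le' n
        rcases le_total (Nat.sqrt n) 56 with h | h
        · obtain ⟨d, hd⟩ := Nat.exists_eq_add_of_le h
          nlinarith
        · obtain ⟨d, hd⟩ := Nat.exists_eq_add_of_le h
          nlinarith
    _ = _ := by rw [pow_add]

theorem summable_Nc : Summable fun n : ℕ => (n : ℝ) ^ 10 * Nc n * (40 / 41) ^ n := by
  obtain ⟨C, hC, h⟩ := four_pow_sqrt_le
  have s1 : Summable fun n : ℕ => (n : ℝ) ^ 12 * (40 / 41 : ℝ) ^ n :=
    summable_pow_mul_geometric_of_norm_lt_one 12 (by rw [Real.norm_eq_abs, abs_of_pos] <;> norm_num)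
  have s2 : Summable fun n : ℕ => (n : ℝ) ^ 10 * (40 / 41 : ℝ) ^ n :=
    summable_pow_mul_geometric_of_norm_lt_one 10 (by rw [Real.norm_eq_abs, abs_of_pos] <;> norm_num)
  have s3 : Summable fun n : ℕ => (n : ℝ) ^ 10 * (81 / 82 : ℝ) ^ n :=
    summable_pow_mul_geometric_of_norm_lt_one 10 (by rw [Real.norm_eq_abs, abs_of_pos] <;> norm_num)
  refine Summable.of_nonneg_of_le (fun n => by positivity) (fun n => ?_)
    (((s1.mul_left 4).add (s2.mul_left 4)).add (s3.mul_left (16 * C)))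
  have e1 : ((81 / 82 : ℝ)) ^ n = (81 / 80) ^ n * (40 / 41) ^ n := by
    rw [← mul_pow]; norm_num
  have h2 := h n
  have h3 : (0 : ℝ) ≤ (n : ℝ) ^ 10 * (40 / 41) ^ n := by positivity
  have h4 : (Nc n : ℝ) = ((n : ℝ) ^ 2 + 1) * 4 + 4 ^ Nat.sqrt n * 16 := by
    unfold Nc
    push_cast
    rw [pow_succ]
    ring
  rw [h4, e1]
  calc (n : ℝ) ^ 10 * (((n : ℝ) ^ 2 + 1) * 4 + 4 ^ Nat.sqrt n * 16) * (40 / 41) ^ n
      = 4 * ((n : ℝ) ^ 12 * (40 / 41) ^ n) + 4 * ((n : ℝ) ^ 10 * (40 / 41) ^ n)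
        + 16 * 4 ^ Nat.sqrt n * ((n : ℝ) ^ 10 * (40 / 41) ^ n) := by ring
    _ ≤ 4 * ((n : ℝ) ^ 12 * (40 / 41) ^ n) + 4 * ((n : ℝ) ^ 10 * (40 / 41) ^ n)
        + 16 * (C * (81 / 80) ^ n) * ((n : ℝ) ^ 10 * (40 / 41) ^ n) := by gcongr
    _ = _ := by ring

end HExit
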