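import Pool.Agent.HExit.Env1

/-!
# HExit: the random environment, moments
-/

open MeasureTheory ProbabilityTheory Filter Topology
open scoped ENNReal

namespace HExit

instance countable_V1' : Countable V1 := countable_V1

instance countable_DE : Countable DE := by
  have hf : Function.Injective (fun e : DE => (e.v, e.w)) := by
    intro e f h
    simp only [Prod.mk.injEq] at h
    exact DE.ext h.1 h.2
  exact hf.countable

instance countable_Sym2 : Countable (Sym2 V1) := by
  unfold Sym2
  infer_instance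

theorem Jn_pos (n : ℕ) : 0 < Jn n := by
  unfold Jn
  rw [Set.ncard_pos (ball_finite o n)]
  exact ⟨o, by simp⟩

/-- the probability of a mark -/
noncomputable def qn (n : ℕ) : ℝ≥0∞ := ENNReal.ofReal (1 / (2 * Jn n))

theorem markLaw_prob (n : ℕ) : IsProbabilityMeasure (markLaw n) := by
  have h : (1 : ℝ) ≤ Jn n := by exact_mod_cast Jn_pos n
  have h1 : (1 : ℝ) / (2 * Jn n) ≤ 1 := by
    rw [div_le_one (by positivity)]; linarith
  constructor
  unfold markLaw
  simp only [Measure.coe_add, Measure.coe_smul, Pi.add_apply, Pi.smul_apply, measure_univ,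
    smul_eq_mul, mul_one]
  rw [← ENNReal.ofReal_add (by positivity) (by linarith)]
  norm_num

instance (n : ℕ) : IsProbabilityMeasure (markLaw n) := markLaw_prob n

instance : IsProbabilityMeasure PP := by
  unfold PP
  infer_instance

theorem markLaw_true (n : ℕ) : markLaw n {true} = qn n := by
  unfold markLaw qn
  simp

theorem PP_true (i : Idx) : PP {ω | ω i = true} = qn i.2 := by
  have h := measurePreserving_eval_infinitePi (fun i : Idx => markLaw i.2) i
  have h1 := h.measure_preimage (s := {true}) (measurableSet_singleton true).nullMeasurableSet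
  rw [markLaw_true] at h1
  exact h1

theorem PP_true_true {i j : Idx} (hij : i ≠ j) :
    PP {ω | ω i = true ∧ ω j = true} = qn i.2 * qn j.2 := by
  classical
  have h := Measure.infinitePi_pi (fun i : Idx => markLaw i.2) (s := {i, j})
    (t := fun _ => {true}) (fun _ _ => measurableSet_singleton true)
  rw [Finset.prod_pair hij, markLaw_true, markLaw_true] at h
  rw [← h]
  unfold PP
  congr 1
  ext ω
  simp [Set.pi]

theorem measurable_mark (i : Idx) : MeasurableSet {ω : Idx → Bool | ω i = true} :=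
  (measurable_pi_apply i : Measurable fun ω : Idx → Bool => ω i) (measurableSet_singleton true)

open Classical in
theorem measurable_kE (s : Sym2 V1) : Measurable (fun ω : Idx → Bool => kE ω s) := by
  unfold kE
  refine Measurable.tsum fun i => ?_
  by_cases h : inK i.1 i.2 s
  · simp only [h, and_true]
    exact Measurable.ite (measurable_mark i) measurable_const measurable_const
  · simp only [h, and_false, if_false]
    exact measurable_const

open Classical in
/-- the weight of a mark at an edge -/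
noncomputable def cc (s : Sym2 V1) (i : Idx) : ℝ≥0∞ :=
  if inK i.1 i.2 s then (i.2 : ℝ≥0∞) ^ 5 else 0

open Classical in
theorem kE_eq (ω : Idx → Bool) (s : Sym2 V1) :
    kE ω s = ∑' i : Idx, cc s i * if ω i = true then 1 else 0 := by
  unfold kE cc
  refine tsum_congr fun i => ?_
  by_cases h : inK i.1 i.2 s <;> by_cases h' : ω i = true <;> simp [h, h']

open Classical in
theorem lint_mark (i : Idx) : ∫⁻ ω, (if ω i = true then 1 else 0 : ℝ≥0∞) ∂PP = qn i.2 := by
  rw [← PP_true i, ← lintegral_indicator_one (measurable_mark i)]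
  refine lintegral_congr fun ω => ?_
  by_cases h : ω i = true <;> simp [h]

open Classical in
theorem measurable_ite_mark (i : Idx) :
    Measurable fun ω : Idx → Bool => (if ω i = true then 1 else 0 : ℝ≥0∞) :=
  Measurable.ite (measurable_mark i) measurable_const measurable_const

theorem lint_kE (s : Sym2 V1) : ∫⁻ ω, kE ω s ∂PP = ∑' i : Idx, cc s i * qn i.2 := by
  classical
  simp only [kE_eq]
  rw [lintegral_tsum fun i => ((measurable_ite_mark i).const_mul _).aemeasurable]
  refine tsum_congr fun i => ?_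
  rw [lintegral_const_mul _ (measurable_ite_mark i), lint_mark]

theorem lint_kE_sq_le (s : Sym2 V1) : ∫⁻ ω, kE ω s ^ 2 ∂PP ≤
    (∑' i : Idx, cc s i * qn i.2) ^ 2 + ∑' i : Idx, cc s i ^ 2 * qn i.2 := by
  classical
  have e1 : ∀ ω : Idx → Bool, kE ω s ^ 2 = ∑' i : Idx, ∑' j : Idx,
      (cc s i * cc s j) * ((if ω i = true then 1 else 0) * (if ω j = true then 1 else 0)) := by
    intro ω
    rw [pow_two, kE_eq, ← ENNReal.tsum_mul_right]
    refine tsum_congr fun i => ?_
    rw [← ENNReal.tsum_mul_left]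
    refine tsum_congr fun j => ?_
    ring
  simp only [e1]
  have hm : ∀ i j : Idx, Measurable fun ω : Idx → Bool =>
      ((if ω i = true then 1 else 0) * (if ω j = true then 1 else 0) : ℝ≥0∞) := fun i j =>
    (measurable_ite_mark i).mul (measurable_ite_mark j)
  rw [lintegral_tsum fun i => (Measurable.tsum fun j => (hm i j).const_mul _).aemeasurable]
  have e2 : ∀ i, ∫⁻ ω, ∑' j : Idx, (cc s i * cc s j) *
      ((if ω i = true then 1 else 0) * (if ω j = true then 1 else 0)) ∂PP =
      ∑' j : Idx, (cc s i * cc s j) *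
        ∫⁻ ω, ((if ω i = true then 1 else 0) * (if ω j = true then 1 else 0)) ∂PP := by
    intro i
    rw [lintegral_tsum fun j => ((hm i j).const_mul _).aemeasurable]
    exact tsum_congr fun j => lintegral_const_mul _ (hm i j)
  simp only [e2]
  have e3 : ∀ i j : Idx, ∫⁻ ω, ((if ω i = true then 1 else 0) * (if ω j = true then 1 else 0))
      ∂PP ≤ qn i.2 * qn j.2 + if i = j then qn i.2 else 0 := by
    intro i j
    by_cases hij : i = j
    · subst hij
      rw [if_pos rfl]
      refine le_trans (le_of_eq ?_) le_add_self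
      rw [← lint_mark i]
      refine lintegral_congr fun ω => ?_
      by_cases h : ω i = true <;> simp [h]
    · rw [if_neg hij, add_zero, ← PP_true_true hij]
      have hms : MeasurableSet {ω : Idx → Bool | ω i = true ∧ ω j = true} :=
        (measurable_mark i).inter (measurable_mark j)
      rw [← lintegral_indicator_one hms]
      refine lintegral_mono fun ω => ?_
      by_cases h : ω i = true <;> by_cases h' : ω j = true <;> simp [h, h']
  calc ∑' i : Idx, ∑' j : Idx, (cc s i * cc s j) *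
        ∫⁻ ω, ((if ω i = true then 1 else 0) * (if ω j = true then 1 else 0)) ∂PP
      ≤ ∑' i : Idx, ∑' j : Idx, ((cc s i * qn i.2) * (cc s j * qn j.2) +
          if i = j then cc s i ^ 2 * qn i.2 else 0) := by
        refine ENNReal.tsum_le_tsum fun i => ENNReal.tsum_le_tsum fun j => ?_
        refine (mul_le_mul_right (e3 i j) _).trans (le_of_eq ?_)
        by_cases hij : i = j
        · subst hij
          simp only [if_true]
          ring
        · simp only [if_neg hij]
          ring
    _ = _ := by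
        simp only [ENNReal.tsum_add, ENNReal.tsum_mul_left, ENNReal.tsum_mul_right]
        congr 1
        · ring
        · refine tsum_congr fun i => ?_
          rw [tsum_eq_single i]
          · rw [if_pos rfl]
          · intro j hj
            rw [if_neg (Ne.symm hj)]


/-! ### moment bounds -/

theorem tsum_ite_set {T : Set DE} (hT : T.Finite) (x : ℝ≥0∞) (f : DE → ℝ≥0∞)
    (h1 : ∀ e ∈ T, f e ≤ x) (h0 : ∀ e, e ∉ T → f e = 0) : ∑' e, f e ≤ T.ncard * x := by
  rw [tsum_eq_sum (s := hT.toFinset) fun e he => h0 e (by simpa using he)]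
  refine (Finset.sum_le_card_nsmul _ _ x fun e he => h1 e (by simpa using he)).trans ?_
  rw [nsmul_eq_mul, Set.ncard_eq_toFinset_card _ hT]

/-- bound of the contribution of the marks of type `n` -/
noncomputable def bn (n : ℕ) : ℝ := (n : ℝ) ^ 10 * Nc n * (40 / 41) ^ n

theorem bn_nonneg (n : ℕ) : 0 ≤ bn n := by unfold bn; positivity

theorem qn_le (n : ℕ) : qn n ≤ ENNReal.ofReal ((40 / 41) ^ n) := by
  unfold qn
  refine ENNReal.ofReal_le_ofReal ?_
  have h := le_ball o n
  change (41 / 40 : ℝ) ^ n ≤ (Jn n : ℝ) at h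
  have h1 : (0 : ℝ) < (41 / 40) ^ n := by positivity
  have h2 : ((40 : ℝ) / 41) ^ n = 1 / (41 / 40) ^ n := by
    rw [one_div, ← inv_pow]; norm_num
  rw [h2]
  exact one_div_le_one_div_of_le h1 (by linarith)

theorem tsum_cc_le (s : Sym2 V1) (p : ℕ) (hp : 1 ≤ p) (hp2 : p ≤ 2) :
    ∑' i : Idx, cc s i ^ p * qn i.2 ≤ ENNReal.ofReal (∑' n, bn n) := by
  have h1 : ∑' i : Idx, cc s i ^ p * qn i.2 = ∑' (n : ℕ) (e : DE), cc s (e, n) ^ p * qn n := by
    rw [ENNReal.tsum_comm, ← ENNReal.tsum_prod]
  rw [h1, ENNReal.ofReal_tsum_of_nonneg bn_nonneg summable_Nc]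
  refine ENNReal.tsum_le_tsum fun n => ?_
  refine (tsum_ite_set (finite_inK n s) ((n : ℝ≥0∞) ^ 10 * qn n) _ ?_ ?_).trans ?_
  · intro e he
    refine mul_le_mul_left ?_ _
    have h2 : cc s (e, n) = (n : ℝ≥0∞) ^ 5 := by
      unfold cc
      exact if_pos he
    rw [h2, ← pow_mul]
    norm_cast
    rcases Nat.eq_zero_or_pos n with rfl | hn
    · rw [zero_pow (by omega)]
      exact Nat.zero_le _
    · exact Nat.pow_le_pow_right hn (by omega)
  · intro e he
    have h2 : cc s (e, n) = 0 := by
      unfold cc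
      exact if_neg he
    rw [h2, zero_pow (by omega), zero_mul]
  · unfold bn
    rw [ENNReal.ofReal_mul (by positivity), ENNReal.ofReal_mul (by positivity),
      ENNReal.ofReal_pow (by positivity), ENNReal.ofReal_natCast, ENNReal.ofReal_natCast]
    calc (({e | inK e n s} : Set DE).ncard : ℝ≥0∞) * ((n : ℝ≥0∞) ^ 10 * qn n)
        ≤ (Nc n : ℝ≥0∞) * ((n : ℝ≥0∞) ^ 10 * ENNReal.ofReal ((40 / 41) ^ n)) := by
          gcongr
          · exact ncard_inK_le n s
          · exact qn_le n
      _ = _ := by ring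

/-- first and second moments are bounded uniformly in the edge -/
theorem moment_kE : ∃ C : ℝ, ∀ s : Sym2 V1, ∫⁻ ω, kE ω s ∂PP ≤ ENNReal.ofReal C ∧
    ∫⁻ ω, kE ω s ^ 2 ∂PP ≤ ENNReal.ofReal C := by
  have hB : 0 ≤ ∑' n, bn n := tsum_nonneg bn_nonneg
  refine ⟨(∑' n, bn n) ^ 2 + ∑' n, bn n, fun s => ⟨?_, ?_⟩⟩
  · rw [lint_kE]
    have h := tsum_cc_le s 1 le_rfl (by norm_num)
    simp only [pow_one] at h
    exact h.trans (ENNReal.ofReal_le_ofReal (by nlinarith))
  · refine (lint_kE_sq_le s).trans ?_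
    rw [ENNReal.ofReal_add (by positivity) hB, ENNReal.ofReal_pow hB]
    have h := tsum_cc_le s 1 le_rfl (by norm_num)
    simp only [pow_one] at h
    exact add_le_add (pow_le_pow_left' h 2) (tsum_cc_le s 2 (by norm_num) le_rfl)

/-! ### finiteness and integrality -/

theorem ae_kE_ne_top : ∀ᵐ ω ∂PP, ∀ s : Sym2 V1, kE ω s ≠ ∞ := by
  rw [ae_all_iff]
  intro s
  obtain ⟨C, hC⟩ := moment_kE
  exact (ae_lt_top (measurable_kE s) ((hC s).1.trans_lt ENNReal.ofReal_lt_top).ne).mono
    fun ω h => h.ne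

theorem tsum_nat_of_ne_top {ι : Type*} (f : ι → ℕ) (h : ∑' i, (f i : ℝ≥0∞) ≠ ∞) :
    ∃ m : ℕ, ∑' i, (f i : ℝ≥0∞) = m := by
  have hfin : {i | (1 : ℝ≥0∞) ≤ (f i : ℝ≥0∞)}.Finite :=
    ENNReal.finite_const_le_of_tsum_ne_top h one_ne_zero
  refine ⟨∑ i ∈ hfin.toFinset, f i, ?_⟩
  rw [tsum_eq_sum (s := hfin.toFinset)]
  · push_cast
    rfl
  · intro i hi
    have h1 : ¬ (1 : ℝ≥0∞) ≤ (f i : ℝ≥0∞) := by simpa using hi
    have h2 : f i = 0 := by
      by_contra h0
      exact h1 (by exact_mod_cast Nat.one_le_iff_ne_zero.2 h0)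
    rw [h2, Nat.cast_zero]

theorem kk_eq_of_ne_top {ω : Idx → Bool} {s : Sym2 V1} (h : kE ω s ≠ ∞) :
    (kk ω s : ℝ≥0∞) = kE ω s := by
  classical
  have e : kE ω s = ∑' i : Idx, ((if ω i = true ∧ inK i.1 i.2 s then i.2 ^ 5 else 0 : ℕ) : ℝ≥0∞) := by
    unfold kE
    refine tsum_congr fun i => ?_
    split_ifs <;> simp
  rw [e] at h
  obtain ⟨m, hm⟩ := tsum_nat_of_ne_top _ h
  rw [← e] at hm
  unfold kk
  rw [hm, ENNReal.toReal_natCast, Nat.floor_natCast]

theorem kk_eq_kE : ∀ᵐ ω ∂PP, ∀ s : Sym2 V1, (kk ω s : ℝ≥0∞) = kE ω s :=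
  ae_kE_ne_top.mono fun _ h s => kk_eq_of_ne_top (h s)

theorem ae_sum_dz : ∀ᵐ ω ∂PP, ∑' s : HG.edgeSet, (kk ω s : ℝ≥0∞) * ENNReal.ofReal (dz s) ≠ ∞ := by
  obtain ⟨C, hC⟩ := moment_kE
  have hm : Measurable fun ω : Idx → Bool =>
      ∑' s : HG.edgeSet, kE ω s * ENNReal.ofReal (dz s) :=
    Measurable.tsum fun s => (measurable_kE s).mul_const _
  have h1 : ∫⁻ ω, ∑' s : HG.edgeSet, kE ω s * ENNReal.ofReal (dz s) ∂PP ≠ ∞ := by
    rw [lintegral_tsum fun s : HG.edgeSet =>
      ((measurable_kE (s : Sym2 V1)).mul_const _).aemeasurable]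
    refine ne_top_of_le_ne_top (b := ENNReal.ofReal C * ∑' s : HG.edgeSet, ENNReal.ofReal (dz s))
      (ENNReal.mul_ne_top ENNReal.ofReal_ne_top sum_dz_ne_top) ?_
    rw [← ENNReal.tsum_mul_left]
    refine ENNReal.tsum_le_tsum fun s => ?_
    rw [lintegral_mul_const _ (measurable_kE (s : Sym2 V1))]
    exact mul_le_mul_left (hC s).1 _
  filter_upwards [kk_eq_kE, ae_lt_top hm h1] with ω h2 h3
  simp only [h2]
  exact h3.ne

end HExit
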