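import Pool.Agent.HExit.ExitC

/-!
# HExit: the exit measure is not Hölder on good environments
-/

open MeasureTheory ProbabilityTheory Filter Topology
open scoped ENNReal

namespace HExit

open R31

/-! ### arcs -/

lemma arc_of_near {b ξ : ℂ} {δ : ℝ} (hξ : ‖ξ‖ = 1) (hb : ‖b‖ < 1) (hb0 : 1 - ‖b‖ ≤ δ)
    (hδ : δ < 1) (h : ‖ξ - b‖ ≤ 2 * δ) : ξ ∈ arc (b.arg - 5 * δ) (10 * δ) := by
  have hb1 : 0 < ‖b‖ := by linarith
  have hbne : b ≠ 0 := norm_pos_iff.mp hb1
  have hδ0 : 0 < δ := by linarith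
  set y : ℂ := b / ‖b‖ with hy
  have hbn : (‖b‖ : ℂ) ≠ 0 := by exact_mod_cast hb1.ne'
  have hyn : ‖y‖ = 1 := by
    rw [hy, norm_div, Complex.norm_real, norm_norm, div_self hb1.ne']
  have hyne : y ≠ 0 := by
    rw [← norm_pos_iff, hyn]
    norm_num
  have hξne : ξ ≠ 0 := by
    rw [← norm_pos_iff, hξ]
    norm_num
  have h1 : ‖b - y‖ = 1 - ‖b‖ := by
    have e : b - y = b * ((1 - 1 / ‖b‖ : ℝ) : ℂ) := by
      rw [hy]
      push_cast
      field_simp
    rw [e, norm_mul, Complex.norm_real, Real.norm_eq_abs, abs_of_nonpos]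
    · field_simp
      ring
    · rw [sub_nonpos, one_le_div hb1]
      exact hb.le
  have h2 : ‖ξ - y‖ ≤ 3 * δ := by
    have e : ξ - y = (ξ - b) + (b - y) := by ring
    rw [e]
    refine (norm_add_le _ _).trans ?_
    rw [h1]
    linarith
  have h3 := Complex.angle_le_mul_norm_sub hξ hyn
  rw [Complex.angle_eq_abs_arg hξne hyne] at h3
  have h4 : |(ξ / y).arg| ≤ 5 * δ := by
    refine h3.trans ?_
    have hpi : Real.pi < 3.15 := Real.pi_lt_d2
    have hpi0 := Real.pi_pos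
    calc Real.pi / 2 * ‖ξ - y‖ ≤ Real.pi / 2 * (3 * δ) := by gcongr
      _ ≤ 5 * δ := by nlinarith
  have h5 : ξ = Complex.exp (((b.arg + (ξ / y).arg : ℝ) : ℂ) * Complex.I) := by
    have e1 := Complex.norm_mul_exp_arg_mul_I (ξ / y)
    have e2 := Complex.norm_mul_exp_arg_mul_I b
    rw [norm_div, hξ, hyn, div_one, Complex.ofReal_one, one_mul] at e1
    push_cast
    rw [add_mul, Complex.exp_add, e1]
    have e3 : Complex.exp (b.arg * Complex.I) = y := by
      rw [hy, eq_div_iff hbn, mul_comm]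
      exact e2
    rw [e3, mul_div_cancel₀ _ hyne]
  rw [abs_le] at h4
  exact ⟨b.arg + (ξ / y).arg, by linarith [h4.1], by linarith [h4.2], h5⟩

/-! ### the test function -/

lemma psi1_nonneg' (e : DE) (n : ℕ) (v : V1) : 0 ≤ psi1 e n v := by
  unfold psi1
  exact le_max_of_le_left (le_min (by norm_num) (le_max_left _ _))

lemma psi1_le (e : DE) (n : ℕ) (v : V1) : psi1 e n v ≤ 1 := by
  unfold psi1
  refine max_le (min_le_left _ _) ?_
  split_ifs <;> norm_num

lemma psi1_K {e : DE} {n : ℕ} {v : V1} (hv : v ∈ Kc e n) : psi1 e n v = 1 := by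
  refine le_antisymm (psi1_le e n v) ?_
  unfold psi1
  rw [if_pos hv]
  exact le_max_right _ _

lemma psi1_notK {e : DE} {n : ℕ} {v : V1} (hv : v ∉ Kc e n) : psi1 e n v =
    min 1 (max 0 (2 - ‖zX (VX.p v) - zX (VX.p (pth e (Lp n)))‖ / dl n)) := by
  unfold psi1
  rw [if_neg hv]
  exact max_eq_left (le_min (by norm_num) (le_max_left _ _))

lemma psi2_nonneg (e : DE) (n : ℕ) (u : V2) : 0 ≤ psi2 e n u :=
  le_min (by norm_num) (le_max_left _ _)

lemma psi2_le (e : DE) (n : ℕ) (u : V2) : psi2 e n u ≤ 1 := min_le_left _ _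

lemma dl_pos' (n : ℕ) : 0 < dl n := by
  unfold dl
  positivity

/-- energy of the test function -/
lemma energy_psi {M : ℝ} (hM : 0 ≤ M) {C0 : ℝ} (hC0 : 0 ≤ C0) {k : Sym2 V1 → ℕ} {e : DE} {n : ℕ}
    (h1 : ∑' s : HG.edgeSet, ENNReal.ofReal (dpsi e n s) ≤ ENNReal.ofReal (C0 * n ^ 2))
    (h2 : ∑' p : {p : V1 × V2 // NN p.1 p.2 = 1},
      ENNReal.ofReal ((psi1 e n p.1.1 - psi2 e n p.1.2) ^ 2) ≤ ENNReal.ofReal (C0 * n ^ 2))
    (h3 : ∑' s : {s // s ∈ HG.edgeSet ∧ ¬ inK e n s}, (k s : ℝ≥0∞) * ENNReal.ofReal (dpsi e n s)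
      ≤ ENNReal.ofReal (M * n ^ 2)) :
    en (GX k) (ext0 (psi1 e n) (psi2 e n)) ≤ ENNReal.ofReal ((4 * C0 + 2 * M) * n ^ 2) := by
  refine (en_ext0_le k _ _).trans ?_
  have e1 : ∑' s : HG.edgeSet, (1 + 2 * (k s : ℝ≥0∞)) * ENNReal.ofReal (dsq (psi1 e n) s)
      = ∑' s : HG.edgeSet, ENNReal.ofReal (dpsi e n s)
        + 2 * ∑' s : HG.edgeSet, (k s : ℝ≥0∞) * ENNReal.ofReal (dpsi e n s) := by
    rw [← ENNReal.tsum_mul_left, ← ENNReal.tsum_add]
    refine tsum_congr fun s => ?_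
    rw [add_mul, one_mul, mul_assoc]
    rfl
  have e2 : ∑' s : HG.edgeSet, (k s : ℝ≥0∞) * ENNReal.ofReal (dpsi e n s)
      ≤ ENNReal.ofReal (M * n ^ 2) := by
    refine le_trans ?_ h3
    rw [tsum_subtype HG.edgeSet (fun s => (k s : ℝ≥0∞) * ENNReal.ofReal (dpsi e n s))]
    have e3 := tsum_subtype {s | s ∈ HG.edgeSet ∧ ¬ inK e n s}
      (fun s => (k s : ℝ≥0∞) * ENNReal.ofReal (dpsi e n s))
    refine le_trans ?_ e3.ge
    refine ENNReal.tsum_le_tsum fun s => ?_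
    by_cases hs : s ∈ HG.edgeSet
    · rw [Set.indicator_of_mem hs]
      by_cases hk : inK e n s
      · have : dpsi e n s = 0 := by
          obtain ⟨-, hk2⟩ := hk
          induction s with
          | _ a b =>
            show (psi1 e n a - psi1 e n b) ^ 2 = 0
            rw [psi1_K (hk2 a (Sym2.mem_mk_left _ _)), psi1_K (hk2 b (Sym2.mem_mk_right _ _))]
            norm_num
        rw [this]
        simp
      · have hmem : s ∈ {s | s ∈ HG.edgeSet ∧ ¬ inK e n s} := ⟨hs, hk⟩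
        rw [Set.indicator_of_mem hmem]
    · rw [Set.indicator_of_notMem hs]
      exact zero_le
  rw [e1]
  have hn : (0 : ℝ) ≤ (n : ℝ) ^ 2 := by positivity
  calc _ ≤ ENNReal.ofReal (C0 * n ^ 2) + 2 * ENNReal.ofReal (M * n ^ 2)
        + 3 * ENNReal.ofReal (C0 * n ^ 2) := by gcongr
    _ = ENNReal.ofReal ((4 * C0 + 2 * M) * n ^ 2) := by
        have t2 : (2 : ℝ≥0∞) = ENNReal.ofReal 2 := by simp
        have t3 : (3 : ℝ≥0∞) = ENNReal.ofReal 3 := by simp
        rw [t2, t3, ← ENNReal.ofReal_mul (by norm_num), ← ENNReal.ofReal_mul (by norm_num),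
          ← ENNReal.ofReal_add (by positivity) (by positivity),
          ← ENNReal.ofReal_add (by positivity) (by positivity)]
        congr 1
        ring

/-- lower bound of the harmonic function at the base point -/
lemma lower_o {M : ℝ} (hM : 0 ≤ M) {E : ℝ} (hE : 0 ≤ E) {k : Sym2 V1 → ℕ} {e : DE} {n : ℕ}
    (hn : 1 ≤ n) (hn2 : 160 * E ≤ n) (hcard : n ^ 3 ≤ (Kc e n).ncard) {h : VX → ℝ}
    (h0 : ∀ x, 0 ≤ h x) (hh : IsHarm (GX k) h) (hen : en (GX k) h ≤ ENNReal.ofReal (E * n ^ 2))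
    (hd : ENNReal.ofReal (1 / 10) * ∑' x : Set.range VX.p,
      ENNReal.ofReal ((ext0 (psi1 e n) (psi2 e n) x - h x) ^ 2) ≤ ENNReal.ofReal (E * n ^ 2))
    (hk : ∀ s, inK e n s → n ^ 5 ≤ k s) (w : HG.Walk o e.v) (hw : w.length ≤ n)
    (h3 : ∑' s : {s // s ∈ HG.edgeSet ∧ ¬ inK e n s ∧ ∃ y ∈ w.support, y ∈ s}, (k s : ℝ≥0∞)
      ≤ ENNReal.ofReal (M * n)) :
    Real.exp (-(8 * (n + 1) + 4 * (M * n))) * (1 / 2) ≤ h (VX.p o) := by
  classical
  have hn' : (1 : ℝ) ≤ n := by exact_mod_cast hn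
  have hK : ∀ v ∈ Kc e n, 1 / 2 ≤ h (VX.p v) := by
    obtain ⟨v, hv, hv2⟩ := exists_large (ψ := ext0 (psi1 e n) (psi2 e n)) hE hn hcard
      (fun v hv => psi1_K hv) hd
    intro y hy
    have ho := osc hE hn hk hen hv hy
    have b1 : 10 * E / n ≤ 1 / 16 := by
      rw [div_le_div_iff₀ (by positivity) (by norm_num)]
      linarith
    have b2 : 3 * E / n ≤ 1 / 16 := by
      rw [div_le_div_iff₀ (by positivity) (by norm_num)]
      linarith
    have c1 : |1 - h (VX.p v)| ≤ 1 / 4 := by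
      apply abs_le_of_sq_le_sq' _ (by norm_num) |> abs_le.mpr
      linarith
    have c2 : |h (VX.p v) - h (VX.p y)| ≤ 1 / 4 := by
      apply abs_le_of_sq_le_sq' _ (by norm_num) |> abs_le.mpr
      linarith
    rw [abs_le] at c1 c2
    linarith [c1.1, c1.2, c2.1, c2.2]
  have hev : e.v ∈ Kc e n := Or.inl ⟨0, Nat.zero_le _, rfl⟩
  have h4 := descend h0 hh (by norm_num : (0 : ℝ) ≤ 1 / 2) hK w.bypass w.bypass_isPath hev
  refine le_trans ?_ h4
  have h5 : ∑ v ∈ w.bypass.support.toFinset.filter (fun v => v ∉ Kc e n), ddk k v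
      ≤ 8 * (n + 1) + 4 * (M * n) := by
    set V' := w.bypass.support.toFinset.filter (fun v => v ∉ Kc e n) with hV'
    have hcardV : (V'.card : ℝ) ≤ n + 1 := by
      have a1 : V'.card ≤ w.bypass.support.length :=
        (Finset.card_filter_le _ _).trans (List.toFinset_card_le _)
      rw [SimpleGraph.Walk.length_support] at a1
      have a2 := w.length_bypass_le_length
      have a3 : V'.card ≤ n + 1 := by omega
      exact_mod_cast a3
    set T : Finset (Sym2 V1) := V'.biUnion (fun v => (nb v).image (fun w => s(v, w))) with hT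
    have h6 := double_count V' T (fun s => (k s : ℝ)) (fun s => by positivity)
      (fun v hv w hw => Finset.mem_biUnion.mpr ⟨v, hv, Finset.mem_image.mpr ⟨w, hw, rfl⟩⟩)
    have h7 : ∑ s ∈ T, (k s : ℝ) ≤ M * n := by
      refine sum_le_of_tsum (S := {s | s ∈ HG.edgeSet ∧ ¬ inK e n s ∧ ∃ y ∈ w.support, y ∈ s})
        (F := fun s => (k s : ℝ≥0∞)) (by positivity) h3 T ?_ (fun _ _ => by positivity) ?_
      · intro s hs
        obtain ⟨v, hv, hs2⟩ := Finset.mem_biUnion.mp hs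
        obtain ⟨y, hy, rfl⟩ := Finset.mem_image.mp hs2
        obtain ⟨hv1, hv2⟩ := Finset.mem_filter.mp hv
        refine ⟨mem_nb.mp hy, fun hin => hv2 (hin.2 v (Sym2.mem_mk_left _ _)), v, ?_,
          Sym2.mem_mk_left _ _⟩
        exact w.support_bypass_subset_support (List.mem_toFinset.mp hv1)
      · intro s _
        rw [ENNReal.ofReal_natCast]
    have h8 : ∑ v ∈ V', ddk k v = 8 * V'.card + 2 * ∑ v ∈ V', ∑ w ∈ nb v, (k s(v, w) : ℝ) := by
      unfold ddk
      rw [Finset.sum_add_distrib, Finset.sum_const, nsmul_eq_mul, ← Finset.mul_sum]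
      ring
    rw [h8]
    linarith
  have h9 : -(8 * ((n : ℝ) + 1) + 4 * (M * n))
      ≤ -∑ v ∈ w.bypass.support.toFinset.filter (fun v => v ∉ Kc e n), ddk k v := by linarith
  have h10 := Real.exp_le_exp.mpr h9
  convert mul_le_mul_of_nonneg_right h10 (by norm_num : (0 : ℝ) ≤ 1 / 2)

variable [MeasurableSpace VX] [DiscreteMeasurableSpace VX]

/-- the estimate of the exit probability at one good level -/
lemma level {M : ℝ} (hM : 0 ≤ M) {C0 : ℝ} (hC0 : 0 ≤ C0) {k : Sym2 V1 → ℕ}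
    (hEk : ∑' s : HG.edgeSet, (k s : ℝ≥0∞) * ENNReal.ofReal (dz s) ≠ ∞) {n : ℕ}
    (hn : 1 ≤ n) (hn2 : 160 * (4 * C0 + 2 * M) ≤ n) {e : DE}
    (hcard : n ^ 3 ≤ (Kc e n).ncard)
    (h1 : ∑' s : HG.edgeSet, ENNReal.ofReal (dpsi e n s) ≤ ENNReal.ofReal (C0 * n ^ 2))
    (h2 : ∑' p : {p : V1 × V2 // NN p.1 p.2 = 1},
      ENNReal.ofReal ((psi1 e n p.1.1 - psi2 e n p.1.2) ^ 2) ≤ ENNReal.ofReal (C0 * n ^ 2))
    (h3 : ∑' s : {s // s ∈ HG.edgeSet ∧ ¬ inK e n s}, (k s : ℝ≥0∞) * ENNReal.ofReal (dpsi e n s)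
      ≤ ENNReal.ofReal (M * n ^ 2))
    (hk : ∀ s, inK e n s → n ^ 5 ≤ k s) (w : HG.Walk o e.v) (hw : w.length ≤ n)
    (h4 : ∑' s : {s // s ∈ HG.edgeSet ∧ ¬ inK e n s ∧ ∃ y ∈ w.support, y ∈ s}, (k s : ℝ≥0∞)
      ≤ ENNReal.ofReal (M * n))
    (hb : 1 - ‖zX (VX.p (pth e (Lp n)))‖ ≤ dl n) (hdl : dl n < 1) :
    ENNReal.ofReal (Real.exp (-(8 * (n + 1) + 4 * (M * n))) * (1 / 2)) ≤
      exitProb (GX k) (VX.p o) zX
        (arc ((zX (VX.p (pth e (Lp n)))).arg - 5 * dl n) (10 * dl n)) := by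
  set b := zX (VX.p (pth e (Lp n))) with hbdef
  set E := 4 * C0 + 2 * M with hEdef
  have hE0 : 0 ≤ E := by positivity
  have hen := energy_psi hM hC0 h1 h2 h3
  set ψ := ext0 (psi1 e n) (psi2 e n) with hψ
  have hψ0 : ∀ x, 0 ≤ ψ x := by
    intro x
    cases x with
    | p v => exact psi1_nonneg' e n v
    | q u => exact psi2_nonneg e n u
    | t F j => exact psi1_nonneg' e n _
  have hψ1 : ∀ x, ψ x ≤ 1 := by
    intro x
    cases x with
    | p v => exact psi1_le e n v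
    | q u => exact psi2_le e n u
    | t F j => exact psi1_le e n _
  obtain ⟨h, a0, a1, hh, henh, hdiff, H, hHm, hint, hH⟩ := harm_part k ψ hψ0 hψ1
    (ne_top_of_le_ne_top ENNReal.ofReal_ne_top hen)
  have hlow := lower_o hM hE0 hn hn2 hcard a0 hh (henh.trans hen) (hdiff.trans hen) hk w hw h4
  have hb1 : ‖b‖ < 1 := by
    have h1 := (packing k).inside (VX.p (pth e (Lp n))) trivial
    have h2 := (packing k).pos (VX.p (pth e (Lp n))) trivial
    have h3 : ‖b‖ + rX (VX.p (pth e (Lp n))) < 1 := h1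
    linarith
  -- the limit of the test function
  have hae : {X | 0 < H X} ≤ᵐ[srw (GX k) (VX.p o)]
      {X | ∃ ξ ∈ arc (b.arg - 5 * dl n) (10 * dl n), Tendsto (fun m => zX (X m)) atTop (𝓝 ξ)} := by
    filter_upwards [hH, ae_conv k hEk] with X hX hconv hpos
    obtain ⟨hg, ξ, hξ, hlim⟩ := hconv
    have hpos' : 0 < H X := hpos
    have hne := hg.neBot
    obtain ⟨N, hN⟩ := hg.eventually_notMem ((Kc_finite e n).image VX.p)
    have hlim1 : Tendsto (fun m => zX (X m)) (GoodPath.L1 X) (𝓝 ξ) := hlim.mono_left inf_le_left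
    have hφ : Tendsto (fun m => min 1 (max 0 (2 - ‖zX (X m) - b‖ / dl n))) (GoodPath.L1 X)
        (𝓝 (min 1 (max 0 (2 - ‖ξ - b‖ / dl n)))) := by
      have hc : Continuous (fun a : ℂ => min (1 : ℝ) (max 0 (2 - ‖a - b‖ / dl n))) := by fun_prop
      exact (hc.tendsto ξ).comp hlim1
    have hψX : Tendsto (fun m => ψ (X m)) (GoodPath.L1 X)
        (𝓝 (min 1 (max 0 (2 - ‖ξ - b‖ / dl n)))) := by
      refine hφ.congr' ?_
      rw [GoodPath.L1, Filter.EventuallyEq, eventually_inf_principal, eventually_atTop]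
      refine ⟨N, fun m hm hmem => ?_⟩
      obtain ⟨v, hv⟩ := hmem
      have hvK : v ∉ Kc e n := by
        intro hvK
        exact hN m hm ⟨v, hvK, hv⟩
      rw [← hv]
      exact (psi1_notK hvK).symm
    have heq := tendsto_nhds_unique hX.2.2 hψX
    refine ⟨ξ, ?_, hlim⟩
    refine arc_of_near hξ hb1 hb hdl ?_
    by_contra hc
    push Not at hc
    have : 2 - ‖ξ - b‖ / dl n ≤ 0 := by
      rw [sub_nonpos, le_div_iff₀ (dl_pos' n)]
      exact hc.le
    rw [max_eq_left this, min_eq_right (by norm_num)] at heq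
    linarith
  have h5 : ENNReal.ofReal (h (VX.p o)) ≤ srw (GX k) (VX.p o) {X | 0 < H X} := by
    rw [← hint]
    have hmeas : MeasurableSet {X | 0 < H X} := measurableSet_lt measurable_const hHm
    have : IsProbabilityMeasure (srw (GX k) (VX.p o)) := by
      unfold srw
      infer_instance
    have h6 : ∫ X, H X ∂(srw (GX k) (VX.p o))
        ≤ ∫ X, {X | 0 < H X}.indicator (fun _ => (1 : ℝ)) X ∂(srw (GX k) (VX.p o)) := by
      refine integral_mono_of_nonneg ?_ ?_ ?_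
      · filter_upwards [hH] with X hX
        exact hX.1
      · exact (integrable_const 1).indicator hmeas
      · filter_upwards [hH] with X hX
        by_cases hp : 0 < H X
        · have hmem : X ∈ {X | 0 < H X} := hp
          rw [Set.indicator_of_mem hmem]
          exact hX.2.1
        · have hmem : X ∉ {X | 0 < H X} := hp
          rw [Set.indicator_of_notMem hmem]
          exact not_lt.mp hp
    rw [integral_indicator_const _ hmeas, smul_eq_mul, mul_one] at h6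
    calc ENNReal.ofReal (∫ X, H X ∂(srw (GX k) (VX.p o)))
        ≤ ENNReal.ofReal ((srw (GX k) (VX.p o)).real {X | 0 < H X}) := ENNReal.ofReal_le_ofReal h6
      _ = _ := by
        rw [ofReal_measureReal]
  calc _ ≤ ENNReal.ofReal (h (VX.p o)) := ENNReal.ofReal_le_ofReal hlow
    _ ≤ _ := h5
    _ ≤ _ := measure_mono_ae hae

omit [MeasurableSpace VX] [DiscreteMeasurableSpace VX] in
lemma asym (A B : ℝ) {a : ℝ} (ha : 0 < a) : ∀ᶠ n : ℕ in atTop, A * n + B < a * (n : ℝ) ^ 2 := by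
  have h1 : ∀ᶠ n : ℕ in atTop, (|A| + |B| + 1) / a < n := by
    exact (tendsto_natCast_atTop_atTop (R := ℝ)).eventually_gt_atTop _
  filter_upwards [h1, eventually_ge_atTop 1] with n hn hn1
  have hn' : (1 : ℝ) ≤ n := by exact_mod_cast hn1
  rw [div_lt_iff₀ ha] at hn
  have h2 : A * n ≤ |A| * n := by
    gcongr
    exact le_abs_self A
  have h3 : B ≤ |B| * n := (le_abs_self B).trans (le_mul_of_one_le_right (abs_nonneg B) hn')
  nlinarith

theorem nonHolder (M : ℝ) (k : Sym2 V1 → ℕ)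
    (hE : ∑' s : HG.edgeSet, (k s : ℝ≥0∞) * ENNReal.ofReal (dz s) ≠ ∞)
    (hgood : ∃ᶠ n in atTop, Good M k n) (C c : ℝ) (hC : 0 < C) (hc : 0 < c) :
    ∃ α l : ℝ, 0 < l ∧ l ≤ 2 * Real.pi ∧
      ENNReal.ofReal (C * l ^ c) < exitProb (GX k) (VX.p o) zX (arc α l) := by
  set M' := max M 0 with hM'
  have hM0 : 0 ≤ M' := le_max_right _ _
  obtain ⟨C1, hC1⟩ := dpsi_sum
  set C0 := max C1 0 with hC0'
  have hC0 : 0 ≤ C0 := le_max_right _ _
  have hlog2 : 0 < Real.log 2 := Real.log_pos (by norm_num)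
  have ev1 := asym (8 + 4 * M') (Real.log C + c * Real.log 10 + Real.log 2 + 8)
    (a := c * Real.log 2 / 2) (by positivity)
  have ev2 : ∀ᶠ n : ℕ in atTop, 160 * (4 * C0 + 2 * M') < (n : ℝ) :=
    (tendsto_natCast_atTop_atTop (R := ℝ)).eventually_gt_atTop _
  obtain ⟨n, hg, hn1, hn2, hn3, hn4, hn6⟩ := (hgood.and_eventually
    (ev1.and (ev2.and (hC1.and (le_ncard_Kc.and (eventually_ge_atTop 6)))))).exists
  obtain ⟨e, w, hw, hk, h3, h4⟩ := hg
  have hn6' : (6 : ℝ) ≤ n := by exact_mod_cast hn6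
  have hdist : HG.dist o e.v ≤ n := (SimpleGraph.dist_le w).trans hw
  obtain ⟨s1, s2⟩ := hn3 e hdist
  have hmono : ENNReal.ofReal (C1 * n ^ 2) ≤ ENNReal.ofReal (C0 * n ^ 2) := by
    apply ENNReal.ofReal_le_ofReal
    gcongr
    exact le_max_left _ _
  have hmono2 : ENNReal.ofReal (M * n ^ 2) ≤ ENNReal.ofReal (M' * n ^ 2) := by
    apply ENNReal.ofReal_le_ofReal
    gcongr
    exact le_max_left _ _
  have hmono3 : ENNReal.ofReal (M * n) ≤ ENNReal.ofReal (M' * n) := by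
    apply ENNReal.ofReal_le_ofReal
    gcongr
    exact le_max_left _ _
  have hdl2 : dl n ≤ 1 / 2 := by
    unfold dl
    rw [show (1 / 2 : ℝ) = 2 ^ (-1 : ℝ) by rw [Real.rpow_neg_one]; norm_num]
    apply Real.rpow_le_rpow_of_exponent_le (by norm_num)
    nlinarith
  have hb : 1 - ‖zX (VX.p (pth e (Lp n)))‖ ≤ dl n := by
    refine (one_sub_norm_zX_le _).trans ?_
    have hx := x_end e n hdist
    have hx0 : (0 : ℝ) < (2 : ℝ) ^ ((n : ℝ) ^ 2 - 2 * n - 1) := by positivity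
    calc (4 : ℝ) / (pth e (Lp n)).x ≤ 4 / (2 : ℝ) ^ ((n : ℝ) ^ 2 - 2 * n - 1) := by gcongr
      _ = (2 : ℝ) ^ (2 - ((n : ℝ) ^ 2 - 2 * n - 1)) := by
          rw [Real.rpow_sub (by norm_num) 2]
          norm_num
      _ ≤ dl n := by
          unfold dl
          apply Real.rpow_le_rpow_of_exponent_le (by norm_num)
          nlinarith
  have hlev := level hM0 hC0 hE (by omega) hn2.le (hn4 e) (s1.trans hmono) (s2.trans hmono)
    (h3.trans hmono2) hk w hw (h4.trans hmono3) hb (by linarith)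
  refine ⟨_, 10 * dl n, by have := dl_pos' n; positivity, ?_, lt_of_lt_of_le ?_ hlev⟩
  · have := Real.pi_gt_three
    linarith
  · rw [ENNReal.ofReal_lt_ofReal_iff (by positivity)]
    have e1 : C * (10 * dl n) ^ c = Real.exp (Real.log C + c * (Real.log 10
        - (n : ℝ) ^ 2 / 2 * Real.log 2)) := by
      rw [Real.exp_add, Real.exp_log hC]
      congr 1
      rw [Real.rpow_def_of_pos (by have := dl_pos' n; positivity)]
      congr 1
      rw [Real.log_mul (by norm_num) (dl_pos' n).ne']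
      unfold dl
      rw [Real.log_rpow (by norm_num)]
      ring
    have e2 : Real.exp (-(8 * ((n : ℝ) + 1) + 4 * (M' * n))) * (1 / 2)
        = Real.exp (-(8 * ((n : ℝ) + 1) + 4 * (M' * n)) - Real.log 2) := by
      rw [Real.exp_sub, Real.exp_log (by norm_num)]
      ring
    rw [e1, e2, Real.exp_lt_exp]
    nlinarith

end HExit
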