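import Pool.Agent.HExit.Pack

/-!
# HExit: transient paths of the triangulation
-/

open MeasureTheory ProbabilityTheory Filter Topology
open scoped ENNReal

namespace HExit

open R31

/-! ### stars of the vertices of the second kind -/

/-- the star of a vertex -/
def st : VX → Option V2
  | VX.p _ => none
  | VX.q u => some u
  | VX.t F _ => some F.u

lemma mem_range_p_iff {x : VX} : x ∈ Set.range VX.p ↔ st x = none := by
  cases x with
  | p v => simp [st]
  | q u => simp [st]
  | t F j => simp [st]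

lemma st_adj {k : Sym2 V1 → ℕ} {x y : VX} (h : (GX k).Adj x y) {u w : V2} (hx : st x = some u)
    (hy : st y = some w) : w = u := by
  cases x with
  | p v => simp [st] at hx
  | q a =>
    simp only [st, Option.some.injEq] at hx
    subst hx
    cases y with
    | p v => simp [st] at hy
    | q b => exact absurd h (by show ¬ False; exact id)
    | t F j =>
      simp only [st, Option.some.injEq] at hy
      subst hy
      exact h.2.2.symm
  | t F i =>
    simp only [st, Option.some.injEq] at hx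
    subst hx
    cases y with
    | p v => simp [st] at hy
    | q b =>
      simp only [st, Option.some.injEq] at hy
      subst hy
      exact h.2.2
    | t F' j =>
      simp only [st, Option.some.injEq] at hy
      subst hy
      rw [h.1]

lemma st_adj_p {k : Sym2 V1 → ℕ} {v : V1} {y : VX} (h : (GX k).Adj (VX.p v) y) {u : V2}
    (hy : st y = some u) : NN v u = 1 := by
  cases y with
  | p w => simp [st] at hy
  | q b =>
    simp only [st, Option.some.injEq] at hy
    subst hy
    exact h
  | t F j =>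
    simp only [st, Option.some.injEq] at hy
    subst hy
    exact F.hu v h.2

lemma y_pos (u : V2) : (0 : ℝ) < u.y := by exact_mod_cast u.pos

lemma rX_p_le' {v : V1} {u : V2} (h : NN v u = 1) : rX (VX.p v) ≤ 4 / u.y := by
  have h1 : (u.y : ℝ) ≤ 4 * v.x := by exact_mod_cast y_le_of_adj h
  have h2 : (v.x : ℝ) ≤ κ (PV v) := by
    have hv : (0 : ℝ) < v.x := by exact_mod_cast v.pos
    have := one_lt_sqrt2
    show (v.x : ℝ) ≤ √2 * v.x + √3
    have : 0 < √3 := by positivity
    nlinarith
  have hu := y_pos u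
  have hv : (0 : ℝ) < v.x := by exact_mod_cast v.pos
  show 1 / κ (PV v) ≤ 4 / u.y
  rw [div_le_div_iff₀ (PV_κ v) hu]
  linarith

lemma rX_q_le' (u : V2) : rX (VX.q u) ≤ 1 / u.y := by
  have hu := y_pos u
  have h2 : (u.y : ℝ) ≤ κ (PU u) := by
    have := PU_σ' u
    have h3 : (PU u).T = (2 + √2) * u.y := rfl
    unfold κ
    rw [h3]
    have : 0 < √2 := by positivity
    nlinarith
  show 1 / κ (PU u) ≤ 1 / u.y
  exact one_div_le_one_div_of_le hu h2

lemma rX_t_le (F : Face) (j : ℕ) : rX (VX.t F j) ≤ 1 / F.u.y := by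
  refine le_trans ?_ (rX_q_le' F.u)
  show 1 / κ (PT F (j + 1)) ≤ 1 / κ (PU F.u)
  apply one_div_le_one_div_of_le (PU_κ _)
  unfold PT
  rw [κ_add, κ_add, κ_smul, κ_smul]
  have := PQ_κ F
  have := PE_κ F.e
  have : 0 ≤ 2 * ((j + 1 : ℕ) : ℝ) * κ (PQ F) + ((j + 1 : ℕ) : ℝ) ^ 2 * κ (PE F.e) := by
    positivity
  linarith

lemma zX_adj {k : Sym2 V1 → ℕ} {x y : VX} (h : (GX k).Adj x y) :
    ‖zX x - zX y‖ = rX x + rX y :=
  ((packing k).adj x (SX_of_adj' k h) y (SX_of_adj' k h.symm) h.ne).mp h

lemma star_dist {k : Sym2 V1 → ℕ} {x : VX} (hx : x ∈ SX k) {u : V2} (h : st x = some u) {v : V1}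
    (hv : NN v u = 1) : ‖zX x - zX (VX.p v)‖ ≤ 15 / u.y := by
  have hu := y_pos u
  have h5 : ∀ w : V1, NN w u = 1 → ‖zX (VX.q u) - zX (VX.p w)‖ ≤ 5 / u.y := by
    intro w hw
    have h1 : (GX k).Adj (VX.q u) (VX.p w) := hw
    rw [zX_adj h1]
    have := rX_p_le' hw
    have := rX_q_le' u
    have e : (5 : ℝ) / u.y = 1 / u.y + 4 / u.y := by ring
    linarith
  cases x with
  | p v => simp [st] at h
  | q a =>
    simp only [st, Option.some.injEq] at h
    subst h
    refine (h5 v hv).trans ?_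
    apply div_le_div_of_nonneg_right (by norm_num) hu.le
  | t F j =>
    simp only [st, Option.some.injEq] at h
    subst h
    obtain ⟨a, b, hab, -, ha, hb⟩ := F.exists_mk'
    have haF : a ∈ F.e := by rw [hab]; exact Sym2.mem_mk_left _ _
    have h1 : (GX k).Adj (VX.t F j) (VX.p a) := ⟨hx, haF⟩
    have h2 := zX_adj h1
    have h3 := rX_p_le' ha
    have h4 := rX_t_le F j
    have h6 := h5 a ha
    have h7 := h5 v hv
    have h8 : ‖zX (VX.t F j) - zX (VX.p v)‖ ≤ ‖zX (VX.t F j) - zX (VX.p a)‖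
        + ‖zX (VX.q F.u) - zX (VX.p a)‖ + ‖zX (VX.q F.u) - zX (VX.p v)‖ := by
      have e : zX (VX.t F j) - zX (VX.p v) = (zX (VX.t F j) - zX (VX.p a))
        - (zX (VX.q F.u) - zX (VX.p a)) + (zX (VX.q F.u) - zX (VX.p v)) := by ring
      rw [e]
      refine (norm_add_le _ _).trans ?_
      gcongr
      exact norm_sub_le _ _
    have e : (15 : ℝ) / F.u.y = 1 / F.u.y + 4 / F.u.y + 5 / F.u.y + 5 / F.u.y := by ring
    rw [e]
    linarith

lemma finite_star (k : Sym2 V1 → ℕ) (R : ℝ) :
    {x | x ∈ SX k ∧ ∃ u, st x = some u ∧ (u.y : ℝ) ≤ R}.Finite := by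
  have f2 := (finite_sub_of_real_V2 R).image VX.q
  have f3 : (⋃ F ∈ {F : Face | (F.u.y : ℝ) ≤ R}, (fun j => VX.t F j) '' Set.Iio (k F.e)).Finite :=
    (finite_Face_le R).biUnion (fun F _ => (Set.finite_Iio _).image _)
  refine (f2.union f3).subset ?_
  rintro x ⟨hx, u, hu, hR⟩
  cases x with
  | p v => simp [st] at hu
  | q a =>
    simp only [st, Option.some.injEq] at hu
    subst hu
    left
    exact ⟨a, hR, rfl⟩
  | t F j =>
    simp only [st, Option.some.injEq] at hu
    subst hu
    right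
    rw [Set.mem_iUnion₂]
    exact ⟨F, hR, j, hx, rfl⟩

/-! ### transient paths -/

/-- transient paths started at `o` -/
structure GoodPath (k : Sym2 V1 → ℕ) (X : ℕ → VX) : Prop where
  zero : X 0 = VX.p o
  adj : ∀ n, (GX k).Adj (X n) (X (n + 1))
  fin : ∀ x, {n | X n = x}.Finite

namespace GoodPath

variable {k : Sym2 V1 → ℕ} {X : ℕ → VX}

lemma mem (h : GoodPath k X) (n : ℕ) : X n ∈ SX k := SX_of_adj' k (h.adj n)

lemma tendsto (h : GoodPath k X) : Tendsto X atTop cofinite := by
  intro s hs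
  rw [mem_cofinite] at hs
  have h1 : (X ⁻¹' sᶜ).Finite := by
    have : X ⁻¹' sᶜ = ⋃ x ∈ sᶜ, {n | X n = x} := by
      ext n
      simp
    rw [this]
    exact hs.biUnion (fun x _ => h.fin x)
  rw [mem_map, ← Nat.cofinite_eq_atTop, mem_cofinite]
  exact h1

lemma eventually_notMem (h : GoodPath k X) {s : Set VX} (hs : s.Finite) :
    ∃ N, ∀ n, N ≤ n → X n ∉ s := by
  have := h.tendsto.eventually (hs.compl_mem_cofinite)
  exact eventually_atTop.mp this

lemma frequently (h : GoodPath k X) (N : ℕ) : ∃ n, N ≤ n ∧ X n ∈ Set.range VX.p := by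
  by_contra hc
  push Not at hc
  have h1 : ∀ n, N ≤ n → ∃ u, st (X n) = some u := by
    intro n hn
    have := hc n hn
    rw [mem_range_p_iff] at this
    exact Option.ne_none_iff_exists'.mp this
  obtain ⟨u, hu⟩ := h1 N le_rfl
  have h2 : ∀ n, N ≤ n → st (X n) = some u := by
    intro n hn
    induction n, hn using Nat.le_induction with
    | base => exact hu
    | succ n hn ih =>
      obtain ⟨w, hw⟩ := h1 (n + 1) (by omega)
      rw [hw, st_adj (h.adj n) ih hw]
  obtain ⟨N', hN'⟩ := h.eventually_notMem (finite_star k u.y)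
  exact hN' (max N N') (le_max_right _ _) ⟨h.mem _, u, h2 _ (le_max_left _ _), le_rfl⟩

/-- the last visit of a vertex of the first kind -/
lemma last (h : GoodPath k X) (n : ℕ) {u : V2} (hu : st (X n) = some u) :
    ∃ m < n, ∃ v, X m = VX.p v ∧ NN v u = 1 ∧ ∀ i, m < i → i ≤ n → st (X i) = some u := by
  induction n with
  | zero =>
    rw [h.zero] at hu
    simp [st] at hu
  | succ n ih =>
    rcases hx : st (X n) with _ | w
    · obtain ⟨v, hv⟩ := mem_range_p_iff.mpr hx
      refine ⟨n, by omega, v, hv.symm, ?_, ?_⟩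
      · have := h.adj n
        rw [← hv] at this
        exact st_adj_p this hu
      · intro i h1 h2
        have : i = n + 1 := by omega
        rw [this]
        exact hu
    · have hw := st_adj (h.adj n) hx hu
      subst hw
      obtain ⟨m, hm, v, hv, hvu, hi⟩ := ih hx
      refine ⟨m, by omega, v, hv, hvu, ?_⟩
      intro i h1 h2
      rcases Nat.lt_or_ge i (n + 1) with h3 | h3
      · exact hi i h1 (by omega)
      · have : i = n + 1 := by omega
        rw [this]
        exact hu

/-- visits of vertices of the first kind -/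
def L1 (X : ℕ → VX) : Filter ℕ := atTop ⊓ 𝓟 {n | X n ∈ Set.range VX.p}

lemma neBot (h : GoodPath k X) : (L1 X).NeBot := by
  rw [L1, ← Filter.frequently_mem_iff_neBot]
  rw [Filter.frequently_atTop]
  exact fun N => h.frequently N

/-- convergence along the visits of vertices of the first kind -/
lemma conv (h : GoodPath k X) {Ξ : ℂ} (hΞ : Tendsto (fun n => zX (X n)) (L1 X) (𝓝 Ξ)) :
    Tendsto (fun n => zX (X n)) atTop (𝓝 Ξ) := by
  rw [Metric.tendsto_atTop]
  intro ε hε
  have h1 : ∀ᶠ n in L1 X, dist (zX (X n)) Ξ < ε / 2 := by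
    exact hΞ.eventually (Metric.ball_mem_nhds _ (by positivity))
  rw [L1, eventually_inf_principal, eventually_atTop] at h1
  obtain ⟨N1, hN1⟩ := h1
  obtain ⟨N2, hN2⟩ := h.eventually_notMem (finite_star k (30 / ε))
  obtain ⟨M, hM, hM'⟩ := h.frequently N1
  refine ⟨max M N2, fun n hn => ?_⟩
  have hnM : M ≤ n := (le_max_left _ _).trans hn
  rcases hx : st (X n) with _ | u
  · exact (hN1 n (by omega) (mem_range_p_iff.mpr hx)).trans (by linarith)
  · obtain ⟨m, hm, v, hv, hvu, hi⟩ := h.last n hx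
    have hMm : M ≤ m := by
      by_contra hc
      have := hi M (by omega) hnM
      rw [mem_range_p_iff, this] at hM'
      simp at hM'
    have h2 := hN1 m (by omega) ⟨v, hv.symm⟩
    have h3 := star_dist (h.mem n) hx hvu
    have h4 : 30 / ε < u.y := by
      by_contra hc
      push Not at hc
      exact hN2 n ((le_max_right _ _).trans hn) ⟨h.mem n, u, hx, hc⟩
    have h5 : 15 / (u.y : ℝ) < ε / 2 := by
      rw [div_lt_iff₀ hε] at h4
      rw [div_lt_iff₀ (y_pos u)]
      nlinarith
    rw [hv, dist_eq_norm] at h2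
    rw [dist_eq_norm]
    have h6 : ‖zX (X n) - Ξ‖ ≤ ‖zX (X n) - zX (VX.p v)‖ + ‖zX (VX.p v) - Ξ‖ := by
      have e : zX (X n) - Ξ = (zX (X n) - zX (VX.p v)) + (zX (VX.p v) - Ξ) := by ring
      rw [e]
      exact norm_add_le _ _
    linarith

lemma norm_eq_one (h : GoodPath k X) {Ξ : ℂ} (hΞ : Tendsto (fun n => zX (X n)) atTop (𝓝 Ξ)) :
    ‖Ξ‖ = 1 := by
  have hn : Tendsto (fun n => ‖zX (X n)‖) atTop (𝓝 ‖Ξ‖) := hΞ.norm
  apply le_antisymm
  · refine le_of_tendsto hn (Eventually.of_forall fun n => ?_)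
    have h1 := (packing k).inside _ (h.mem n)
    have h2 := (packing k).pos _ (h.mem n)
    linarith
  · refine le_of_forall_lt fun ρ hρ => ?_
    obtain ⟨ρ', h1, h2⟩ := exists_between hρ
    obtain ⟨N, hN⟩ := h.eventually_notMem ((packing k).locfin ρ' h2)
    have : ρ' ≤ ‖Ξ‖ := by
      refine ge_of_tendsto hn (eventually_atTop.mpr ⟨N, fun n hn => ?_⟩)
      by_contra hc
      push Not at hc
      exact hN n hn ⟨h.mem n, hc.le⟩
    linarith

/-- a function with square summable values on the vertices of the first kind tends to zero -/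
lemma tendsto_zero (h : GoodPath k X) {f : VX → ℝ}
    (hf : ∑' x : Set.range VX.p, ENNReal.ofReal (f x ^ 2) ≠ ∞) :
    Tendsto (fun n => f (X n)) (L1 X) (𝓝 0) := by
  classical
  set g : VX → ℝ≥0∞ := (Set.range VX.p).indicator (fun x => ENNReal.ofReal (f x ^ 2)) with hg
  have h1 : ∑' x, g x ≠ ∞ := by
    rw [hg, ← tsum_subtype]
    exact hf
  have h2 := (ENNReal.tendsto_cofinite_zero_of_tsum_ne_top h1).comp h.tendsto
  have h3 : Tendsto (fun n => g (X n)) (L1 X) (𝓝 0) := h2.mono_left inf_le_left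
  have h4 : Tendsto (fun n => ENNReal.ofReal (f (X n) ^ 2)) (L1 X) (𝓝 0) := by
    refine h3.congr' ?_
    rw [L1, Filter.EventuallyEq, eventually_inf_principal]
    refine Eventually.of_forall fun n hn => ?_
    have hn' : X n ∈ Set.range VX.p := hn
    rw [hg, Set.indicator_of_mem hn']
  have h5 : Tendsto (fun n => f (X n) ^ 2) (L1 X) (𝓝 0) := by
    have := (ENNReal.tendsto_toReal (a := 0) (by simp)).comp h4
    simp only [ENNReal.toReal_zero] at this
    refine this.congr fun n => ?_
    exact ENNReal.toReal_ofReal (sq_nonneg _)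
  have h6 : Tendsto (fun n => |f (X n)|) (L1 X) (𝓝 0) := by
    have := h5.sqrt
    rw [Real.sqrt_zero] at this
    refine this.congr fun n => ?_
    rw [Real.sqrt_sq_eq_abs]
  exact (tendsto_zero_iff_abs_tendsto_zero _).mpr h6

end GoodPath

end HExit
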