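import Pool.Agent.HExit.Energy

/-!
# HExit: potential theory on locally finite graphs
-/

open MeasureTheory ProbabilityTheory Filter Topology
open scoped ENNReal

namespace HExit

namespace Pot

variable {V : Type*} {G : SimpleGraph V}

/-- product of the differences over an edge -/
noncomputable def dd (f g : V → ℝ) (s : Sym2 V) : ℝ :=
  Sym2.lift ⟨fun v w => (f v - f w) * (g v - g w), fun v w => by ring⟩ s

lemma dd_mk (f g : V → ℝ) (v w : V) : dd f g s(v, w) = (f v - f w) * (g v - g w) := rfl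

lemma dsq_expand (f g : V → ℝ) (t : ℝ) (s : Sym2 V) :
    dsq (fun v => f v + t * g v) s = dsq f s + 2 * t * dd f g s + t ^ 2 * dsq g s := by
  induction s with
  | _ v w =>
    rw [dsq_mk, dsq_mk, dsq_mk, dd_mk]
    ring

lemma abs_dd_le (f g : V → ℝ) (s : Sym2 V) : |dd f g s| ≤ dsq f s + dsq g s := by
  induction s with
  | _ v w =>
    rw [dsq_mk, dsq_mk, dd_mk, abs_le]
    constructor <;> nlinarith [sq_nonneg ((f v - f w) + (g v - g w)),
      sq_nonneg ((f v - f w) - (g v - g w)), sq_nonneg (f v - f w), sq_nonneg (g v - g w)]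

variable (G) in
/-- finite energy -/
def FE (f : V → ℝ) : Prop := Summable fun s : G.edgeSet => dsq f s

variable (G) in
/-- the energy as a real number -/
noncomputable def Es (f : V → ℝ) : ℝ := ∑' s : G.edgeSet, dsq f s

variable (G) in
/-- the bilinear form -/
noncomputable def Bs (f g : V → ℝ) : ℝ := ∑' s : G.edgeSet, dd f g s

lemma Es_nonneg (f : V → ℝ) : 0 ≤ Es G f := tsum_nonneg fun s => dsq_nonneg f s

lemma en_eq {f : V → ℝ} (hf : FE G f) : en G f = ENNReal.ofReal (Es G f) := by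
  unfold en Es
  exact (ENNReal.ofReal_tsum_of_nonneg (f := fun s : G.edgeSet => dsq f s)
    (fun s => dsq_nonneg f s) hf).symm

lemma FE_of_en {f : V → ℝ} (h : en G f ≠ ∞) : FE G f := by
  unfold FE
  have h1 := ENNReal.summable_toReal h
  refine h1.congr (fun s => ?_)
  rw [ENNReal.toReal_ofReal (dsq_nonneg f s)]

lemma dd_summable {f g : V → ℝ} (hf : FE G f) (hg : FE G g) :
    Summable fun s : G.edgeSet => dd f g s := by
  refine Summable.of_norm_bounded (Summable.add hf hg) (fun s => ?_)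
  rw [Real.norm_eq_abs]
  exact abs_dd_le f g s

lemma FE_add {f g : V → ℝ} (hf : FE G f) (hg : FE G g) (t : ℝ) :
    FE G (fun v => f v + t * g v) ∧
      Es G (fun v => f v + t * g v) = Es G f + 2 * t * Bs G f g + t ^ 2 * Es G g := by
  have h1 := dd_summable hf hg
  have h2 : HasSum (fun s : G.edgeSet => dsq (fun v => f v + t * g v) s)
      (Es G f + 2 * t * Bs G f g + t ^ 2 * Es G g) := by
    have h3 := (hf.hasSum.add (h1.hasSum.mul_left (2 * t))).add (hg.hasSum.mul_left (t ^ 2))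
    refine h3.congr_fun ?_
    intro s
    exact dsq_expand f g t s
  exact ⟨h2.summable, h2.tsum_eq⟩

/-- contractions decrease the energy -/
lemma FE_contr {f f' : V → ℝ} (hf : FE G f) (h : ∀ v w, |f' v - f' w| ≤ |f v - f w|) :
    FE G f' ∧ Es G f' ≤ Es G f := by
  have h1 : ∀ s : Sym2 V, dsq f' s ≤ dsq f s := by
    intro s
    induction s with
    | _ v w =>
      rw [dsq_mk, dsq_mk]
      exact sq_le_sq.mpr (h v w)
  have h2 : FE G f' := Summable.of_nonneg_of_le (fun s => dsq_nonneg f' s) (fun s => h1 s) hf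
  exact ⟨h2, h2.tsum_le_tsum (fun s => h1 s) hf⟩

/-- functions of finite support have finite energy -/
lemma FE_fin (hfin : ∀ x, (G.neighborSet x).Finite) {g : V → ℝ}
    (hg : (Function.support g).Finite) : FE G g := by
  have h1 : (⋃ x ∈ Function.support g, (fun y => s(x, y)) '' G.neighborSet x).Finite :=
    hg.biUnion (fun x _ => (hfin x).image _)
  apply summable_of_hasFiniteSupport
  have h2 : (Function.support fun s : G.edgeSet => dsq g s) ⊆
      Subtype.val ⁻¹' (⋃ x ∈ Function.support g, (fun y => s(x, y)) '' G.neighborSet x) := by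
    rintro ⟨s, hs⟩ h3
    induction s with
    | _ v w =>
      rw [Set.mem_preimage, Set.mem_iUnion₂]
      have h4 : dsq g s(v, w) ≠ 0 := h3
      rw [dsq_mk] at h4
      by_cases hv : g v = 0
      · have hw : g w ≠ 0 := by
          intro hw
          rw [hv, hw] at h4
          simp at h4
        exact ⟨w, hw, v, (show G.Adj v w from hs).symm, Sym2.eq_swap⟩
      · exact ⟨v, hv, w, hs, rfl⟩
  exact (h1.preimage Subtype.val_injective.injOn).subset h2

/-- the Laplacian -/
noncomputable def lap (G : SimpleGraph V) (f : V → ℝ) (x : V) : ℝ :=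
  ∑ᶠ y ∈ G.neighborSet x, (f y - f x)

lemma lap_eq (hfin : ∀ x, (G.neighborSet x).Finite) (f : V → ℝ) (x : V) :
    lap G f x = ∑ y ∈ (hfin x).toFinset, (f y - f x) := by
  unfold lap
  exact finsum_mem_eq_finite_toFinset_sum _ (hfin x)

open Classical in
/-- the indicator function of a point -/
noncomputable def dlt (x : V) : V → ℝ := fun v => if v = x then 1 else 0

lemma dlt_fin (x : V) : (Function.support (dlt x)).Finite := by
  apply (Set.finite_singleton x).subset
  intro v hv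
  by_contra h
  exact hv (if_neg h)

lemma Bs_dlt (hfin : ∀ x, (G.neighborSet x).Finite) (f : V → ℝ) (x : V) :
    Bs G f (dlt x) = - lap G f x := by
  classical
  rw [lap_eq hfin]
  unfold Bs
  have hmem : ∀ y : (hfin x).toFinset, s(x, (y : V)) ∈ G.edgeSet := fun y => by
    have := (hfin x).mem_toFinset.mp y.2
    exact this
  let φ : (hfin x).toFinset → G.edgeSet := fun y => ⟨s(x, (y : V)), hmem y⟩
  have hφ : Function.Injective φ := by
    intro y y' h
    have h1 : s(x, (y : V)) = s(x, (y' : V)) := congrArg Subtype.val h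
    have h2 := Sym2.congr_right.mp h1
    exact Subtype.ext h2
  rw [tsum_eq_sum (s := Finset.univ.image φ)]
  · rw [Finset.sum_image (fun a _ b _ h => hφ h), ← Finset.sum_neg_distrib,
      ← Finset.sum_coe_sort (hfin x).toFinset]
    apply Finset.sum_congr rfl
    intro y _
    show dd f (dlt x) s(x, (y : V)) = _
    have hne : (y : V) ≠ x := by
      have := (hfin x).mem_toFinset.mp y.2
      exact (G.ne_of_adj this).symm
    rw [dd_mk]
    unfold dlt
    rw [if_pos rfl, if_neg hne]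
    ring
  · rintro ⟨s, hs⟩ h
    induction s with
    | _ v w =>
      show dd f (dlt x) s(v, w) = 0
      rw [dd_mk]
      have hv : v ≠ x := by
        rintro rfl
        apply h
        rw [Finset.mem_image]
        refine ⟨⟨w, (hfin v).mem_toFinset.mpr hs⟩, Finset.mem_univ _, rfl⟩
      have hw : w ≠ x := by
        rintro rfl
        apply h
        rw [Finset.mem_image]
        refine ⟨⟨v, (hfin w).mem_toFinset.mpr (show G.Adj v w from hs).symm⟩, Finset.mem_univ _, ?_⟩
        exact Subtype.ext Sym2.eq_swap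
      unfold dlt
      rw [if_neg hv, if_neg hw, sub_zero, mul_zero]

/-- elementary inequality for the first variation -/
lemma variation {a m b D δ : ℝ} (hD : 0 ≤ D) (ha : a ≤ m + δ ^ 2)
    (h : ∀ t : ℝ, m ≤ a + 2 * t * b + t ^ 2 * D) : b ^ 2 ≤ δ ^ 2 * (D + 1) := by
  have h1 := h (-(b / (D + 1)))
  have hD1 : 0 < D + 1 := by linarith
  have h2 : 0 ≤ δ ^ 2 + 2 * (-(b / (D + 1))) * b + (-(b / (D + 1))) ^ 2 * (D + 1) := by
    have : (-(b / (D + 1))) ^ 2 * D ≤ (-(b / (D + 1))) ^ 2 * (D + 1) := by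
      apply mul_le_mul_of_nonneg_left (by linarith) (sq_nonneg _)
    linarith
  have h3 : 2 * (-(b / (D + 1))) * b + (-(b / (D + 1))) ^ 2 * (D + 1) = - (b ^ 2 / (D + 1)) := by
    field_simp
    ring
  have h4 : b ^ 2 / (D + 1) ≤ δ ^ 2 := by linarith
  rwa [div_le_iff₀ hD1] at h4

/-- pointwise limits along an ultrafilter -/
lemma exists_limit {B : ℝ} (f : ℕ → V → ℝ) (hf : ∀ n x, 0 ≤ f n x ∧ f n x ≤ B) :
    ∃ h : V → ℝ, (∀ x, 0 ≤ h x ∧ h x ≤ B) ∧
      ∀ x, Tendsto (fun n => f n x) (hyperfilter ℕ : Filter ℕ) (𝓝 (h x)) := by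
  have key : ∀ x, ∃ a ∈ Set.Icc 0 B, Tendsto (fun n => f n x) (hyperfilter ℕ : Filter ℕ) (𝓝 a) := by
    intro x
    obtain ⟨a, ha, h⟩ := isCompact_Icc.ultrafilter_le_nhds ((hyperfilter ℕ).map (fun n => f n x))
      (by
        rw [le_principal_iff]
        exact Filter.mem_map.mpr (Filter.univ_mem' (fun n => hf n x)))
    exact ⟨a, ha, h⟩
  choose h hh1 hh2 using key
  exact ⟨h, hh1, hh2⟩

lemma lap_tendsto (hfin : ∀ x, (G.neighborSet x).Finite) {l : Filter ℕ} {f : ℕ → V → ℝ}
    {h : V → ℝ} (hf : ∀ x, Tendsto (fun n => f n x) l (𝓝 (h x))) (x : V) :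
    Tendsto (fun n => lap G (f n) x) l (𝓝 (lap G h x)) := by
  simp only [lap_eq hfin]
  exact tendsto_finsetSum _ (fun y _ => (hf y).sub (hf x))

lemma dsq_tendsto {l : Filter ℕ} {f : ℕ → V → ℝ}
    {h : V → ℝ} (hf : ∀ x, Tendsto (fun n => f n x) l (𝓝 (h x))) (s : Sym2 V) :
    Tendsto (fun n => dsq (f n) s) l (𝓝 (dsq h s)) := by
  induction s with
  | _ v w =>
    simp only [dsq_mk]
    exact ((hf v).sub (hf w)).pow 2

lemma delta_tendsto : Tendsto (fun n : ℕ => 1 / ((n : ℝ) + 1)) (hyperfilter ℕ : Filter ℕ) (𝓝 0) :=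
  (tendsto_one_div_add_atTop_nhds_zero_nat (𝕜 := ℝ)).mono_left
    (by rw [← Nat.cofinite_eq_atTop]; exact hyperfilter_le_cofinite)

lemma delta_pos (n : ℕ) : 0 < 1 / ((n : ℝ) + 1) := by positivity

lemma delta_le_one (n : ℕ) : 1 / ((n : ℝ) + 1) ≤ 1 := by
  rw [div_le_one (by positivity)]
  have : (0 : ℝ) ≤ n := Nat.cast_nonneg n
  linarith

lemma clamp_contr (M a b : ℝ) : |max 0 (min a M) - max 0 (min b M)| ≤ |a - b| := by
  rw [max_comm 0, max_comm 0]
  refine (abs_max_sub_max_le_abs _ _ _).trans ?_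
  have h1 : min a M - min b M = max (-b) (-M) - max (-a) (-M) := by
    rw [max_neg_neg, max_neg_neg]
    ring
  have h2 : |a - b| = |-b - -a| := by
    congr 1
    ring
  rw [h1, h2]
  exact abs_max_sub_max_le_abs _ _ _

end Pot

open Pot

theorem decomp {V : Type*} [Countable V] (G : SimpleGraph V) (hfin : ∀ x, (G.neighborSet x).Finite)
    (S A : Set V) (hS : ∀ x y, G.Adj x y → x ∈ S) (lam : ℝ) (hlam : 0 < lam)
    (hgap : ∀ g : V → ℝ, (Function.support g).Finite →
      ENNReal.ofReal lam * ∑' x : A, ENNReal.ofReal (g x ^ 2) ≤ en G g)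
    (htr : ∀ x ∈ S, ∃ c : ℝ, 0 < c ∧ ∀ g : V → ℝ, (Function.support g).Finite →
      ENNReal.ofReal (c * g x ^ 2) ≤ en G g)
    (ψ : V → ℝ) (h0 : ∀ x, 0 ≤ ψ x) (h1 : ∀ x, ψ x ≤ 1) (hE : en G ψ ≠ ∞) :
    ∃ h : V → ℝ, (∀ x, 0 ≤ h x) ∧ (∀ x, h x ≤ 1) ∧ IsHarm G h ∧ en G h ≤ en G ψ ∧
      ENNReal.ofReal lam * ∑' x : A, ENNReal.ofReal ((ψ x - h x) ^ 2) ≤ en G ψ := by
  classical
  have _ := hS
  have _ := htr
  have hψ : FE G ψ := FE_of_en hE
  set Cl : Set ℝ := {r | ∃ f : V → ℝ, (Function.support (fun v => ψ v - f v)).Finite ∧ r = Es G f}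
    with hCl
  obtain ⟨m, hmdef⟩ : ∃ m : ℝ, m = sInf Cl := ⟨_, rfl⟩
  have hbdd : BddBelow Cl := ⟨0, by
    rintro r ⟨f, _, rfl⟩
    exact Es_nonneg f⟩
  have hne : Cl.Nonempty := ⟨Es G ψ, ψ, by simp, rfl⟩
  have hm : ∀ f : V → ℝ, (Function.support (fun v => ψ v - f v)).Finite → m ≤ Es G f := by
    intro f hf
    rw [hmdef]
    exact csInf_le hbdd ⟨f, hf, rfl⟩
  have hFE : ∀ f : V → ℝ, (Function.support (fun v => ψ v - f v)).Finite → FE G f := by
    intro f hf
    have h2 := (FE_add hψ (FE_fin hfin hf) (-1)).1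
    have h3 : (fun v => ψ v + -1 * (ψ v - f v)) = f := by
      funext v
      ring
    rwa [h3] at h2
  have hmin : ∀ n : ℕ, ∃ f : V → ℝ, (∀ x, 0 ≤ f x ∧ f x ≤ 1) ∧
      (Function.support (fun v => ψ v - f v)).Finite ∧ Es G f ≤ m + (1 / ((n : ℝ) + 1)) ^ 2 := by
    intro n
    have hlt : sInf Cl < m + (1 / ((n : ℝ) + 1)) ^ 2 := by
      rw [← hmdef]
      have := pow_pos (delta_pos n) 2
      linarith
    obtain ⟨r, ⟨f, hf, rfl⟩, hr⟩ := exists_lt_of_csInf_lt hne hlt
    have hc := FE_contr (f' := fun v => max 0 (min (f v) 1)) (hFE f hf)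
      (fun v w => clamp_contr 1 _ _)
    refine ⟨fun v => max 0 (min (f v) 1), fun x => ⟨le_max_left _ _, ?_⟩, ?_, hc.2.trans hr.le⟩
    · exact max_le zero_le_one (min_le_right _ _)
    · apply hf.subset
      intro v hv hv'
      apply hv
      have h2 : f v = ψ v := by
        have : ψ v - f v = 0 := hv'
        linarith
      show ψ v - max 0 (min (f v) 1) = 0
      rw [h2, min_eq_left (h1 v), max_eq_right (h0 v), sub_self]
  choose f hf01 hfs hfE using hmin
  obtain ⟨h, hh01, hlim⟩ := exists_limit f hf01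
  have hvar : ∀ (n : ℕ) (g : V → ℝ), (Function.support g).Finite →
      (Bs G (f n) g) ^ 2 ≤ (1 / ((n : ℝ) + 1)) ^ 2 * (Es G g + 1) := by
    intro n g hg
    apply variation (Es_nonneg g) (hfE n)
    intro t
    rw [← (FE_add (hFE _ (hfs n)) (FE_fin hfin hg) t).2]
    apply hm
    apply ((hfs n).union hg).subset
    intro v hv
    by_contra hcon
    rw [Set.mem_union, not_or, Function.notMem_support, Function.notMem_support] at hcon
    apply hv
    show ψ v - (f n v + t * g v) = 0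
    rw [hcon.2]
    linarith [hcon.1]
  have hδ := delta_tendsto
  refine ⟨h, fun x => (hh01 x).1, fun x => (hh01 x).2, ?_, ?_, ?_⟩
  · intro x
    have hl := lap_tendsto (G := G) hfin hlim x
    have h2 : ∀ n : ℕ, (lap G (f n) x) ^ 2 ≤ (1 / ((n : ℝ) + 1)) ^ 2 * (Es G (dlt x) + 1) := by
      intro n
      have h3 := hvar n (dlt x) (dlt_fin x)
      rw [Bs_dlt hfin, neg_sq] at h3
      exact h3
    have h4 : (lap G h x) ^ 2 ≤ 0 ^ 2 * (Es G (dlt x) + 1) :=
      le_of_tendsto_of_tendsto' (hl.pow 2) ((hδ.pow 2).mul_const _) h2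
    have h5 : lap G h x = 0 := by nlinarith [sq_nonneg (lap G h x)]
    exact h5
  · rw [en_eq hψ]
    unfold en
    rw [ENNReal.tsum_eq_iSup_sum]
    apply iSup_le
    intro T
    rw [← ENNReal.ofReal_sum_of_nonneg (f := fun s : G.edgeSet => dsq h (s : Sym2 V))
      (fun s _ => dsq_nonneg h s)]
    apply ENNReal.ofReal_le_ofReal
    have h2 : Tendsto (fun n => ∑ s ∈ T, dsq (f n) (s : Sym2 V)) (hyperfilter ℕ : Filter ℕ)
        (𝓝 (∑ s ∈ T, dsq h (s : Sym2 V))) :=
      tendsto_finsetSum _ (fun s _ => dsq_tendsto hlim s)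
    have h3 : Tendsto (fun n : ℕ => m + (1 / ((n : ℝ) + 1)) ^ 2) (hyperfilter ℕ : Filter ℕ)
        (𝓝 (m + 0 ^ 2)) := (hδ.pow 2).const_add m
    have h4 : ∑ s ∈ T, dsq h (s : Sym2 V) ≤ m + 0 ^ 2 := by
      refine le_of_tendsto_of_tendsto' h2 h3 (fun n => ?_)
      refine le_trans ?_ (hfE n)
      exact (hFE _ (hfs n)).sum_le_tsum T (fun s _ => dsq_nonneg _ _)
    have h5 : m ≤ Es G ψ := hm ψ (by simp)
    linarith
  · rw [en_eq hψ, ENNReal.tsum_eq_iSup_sum, ENNReal.mul_iSup]
    apply iSup_le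
    intro T
    rw [← ENNReal.ofReal_sum_of_nonneg (fun s _ => sq_nonneg _), ← ENNReal.ofReal_mul hlam.le]
    apply ENNReal.ofReal_le_ofReal
    have h2 : Tendsto (fun n : ℕ => lam * (∑ x ∈ T, (ψ x - f n x) ^ 2) * (1 - 1 / ((n : ℝ) + 1)))
        (hyperfilter ℕ : Filter ℕ) (𝓝 (lam * (∑ x ∈ T, (ψ x - h x) ^ 2) * (1 - 0))) := by
      refine Tendsto.mul (Tendsto.const_mul lam ?_) (hδ.const_sub 1)
      exact tendsto_finsetSum _ (fun x _ => ((hlim x).const_sub (ψ x)).pow 2)
    have h3 : Tendsto (fun n : ℕ => Es G ψ + 2 * (1 / ((n : ℝ) + 1))) (hyperfilter ℕ : Filter ℕ)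
        (𝓝 (Es G ψ + 2 * 0)) := (hδ.const_mul 2).const_add _
    have h4 : lam * (∑ x ∈ T, (ψ x - h x) ^ 2) * (1 - 0) ≤ Es G ψ + 2 * 0 := by
      refine le_of_tendsto_of_tendsto' h2 h3 (fun n => ?_)
      set g : V → ℝ := fun v => ψ v - f n v with hg
      have hgs : (Function.support g).Finite := hfs n
      have hgFE := FE_fin hfin hgs
      set e : ℝ := Es G g with he
      have he0 : 0 ≤ e := Es_nonneg g
      set δ : ℝ := 1 / ((n : ℝ) + 1) with hδdef
      have hδ0 : 0 < δ := delta_pos n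
      have hδ1 : δ ≤ 1 := delta_le_one n
      -- the gap inequality
      have h5 : lam * (∑ x ∈ T, (ψ x - f n x) ^ 2) ≤ e := by
        have h6 := hgap g hgs
        rw [en_eq hgFE] at h6
        have h7 : ENNReal.ofReal (lam * (∑ x ∈ T, (ψ x - f n x) ^ 2)) ≤ ENNReal.ofReal e := by
          refine le_trans ?_ h6
          rw [ENNReal.ofReal_mul hlam.le, ENNReal.ofReal_sum_of_nonneg (fun s _ => sq_nonneg _)]
          gcongr
          exact ENNReal.sum_le_tsum T
        exact (ENNReal.ofReal_le_ofReal_iff he0).mp h7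
      have h6 := (FE_add (hFE _ (hfs n)) hgFE 1).2
      have h7 : (fun v => f n v + 1 * g v) = ψ := by
        funext v
        rw [hg]
        ring
      rw [h7] at h6
      have h8 := hvar n g hgs
      rw [← hδdef, ← he] at h8
      have h9 : |Bs G (f n) g| ≤ δ * (e + 2) / 2 := by
        apply abs_le_of_sq_le_sq _ (by positivity)
        refine h8.trans ?_
        have : δ ^ 2 * (e + 1) ≤ δ ^ 2 * ((e + 2) ^ 2 / 4) := by
          apply mul_le_mul_of_nonneg_left _ (sq_nonneg _)
          nlinarith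
        refine this.trans (le_of_eq (by ring))
      have h10 := (abs_le.mp h9).1
      have h11 := Es_nonneg (G := G) (f n)
      have h12 : e * (1 - δ) ≤ Es G ψ + 2 * δ := by
        rw [h6]
        nlinarith
      have h13 : lam * (∑ x ∈ T, (ψ x - f n x) ^ 2) * (1 - δ) ≤ e * (1 - δ) :=
        mul_le_mul_of_nonneg_right h5 (by linarith)
      exact h13.trans h12
    linarith

/-- Green function -/
theorem exists_green {V : Type*} [Countable V] (G : SimpleGraph V)
    (hfin : ∀ x, (G.neighborSet x).Finite) (S : Set V) (hS : ∀ x y, G.Adj x y → x ∈ S)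
    (htr : ∀ x ∈ S, ∃ c : ℝ, 0 < c ∧ ∀ g : V → ℝ, (Function.support g).Finite →
      ENNReal.ofReal (c * g x ^ 2) ≤ en G g) (x : V) (hx : x ∈ S) :
    ∃ g : V → ℝ, (∀ y, 0 ≤ g y) ∧ (∃ B, ∀ y, g y ≤ B) ∧
      (∀ y, y ≠ x → ∑ᶠ w ∈ G.neighborSet y, (g w - g y) = 0) ∧
      ∑ᶠ w ∈ G.neighborSet x, (g w - g x) = -1 := by
  classical
  have _ := hS
  obtain ⟨c, hc, hcap⟩ := htr x hx
  have hcap' : ∀ g : V → ℝ, (Function.support g).Finite → c * g x ^ 2 ≤ Es G g := by
    intro g hg
    have h1 := hcap g hg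
    rw [en_eq (FE_fin hfin hg)] at h1
    exact (ENNReal.ofReal_le_ofReal_iff (Es_nonneg g)).mp h1
  set Cl : Set ℝ := {r | ∃ f : V → ℝ, (Function.support f).Finite ∧ r = Es G f - 2 * f x} with hCl
  obtain ⟨m, hmdef⟩ : ∃ m : ℝ, m = sInf Cl := ⟨_, rfl⟩
  have hbdd : BddBelow Cl := ⟨-(1 / c), by
    rintro r ⟨f, hf, rfl⟩
    have h1 := hcap' f hf
    have h2 : -(1 / c) ≤ c * f x ^ 2 - 2 * f x := by
      have h3 : c * f x ^ 2 - 2 * f x + 1 / c = c * (f x - 1 / c) ^ 2 := by
        field_simp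
        ring
      have h4 : 0 ≤ c * (f x - 1 / c) ^ 2 := by positivity
      linarith
    linarith⟩
  have hne : Cl.Nonempty := ⟨_, fun _ => 0, by simp, rfl⟩
  have hm : ∀ f : V → ℝ, (Function.support f).Finite → m ≤ Es G f - 2 * f x := by
    intro f hf
    rw [hmdef]
    exact csInf_le hbdd ⟨f, hf, rfl⟩
  have hm0 : m ≤ 0 := by
    have h1 := hm (fun _ => 0) (by simp)
    have h2 : Es G (fun _ : V => (0 : ℝ)) = 0 := by
      unfold Es
      have : ∀ s : G.edgeSet, dsq (fun _ : V => (0 : ℝ)) (s : Sym2 V) = 0 := by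
        rintro ⟨s, _⟩
        induction s with
        | _ v w =>
          show dsq (fun _ : V => (0 : ℝ)) s(v, w) = 0
          rw [dsq_mk]
          ring
      simp [this]
    rw [h2] at h1
    linarith
  have hmin : ∀ n : ℕ, ∃ f : V → ℝ, (∀ y, 0 ≤ f y ∧ f y ≤ 2 / c + 1) ∧
      (Function.support f).Finite ∧ Es G f - 2 * f x ≤ m + (1 / ((n : ℝ) + 1)) ^ 2 := by
    intro n
    have hδ1 : (1 / ((n : ℝ) + 1)) ^ 2 ≤ 1 := pow_le_one₀ (delta_pos n).le (delta_le_one n)
    have hlt : sInf Cl < m + (1 / ((n : ℝ) + 1)) ^ 2 := by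
      rw [← hmdef]
      have := pow_pos (delta_pos n) 2
      linarith
    obtain ⟨r, ⟨f, hf, rfl⟩, hr⟩ := exists_lt_of_csInf_lt hne hlt
    set M : ℝ := max 0 (f x) with hM
    set f' : V → ℝ := fun v => max 0 (min (f v) M) with hf'
    have hc2 := FE_contr (f' := f') (FE_fin hfin hf) (fun v w => clamp_contr M _ _)
    have hf's : (Function.support f').Finite := by
      apply hf.subset
      intro v hv hv'
      apply hv
      show max 0 (min (f v) M) = 0
      rw [hv', min_eq_left (le_max_left _ _), max_self]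
    have hfx : f' x = M := by
      show max 0 (min (f x) M) = M
      rw [min_eq_left (le_max_right _ _)]
    have hF : Es G f' - 2 * f' x ≤ m + (1 / ((n : ℝ) + 1)) ^ 2 := by
      have : f x ≤ M := le_max_right _ _
      rw [hfx]
      linarith [hc2.2]
    have hMB : M ≤ 2 / c + 1 := by
      by_contra hcon
      push Not at hcon
      have h1 := hcap' f' hf's
      rw [hfx] at h1 hF
      have h2 : c * M ^ 2 ≤ 1 + 2 * M := by linarith
      have h3 : 2 + c < c * M := by
        have := mul_lt_mul_of_pos_left hcon hc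
        have h4 : c * (2 / c + 1) = 2 + c := by field_simp
        linarith
      have h5 : 1 < M := by
        have : 0 < 2 / c := by positivity
        linarith
      have h6 : (2 + c) * M < c * M * M := mul_lt_mul_of_pos_right h3 (by linarith)
      have h7 : c * M ^ 2 = c * M * M := by ring
      have h8 : (2 + c) * M = 2 * M + c * M := by ring
      linarith
    refine ⟨f', fun y => ⟨le_max_left _ _, ?_⟩, hf's, hF⟩
    exact (max_le (le_max_left _ _) (min_le_right _ _)).trans hMB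
  choose f hf01 hfs hfE using hmin
  obtain ⟨g, hg01, hlim⟩ := exists_limit f hf01
  have hδ := delta_tendsto
  have key : ∀ y, lap G g y = - dlt y x := by
    intro y
    have hl := lap_tendsto (G := G) hfin hlim y
    have h2 : ∀ n : ℕ, (lap G (f n) y + dlt y x) ^ 2
        ≤ (1 / ((n : ℝ) + 1)) ^ 2 * (Es G (dlt y) + 1) := by
      intro n
      have h3 : (Bs G (f n) (dlt y) - dlt y x) ^ 2
          ≤ (1 / ((n : ℝ) + 1)) ^ 2 * (Es G (dlt y) + 1) := by
        apply variation (a := Es G (f n) - 2 * f n x) (m := m) (Es_nonneg _) (hfE n)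
        intro t
        have h4 := (FE_add (FE_fin hfin (hfs n)) (FE_fin hfin (dlt_fin y)) t).2
        have h5 := hm (fun v => f n v + t * dlt y v) (by
          apply ((hfs n).union (dlt_fin y)).subset
          intro v hv
          by_contra hcon
          rw [Set.mem_union, not_or, Function.notMem_support, Function.notMem_support] at hcon
          apply hv
          show f n v + t * dlt y v = 0
          rw [hcon.1, hcon.2]
          ring)
        rw [h4] at h5
        linarith
      rw [Bs_dlt hfin] at h3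
      have h6 : (-lap G (f n) y - dlt y x) ^ 2 = (lap G (f n) y + dlt y x) ^ 2 := by ring
      rwa [h6] at h3
    have h4 : (lap G g y + dlt y x) ^ 2 ≤ 0 ^ 2 * (Es G (dlt y) + 1) :=
      le_of_tendsto_of_tendsto' ((hl.add_const _).pow 2) ((hδ.pow 2).mul_const _) h2
    have h5 : lap G g y + dlt y x = 0 := by nlinarith [sq_nonneg (lap G g y + dlt y x)]
    linarith
  refine ⟨g, fun y => (hg01 y).1, ⟨2 / c + 1, fun y => (hg01 y).2⟩, ?_, ?_⟩
  · intro y hy
    have h1 := key y
    unfold dlt at h1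
    rw [if_neg (Ne.symm hy), neg_zero] at h1
    exact h1
  · have h1 := key x
    unfold dlt at h1
    rw [if_pos rfl] at h1
    exact h1

end HExit
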