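import Pool.Agent.HExit.Energy

/-!
# HExit: simple random walk
-/

open MeasureTheory ProbabilityTheory Filter Topology
open scoped ENNReal

namespace HExit

section srw

variable {V : Type*} [MeasurableSpace V] [DiscreteMeasurableSpace V]

instance (G : SimpleGraph V) (x : V) : IsProbabilityMeasure (srw G x) := by
  unfold srw
  infer_instance

lemma srw_markov (G : SimpleGraph V) (x0 : V) (n : ℕ) :
    ((srw G x0).map (Preorder.frestrictLe n)) ⊗ₘ
      ((stepKernel G).comap (fun h : (Π _ : Finset.Iic n, V) => h ⟨n, by simp⟩)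
      (measurable_pi_apply _)) =
      (srw G x0).map (fun X => (Preorder.frestrictLe n X, X (n + 1))) :=
  Kernel.map_frestrictLe_trajMeasure_compProd_eq_map_trajMeasure (X := fun _ => V)
    (κ := fun n => (stepKernel G).comap (fun h : (Π _ : Finset.Iic n, V) => h ⟨n, by simp⟩)
      (measurable_pi_apply _))

lemma srw_lintegral (G : SimpleGraph V) (x0 : V) (n : ℕ)
    (f : (Π _ : Finset.Iic n, V) × V → ℝ≥0∞) (hf : Measurable f) :
    ∫⁻ X, f (Preorder.frestrictLe n X, X (n + 1)) ∂(srw G x0) =
      ∫⁻ X, ∫⁻ y, f (Preorder.frestrictLe n X, y) ∂(stepMeasure G (X n)) ∂(srw G x0) := by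
  have h1 : ∫⁻ p, f p ∂((srw G x0).map (fun X => (Preorder.frestrictLe n X, X (n + 1)))) =
      ∫⁻ X, f (Preorder.frestrictLe n X, X (n + 1)) ∂(srw G x0) :=
    lintegral_map hf (by fun_prop)
  rw [← h1, ← srw_markov, Measure.lintegral_compProd hf, lintegral_map]
  · rfl
  · exact hf.lintegral_kernel_prod_right'
  · fun_prop

lemma srw_integral (G : SimpleGraph V) (x0 : V) (n : ℕ)
    (f : (Π _ : Finset.Iic n, V) × V → ℝ) (hf : Measurable f) (B : ℝ) (hB : ∀ p, |f p| ≤ B) :
    ∫ X, f (Preorder.frestrictLe n X, X (n + 1)) ∂(srw G x0) =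
      ∫ X, ∫ y, f (Preorder.frestrictLe n X, y) ∂(stepMeasure G (X n)) ∂(srw G x0) := by
  have h1 : ∫ p, f p ∂((srw G x0).map (fun X => (Preorder.frestrictLe n X, X (n + 1)))) =
      ∫ X, f (Preorder.frestrictLe n X, X (n + 1)) ∂(srw G x0) :=
    integral_map (by fun_prop) hf.aestronglyMeasurable
  have h2 : Integrable f (((srw G x0).map (Preorder.frestrictLe n)) ⊗ₘ
      ((stepKernel G).comap (fun h : (Π _ : Finset.Iic n, V) => h ⟨n, by simp⟩)
      (measurable_pi_apply _))) := by
    rw [srw_markov]
    have : IsProbabilityMeasure ((srw G x0).map (fun X => (Preorder.frestrictLe n X, X (n + 1)))) :=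
      Measure.isProbabilityMeasure_map (by fun_prop)
    exact Integrable.of_bound hf.aestronglyMeasurable B (Eventually.of_forall fun p => hB p)
  rw [← h1, ← srw_markov, Measure.integral_compProd h2, integral_map]
  · rfl
  · fun_prop
  · exact (hf.stronglyMeasurable.integral_kernel_prod_right' (κ := (stepKernel G).comap
      (fun h : (Π _ : Finset.Iic n, V) => h ⟨n, by simp⟩)
      (measurable_pi_apply _))).aestronglyMeasurable

lemma srw_zero (G : SimpleGraph V) (x0 : V) : ∀ᵐ X ∂(srw G x0), X 0 = x0 := by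
  have h1 : (srw G x0).map (Preorder.frestrictLe 0) =
      (Measure.dirac x0).map (MeasurableEquiv.piUnique (fun _ : Finset.Iic 0 => V)).symm := by
    unfold srw Kernel.trajMeasure
    rw [Measure.map_comp _ _ (by fun_prop), Kernel.traj_map_frestrictLe, Kernel.partialTraj_self]
    exact Measure.id_comp
  have h1' := h1.trans (Measure.map_dirac' (MeasurableEquiv.measurable _) _)
  have h2 : ∀ᵐ h ∂((srw G x0).map (Preorder.frestrictLe 0)), h ⟨0, by simp⟩ = x0 := by
    rw [h1', ae_dirac_iff]
    · rfl
    · have h3 : Measurable (fun h : (Π _ : Finset.Iic 0, V) => h ⟨0, by simp⟩) :=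
        measurable_pi_apply _
      exact h3 (measurableSet_singleton x0)
  exact ae_of_ae_map (by fun_prop) h2

lemma srw_integral_step (G : SimpleGraph V) (hfin : ∀ x, (G.neighborSet x).Finite) (f : V → ℝ)
    (x : V) (hne : (G.neighborSet x).Nonempty) :
    ∫ y, f y ∂(stepMeasure G x) =
      f x + (∑ᶠ y ∈ G.neighborSet x, (f y - f x)) / (G.neighborSet x).ncard := by
  have hpos : (0 : ℝ) < (G.neighborSet x).ncard := by
    have := (Set.ncard_pos (hfin x)).mpr hne
    exact_mod_cast this
  rw [stepMeasure, if_pos ⟨hfin x, hne⟩, uniformOn, ProbabilityTheory.cond,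
    integral_smul_measure]
  obtain ⟨s, hs⟩ : ∃ s : Finset V, (s : Set V) = G.neighborSet x :=
    ⟨(hfin x).toFinset, (hfin x).coe_toFinset⟩
  have hint : IntegrableOn f (s : Set V) Measure.count := by
    have h2 : IsFiniteMeasure ((Measure.count : Measure V).restrict (s : Set V)) :=
      ⟨by simp [Measure.count_apply_finset]⟩
    have h3 : ∃ B : ℝ, ∀ y ∈ s, ‖f y‖ ≤ B := by
      obtain ⟨B, hB⟩ := (s.finite_toSet.image (fun y => ‖f y‖)).bddAbove
      exact ⟨B, fun y hy => hB ⟨y, hy, rfl⟩⟩
    obtain ⟨B, hB⟩ := h3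
    refine Integrable.of_bound (Measurable.of_discrete).aestronglyMeasurable B ?_
    exact (ae_restrict_mem s.measurableSet).mono fun y hy => hB y hy
  rw [← hs, setIntegral_finset s hint, finsum_mem_coe_finset, Measure.count_apply_finset,
    Set.ncard_coe_finset]
  rw [← hs, Set.ncard_coe_finset] at hpos
  simp only [ENNReal.toReal_inv, ENNReal.toReal_natCast, smul_eq_mul, Finset.sum_sub_distrib,
    Finset.sum_const, nsmul_eq_mul]
  have : ∀ y : V, Measure.count.real {y} = (1 : ℝ) := fun y => by
    simp [Measure.real]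
  simp only [this]
  field_simp
  ring

lemma srw_integral_step' (G : SimpleGraph V) (hfin : ∀ x, (G.neighborSet x).Finite) (f : V → ℝ)
    (x : V) :
    ∫ y, f y ∂(stepMeasure G x) =
      f x + (∑ᶠ y ∈ G.neighborSet x, (f y - f x)) / (G.neighborSet x).ncard := by
  by_cases hne : (G.neighborSet x).Nonempty
  · exact srw_integral_step G hfin f x hne
  · rw [stepMeasure, if_neg (fun h => hne h.2)]
    rw [Set.not_nonempty_iff_eq_empty] at hne
    rw [hne]
    simp

/-- one step of the walk, for bounded functions -/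
lemma srw_integral_succ (G : SimpleGraph V) (hfin : ∀ x, (G.neighborSet x).Finite) (x0 : V) (n : ℕ)
    (f : V → ℝ) (B : ℝ) (hB : ∀ x, |f x| ≤ B) (t : Set (Π _ : Finset.Iic n, V))
    (ht : MeasurableSet t) :
    ∫ X in Preorder.frestrictLe n ⁻¹' t, f (X (n + 1)) ∂(srw G x0) =
      ∫ X in Preorder.frestrictLe n ⁻¹' t, (f (X n) +
        (∑ᶠ y ∈ G.neighborSet (X n), (f y - f (X n))) / (G.neighborSet (X n)).ncard)
        ∂(srw G x0) := by
  have hB0 : 0 ≤ B := by
    have := hB x0
    linarith [abs_nonneg (f x0)]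
  have h1 := srw_integral G x0 n (fun p => t.indicator (fun _ => f p.2) p.1) ?_ B ?_
  · have ht' : MeasurableSet ((Preorder.frestrictLe n : (ℕ → V) → _) ⁻¹' t) :=
      (by fun_prop : Measurable (Preorder.frestrictLe n : (ℕ → V) → _)) ht
    rw [← integral_indicator ht', ← integral_indicator ht']
    have e1 : ∀ X : ℕ → V, t.indicator (fun _ => f (X (n + 1))) (Preorder.frestrictLe n X) =
        (Preorder.frestrictLe n ⁻¹' t).indicator (fun X : ℕ → V => f (X (n + 1))) X := by
      intro X
      by_cases hX : Preorder.frestrictLe n X ∈ t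
      · rw [Set.indicator_of_mem hX, Set.indicator_of_mem (by exact hX)]
      · rw [Set.indicator_of_notMem hX, Set.indicator_of_notMem (by exact hX)]
    have e2 : ∀ X : ℕ → V, ∫ y, t.indicator (fun _ => f y) (Preorder.frestrictLe n X)
        ∂(stepMeasure G (X n)) =
        (Preorder.frestrictLe n ⁻¹' t).indicator (fun X : ℕ → V => f (X n) +
        (∑ᶠ y ∈ G.neighborSet (X n), (f y - f (X n))) / (G.neighborSet (X n)).ncard) X := by
      intro X
      by_cases hX : Preorder.frestrictLe n X ∈ t
      · refine Eq.trans ?_ (Set.indicator_of_mem (by exact hX) _).symm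
        rw [← srw_integral_step' G hfin]
        simp only [Set.indicator_of_mem hX]
      · refine Eq.trans ?_ (Set.indicator_of_notMem (by exact hX) _).symm
        simp only [Set.indicator_of_notMem hX, integral_zero]
    simp only [e1, e2] at h1
    exact h1
  · have : (fun p : (Π _ : Finset.Iic n, V) × V => t.indicator (fun _ => f p.2) p.1) =
        (t ×ˢ (Set.univ : Set V)).indicator (fun p => f p.2) := by
      ext p
      by_cases hp : p.1 ∈ t
      · rw [Set.indicator_of_mem hp, Set.indicator_of_mem (by simp [hp])]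
      · rw [Set.indicator_of_notMem hp, Set.indicator_of_notMem (by simp [hp])]
    rw [this]
    exact (Measurable.comp Measurable.of_discrete measurable_snd).indicator
      (ht.prod MeasurableSet.univ)
  · intro p
    by_cases hp : p.1 ∈ t
    · simp only [Set.indicator_of_mem hp]
      exact hB _
    · simp only [Set.indicator_of_notMem hp, abs_zero]
      exact hB0

lemma srw_step (G : SimpleGraph V) (hfin : ∀ x, (G.neighborSet x).Finite) (x0 : V) (n : ℕ)
    (hm : MeasurableSet {p : V × V | (G.neighborSet p.1).Nonempty → G.Adj p.1 p.2}) :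
    ∀ᵐ X ∂(srw G x0), (G.neighborSet (X n)).Nonempty → G.Adj (X n) (X (n + 1)) := by
  have hm1 : MeasurableSet {p : (Π _ : Finset.Iic n, V) × V |
      ¬ ((G.neighborSet (p.1 ⟨n, by simp⟩)).Nonempty → G.Adj (p.1 ⟨n, by simp⟩) p.2)} := by
    have h3 : Measurable (fun p : (Π _ : Finset.Iic n, V) × V => (p.1 ⟨n, by simp⟩, p.2)) := by
      fun_prop
    exact (h3 hm).compl
  have h1 := srw_lintegral G x0 n (Set.indicator {p : (Π _ : Finset.Iic n, V) × V |
      ¬ ((G.neighborSet (p.1 ⟨n, by simp⟩)).Nonempty → G.Adj (p.1 ⟨n, by simp⟩) p.2)} 1)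
      (measurable_one.indicator hm1)
  have h2 : ∀ X : ℕ → V, ∫⁻ y, (Set.indicator {p : (Π _ : Finset.Iic n, V) × V |
      ¬ ((G.neighborSet (p.1 ⟨n, by simp⟩)).Nonempty → G.Adj (p.1 ⟨n, by simp⟩) p.2)} 1)
      (Preorder.frestrictLe n X, y) ∂(stepMeasure G (X n)) = 0 := by
    intro X
    by_cases hne : (G.neighborSet (X n)).Nonempty
    · have h4 : ∀ y, (Set.indicator {p : (Π _ : Finset.Iic n, V) × V |
          ¬ ((G.neighborSet (p.1 ⟨n, by simp⟩)).Nonempty → G.Adj (p.1 ⟨n, by simp⟩) p.2)}
          (1 : (Π _ : Finset.Iic n, V) × V → ℝ≥0∞))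
          (Preorder.frestrictLe n X, y) = (G.neighborSet (X n))ᶜ.indicator 1 y := by
        intro y
        by_cases hy : G.Adj (X n) y
        · rw [Set.indicator_of_notMem, Set.indicator_of_notMem]
          · simpa using hy
          · simp [hy]
        · rw [Set.indicator_of_mem, Set.indicator_of_mem]
          · rfl
          · simpa using hy
          · simp only [Set.mem_ofPred_eq, not_forall]
            exact ⟨hne, hy⟩
      simp only [h4]
      rw [lintegral_indicator_one (hfin _).measurableSet.compl, stepMeasure,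
        if_pos ⟨hfin _, hne⟩, uniformOn_eq_zero_iff (hfin _)]
      simp
    · have h4 : ∀ y, (Set.indicator {p : (Π _ : Finset.Iic n, V) × V |
          ¬ ((G.neighborSet (p.1 ⟨n, by simp⟩)).Nonempty → G.Adj (p.1 ⟨n, by simp⟩) p.2)}
          (1 : (Π _ : Finset.Iic n, V) × V → ℝ≥0∞))
          (Preorder.frestrictLe n X, y) = 0 := by
        intro y
        rw [Set.indicator_of_notMem]
        simp only [Set.mem_ofPred_eq, not_not]
        exact fun h => absurd h hne
      simp only [h4, lintegral_zero]
  simp only [h2, lintegral_zero] at h1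
  rw [lintegral_eq_zero_iff] at h1
  · filter_upwards [h1] with X hX
    by_contra hc
    have : (Preorder.frestrictLe n X, X (n + 1)) ∈ {p : (Π _ : Finset.Iic n, V) × V |
      ¬ ((G.neighborSet (p.1 ⟨n, by simp⟩)).Nonempty → G.Adj (p.1 ⟨n, by simp⟩) p.2)} := hc
    rw [Set.indicator_of_mem this] at hX
    simp at hX
  · exact (measurable_one.indicator hm1).comp (by fun_prop)

end srw

theorem srw_adj {V : Type*} [Countable V] [MeasurableSpace V] [DiscreteMeasurableSpace V]
    (G : SimpleGraph V) (hfin : ∀ x, (G.neighborSet x).Finite) (x0 : V)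
    (hne : ∀ y, G.Reachable x0 y → (G.neighborSet y).Nonempty) :
    ∀ᵐ X ∂(srw G x0), X 0 = x0 ∧ ∀ n, G.Adj (X n) (X (n + 1)) := by
  have h1 : ∀ᵐ X ∂(srw G x0), ∀ n, (G.neighborSet (X n)).Nonempty → G.Adj (X n) (X (n + 1)) :=
    ae_all_iff.mpr fun n => srw_step G hfin x0 n (Set.to_countable _).measurableSet
  filter_upwards [h1, srw_zero G x0] with X hX h0
  have h2 : ∀ n, G.Reachable x0 (X n) := by
    intro n
    induction n with
    | zero => rw [h0]
    | succ n ih => exact ih.trans (hX n (hne _ ih)).reachable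
  exact ⟨h0, fun n => hX n (hne _ (h2 n))⟩

theorem srw_harm {V : Type*} [Countable V] [MeasurableSpace V] [DiscreteMeasurableSpace V]
    (G : SimpleGraph V) (hfin : ∀ x, (G.neighborSet x).Finite) (x0 : V) (h : V → ℝ)
    (h0 : ∀ x, 0 ≤ h x) (h1 : ∀ x, h x ≤ 1) (hh : IsHarm G h) :
    ∃ H : (ℕ → V) → ℝ, Measurable H ∧
      (∀ᵐ X ∂(srw G x0), Tendsto (fun n => h (X n)) atTop (𝓝 (H X))) ∧
      ∫ X, H X ∂(srw G x0) = h x0 := by
  have hB : ∀ x, |h x| ≤ 1 := fun x => by rw [abs_of_nonneg (h0 x)]; exact h1 x
  have hmeas : ∀ n, Measurable (fun X : ℕ → V => h (X n)) := fun n =>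
    (Measurable.of_discrete (f := h)).comp (measurable_pi_apply n)
  have hint : ∀ n, Integrable (fun X : ℕ → V => h (X n)) (srw G x0) := fun n =>
    Integrable.of_bound (hmeas n).aestronglyMeasurable 1 (Eventually.of_forall fun X => hB (X n))
  have hstep : ∀ n (t : Set (Π _ : Finset.Iic n, V)), MeasurableSet t →
      ∫ X in Preorder.frestrictLe n ⁻¹' t, h (X (n + 1)) ∂(srw G x0) =
      ∫ X in Preorder.frestrictLe n ⁻¹' t, h (X n) ∂(srw G x0) := by
    intro n t ht
    rw [srw_integral_succ G hfin x0 n h 1 hB t ht]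
    congr 1
    funext X
    rw [hh (X n)]
    simp
  have hmart : Martingale (fun n (X : ℕ → V) => h (X n)) (Filtration.piLE (X := fun _ => V))
      (srw G x0) := by
    refine martingale_of_setIntegral_eq_succ ?_ hint ?_
    · intro n
      rw [Filtration.piLE_eq_comap_frestrictLe]
      have h5 : Measurable (fun g : (Π _ : Finset.Iic n, V) => h (g ⟨n, by simp⟩)) :=
        (Measurable.of_discrete (f := h)).comp (measurable_pi_apply _)
      exact (h5.comp (comap_measurable _)).stronglyMeasurable
    · intro n s hs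
      rw [Filtration.piLE_eq_comap_frestrictLe] at hs
      obtain ⟨t, ht, rfl⟩ := hs
      exact (hstep n t ht).symm
  have hsub := hmart.submartingale
  have hbdd : ∀ n, eLpNorm (fun X : ℕ → V => h (X n)) 1 (srw G x0) ≤ ((1 : NNReal) : ℝ≥0∞) := by
    intro n
    refine (eLpNorm_le_of_ae_bound (Eventually.of_forall fun X => hB (X n))).trans ?_
    simp
  have hlim := hsub.ae_tendsto_limitProcess hbdd
  refine ⟨_, Filtration.stronglyMeasurable_limit_process'.measurable, hlim, ?_⟩
  have hconst : ∀ n, ∫ X, h (X n) ∂(srw G x0) = h x0 := by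
    intro n
    induction n with
    | zero =>
      have : (fun X : ℕ → V => h (X 0)) =ᵐ[srw G x0] fun _ => h x0 := by
        filter_upwards [srw_zero G x0] with X hX
        rw [hX]
      rw [integral_congr_ae this]
      simp
    | succ n ih =>
      have := hstep n Set.univ MeasurableSet.univ
      simp only [Set.preimage_univ, Measure.restrict_univ] at this
      rw [this, ih]
  have hconv := tendsto_integral_of_dominated_convergence (fun _ => (1 : ℝ))
    (fun n => (hmeas n).aestronglyMeasurable) (integrable_const _)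
    (fun n => Eventually.of_forall fun X => hB (X n)) hlim
  simp only [hconst] at hconv
  exact tendsto_nhds_unique hconv tendsto_const_nhds

/-- a bounded nonnegative function with Laplacian `-δ_x` makes the number of visits of `x` finite -/
theorem srw_visits {V : Type*} [Countable V] [MeasurableSpace V] [DiscreteMeasurableSpace V]
    (G : SimpleGraph V) (hfin : ∀ x, (G.neighborSet x).Finite) (x0 x : V) (g : V → ℝ)
    (h0 : ∀ y, 0 ≤ g y) (hB : ∃ B, ∀ y, g y ≤ B)
    (h1 : ∀ y, y ≠ x → ∑ᶠ w ∈ G.neighborSet y, (g w - g y) = 0)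
    (h2 : ∑ᶠ w ∈ G.neighborSet x, (g w - g x) = -1) :
    ∀ᵐ X ∂(srw G x0), {n | X n = x}.Finite := by
  obtain ⟨B, hB⟩ := hB
  have hB' : ∀ y, |g y| ≤ B := fun y => by rw [abs_of_nonneg (h0 y)]; exact hB y
  have hmeas : ∀ n, Measurable (fun X : ℕ → V => g (X n)) := fun n =>
    (Measurable.of_discrete (f := g)).comp (measurable_pi_apply n)
  have hint : ∀ n, Integrable (fun X : ℕ → V => g (X n)) (srw G x0) := fun n =>
    Integrable.of_bound (hmeas n).aestronglyMeasurable B (Eventually.of_forall fun X => hB' (X n))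
  have hms : ∀ n, MeasurableSet {X : ℕ → V | X n = x} := fun n => by
    have h3 : Measurable (fun X : ℕ → V => X n) := measurable_pi_apply n
    exact h3 (measurableSet_singleton x)
  have hne : (G.neighborSet x).Nonempty := by
    by_contra hc
    rw [Set.not_nonempty_iff_eq_empty] at hc
    rw [hc] at h2
    simp at h2
  set d : ℝ := ((G.neighborSet x).ncard : ℝ) with hd
  have hpos : 0 < d := by
    have := (Set.ncard_pos (hfin x)).mpr hne
    rw [hd]
    exact_mod_cast this
  have hstep : ∀ n, ∫ X, g (X (n + 1)) ∂(srw G x0) =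
      ∫ X, g (X n) ∂(srw G x0) - (srw G x0).real {X | X n = x} / d := by
    intro n
    have h3 := srw_integral_succ G hfin x0 n g B hB' Set.univ MeasurableSet.univ
    simp only [Set.preimage_univ, Measure.restrict_univ] at h3
    rw [h3]
    have h4 : ∀ X : ℕ → V, g (X n) +
        (∑ᶠ y ∈ G.neighborSet (X n), (g y - g (X n))) / (G.neighborSet (X n)).ncard =
        g (X n) - {X : ℕ → V | X n = x}.indicator (fun _ => 1 / d) X := by
      intro X
      by_cases hX : X n = x
      · rw [Set.indicator_of_mem (by exact hX), hX, h2, ← hd]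
        ring
      · rw [Set.indicator_of_notMem (by exact hX), h1 _ hX]
        simp
    simp only [h4]
    rw [integral_sub (hint n) ((integrable_const _).indicator (hms n)),
      integral_indicator (hms n), setIntegral_const]
    simp only [smul_eq_mul, mul_one_div]
  have hsum : ∀ N, ∑ n ∈ Finset.range N, (srw G x0).real {X | X n = x} / d =
      ∫ X, g (X 0) ∂(srw G x0) - ∫ X, g (X N) ∂(srw G x0) := by
    intro N
    induction N with
    | zero => simp
    | succ N ih =>
      rw [Finset.sum_range_succ, ih, hstep N]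
      ring
  have hbound : ∀ N, ∑ n ∈ Finset.range N, (srw G x0).real {X | X n = x} ≤ d * B := by
    intro N
    have h5 := hsum N
    rw [← Finset.sum_div, div_eq_iff hpos.ne'] at h5
    rw [h5]
    have h6 : 0 ≤ ∫ X, g (X N) ∂(srw G x0) := integral_nonneg fun X => h0 _
    have h7 : ∫ X, g (X 0) ∂(srw G x0) ≤ B := by
      calc ∫ X, g (X 0) ∂(srw G x0) ≤ ∫ X, B ∂(srw G x0) :=
            integral_mono (hint 0) (integrable_const _) (fun X => hB _)
        _ = B := by simp
    nlinarith
  have hsummable : Summable fun n => (srw G x0).real {X : ℕ → V | X n = x} :=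
    summable_of_sum_range_le (fun n => measureReal_nonneg) hbound
  have hfinite : ∑' n, (srw G x0) {X : ℕ → V | X n = x} ≠ ∞ := by
    have h8 : ∀ n, (srw G x0) {X : ℕ → V | X n = x} =
        ENNReal.ofReal ((srw G x0).real {X : ℕ → V | X n = x}) := fun n => by
      rw [ofReal_measureReal]
    simp only [h8]
    rw [← ENNReal.ofReal_tsum_of_nonneg (fun n => measureReal_nonneg) hsummable]
    exact ENNReal.ofReal_ne_top
  exact ae_finite_setOfPred_mem hfinite

end HExit
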