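import Pool.Agent.HExit.ExitA
import Pool.Agent.HExit.Pot
import Pool.Agent.HExit.Srw
import Pool.Agent.HExit.En
import Pool.Agent.HExit.Cut

/-!
# HExit: almost sure convergence of the walk
-/

open MeasureTheory ProbabilityTheory Filter Topology
open scoped ENNReal

namespace HExit

open R31

lemma nonempty_nbr {k : Sym2 V1 → ℕ} {x : VX} (hx : x ∈ SX k) :
    ((GX k).neighborSet x).Nonempty := by
  cases x with
  | p v =>
    have h := ncard_nbr v
    have h1 : (HG.neighborSet v).Nonempty := by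
      rw [Set.nonempty_iff_ne_empty]
      intro h0
      rw [h0, Set.ncard_empty] at h
      omega
    obtain ⟨w, hw⟩ := h1
    exact ⟨VX.p w, hw⟩
  | q u =>
    have h := ncard_nbr21 u
    have h1 : {v : V1 | NN v u = 1}.Nonempty := by
      rw [Set.nonempty_iff_ne_empty]
      intro h0
      rw [h0, Set.ncard_empty] at h
      omega
    obtain ⟨w, hw⟩ := h1
    exact ⟨VX.p w, hw⟩
  | t F j =>
    obtain ⟨a, b, hab, -⟩ := F.exists_mk'
    exact ⟨VX.p a, ⟨hx, by rw [hab]; exact Sym2.mem_mk_left _ _⟩⟩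

lemma mem_SX_of_reachable {k : Sym2 V1 → ℕ} {x y : VX} (hx : x ∈ SX k)
    (h : (GX k).Reachable x y) : y ∈ SX k := by
  obtain ⟨p⟩ := h
  induction p with
  | nil => exact hx
  | cons h p ih => exact ih (SX_of_adj' k h.symm)

/-- an endpoint of the edge of a face -/
noncomputable def ep (F : Face) : V1 := Classical.choose F.exists_mk'

lemma ep_mem (F : Face) : ep F ∈ F.e := by
  obtain ⟨w, h, -⟩ := Classical.choose_spec F.exists_mk'
  rw [h]
  exact Sym2.mem_mk_left _ _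

/-- extension of a function of the base vertices -/
noncomputable def ext0 (f : V1 → ℝ) (g : V2 → ℝ) : VX → ℝ
  | VX.p v => f v
  | VX.q u => g u
  | VX.t F _ => f (ep F)

lemma en_ext0_le (k : Sym2 V1 → ℕ) (f : V1 → ℝ) (g : V2 → ℝ) :
    en (GX k) (ext0 f g) ≤ ∑' s : HG.edgeSet, (1 + 2 * (k s : ℝ≥0∞)) * ENNReal.ofReal (dsq f s)
      + 3 * ∑' p : {p : V1 × V2 // NN p.1 p.2 = 1}, ENNReal.ofReal ((f p.1.1 - g p.1.2) ^ 2) :=
  en_le k (ext0 f g) (fun F => ⟨ep F, ep_mem F, fun _ => rfl⟩)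

lemma tsum_lt_top_aux (k : Sym2 V1 → ℕ) (f : Sym2 V1 → ℝ≥0∞)
    (h1 : ∑' s : HG.edgeSet, f s ≠ ∞) (h2 : ∑' s : HG.edgeSet, (k s : ℝ≥0∞) * f s ≠ ∞) :
    ∑' s : HG.edgeSet, (1 + 2 * (k s : ℝ≥0∞)) * f s ≠ ∞ := by
  have e : ∑' s : HG.edgeSet, (1 + 2 * (k s : ℝ≥0∞)) * f s
      = ∑' s : HG.edgeSet, f s + 2 * ∑' s : HG.edgeSet, (k s : ℝ≥0∞) * f s := by
    rw [← ENNReal.tsum_mul_left, ← ENNReal.tsum_add]
    refine tsum_congr fun s => ?_
    rw [add_mul, one_mul, mul_assoc]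
  rw [e]
  exact ENNReal.add_ne_top.mpr ⟨h1, ENNReal.mul_ne_top (by simp) h2⟩

variable [MeasurableSpace VX] [DiscreteMeasurableSpace VX]

lemma ae_goodPath (k : Sym2 V1 → ℕ) : ∀ᵐ X ∂(srw (GX k) (VX.p o)), GoodPath k X := by
  have := countable_VX
  have h1 := srw_adj (GX k) (finite_nbrX k) (VX.p o)
    (fun y hy => nonempty_nbr (mem_SX_of_reachable (k := k) (x := VX.p o) trivial hy))
  have h2 : ∀ x : VX, ∀ᵐ X ∂(srw (GX k) (VX.p o)), x ∈ SX k → {n | X n = x}.Finite := by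
    intro x
    by_cases hx : x ∈ SX k
    · obtain ⟨g, g0, gB, g1, g2⟩ := exists_green (GX k) (finite_nbrX k) (SX k)
        (fun a b hab => SX_of_adj' k hab) (capX k) x hx
      filter_upwards [srw_visits (GX k) (finite_nbrX k) (VX.p o) x g g0 gB g1 g2] with X hX _
      exact hX
    · exact Eventually.of_forall fun X h => absurd h hx
  rw [← ae_all_iff] at h2
  filter_upwards [h1, h2] with X hX1 hX2
  refine ⟨hX1.1, hX1.2, fun x => ?_⟩
  by_cases hx : x ∈ SX k
  · exact hX2 x hx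
  · convert Set.finite_empty
    ext n
    simp only [Set.mem_ofPred_eq, Set.mem_empty_iff_false, iff_false]
    rintro rfl
    exact hx (SX_of_adj' k (hX1.2 n))

/-- the harmonic part of a function of finite energy -/
lemma harm_part (k : Sym2 V1 → ℕ) (ψ : VX → ℝ) (h0 : ∀ x, 0 ≤ ψ x) (h1 : ∀ x, ψ x ≤ 1)
    (hE : en (GX k) ψ ≠ ∞) :
    ∃ h : VX → ℝ, (∀ x, 0 ≤ h x) ∧ (∀ x, h x ≤ 1) ∧ IsHarm (GX k) h ∧
      en (GX k) h ≤ en (GX k) ψ ∧
      ENNReal.ofReal (1 / 10) * ∑' x : Set.range VX.p, ENNReal.ofReal ((ψ x - h x) ^ 2)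
        ≤ en (GX k) ψ ∧
      ∃ H : (ℕ → VX) → ℝ, Measurable H ∧ ∫ X, H X ∂(srw (GX k) (VX.p o)) = h (VX.p o) ∧
        ∀ᵐ X ∂(srw (GX k) (VX.p o)), 0 ≤ H X ∧ H X ≤ 1 ∧
          Tendsto (fun n => ψ (X n)) (GoodPath.L1 X) (𝓝 (H X)) := by
  have := countable_VX
  obtain ⟨h, a0, a1, ha, hen, hdiff⟩ := decomp (GX k) (finite_nbrX k) (SX k) (Set.range VX.p)
    (fun a b hab => SX_of_adj' k hab) (1 / 10) (by norm_num) (gapX k) (capX k) ψ h0 h1 hE
  refine ⟨h, a0, a1, ha, hen, hdiff, ?_⟩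
  obtain ⟨H, hH, hlim, hint⟩ := srw_harm (GX k) (finite_nbrX k) (VX.p o) h a0 a1 ha
  refine ⟨H, hH, hint, ?_⟩
  filter_upwards [hlim, ae_goodPath k] with X hX hg
  refine ⟨ge_of_tendsto hX (Eventually.of_forall fun n => a0 _),
    le_of_tendsto hX (Eventually.of_forall fun n => a1 _), ?_⟩
  have hne : ∑' x : Set.range VX.p, ENNReal.ofReal ((ψ x - h x) ^ 2) ≠ ∞ := by
    intro htop
    rw [htop, ENNReal.mul_top (by simp)] at hdiff
    exact hE (top_le_iff.mp hdiff)
  have h2 := hg.tendsto_zero (f := fun x => ψ x - h x) hne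
  have h3 : Tendsto (fun n => h (X n)) (GoodPath.L1 X) (𝓝 (H X)) := hX.mono_left inf_le_left
  have h4 := h2.add h3
  simp only [sub_add_cancel, zero_add] at h4
  exact h4

/-- a contraction of the centres into an interval -/
lemma ae_conv_aux (k : Sym2 V1 → ℕ)
    (hE : ∑' s : HG.edgeSet, (k s : ℝ≥0∞) * ENNReal.ofReal (dz s) ≠ ∞) (φ : ℂ → ℝ)
    (hφ : ∀ a b, |φ a - φ b| ≤ ‖a - b‖) (h0 : ∀ a, ‖a‖ < 1 → 0 ≤ φ a)
    (h1 : ∀ a, ‖a‖ < 1 → φ a ≤ 1) :
    ∀ᵐ X ∂(srw (GX k) (VX.p o)), ∃ l, Tendsto (fun n => φ (zX (X n))) (GoodPath.L1 X) (𝓝 l) := by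
  have hz : ∀ x ∈ SX k, ‖zX x‖ < 1 := by
    intro x hx
    have h1 := (packing k).inside _ hx
    have h2 := (packing k).pos _ hx
    linarith
  have hz1 : ∀ v, ‖zX (VX.p v)‖ < 1 := fun v => hz _ trivial
  have hz2 : ∀ v, ‖zX (VX.q v)‖ < 1 := fun v => hz _ trivial
  obtain ⟨h, -, -, -, -, -, H, -, -, hH⟩ := harm_part k
    (ext0 (fun v => φ (zX (VX.p v))) (fun u => φ (zX (VX.q u))))
    (by
      intro x
      cases x with
      | p v => exact h0 _ (hz1 v)
      | q u => exact h0 _ (hz2 u)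
      | t F j => exact h0 _ (hz1 _))
    (by
      intro x
      cases x with
      | p v => exact h1 _ (hz1 v)
      | q u => exact h1 _ (hz2 u)
      | t F j => exact h1 _ (hz1 _))
    (by
      refine ne_top_of_le_ne_top ?_ (en_ext0_le k _ _)
      have key : ∀ a b : ℂ, (φ a - φ b) ^ 2 ≤ ‖a - b‖ ^ 2 := by
        intro a b
        rw [← sq_abs (φ a - φ b)]
        exact pow_le_pow_left₀ (abs_nonneg _) (hφ a b) 2
      have hd : ∀ s : Sym2 V1, dsq (fun v => φ (zX (VX.p v))) s ≤ dz s := by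
        intro s
        induction s with
        | _ v w => exact key _ _
      refine ENNReal.add_ne_top.mpr ⟨?_, ENNReal.mul_ne_top (by simp) ?_⟩
      · refine tsum_lt_top_aux k
          (fun s => ENNReal.ofReal (dsq (fun v => φ (zX (VX.p v))) s)) ?_ ?_
        · refine ne_top_of_le_ne_top sum_dz_ne_top (ENNReal.tsum_le_tsum fun s => ?_)
          exact ENNReal.ofReal_le_ofReal (hd s)
        · refine ne_top_of_le_ne_top hE (ENNReal.tsum_le_tsum fun s => ?_)
          gcongr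
          exact hd s
      · refine ne_top_of_le_ne_top sum_dz2_ne_top (ENNReal.tsum_le_tsum fun p => ?_)
        exact ENNReal.ofReal_le_ofReal (key _ _))
  filter_upwards [hH, ae_goodPath k] with X hX hg
  refine ⟨H X, hX.2.2.congr' ?_⟩
  rw [GoodPath.L1, Filter.EventuallyEq, eventually_inf_principal]
  refine Eventually.of_forall fun n hn => ?_
  obtain ⟨v, hv⟩ := hn
  rw [← hv]
  rfl

/-- the walk converges to a point of the unit circle -/
lemma ae_conv (k : Sym2 V1 → ℕ)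
    (hE : ∑' s : HG.edgeSet, (k s : ℝ≥0∞) * ENNReal.ofReal (dz s) ≠ ∞) :
    ∀ᵐ X ∂(srw (GX k) (VX.p o)), GoodPath k X ∧
      ∃ ξ : ℂ, ‖ξ‖ = 1 ∧ Tendsto (fun n => zX (X n)) atTop (𝓝 ξ) := by
  have hr := ae_conv_aux k hE (fun a => (1 + a.re) / 2)
    (by
      intro a b
      have e : (1 + a.re) / 2 - (1 + b.re) / 2 = (a - b).re / 2 := by
        rw [Complex.sub_re]; ring
      show |(1 + a.re) / 2 - (1 + b.re) / 2| ≤ _
      rw [e, abs_div, abs_two]
      have := Complex.abs_re_le_norm (a - b)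
      have := abs_nonneg (a - b).re
      linarith)
    (by
      intro a ha
      have := (abs_le.mp (Complex.abs_re_le_norm a)).1
      show 0 ≤ (1 + a.re) / 2
      linarith)
    (by
      intro a ha
      have := (abs_le.mp (Complex.abs_re_le_norm a)).2
      show (1 + a.re) / 2 ≤ 1
      linarith)
  have hi := ae_conv_aux k hE (fun a => (1 + a.im) / 2)
    (by
      intro a b
      have e : (1 + a.im) / 2 - (1 + b.im) / 2 = (a - b).im / 2 := by
        rw [Complex.sub_im]; ring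
      show |(1 + a.im) / 2 - (1 + b.im) / 2| ≤ _
      rw [e, abs_div, abs_two]
      have := Complex.abs_im_le_norm (a - b)
      have := abs_nonneg (a - b).im
      linarith)
    (by
      intro a ha
      have := (abs_le.mp (Complex.abs_im_le_norm a)).1
      show 0 ≤ (1 + a.im) / 2
      linarith)
    (by
      intro a ha
      have := (abs_le.mp (Complex.abs_im_le_norm a)).2
      show (1 + a.im) / 2 ≤ 1
      linarith)
  filter_upwards [hr, hi, ae_goodPath k] with X hXr hXi hg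
  obtain ⟨l1, hl1⟩ := hXr
  obtain ⟨l2, hl2⟩ := hXi
  have e1 : Tendsto (fun n => (zX (X n)).re) (GoodPath.L1 X) (𝓝 (2 * l1 - 1)) := by
    have := (hl1.const_mul 2).sub_const 1
    refine this.congr fun n => ?_
    ring
  have e2 : Tendsto (fun n => (zX (X n)).im) (GoodPath.L1 X) (𝓝 (2 * l2 - 1)) := by
    have := (hl2.const_mul 2).sub_const 1
    refine this.congr fun n => ?_
    ring
  have e3 : Tendsto (fun n => zX (X n)) (GoodPath.L1 X)
      (𝓝 (((2 * l1 - 1 : ℝ) : ℂ) + ((2 * l2 - 1 : ℝ) : ℂ) * Complex.I)) := by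
    have h1 := (Complex.continuous_ofReal.tendsto _).comp e1
    have h2 := (Complex.continuous_ofReal.tendsto _).comp e2
    have := h1.add (h2.mul_const Complex.I)
    refine this.congr fun n => ?_
    exact Complex.re_add_im _
  have e4 := hg.conv e3
  exact ⟨hg, _, hg.norm_eq_one e4, e4⟩

end HExit
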