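import Pool.Agent.HExit.ExitB

/-!
# HExit: quantitative part
-/

open MeasureTheory ProbabilityTheory Filter Topology
open scoped ENNReal

namespace HExit

open R31

/-! ### sums and walks -/

lemma sum_le_of_tsum {α : Type*} {S : Set α} {F : α → ℝ≥0∞} {f : α → ℝ} {B : ℝ} (hB : 0 ≤ B)
    (h : ∑' a : S, F a ≤ ENNReal.ofReal B) (T : Finset α) (hT : ∀ a ∈ T, a ∈ S)
    (hf : ∀ a ∈ T, 0 ≤ f a) (hF : ∀ a ∈ T, ENNReal.ofReal (f a) ≤ F a) : ∑ a ∈ T, f a ≤ B := by
  classical
  rw [← ENNReal.ofReal_le_ofReal_iff hB, ENNReal.ofReal_sum_of_nonneg hf]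
  refine le_trans ?_ h
  rw [tsum_subtype S F]
  refine le_trans ?_ (ENNReal.sum_le_tsum T)
  refine Finset.sum_le_sum fun a ha => ?_
  rw [Set.indicator_of_mem (hT a ha)]
  exact hF a ha

lemma walk_abs_le {V : Type*} {G : SimpleGraph V} (g : V → ℝ) {x y : V} (p : G.Walk x y) :
    |g x - g y| ≤ (p.edges.map (fun s => √(dsq g s))).sum := by
  induction p with
  | nil => simp
  | @cons a b c h p ih =>
    rw [SimpleGraph.Walk.edges_cons, List.map_cons, List.sum_cons, dsq_mk, Real.sqrt_sq_eq_abs]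
    have e : g a - g c = (g a - g b) + (g b - g c) := by ring
    rw [e]
    exact (abs_add_le _ _).trans (by linarith)

lemma walk_sq_le {V : Type*} [DecidableEq V] {G : SimpleGraph V} (g : V → ℝ) {x y : V}
    (p : G.Walk x y) (hp : p.edges.Nodup) :
    (g x - g y) ^ 2 ≤ p.length * ∑ s ∈ p.edges.toFinset, dsq g s := by
  have h1 := walk_abs_le g p
  rw [← List.sum_toFinset _ hp] at h1
  have h2 : (g x - g y) ^ 2 ≤ (∑ s ∈ p.edges.toFinset, √(dsq g s)) ^ 2 := by
    rw [← sq_abs (g x - g y)]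
    exact pow_le_pow_left₀ (abs_nonneg _) h1 2
  refine h2.trans ?_
  refine sq_sum_le_card_mul_sum_sq.trans ?_
  rw [List.toFinset_card_of_nodup hp, SimpleGraph.Walk.length_edges]
  refine le_of_eq ?_
  congr 1
  refine Finset.sum_congr rfl fun s _ => ?_
  rw [Real.sq_sqrt (dsq_nonneg g s)]

/-- oscillation over a cluster -/
lemma osc {k : Sym2 V1 → ℕ} {h : VX → ℝ} {E : ℝ} (hE : 0 ≤ E) {n : ℕ} (hn : 1 ≤ n) {e : DE}
    (hk : ∀ s, inK e n s → n ^ 5 ≤ k s) (hen : en (GX k) h ≤ ENNReal.ofReal (E * n ^ 2)) {x y : V1}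
    (hx : x ∈ Kc e n) (hy : y ∈ Kc e n) : (h (VX.p x) - h (VX.p y)) ^ 2 ≤ 3 * E / n := by
  obtain ⟨w, hw, hin⟩ := Kc_walk e n hx hy
  have hpath := w.bypass_isPath
  have hlen := w.length_bypass_le_length
  have hin' : ∀ s ∈ w.bypass.edges, inK e n s := fun s hs => hin s (w.edges_bypass_subset_edges hs)
  have hn' : (1 : ℝ) ≤ n := by exact_mod_cast hn
  have h1 := walk_sq_le (fun v => h (VX.p v)) w.bypass hpath.isTrail.edges_nodup
  have h2 : ∑ s ∈ w.bypass.edges.toFinset, (n : ℝ) ^ 5 * dsq (fun v => h (VX.p v)) s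
      ≤ E * n ^ 2 := by
    refine sum_le_of_tsum (S := HG.edgeSet)
      (F := fun s => (1 + (k s : ℝ≥0∞)) * ENNReal.ofReal (dsq (fun v => h (VX.p v)) s))
      (by positivity) ((le_en k h).trans hen) _ ?_ ?_ ?_
    · intro s hs
      exact (hin' s (List.mem_toFinset.mp hs)).1
    · intro s _
      exact mul_nonneg (by positivity) (dsq_nonneg _ _)
    · intro s hs
      rw [ENNReal.ofReal_mul (by positivity)]
      gcongr
      have h3 := hk s (hin' s (List.mem_toFinset.mp hs))
      have h4 : ENNReal.ofReal ((n : ℝ) ^ 5) = ((n ^ 5 : ℕ) : ℝ≥0∞) := by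
        rw [← Nat.cast_pow, ENNReal.ofReal_natCast]
      rw [h4]
      exact (Nat.cast_le.mpr h3).trans le_add_self
  rw [← Finset.mul_sum] at h2
  have h3 : ∑ s ∈ w.bypass.edges.toFinset, dsq (fun v => h (VX.p v)) s ≤ E / n ^ 3 := by
    rw [le_div_iff₀ (by positivity)]
    have : (∑ s ∈ w.bypass.edges.toFinset, dsq (fun v => h (VX.p v)) s) * (n : ℝ) ^ 3 * n ^ 2
        ≤ E * n ^ 2 := by
      calc _ = (n : ℝ) ^ 5 * ∑ s ∈ w.bypass.edges.toFinset, dsq (fun v => h (VX.p v)) s := by ring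
        _ ≤ _ := h2
    exact le_of_mul_le_mul_right this (by positivity)
  refine h1.trans ?_
  have h4 : (w.bypass.length : ℝ) ≤ 3 * n ^ 2 := by exact_mod_cast hlen.trans hw
  calc (w.bypass.length : ℝ) * ∑ s ∈ w.bypass.edges.toFinset, dsq (fun v => h (VX.p v)) s
      ≤ (3 * n ^ 2) * (E / n ^ 3) := by
        gcongr
        exact Finset.sum_nonneg fun s _ => dsq_nonneg _ _
    _ = 3 * E / n := by
        field_simp

/-- a point of the cluster with a large value -/
lemma exists_large {h ψ : VX → ℝ} {E : ℝ} (hE : 0 ≤ E) {n : ℕ} (hn : 1 ≤ n)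
    {e : DE} (hcard : n ^ 3 ≤ (Kc e n).ncard) (hψ : ∀ v ∈ Kc e n, ψ (VX.p v) = 1)
    (hd : ENNReal.ofReal (1 / 10) * ∑' x : Set.range VX.p, ENNReal.ofReal ((ψ x - h x) ^ 2)
      ≤ ENNReal.ofReal (E * n ^ 2)) : ∃ v ∈ Kc e n, (1 - h (VX.p v)) ^ 2 ≤ 10 * E / n := by
  classical
  have hn' : (1 : ℝ) ≤ n := by exact_mod_cast hn
  have h1 : ∑' x : Set.range VX.p, ENNReal.ofReal ((ψ x - h x) ^ 2)
      ≤ ENNReal.ofReal (10 * (E * n ^ 2)) := by
    rw [ENNReal.ofReal_mul (by norm_num)]
    calc ∑' x : Set.range VX.p, ENNReal.ofReal ((ψ x - h x) ^ 2)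
        = ENNReal.ofReal 10 * (ENNReal.ofReal (1 / 10)
          * ∑' x : Set.range VX.p, ENNReal.ofReal ((ψ x - h x) ^ 2)) := by
          rw [← mul_assoc, ← ENNReal.ofReal_mul (by norm_num)]
          norm_num
      _ ≤ _ := by gcongr
  by_contra hc
  push Not at hc
  set T := (Kc_finite e n).toFinset with hT
  have hinj : Function.Injective VX.p := by
    intro a b hab
    injection hab
  have h2 : ∑ x ∈ T.map ⟨VX.p, hinj⟩, (ψ x - h x) ^ 2 ≤ 10 * (E * n ^ 2) := by
    refine sum_le_of_tsum (S := Set.range VX.p) (F := fun x => ENNReal.ofReal ((ψ x - h x) ^ 2))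
      (by positivity) h1 _ ?_ (fun _ _ => sq_nonneg _) (fun _ _ => le_rfl)
    intro x hx
    obtain ⟨v, -, rfl⟩ := Finset.mem_map.mp hx
    exact ⟨v, rfl⟩
  rw [Finset.sum_map] at h2
  have h3 : ∀ v ∈ T, 10 * E / n < (ψ (VX.p v) - h (VX.p v)) ^ 2 := by
    intro v hv
    have hv' : v ∈ Kc e n := (Kc_finite e n).mem_toFinset.mp hv
    rw [hψ v hv']
    exact hc v hv'
  have hcard' : n ^ 3 ≤ T.card := by
    rw [← Set.ncard_eq_toFinset_card _ (Kc_finite e n)]
    exact hcard
  have hne : T.Nonempty := by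
    rw [← Finset.card_pos]
    exact lt_of_lt_of_le (by positivity) hcard'
  have h4 : ∑ v ∈ T, 10 * E / (n : ℝ) < ∑ v ∈ T, (ψ (VX.p v) - h (VX.p v)) ^ 2 :=
    Finset.sum_lt_sum_of_nonempty hne h3
  rw [Finset.sum_const, nsmul_eq_mul] at h4
  have h5 : (n : ℝ) ^ 3 ≤ T.card := by exact_mod_cast hcard'
  have h6 : (n : ℝ) ^ 3 * (10 * E / n) ≤ T.card * (10 * E / n) := by gcongr
  have h7 : (n : ℝ) ^ 3 * (10 * E / n) = 10 * (E * n ^ 2) := by
    field_simp
  have h8 : ∑ v ∈ T, (ψ (VX.p v) - h (VX.p v)) ^ 2 ≤ 10 * (E * n ^ 2) := h2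
  linarith

/-! ### degrees -/

lemma nbr_finite (v : V1) : (HG.neighborSet v).Finite := by
  apply Set.finite_of_ncard_ne_zero
  rw [ncard_nbr]
  norm_num

/-- the neighbours of a vertex -/
noncomputable def nb (v : V1) : Finset V1 := (nbr_finite v).toFinset

lemma mem_nb {v w : V1} : w ∈ nb v ↔ MM v w = 2 := by
  unfold nb
  rw [Set.Finite.mem_toFinset]
  rfl

lemma deg_le (k : Sym2 V1 → ℕ) (v : V1) :
    ((GX k).neighborSet (VX.p v)).ncard ≤ 8 + 2 * ∑ w ∈ nb v, k s(v, w) := by
  classical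
  have hff : ∀ s : Sym2 V1, ∃ T : Finset Face, s ∈ HG.edgeSet → (∀ F : Face, F ∈ T ↔ F.e = s) ∧
      T.card = 2 := by
    intro s
    by_cases hs : s ∈ HG.edgeSet
    · have h2 := ncard_face_edge hs
      have hfin : {F : Face | F.e = s}.Finite := by
        apply Set.finite_of_ncard_ne_zero
        rw [h2]
        norm_num
      refine ⟨hfin.toFinset, fun _ => ⟨fun F => by rw [Set.Finite.mem_toFinset]; rfl, ?_⟩⟩
      rw [← Set.ncard_eq_toFinset_card _ hfin, h2]
    · exact ⟨∅, fun h => absurd h hs⟩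
  choose FF hFF using hff
  have hfin2 : {u : V2 | NN v u = 1}.Finite := by
    apply Set.finite_of_ncard_ne_zero
    rw [ncard_nbr2]
    norm_num
  set A1 : Finset VX := (nb v).image VX.p with hA1
  set A2 : Finset VX := hfin2.toFinset.image VX.q with hA2
  set A3 : Finset VX := (nb v).biUnion (fun w => (FF s(v, w)).biUnion
    (fun F => (Finset.range (k s(v, w))).image (VX.t F))) with hA3
  have hsub : (GX k).neighborSet (VX.p v) ⊆ ↑(A1 ∪ A2 ∪ A3) := by
    intro x hx
    have hx' : (GX k).Adj (VX.p v) x := hx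
    rw [Finset.mem_coe, Finset.mem_union, Finset.mem_union]
    cases x with
    | p w =>
      left; left
      exact Finset.mem_image.mpr ⟨w, mem_nb.mpr hx', rfl⟩
    | q u =>
      left; right
      exact Finset.mem_image.mpr ⟨u, hfin2.mem_toFinset.mpr hx', rfl⟩
    | t F j =>
      right
      obtain ⟨h1, h2⟩ := hx'
      obtain ⟨w, hw⟩ := Sym2.mem_iff_exists.mp h2
      have hvw : MM v w = 2 := by
        have := F.he
        rw [hw] at this
        exact this
      rw [hA3, Finset.mem_biUnion]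
      refine ⟨w, mem_nb.mpr hvw, ?_⟩
      rw [Finset.mem_biUnion]
      refine ⟨F, ((hFF s(v, w) hvw).1 F).mpr hw, ?_⟩
      rw [Finset.mem_image]
      exact ⟨j, Finset.mem_range.mpr (by rw [← hw]; exact h1), rfl⟩
  have c1 : A1.card ≤ 4 := by
    refine Finset.card_image_le.trans ?_
    unfold nb
    rw [← Set.ncard_eq_toFinset_card _ (nbr_finite v), ncard_nbr]
  have c2 : A2.card ≤ 4 := by
    refine Finset.card_image_le.trans ?_
    rw [← Set.ncard_eq_toFinset_card _ hfin2, ncard_nbr2]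
  have c3 : A3.card ≤ 2 * ∑ w ∈ nb v, k s(v, w) := by
    refine Finset.card_biUnion_le.trans ?_
    rw [Finset.mul_sum]
    refine Finset.sum_le_sum fun w hw => ?_
    refine Finset.card_biUnion_le.trans ?_
    have hvw : MM v w = 2 := mem_nb.mp hw
    refine (Finset.sum_le_card_nsmul _ _ (k s(v, w)) ?_).trans ?_
    · intro F _
      exact Finset.card_image_le.trans (by rw [Finset.card_range])
    · rw [(hFF s(v, w) hvw).2, smul_eq_mul]
  calc ((GX k).neighborSet (VX.p v)).ncard ≤ (↑(A1 ∪ A2 ∪ A3) : Set VX).ncard :=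
        Set.ncard_le_ncard hsub (Finset.finite_toSet _)
    _ = (A1 ∪ A2 ∪ A3).card := Set.ncard_coe_finset _
    _ ≤ (A1 ∪ A2).card + A3.card := Finset.card_union_le _ _
    _ ≤ A1.card + A2.card + A3.card := by
        gcongr
        exact Finset.card_union_le _ _
    _ ≤ _ := by omega

lemma harm_step {V : Type*} {G : SimpleGraph V} {h : V → ℝ} (h0 : ∀ x, 0 ≤ h x)
    (hh : IsHarm G h) {x y : V} (hfin : (G.neighborSet x).Finite) (hxy : G.Adj x y) :
    h y ≤ (G.neighborSet x).ncard * h x := by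
  have h1 := hh x
  rw [finsum_mem_eq_finite_toFinset_sum _ hfin, Finset.sum_sub_distrib, Finset.sum_const,
    nsmul_eq_mul] at h1
  have h2 : h y ≤ ∑ w ∈ hfin.toFinset, h w :=
    Finset.single_le_sum (fun w _ => h0 w) (hfin.mem_toFinset.mpr hxy)
  rw [Set.ncard_eq_toFinset_card _ hfin]
  linarith

/-- bound for the degree -/
noncomputable def ddk (k : Sym2 V1 → ℕ) (v : V1) : ℝ := 8 + 2 * ∑ w ∈ nb v, (k s(v, w) : ℝ)

lemma ddk_nonneg (k : Sym2 V1 → ℕ) (v : V1) : 0 ≤ ddk k v := by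
  unfold ddk
  positivity

open Classical in
/-- lower bound for a harmonic function at distance from a set -/
lemma descend {k : Sym2 V1 → ℕ} {h : VX → ℝ} (h0 : ∀ x, 0 ≤ h x) (hh : IsHarm (GX k) h)
    {K : Set V1} {m : ℝ} (hm0 : 0 ≤ m) (hm : ∀ v ∈ K, m ≤ h (VX.p v)) {x y : V1}
    (p : HG.Walk x y) (hp : p.IsPath) (hy : y ∈ K) :
    Real.exp (-∑ v ∈ p.support.toFinset.filter (fun v => v ∉ K), ddk k v) * m ≤ h (VX.p x) := by
  induction p with
  | @nil x =>
    have : (SimpleGraph.Walk.nil : HG.Walk x x).support.toFinset.filter (fun v => v ∉ K) = ∅ := by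
      rw [SimpleGraph.Walk.support_nil]
      ext v
      simp only [List.toFinset_cons, List.toFinset_nil, insert_empty_eq, Finset.mem_filter,
        Finset.mem_singleton, Finset.notMem_empty, iff_false, not_and, not_not]
      rintro rfl
      exact hy
    rw [this]
    simpa using hm x hy
  | @cons a b c hab p ih =>
    have hp' := (SimpleGraph.Walk.cons_isPath_iff hab p).mp hp
    have ih' := ih hp'.1 hy
    by_cases ha : a ∈ K
    · refine le_trans ?_ (hm a ha)
      refine mul_le_of_le_one_left hm0 ?_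
      rw [Real.exp_le_one_iff, neg_nonpos]
      exact Finset.sum_nonneg fun v _ => ddk_nonneg k v
    · have hset : (SimpleGraph.Walk.cons hab p).support.toFinset.filter (fun v => v ∉ K)
          = insert a (p.support.toFinset.filter (fun v => v ∉ K)) := by
        rw [SimpleGraph.Walk.support_cons, List.toFinset_cons, Finset.filter_insert, if_pos ha]
      have hna : a ∉ p.support.toFinset.filter (fun v => v ∉ K) := by
        intro h1
        exact hp'.2 (List.mem_toFinset.mp (Finset.mem_filter.mp h1).1)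
      rw [hset, Finset.sum_insert hna, neg_add, Real.exp_add, mul_assoc]
      have hadj : (GX k).Adj (VX.p a) (VX.p b) := hab
      have h1 := harm_step h0 hh (finite_nbrX k (VX.p a)) hadj
      have h2 : (((GX k).neighborSet (VX.p a)).ncard : ℝ) ≤ ddk k a := by
        have := deg_le k a
        unfold ddk
        exact_mod_cast this
      have h3 : ddk k a ≤ Real.exp (ddk k a) := by
        have := Real.add_one_le_exp (ddk k a)
        linarith
      have h4 : h (VX.p b) ≤ Real.exp (ddk k a) * h (VX.p a) := by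
        refine h1.trans ?_
        have := h0 (VX.p a)
        gcongr
        exact h2.trans h3
      calc Real.exp (-ddk k a) * (Real.exp (-∑ v ∈ p.support.toFinset.filter (fun v => v ∉ K),
            ddk k v) * m) ≤ Real.exp (-ddk k a) * h (VX.p b) := by gcongr
        _ ≤ Real.exp (-ddk k a) * (Real.exp (ddk k a) * h (VX.p a)) := by gcongr
        _ = h (VX.p a) := by
            rw [← mul_assoc, ← Real.exp_add, neg_add_cancel, Real.exp_zero, one_mul]

/-- double counting of edges -/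
lemma double_count (V' : Finset V1) (T : Finset (Sym2 V1)) (f : Sym2 V1 → ℝ)
    (hf : ∀ s, 0 ≤ f s) (hT : ∀ v ∈ V', ∀ w ∈ nb v, s(v, w) ∈ T) :
    ∑ v ∈ V', ∑ w ∈ nb v, f s(v, w) ≤ 2 * ∑ s ∈ T, f s := by
  classical
  have h1 : ∀ v ∈ V', ∑ w ∈ nb v, f s(v, w) ≤ ∑ s ∈ T.filter (fun s => v ∈ s), f s := by
    intro v hv
    have hinj : Set.InjOn (fun w => s(v, w)) (nb v : Set V1) := by
      intro a _ b _ hab
      have hab' : s(v, a) = s(v, b) := hab
      exact Sym2.congr_right.mp hab'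
    rw [← Finset.sum_image (f := f) hinj]
    refine Finset.sum_le_sum_of_subset_of_nonneg ?_ (fun s _ _ => hf s)
    intro s hs
    obtain ⟨w, hw, rfl⟩ := Finset.mem_image.mp hs
    exact Finset.mem_filter.mpr ⟨hT v hv w hw, Sym2.mem_mk_left _ _⟩
  refine (Finset.sum_le_sum h1).trans ?_
  simp only [Finset.sum_filter]
  rw [Finset.sum_comm, Finset.mul_sum]
  refine Finset.sum_le_sum fun s _ => ?_
  rw [← Finset.sum_filter, Finset.sum_const, nsmul_eq_mul]
  have hcard : (V'.filter (fun v => v ∈ s)).card ≤ 2 := by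
    induction s with
    | _ a b =>
      refine (Finset.card_le_card (t := {a, b}) ?_).trans Finset.card_le_two
      intro v hv
      have := (Finset.mem_filter.mp hv).2
      rw [Sym2.mem_iff] at this
      simp only [Finset.mem_insert, Finset.mem_singleton]
      exact this
  have hcard' : ((V'.filter (fun v => v ∈ s)).card : ℝ) ≤ 2 := by exact_mod_cast hcard
  exact mul_le_mul_of_nonneg_right hcard' (hf s)

end HExit
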