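import Pool.Agent.HExit.MtpC

/-!
# HExit: unimodularity and second moment of the degree
-/

open MeasureTheory ProbabilityTheory Filter Topology
open scoped ENNReal

namespace HExit

open Classical in
lemma lintegral_mu0_split (g' : (Idx → Bool) → ℕ → ℝ≥0∞)
    (hg' : ∀ j, Measurable (fun ω => g' ω j)) :
    ∫⁻ p, g' p.1 p.2 ∂mu0 = 1 / 8 * ∫⁻ ω, g' ω 0 ∂PP + (1 / 12 * ∫⁻ ω, g' ω 1 ∂PP
      + ∑' j : ℕ, 1 / 2 * ∫⁻ ω, (if j < kk ω F0.e then g' ω (j + 2) else 0) ∂PP) := by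
  rw [lintegral_mu0 _ g' hg' (fun ω j _ => rfl), tsum_eq_zero_add' ENNReal.summable,
    tsum_eq_zero_add' ENNReal.summable]
  have h0 : ∀ ω : Idx → Bool, root 0 ∈ SX (kk ω) := fun ω => trivial
  have h1 : ∀ ω : Idx → Bool, root (0 + 1) ∈ SX (kk ω) := fun ω => trivial
  congr 1
  · simp only [if_pos (h0 _)]
    rfl
  · congr 1
    · simp only [if_pos (h1 _)]
      rfl
    · congr 1
      ext j
      show 1 / 2 * ∫⁻ ω, _ ∂PP = _
      congr 1
      apply lintegral_congr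
      intro ω
      by_cases h : j < kk ω F0.e
      · rw [if_pos h]
        exact if_pos (show root (j + 1 + 1) ∈ SX (kk ω) from h)
      · rw [if_neg h]
        exact if_neg (show ¬ root (j + 1 + 1) ∈ SX (kk ω) from h)

open Classical in
lemma tsum_lt_kk (c : ℝ≥0∞) : ∑' j : ℕ, 1 / 2 * ∫⁻ ω, (if j < kk ω F0.e then c else 0) ∂PP
    = 1 / 2 * (c * ∫⁻ ω, kE ω F0.e ∂PP) := by
  rw [ENNReal.tsum_mul_left, ← lintegral_tsum]
  · congr 1
    rw [← lintegral_const_mul _ (measurable_kE _)]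
    apply lintegral_congr_ae
    filter_upwards [kk_eq_kE] with ω hω
    rw [← hω, tsum_eq_sum (s := Finset.range (kk ω F0.e))]
    · rw [Finset.sum_congr rfl (g := fun _ => c)]
      · rw [Finset.sum_const, Finset.card_range, nsmul_eq_mul, mul_comm]
      · intro j hj
        rw [if_pos (Finset.mem_range.mp hj)]
    · intro j hj
      rw [if_neg (fun h => hj (Finset.mem_range.mpr h))]
  · intro j
    exact (Measurable.ite (measurableSet_lt_kk _ _) measurable_const measurable_const).aemeasurable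

theorem mu0_univ : mu0 Set.univ = 1 / 8 + (1 / 12 + 1 / 2 * ∫⁻ ω, kE ω F0.e ∂PP) := by
  classical
  rw [← lintegral_one, lintegral_mu0_split (fun _ _ => 1) (fun _ => measurable_const), tsum_lt_kk]
  simp

theorem mu0_ne_zero : mu0 Set.univ ≠ 0 := by
  rw [mu0_univ]
  have : (1 / 8 : ℝ≥0∞) ≠ 0 := by norm_num
  intro h
  exact this (add_eq_zero.mp h).1

lemma lintegral_kE_ne_top (s : Sym2 V1) : ∫⁻ ω, kE ω s ∂PP ≠ ∞ := by
  obtain ⟨C, hC⟩ := moment_kE
  exact ne_top_of_le_ne_top ENNReal.ofReal_ne_top (hC s).1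

theorem mu0_ne_top : mu0 Set.univ ≠ ∞ := by
  rw [mu0_univ]
  refine ENNReal.add_ne_top.mpr ⟨by norm_num, ENNReal.add_ne_top.mpr ⟨by norm_num, ?_⟩⟩
  exact ENNReal.mul_ne_top (by norm_num) (lintegral_kE_ne_top _)

theorem unimodular : Unimodular muR (fun p => GX (kk p.1)) (fun p => root p.2) := by
  intro f hfm hfi
  have := unimodular_mu0 f hfm hfi
  unfold muR
  rw [lintegral_smul_measure, lintegral_smul_measure, this]

/-! ### degrees -/

lemma add_sq_le_ennreal (a b : ℝ≥0∞) : (a + b) ^ 2 ≤ 4 * (a ^ 2 + b ^ 2) := by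
  rcases le_total a b with h | h
  · calc (a + b) ^ 2 ≤ (b + b) ^ 2 := by gcongr
      _ = 4 * b ^ 2 := by ring
      _ ≤ 4 * (a ^ 2 + b ^ 2) := by gcongr; exact le_add_self
  · calc (a + b) ^ 2 ≤ (a + a) ^ 2 := by gcongr
      _ = 4 * a ^ 2 := by ring
      _ ≤ 4 * (a ^ 2 + b ^ 2) := by gcongr; exact le_self_add

lemma sum_sq_ne_top {ι : Type*} (S : Finset ι) (c : ℝ≥0∞) (hc : c ≠ ∞) (s : ι → Sym2 V1) :
    ∫⁻ ω, (c + ∑ i ∈ S, (kk ω (s i) : ℝ≥0∞)) ^ 2 ∂PP ≠ ∞ := by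
  classical
  have hm : ∀ i, Measurable (fun ω : Idx → Bool => (kk ω (s i) : ℝ≥0∞)) := fun i =>
    measurable_from_nat.comp (measurable_kk (s i))
  induction S using Finset.induction_on with
  | empty =>
    simp only [Finset.sum_empty, add_zero, lintegral_const, measure_univ, mul_one]
    exact ENNReal.pow_ne_top hc
  | insert i S hi ih =>
    have h1 : ∫⁻ ω, (c + ∑ j ∈ insert i S, (kk ω (s j) : ℝ≥0∞)) ^ 2 ∂PP
        ≤ ∫⁻ ω, 4 * ((kk ω (s i) : ℝ≥0∞) ^ 2 + (c + ∑ j ∈ S, (kk ω (s j) : ℝ≥0∞)) ^ 2) ∂PP := by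
      apply lintegral_mono
      intro ω
      show (c + ∑ j ∈ insert i S, (kk ω (s j) : ℝ≥0∞)) ^ 2 ≤
        4 * ((kk ω (s i) : ℝ≥0∞) ^ 2 + (c + ∑ j ∈ S, (kk ω (s j) : ℝ≥0∞)) ^ 2)
      rw [Finset.sum_insert hi]
      calc (c + ((kk ω (s i) : ℝ≥0∞) + ∑ j ∈ S, (kk ω (s j) : ℝ≥0∞))) ^ 2
          = ((kk ω (s i) : ℝ≥0∞) + (c + ∑ j ∈ S, (kk ω (s j) : ℝ≥0∞))) ^ 2 := by ring
        _ ≤ _ := add_sq_le_ennreal _ _
    refine ne_top_of_le_ne_top ?_ h1
    have hm2 : Measurable (fun ω : Idx → Bool => (c + ∑ j ∈ S, (kk ω (s j) : ℝ≥0∞)) ^ 2) :=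
      (measurable_const.add (Finset.measurable_fun_sum _ fun j _ => hm j)).pow_const 2
    have hm3 : Measurable (fun ω : Idx → Bool => (kk ω (s i) : ℝ≥0∞) ^ 2) := (hm i).pow_const 2
    have hm4 : Measurable (fun ω : Idx → Bool => (kk ω (s i) : ℝ≥0∞) ^ 2
      + (c + ∑ j ∈ S, (kk ω (s j) : ℝ≥0∞)) ^ 2) := hm3.add hm2
    rw [lintegral_const_mul 4 hm4, lintegral_add_left hm3]
    refine ENNReal.mul_ne_top (by norm_num) (ENNReal.add_ne_top.mpr ⟨?_, ih⟩)
    obtain ⟨C, hC⟩ := moment_kE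
    refine ne_top_of_le_ne_top ENNReal.ofReal_ne_top (le_trans (le_of_eq ?_) (hC (s i)).2)
    apply lintegral_congr_ae
    filter_upwards [kk_eq_kE] with ω hω
    rw [hω]

lemma finite_face_v (v : V1) : {F : Face | v ∈ F.e}.Finite := by
  have h1 : (HG.neighborSet v).Finite :=
    Set.finite_of_ncard_ne_zero (by rw [ncard_nbr]; norm_num)
  refine (h1.biUnion (t := fun w => {F : Face | F.e = s(v, w)}) fun w hw => ?_).subset ?_
  · exact Set.finite_of_ncard_ne_zero (by rw [ncard_face_edge (show s(v, w) ∈ HG.edgeSet from hw)]; norm_num)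
  · intro F hF
    obtain ⟨w, hw⟩ := Sym2.mem_iff_exists.mp (show v ∈ F.e from hF)
    exact Set.mem_biUnion (fl_of_face hw).1 hw

lemma finite_face_u (u : V2) : {F : Face | F.u = u}.Finite := by
  have h1 : {v : V1 | NN v u = 1}.Finite :=
    Set.finite_of_ncard_ne_zero (by rw [ncard_nbr21]; norm_num)
  refine (h1.biUnion (t := fun v => {F : Face | F.u = u ∧ v ∈ F.e}) fun v hv => ?_).subset ?_
  · exact Set.finite_of_ncard_ne_zero (by rw [ncard_face_vu hv]; norm_num)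
  · intro F hF
    obtain ⟨v, hv⟩ := exists_mem_e F
    have := F.hu v hv
    rw [show F.u = u from hF] at this
    exact Set.mem_biUnion (show v ∈ {v : V1 | NN v u = 1} from this) ⟨hF, hv⟩

lemma deg_t_le (k : Sym2 V1 → ℕ) (j : ℕ) : ((GX k).neighborSet (VX.t F0 j)).encard ≤ 5 := by
  have hsub : (GX k).neighborSet (VX.t F0 j) ⊆
      {VX.p o, VX.p w0, VX.q u0, VX.t F0 (j + 1), VX.t F0 (j - 1)} := by
    intro y hy
    have hy' : adjX k (VX.t F0 j) y := hy
    simp only [Set.mem_insert_iff, Set.mem_singleton_iff]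
    cases y with
    | p v =>
      have h2 : v ∈ s(o, w0) := hy'.2
      rcases Sym2.mem_iff.mp h2 with rfl | rfl <;> simp
    | q u =>
      have h2 : u = u0 := hy'.2.2
      rw [h2]; simp
    | t F i =>
      obtain ⟨h1, h2, -, -⟩ := hy'
      subst h1
      rcases h2 with h2 | h2
      · have : i = j - 1 := by omega
        rw [this]; simp
      · rw [h2]; simp
  refine (Set.encard_le_encard hsub).trans ?_
  refine (Set.encard_insert_le _ _).trans ?_
  refine (add_le_add_left ((Set.encard_insert_le _ _).trans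
    (add_le_add_left ((Set.encard_insert_le _ _).trans
    (add_le_add_left ((Set.encard_insert_le _ _).trans
    (add_le_add_left (Set.encard_singleton _).le _)) _)) _)) _).trans ?_
  norm_num

lemma deg_q_le (k : Sym2 V1 → ℕ) (u : V2) : ((GX k).neighborSet (VX.q u)).encard ≤
    ((6 + (finite_face_u u).toFinset.card : ℕ) : ℕ∞) := by
  have hsub : (GX k).neighborSet (VX.q u) ⊆
      VX.p '' {v : V1 | NN v u = 1} ∪ (fun F => VX.t F 0) '' {F : Face | F.u = u} := by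
    intro y hy
    have hy' : adjX k (VX.q u) y := hy
    cases y with
    | p v => exact Or.inl ⟨v, hy', rfl⟩
    | q u' => exact hy'.elim
    | t F i =>
      obtain ⟨h1, h2, h3⟩ := hy'
      exact Or.inr ⟨F, h3.symm, by rw [h1]⟩
  refine (Set.encard_le_encard hsub).trans ((Set.encard_union_le _ _).trans ?_)
  push_cast
  have h1 : {v : V1 | NN v u = 1}.Finite :=
    Set.finite_of_ncard_ne_zero (by rw [ncard_nbr21]; norm_num)
  refine add_le_add ((Set.encard_image_le _ _).trans ?_) ((Set.encard_image_le _ _).trans ?_)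
  · rw [← h1.cast_ncard_eq, ncard_nbr21]
    norm_num
  · rw [(finite_face_u u).encard_eq_coe_toFinset_card]

lemma deg_p_le (k : Sym2 V1 → ℕ) (v : V1) : ((GX k).neighborSet (VX.p v)).encard ≤
    ((8 + ∑ F ∈ (finite_face_v v).toFinset, k F.e : ℕ) : ℕ∞) := by
  classical
  have hsub : (GX k).neighborSet (VX.p v) ⊆
      (VX.p '' (HG.neighborSet v) ∪ VX.q '' {u : V2 | NN v u = 1}) ∪
        (((finite_face_v v).toFinset.biUnion fun F => (Finset.range (k F.e)).image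
          (fun j => VX.t F j) : Finset VX) : Set VX) := by
    intro y hy
    have hy' : adjX k (VX.p v) y := hy
    cases y with
    | p w => exact Or.inl (Or.inl ⟨w, hy', rfl⟩)
    | q u => exact Or.inl (Or.inr ⟨u, hy', rfl⟩)
    | t F i =>
      obtain ⟨h1, h2⟩ := hy'
      right
      exact Finset.mem_coe.mpr (Finset.mem_biUnion.mpr ⟨F, (Set.Finite.mem_toFinset _).mpr h2,
        Finset.mem_image.mpr ⟨i, Finset.mem_range.mpr h1, rfl⟩⟩)
  refine (Set.encard_le_encard hsub).trans ((Set.encard_union_le _ _).trans ?_)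
  have h1 : (HG.neighborSet v).Finite :=
    Set.finite_of_ncard_ne_zero (by rw [ncard_nbr]; norm_num)
  have h2 : {u : V2 | NN v u = 1}.Finite :=
    Set.finite_of_ncard_ne_zero (by rw [ncard_nbr2]; norm_num)
  have h3 : (VX.p '' (HG.neighborSet v) ∪ VX.q '' {u : V2 | NN v u = 1}).encard ≤ 8 := by
    refine (Set.encard_union_le _ _).trans ((add_le_add (Set.encard_image_le _ _)
      (Set.encard_image_le _ _)).trans ?_)
    rw [← h1.cast_ncard_eq, ← h2.cast_ncard_eq, ncard_nbr, ncard_nbr2]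
    norm_num
  rw [Nat.cast_add]
  refine add_le_add h3 ?_
  rw [Set.encard_coe_eq_coe_finsetCard]
  refine Nat.cast_le.mpr (Finset.card_biUnion_le.trans (Finset.sum_le_sum fun F _ => ?_))
  exact Finset.card_image_le.trans (le_of_eq (Finset.card_range _))

/-- measurable upper bound of the square of the degree of the root -/
noncomputable def degB (ω : Idx → Bool) : ℕ → ℝ≥0∞
  | 0 => (8 + ∑ F ∈ (finite_face_v o).toFinset, (kk ω F.e : ℝ≥0∞)) ^ 2
  | 1 => ((6 + (finite_face_u u0).toFinset.card : ℕ) : ℝ≥0∞) ^ 2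
  | (_ + 2) => 25

lemma deg_le_degB (ω : Idx → Bool) (j : ℕ) :
    (((GX (kk ω)).neighborSet (root j)).encard : ℝ≥0∞) ^ 2 ≤ degB ω j := by
  match j with
  | 0 =>
    have h := deg_p_le (kk ω) o
    have h' := ENat.toENNReal_le.mpr h
    show (((GX (kk ω)).neighborSet (VX.p o)).encard : ℝ≥0∞) ^ 2 ≤
      (8 + ∑ F ∈ (finite_face_v o).toFinset, (kk ω F.e : ℝ≥0∞)) ^ 2
    refine pow_le_pow_left' (h'.trans (le_of_eq ?_)) 2
    rw [ENat.toENNReal_coe]
    push_cast
    rfl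
  | 1 =>
    have h := deg_q_le (kk ω) u0
    have h' := ENat.toENNReal_le.mpr h
    show (((GX (kk ω)).neighborSet (VX.q u0)).encard : ℝ≥0∞) ^ 2 ≤
      ((6 + (finite_face_u u0).toFinset.card : ℕ) : ℝ≥0∞) ^ 2
    refine pow_le_pow_left' (h'.trans (le_of_eq ?_)) 2
    push_cast
    rfl
  | (j + 2) =>
    have h := deg_t_le (kk ω) j
    have h' := ENat.toENNReal_le.mpr h
    show (((GX (kk ω)).neighborSet (VX.t F0 j)).encard : ℝ≥0∞) ^ 2 ≤ 25
    refine (pow_le_pow_left' h' 2).trans (le_of_eq ?_)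
    have : ((5 : ℕ∞) : ℝ≥0∞) = 5 := rfl
    rw [this]
    norm_num

lemma measurable_degB (j : ℕ) : Measurable (fun ω => degB ω j) := by
  match j with
  | 0 =>
    have hm : ∀ F ∈ (finite_face_v o).toFinset,
        Measurable (fun ω : Idx → Bool => (kk ω F.e : ℝ≥0∞)) := fun F _ =>
      measurable_from_nat.comp (measurable_kk F.e)
    have hs : Measurable (fun ω : Idx → Bool =>
        ∑ F ∈ (finite_face_v o).toFinset, (kk ω F.e : ℝ≥0∞)) := Finset.measurable_fun_sum _ hm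
    exact (measurable_const.add hs).pow_const 2
  | 1 => exact measurable_const
  | (j + 2) => exact measurable_const

theorem deg_sq : ∫⁻ p, (((GX (kk p.1)).neighborSet (root p.2)).encard : ℝ≥0∞) ^ 2 ∂muR < ∞ := by
  classical
  have e1 : ∫⁻ p, degB p.1 p.2 ∂mu0 = 1 / 8 * ∫⁻ ω, degB ω 0 ∂PP + (1 / 12 * ∫⁻ ω, degB ω 1 ∂PP
      + 1 / 2 * (25 * ∫⁻ ω, kE ω F0.e ∂PP)) := by
    rw [lintegral_mu0_split degB measurable_degB, ← tsum_lt_kk]
    rfl
  have h0 : ∫⁻ ω, degB ω 0 ∂PP ≠ ∞ := sum_sq_ne_top _ 8 (by norm_num) (fun F : Face => F.e)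
  have h1 : ∫⁻ ω, degB ω 1 ∂PP ≠ ∞ := by
    have : ∫⁻ ω, degB ω 1 ∂PP
        = ∫⁻ _, ((6 + (finite_face_u u0).toFinset.card : ℕ) : ℝ≥0∞) ^ 2 ∂PP := rfl
    rw [this, lintegral_const, measure_univ, mul_one]
    exact ENNReal.pow_ne_top (ENNReal.natCast_ne_top _)
  have h2 := lintegral_kE_ne_top F0.e
  have e2 : ∫⁻ p, degB p.1 p.2 ∂mu0 ≠ ∞ := by
    rw [e1]
    refine ENNReal.add_ne_top.mpr ⟨ENNReal.mul_ne_top ?_ h0, ENNReal.add_ne_top.mpr
      ⟨ENNReal.mul_ne_top ?_ h1, ENNReal.mul_ne_top ?_ (ENNReal.mul_ne_top ?_ h2)⟩⟩ <;> norm_num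
  have e3 : ∫⁻ p, (((GX (kk p.1)).neighborSet (root p.2)).encard : ℝ≥0∞) ^ 2 ∂mu0
      ≤ ∫⁻ p, degB p.1 p.2 ∂mu0 := lintegral_mono (fun p => deg_le_degB p.1 p.2)
  unfold muR
  rw [lintegral_smul_measure, smul_eq_mul]
  exact ENNReal.mul_lt_top (ENNReal.inv_lt_top.mpr (pos_iff_ne_zero.mpr mu0_ne_zero))
    (e3.trans_lt (lt_top_iff_ne_top.mpr e2))

end HExit
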