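import Pool.Agent.HExit.Defs

/-!
# HExit: packed triangulations of the disc are locally finite, connected and one-ended
-/

open MeasureTheory ProbabilityTheory Filter Topology
open scoped ENNReal

namespace HExit

/-! ### triangles in the plane -/

/-- membership in a triangle by barycentric coordinates -/
lemma oe_mem_tri {A B C x : ℂ} : x ∈ convexHull ℝ {A, B, C} ↔
    ∃ a b c : ℝ, 0 ≤ a ∧ 0 ≤ b ∧ 0 ≤ c ∧ a + b + c = 1 ∧ (a : ℂ) * A + b * B + c * C = x := by
  constructor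
  · intro hx
    rw [convexHull_insert (by simp), mem_convexJoin] at hx
    obtain ⟨A', hA', y, hy, hx⟩ := hx
    rw [Set.mem_singleton_iff] at hA'
    subst hA'
    rw [convexHull_pair] at hy
    obtain ⟨s, t, hs, ht, hst, rfl⟩ := hy
    obtain ⟨s', t', hs', ht', hst', rfl⟩ := hx
    refine ⟨s', t' * s, t' * t, hs', by positivity, by positivity, ?_, ?_⟩
    · have : t' * s + t' * t = t' := by rw [← mul_add, hst, mul_one]
      linarith
    · simp only [Complex.real_smul]
      push_cast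
      ring
  · rintro ⟨a, b, c, ha, hb, hc, habc, rfl⟩
    have hA : A ∈ convexHull ℝ {A, B, C} := subset_convexHull ℝ _ (by simp)
    have hB : B ∈ convexHull ℝ {A, B, C} := subset_convexHull ℝ _ (by simp)
    have hC : C ∈ convexHull ℝ {A, B, C} := subset_convexHull ℝ _ (by simp)
    have hconv := convex_convexHull ℝ {A, B, C}
    rcases eq_or_lt_of_le hc with hc0 | hc0
    · have := hconv hA hB ha hb (by linarith)
      rw [← hc0]
      simpa [Complex.real_smul] using this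
    · by_cases hab : a + b = 0
      · have ha0 : a = 0 := by linarith
        have hb0 : b = 0 := by linarith
        have hc1 : c = 1 := by linarith
        rw [ha0, hb0, hc1]
        simpa using hC
      · have hab' : 0 < a + b := lt_of_le_of_ne (by linarith) (Ne.symm hab)
        have h1 := hconv hA hB (a := a / (a + b)) (b := b / (a + b)) (by positivity) (by positivity)
          (by field_simp)
        have h2 := hconv h1 hC (a := a + b) (b := c) (by linarith) hc (by linarith)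
        have h3 : (a + b) • ((a / (a + b)) • A + (b / (a + b)) • B) + c • C
            = (a : ℂ) * A + b * B + c * C := by
          simp only [Complex.real_smul]
          have : (a : ℂ) + b ≠ 0 := by exact_mod_cast hab
          push_cast
          field_simp
        rwa [h3] at h2

/-- twice the signed area -/
noncomputable def oe_cr (u v : ℂ) : ℝ := u.re * v.im - u.im * v.re

/-- a segment which leaves a triangle crosses one of its sides -/
lemma oe_exit {A B C p q : ℂ} (hD : oe_cr (B - A) (C - A) ≠ 0) (hp : p ∈ convexHull ℝ {A, B, C})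
    (hq : q ∉ convexHull ℝ {A, B, C}) : ∃ y ∈ segment ℝ p q,
      y ∈ segment ℝ A B ∨ y ∈ segment ℝ B C ∨ y ∈ segment ℝ A C := by
  set D := oe_cr (B - A) (C - A) with hDdef
  let cA : ℂ → ℝ := fun x => oe_cr (B - x) (C - x) / D
  let cB : ℂ → ℝ := fun x => oe_cr (C - x) (A - x) / D
  let cC : ℂ → ℝ := fun x => oe_cr (A - x) (B - x) / D
  have hsum : ∀ x, cA x + cB x + cC x = 1 := by
    intro x
    simp only [cA, cB, cC, ← add_div]
    rw [div_eq_one_iff_eq hD]
    simp only [D, oe_cr, Complex.sub_re, Complex.sub_im]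
    ring
  have hrep : ∀ x, (cA x : ℂ) * A + cB x * B + cC x * C = x := by
    intro x
    apply Complex.ext
    · simp only [cA, cB, cC, Complex.add_re, Complex.re_ofReal_mul]
      field_simp
      simp only [D, oe_cr, Complex.sub_re, Complex.sub_im]
      ring
    · simp only [cA, cB, cC, Complex.add_im, Complex.im_ofReal_mul]
      field_simp
      simp only [D, oe_cr, Complex.sub_re, Complex.sub_im]
      ring
  have hcA : Continuous cA := by
    simp only [cA, oe_cr]
    fun_prop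
  have hcB : Continuous cB := by
    simp only [cB, oe_cr]
    fun_prop
  have hcC : Continuous cC := by
    simp only [cC, oe_cr]
    fun_prop
  -- coordinates of points of the triangle
  have hpos : ∀ x ∈ convexHull ℝ {A, B, C}, 0 ≤ cA x ∧ 0 ≤ cB x ∧ 0 ≤ cC x := by
    intro x hx
    obtain ⟨a, b, c, ha, hb, hc, habc, rfl⟩ := oe_mem_tri.mp hx
    have hc' : c = 1 - a - b := by linarith
    have e1 : oe_cr (B - ((a : ℂ) * A + b * B + c * C)) (C - ((a : ℂ) * A + b * B + c * C))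
        = a * D := by
      subst hc'
      simp only [D, oe_cr, Complex.sub_re, Complex.sub_im, Complex.add_re, Complex.add_im,
        Complex.re_ofReal_mul, Complex.im_ofReal_mul]
      ring
    have e2 : oe_cr (C - ((a : ℂ) * A + b * B + c * C)) (A - ((a : ℂ) * A + b * B + c * C))
        = b * D := by
      subst hc'
      simp only [D, oe_cr, Complex.sub_re, Complex.sub_im, Complex.add_re, Complex.add_im,
        Complex.re_ofReal_mul, Complex.im_ofReal_mul]
      ring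
    have e3 : oe_cr (A - ((a : ℂ) * A + b * B + c * C)) (B - ((a : ℂ) * A + b * B + c * C))
        = c * D := by
      subst hc'
      simp only [D, oe_cr, Complex.sub_re, Complex.sub_im, Complex.add_re, Complex.add_im,
        Complex.re_ofReal_mul, Complex.im_ofReal_mul]
      ring
    simp only [cA, cB, cC, e1, e2, e3, mul_div_cancel_right₀ _ hD]
    exact ⟨ha, hb, hc⟩
  let f : ℝ → ℝ := fun t => min (cA (p + t * (q - p))) (min (cB (p + t * (q - p)))
    (cC (p + t * (q - p))))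
  have hf : Continuous f := by
    simp only [f]
    fun_prop
  have hf0 : 0 ≤ f 0 := by
    simp only [f]
    obtain ⟨h1, h2, h3⟩ := hpos p hp
    simp only [Complex.ofReal_zero, zero_mul, add_zero]
    exact le_min h1 (le_min h2 h3)
  have hf1 : f 1 ≤ 0 := by
    by_contra hc
    push Not at hc
    simp only [f, Complex.ofReal_one, one_mul, add_sub_cancel] at hc
    rw [lt_min_iff, lt_min_iff] at hc
    exact hq (oe_mem_tri.mpr ⟨cA q, cB q, cC q, hc.1.le, hc.2.1.le, hc.2.2.le, hsum q, hrep q⟩)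
  obtain ⟨t, ht, hft⟩ := intermediate_value_Icc' (zero_le_one' ℝ) hf.continuousOn
    (show (0 : ℝ) ∈ Set.Icc (f 1) (f 0) from ⟨hf1, hf0⟩)
  set y : ℂ := p + t * (q - p) with hy
  have hft' : min (cA y) (min (cB y) (cC y)) = 0 := hft
  have hA0 : 0 ≤ cA y := by rw [← hft']; exact min_le_left _ _
  have hB0 : 0 ≤ cB y := by
    rw [← hft']; exact (min_le_right _ _).trans (min_le_left _ _)
  have hC0 : 0 ≤ cC y := by
    rw [← hft']; exact (min_le_right _ _).trans (min_le_right _ _)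
  have hs := hsum y
  have hr := hrep y
  refine ⟨y, ?_, ?_⟩
  · refine ⟨1 - t, t, by linarith [ht.2], ht.1, by ring, ?_⟩
    simp only [Complex.real_smul, hy]
    push_cast
    ring
  · have hor : cA y = 0 ∨ cB y = 0 ∨ cC y = 0 := by
      rcases min_choice (cA y) (min (cB y) (cC y)) with h | h
      · left; rw [← h]; exact hft'
      · rw [h] at hft'
        rcases min_choice (cB y) (cC y) with h' | h'
        · right; left; rw [← h']; exact hft'
        · right; right; rw [← h']; exact hft'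
    rcases hor with h | h | h
    · right; left
      refine ⟨cB y, cC y, hB0, hC0, by rw [h] at hs; linarith, ?_⟩
      rw [h] at hr
      simpa [Complex.real_smul] using hr
    · right; right
      refine ⟨cA y, cC y, hA0, hC0, by rw [h] at hs; linarith, ?_⟩
      rw [h] at hr
      simpa [Complex.real_smul] using hr
    · left
      refine ⟨cA y, cB y, hA0, hB0, by rw [h] at hs; linarith, ?_⟩
      rw [h] at hr
      simpa [Complex.real_smul] using hr

/-! ### packings -/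

namespace IsDiscPacking

variable {V : Type*} {S : Set V} {G : SimpleGraph V} {z : V → ℂ} {r : V → ℝ}

lemma oe_supp' (h : IsDiscPacking S G z r) {x y : V} (hxy : G.Adj x y) : x ∈ S ∧ y ∈ S :=
  ⟨h.supp x y hxy, h.supp y x hxy.symm⟩

lemma oe_dist (h : IsDiscPacking S G z r) {x y : V} (hxy : G.Adj x y) :
    ‖z x - z y‖ = r x + r y :=
  (h.adj x (h.supp x y hxy) y (h.supp y x hxy.symm) hxy.ne).mp hxy

/-- neighbours are bounded away from the unit circle -/
lemma oe_nbr_norm (h : IsDiscPacking S G z r) {x y : V} (hxy : G.Adj x y) :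
    ‖z y‖ ≤ (1 + (‖z x‖ + r x)) / 2 := by
  obtain ⟨hx, hy⟩ := h.oe_supp' hxy
  have h1 := h.oe_dist hxy
  have h2 := h.inside y hy
  have h3 : ‖z y‖ ≤ ‖z x‖ + ‖z x - z y‖ := by
    have := norm_sub_le (z x) (z x - z y)
    simpa using this
  linarith

theorem finite_nbr (h : IsDiscPacking S G z r) (x : V) : (G.neighborSet x).Finite := by
  by_cases hx : x ∈ S
  · have h1 := h.inside x hx
    refine (h.locfin ((1 + (‖z x‖ + r x)) / 2) (by linarith)).subset ?_
    intro y hy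
    exact ⟨(h.oe_supp' hy).2, h.oe_nbr_norm hy⟩
  · have : G.neighborSet x = ∅ := by
      ext y
      simp only [SimpleGraph.mem_neighborSet, Set.mem_empty_iff_false, iff_false]
      exact fun hxy => hx (h.supp x y hxy)
    rw [this]
    exact Set.finite_empty

/-- triangles are not degenerate -/
lemma oe_nondeg (h : IsDiscPacking S G z r) {a b c : V} (hab : G.Adj a b) (hbc : G.Adj b c)
    (hac : G.Adj a c) : oe_cr (z b - z a) (z c - z a) ≠ 0 := by
  intro h0
  have ra := h.pos a (h.oe_supp' hab).1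
  have rb := h.pos b (h.oe_supp' hab).2
  have rc := h.pos c (h.oe_supp' hac).2
  have e1 : ‖z b - z a‖ = r a + r b := by rw [norm_sub_rev]; exact h.oe_dist hab
  have e2 : ‖z c - z a‖ = r a + r c := by rw [norm_sub_rev]; exact h.oe_dist hac
  have e3 : ‖(z b - z a) - (z c - z a)‖ = r b + r c := by
    rw [sub_sub_sub_cancel_right]; exact h.oe_dist hbc
  generalize z b - z a = u at h0 e1 e3
  generalize z c - z a = v at h0 e2 e3
  have f1 : u.re ^ 2 + u.im ^ 2 = (r a + r b) ^ 2 := by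
    rw [← e1, ← Complex.normSq_eq_norm_sq, Complex.normSq_apply]; ring
  have f2 : v.re ^ 2 + v.im ^ 2 = (r a + r c) ^ 2 := by
    rw [← e2, ← Complex.normSq_eq_norm_sq, Complex.normSq_apply]; ring
  have f3 : (u.re - v.re) ^ 2 + (u.im - v.im) ^ 2 = (r b + r c) ^ 2 := by
    rw [← e3, ← Complex.normSq_eq_norm_sq, Complex.normSq_apply, Complex.sub_re, Complex.sub_im]
    ring
  have f4 : 2 * (u.re * v.re + u.im * v.im) = (r a + r b) ^ 2 + (r a + r c) ^ 2 - (r b + r c) ^ 2 := by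
    linarith
  have f5 : u.re * v.im - u.im * v.re = 0 := h0
  have f6 : (2 * (u.re * v.re + u.im * v.im)) ^ 2 = 4 * (r a + r b) ^ 2 * (r a + r c) ^ 2 := by
    rw [← f1, ← f2]
    linear_combination (-4) * (u.re * v.im - u.im * v.re) * f5
  rw [f4] at f6
  have f7 : r a * r b * r c * (r a + r b + r c) = 0 := by
    linear_combination (-1 / 16) * f6
  have f8 : 0 < r a * r b * r c * (r a + r b + r c) := by positivity
  linarith

/-- a point of a closed disc of the packing on a side of a triangle -/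
lemma oe_side (h : IsDiscPacking S G z r) {a b x : V} (hab : G.Adj a b) (hx : x ∈ S) {y : ℂ}
    (hy : y ∈ segment ℝ (z a) (z b)) (hyx : ‖y - z x‖ ≤ r x) :
    (x = a ∨ G.Adj x a) ∨ (x = b ∨ G.Adj x b) := by
  have e1 : dist (z a) y + dist y (z b) = dist (z a) (z b) :=
    dist_add_dist_of_mem_segment hy
  rw [dist_eq_norm, dist_eq_norm, dist_eq_norm, h.oe_dist hab] at e1
  have key : ∀ c : V, c ∈ S → ‖y - z c‖ ≤ r c → x = c ∨ G.Adj x c := by
    intro c hc hyc
    by_cases hxc : x = c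
    · exact Or.inl hxc
    · right
      rw [h.adj x hx c hc hxc]
      apply le_antisymm _ (h.sep x hx c hc hxc)
      have : z x - z c = (y - z c) - (y - z x) := by ring
      rw [this]
      exact (norm_sub_le _ _).trans (by linarith)
  obtain ⟨ha, hb⟩ := h.oe_supp' hab
  by_cases h1 : ‖z a - y‖ ≤ r a
  · left; exact key a ha (by rw [norm_sub_rev]; exact h1)
  · right; exact key b hb (by linarith)

end IsDiscPacking

/-- covering triangles -/
structure OeTri {V : Type*} (S : Set V) (G : SimpleGraph V) (z : V → ℂ) (a b c : V) : Prop where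
  ab : G.Adj a b
  bc : G.Adj b c
  ac : G.Adj a c
  emp : ∀ x ∈ S, z x ∈ convexHull ℝ {z a, z b, z c} → x = a ∨ x = b ∨ x = c

namespace IsDiscPacking

variable {V : Type*} {S : Set V} {G : SimpleGraph V} {z : V → ℂ} {r : V → ℝ}

/-- (L1) a closed disc of the packing which meets a covering triangle -/
lemma oe_L1 (h : IsDiscPacking S G z r) {a b c x : V} (ht : OeTri S G z a b c) (hx : x ∈ S)
    {p : ℂ} (hp : p ∈ convexHull ℝ {z a, z b, z c}) (hpx : ‖p - z x‖ ≤ r x) :
    (x = a ∨ G.Adj x a) ∨ (x = b ∨ G.Adj x b) ∨ (x = c ∨ G.Adj x c) := by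
  by_cases hz : z x ∈ convexHull ℝ {z a, z b, z c}
  · rcases ht.emp x hx hz with h1 | h1 | h1
    · exact Or.inl (Or.inl h1)
    · exact Or.inr (Or.inl (Or.inl h1))
    · exact Or.inr (Or.inr (Or.inl h1))
  · obtain ⟨y, hy, hys⟩ := oe_exit (h.oe_nondeg ht.ab ht.bc ht.ac) hp hz
    have hyx : ‖y - z x‖ ≤ r x := by
      obtain ⟨s, t, hs, ht', hst, rfl⟩ := hy
      have : s • p + t • z x - z x = s • (p - z x) := by
        have h1 : t = 1 - s := by linarith
        rw [h1]
        simp only [Complex.real_smul]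
        push_cast
        ring
      rw [this, norm_smul, Real.norm_of_nonneg hs]
      have := norm_nonneg (p - z x)
      nlinarith
    rcases hys with h1 | h1 | h1
    · rcases h.oe_side ht.ab hx h1 hyx with h2 | h2
      · exact Or.inl h2
      · exact Or.inr (Or.inl h2)
    · rcases h.oe_side ht.bc hx h1 hyx with h2 | h2
      · exact Or.inr (Or.inl h2)
      · exact Or.inr (Or.inr h2)
    · rcases h.oe_side ht.ac hx h1 hyx with h2 | h2
      · exact Or.inl h2
      · exact Or.inr (Or.inr h2)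

/-- a point of a side of a triangle belongs to a closed disc of an endpoint -/
lemma oe_side' (h : IsDiscPacking S G z r) {a b : V} (hab : G.Adj a b) {y : ℂ}
    (hy : y ∈ segment ℝ (z a) (z b)) : ‖y - z a‖ ≤ r a ∨ ‖y - z b‖ ≤ r b := by
  have e1 : dist (z a) y + dist y (z b) = dist (z a) (z b) :=
    dist_add_dist_of_mem_segment hy
  rw [dist_eq_norm, dist_eq_norm, dist_eq_norm, h.oe_dist hab, norm_sub_rev] at e1
  by_cases h1 : ‖y - z a‖ ≤ r a
  · exact Or.inl h1
  · right; linarith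

/-- (L) two covering triangles which meet -/
lemma oe_L (h : IsDiscPacking S G z r) {a b c a' b' c' : V} (ht : OeTri S G z a b c)
    (ht' : OeTri S G z a' b' c') {p : ℂ} (hp : p ∈ convexHull ℝ {z a, z b, z c})
    (hp' : p ∈ convexHull ℝ {z a', z b', z c'}) :
    ∃ x y : V, (x = a ∨ x = b ∨ x = c) ∧ (y = a' ∨ y = b' ∨ y = c') ∧ (x = y ∨ G.Adj x y) := by
  by_cases hz : z a ∈ convexHull ℝ {z a', z b', z c'}
  · rcases ht'.emp a (h.oe_supp' ht.ab).1 hz with h1 | h1 | h1
    · exact ⟨a, a', Or.inl rfl, Or.inl rfl, Or.inl h1⟩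
    · exact ⟨a, b', Or.inl rfl, Or.inr (Or.inl rfl), Or.inl h1⟩
    · exact ⟨a, c', Or.inl rfl, Or.inr (Or.inr rfl), Or.inl h1⟩
  · obtain ⟨y, hy, hys⟩ := oe_exit (h.oe_nondeg ht'.ab ht'.bc ht'.ac) hp' hz
    have hyt : y ∈ convexHull ℝ {z a, z b, z c} :=
      (convex_convexHull ℝ _).segment_subset hp (subset_convexHull ℝ _ (by simp)) hy
    have key : ∀ v : V, v ∈ S → (v = a' ∨ v = b' ∨ v = c') → ‖y - z v‖ ≤ r v →
        ∃ x y : V, (x = a ∨ x = b ∨ x = c) ∧ (y = a' ∨ y = b' ∨ y = c') ∧ (x = y ∨ G.Adj x y) := by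
      intro v hv hv' hyv
      rcases h.oe_L1 ht hv hyt hyv with h1 | h1 | h1
      · exact ⟨a, v, Or.inl rfl, hv', h1.imp (fun h => h.symm) (fun h => h.symm)⟩
      · exact ⟨b, v, Or.inr (Or.inl rfl), hv', h1.imp (fun h => h.symm) (fun h => h.symm)⟩
      · exact ⟨c, v, Or.inr (Or.inr rfl), hv', h1.imp (fun h => h.symm) (fun h => h.symm)⟩
    have ha' := (h.oe_supp' ht'.ab).1
    have hb' := (h.oe_supp' ht'.ab).2
    have hc' := (h.oe_supp' ht'.ac).2
    rcases hys with h1 | h1 | h1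
    · rcases h.oe_side' ht'.ab h1 with h2 | h2
      · exact key a' ha' (Or.inl rfl) h2
      · exact key b' hb' (Or.inr (Or.inl rfl)) h2
    · rcases h.oe_side' ht'.bc h1 with h2 | h2
      · exact key b' hb' (Or.inr (Or.inl rfl)) h2
      · exact key c' hc' (Or.inr (Or.inr rfl)) h2
    · rcases h.oe_side' ht'.ac h1 with h2 | h2
      · exact key a' ha' (Or.inl rfl) h2
      · exact key c' hc' (Or.inr (Or.inr rfl)) h2

end IsDiscPacking

namespace IsDiscPacking

variable {V : Type*} {S : Set V} {G : SimpleGraph V} {z : V → ℂ} {r : V → ℝ}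

/-- a triangle which meets a smaller concentric disc has a vertex with centre in a smaller disc -/
lemma oe_vertex (h : IsDiscPacking S G z r) {a b c : V} (ht : OeTri S G z a b c) {p : ℂ}
    (hp : p ∈ convexHull ℝ {z a, z b, z c}) {ρ : ℝ} (hpρ : ‖p‖ ≤ ρ) :
    ‖z a‖ ≤ 1 - (1 - ρ) / 3 ∨ ‖z b‖ ≤ 1 - (1 - ρ) / 3 ∨ ‖z c‖ ≤ 1 - (1 - ρ) / 3 := by
  by_contra hcon
  push Not at hcon
  obtain ⟨h1, h2, h3⟩ := hcon
  have ia := h.inside a (h.oe_supp' ht.ab).1
  have ib := h.inside b (h.oe_supp' ht.ab).2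
  have ic := h.inside c (h.oe_supp' ht.ac).2
  have dab := h.oe_dist ht.ab
  have dac := h.oe_dist ht.ac
  obtain ⟨s, t, u, hs, ht', hu, hstu, rfl⟩ := oe_mem_tri.mp hp
  set p := (s : ℂ) * z a + t * z b + u * z c with hpdef
  have e1 : z a - p = (t : ℂ) * (z a - z b) + (u : ℂ) * (z a - z c) := by
    have : s = 1 - t - u := by linarith
    rw [hpdef, this]
    push_cast
    ring
  have e2 : ‖z a - p‖ ≤ t * (r a + r b) + u * (r a + r c) := by
    rw [e1]
    refine (norm_add_le _ _).trans ?_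
    rw [norm_mul, norm_mul, Complex.norm_of_nonneg ht', Complex.norm_of_nonneg hu, dab, dac]
  have e3 : ‖z a‖ ≤ ‖p‖ + ‖z a - p‖ := by
    have := norm_add_le p (z a - p)
    simpa using this
  have e4 : t * (r a + r b) ≤ t * (2 * ((1 - ρ) / 3)) :=
    mul_le_mul_of_nonneg_left (by linarith) ht'
  have e5 : u * (r a + r c) ≤ u * (2 * ((1 - ρ) / 3)) :=
    mul_le_mul_of_nonneg_left (by linarith) hu
  have e6 : (t + u) * (2 * ((1 - ρ) / 3)) ≤ 1 * (2 * ((1 - ρ) / 3)) := by
    apply mul_le_mul_of_nonneg_right (by linarith)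
    have := h.pos a (h.oe_supp' ht.ab).1
    linarith
  linarith

/-- only finitely many covering triangles meet a smaller concentric disc -/
lemma oe_finite_tri (h : IsDiscPacking S G z r) {ρ : ℝ} (hρ : ρ < 1) :
    {t : V × V × V | OeTri S G z t.1 t.2.1 t.2.2 ∧ ∃ p : ℂ, ‖p‖ ≤ ρ ∧
      p ∈ convexHull ℝ {z t.1, z t.2.1, z t.2.2}}.Finite := by
  set N : Set V := {x | x ∈ S ∧ ‖z x‖ ≤ 1 - (1 - ρ) / 3} with hN
  have hNf : N.Finite := h.locfin _ (by linarith)
  set M : Set V := N ∪ ⋃ x ∈ N, G.neighborSet x with hM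
  have hMf : M.Finite := hNf.union (hNf.biUnion fun x _ => h.finite_nbr x)
  refine (hMf.prod (hMf.prod hMf)).subset ?_
  rintro ⟨a, b, c⟩ ⟨ht, p, hp, hpt⟩
  simp only at ht hpt
  have ha := (h.oe_supp' ht.ab).1
  have hb := (h.oe_supp' ht.ab).2
  have hc := (h.oe_supp' ht.ac).2
  have hadj : ∀ x ∈ N, ∀ y, G.Adj x y → y ∈ M := by
    intro x hx y hxy
    right
    exact Set.mem_biUnion hx hxy
  rcases h.oe_vertex ht hpt hp with h1 | h1 | h1
  · exact ⟨Or.inl ⟨ha, h1⟩, hadj a ⟨ha, h1⟩ b ht.ab, hadj a ⟨ha, h1⟩ c ht.ac⟩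
  · exact ⟨hadj b ⟨hb, h1⟩ a ht.ab.symm, Or.inl ⟨hb, h1⟩, hadj b ⟨hb, h1⟩ c ht.bc⟩
  · exact ⟨hadj c ⟨hc, h1⟩ a ht.ac.symm, hadj c ⟨hc, h1⟩ b ht.bc.symm, Or.inl ⟨hc, h1⟩⟩

/-- `x` and `y` are joined outside `F` -/
def OeR (S : Set V) (G : SimpleGraph V) (F : Set V) (x y : V) : Prop :=
  ∃ (hx : x ∈ S \ F) (hy : y ∈ S \ F), (G.induce (S \ F)).Reachable ⟨x, hx⟩ ⟨y, hy⟩

lemma OeR.symm {F : Set V} {x y : V} (h : OeR S G F x y) : OeR S G F y x := by
  obtain ⟨hx, hy, hr⟩ := h
  exact ⟨hy, hx, hr.symm⟩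

lemma OeR.trans {F : Set V} {x y w : V} (h : OeR S G F x y) (h' : OeR S G F y w) :
    OeR S G F x w := by
  obtain ⟨hx, hy, hr⟩ := h
  obtain ⟨hy', hw, hr'⟩ := h'
  exact ⟨hx, hw, hr.trans hr'⟩

lemma OeR.of_adj {F : Set V} {x y : V} (hx : x ∈ S \ F) (hy : y ∈ S \ F) (h : x = y ∨ G.Adj x y) :
    OeR S G F x y := by
  refine ⟨hx, hy, ?_⟩
  rcases h with h | h
  · subst h; exact SimpleGraph.Reachable.refl _
  · apply SimpleGraph.Adj.reachable
    exact h

/-- the topological argument -/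
lemma oe_conn (h : IsDiscPacking S G z r) (F : Set V) (X : Set ℂ) (hX : IsPreconnected X)
    (hXD : ∀ p ∈ X, ‖p‖ < 1)
    (hav : ∀ p ∈ X, ∀ a b c, OeTri S G z a b c → p ∈ convexHull ℝ {z a, z b, z c} →
      a ∉ F ∧ b ∉ F ∧ c ∉ F) {p q : ℂ} (hp : p ∈ X) (hq : q ∈ X) {a b c a' b' c' : V}
    (ht : OeTri S G z a b c) (hpt : p ∈ convexHull ℝ {z a, z b, z c})
    (ht' : OeTri S G z a' b' c') (hqt : q ∈ convexHull ℝ {z a', z b', z c'}) :
    OeR S G F a a' := by
  -- all vertices of one triangle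
  have hin : ∀ p ∈ X, ∀ a b c, OeTri S G z a b c → p ∈ convexHull ℝ {z a, z b, z c} →
      ∀ x, (x = a ∨ x = b ∨ x = c) → OeR S G F a x := by
    intro p hp a b c ht hpt x hx
    obtain ⟨ha, hb, hc⟩ := hav p hp a b c ht hpt
    have sa := (h.oe_supp' ht.ab).1
    have sb := (h.oe_supp' ht.ab).2
    have sc := (h.oe_supp' ht.ac).2
    rcases hx with rfl | rfl | rfl
    · exact OeR.of_adj ⟨sa, ha⟩ ⟨sa, ha⟩ (Or.inl rfl)
    · exact OeR.of_adj ⟨sa, ha⟩ ⟨sb, hb⟩ (Or.inr ht.ab)
    · exact OeR.of_adj ⟨sa, ha⟩ ⟨sc, hc⟩ (Or.inr ht.ac)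
  -- triangles through the same point
  have hloc : ∀ p ∈ X, ∀ a b c a' b' c', OeTri S G z a b c → OeTri S G z a' b' c' →
      p ∈ convexHull ℝ {z a, z b, z c} → p ∈ convexHull ℝ {z a', z b', z c'} →
      ∀ q ∈ X, q ∈ convexHull ℝ {z a', z b', z c'} → OeR S G F a a' := by
    intro p hp a b c a' b' c' ht ht' hpt hpt' q hq hqt
    obtain ⟨x, y, hx, hy, hxy⟩ := h.oe_L ht ht' hpt hpt'
    have r1 := hin p hp a b c ht hpt x hx
    have r2 := hin p hp a' b' c' ht' hpt' y hy
    have r3 : OeR S G F x y := by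
      obtain ⟨-, hx', -⟩ := r1
      obtain ⟨-, hy', -⟩ := r2
      exact OeR.of_adj hx' hy' hxy
    exact (r1.trans r3).trans r2.symm
  let P : ℂ → ℂ → Prop := fun p q => ∀ a b c a' b' c', OeTri S G z a b c →
    p ∈ convexHull ℝ {z a, z b, z c} → OeTri S G z a' b' c' →
    q ∈ convexHull ℝ {z a', z b', z c'} → OeR S G F a a'
  have main : P p q := by
    refine hX.induction₂ P ?_ ?_ ?_ hp hq
    · intro x hx
      have hx1 := hXD x hx
      set ρ := (1 + ‖x‖) / 2 with hρ
      have hρ1 : ρ < 1 := by rw [hρ]; linarith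
      have hfin := h.oe_finite_tri hρ1
      set T := {t : V × V × V | OeTri S G z t.1 t.2.1 t.2.2 ∧ ∃ p : ℂ, ‖p‖ ≤ ρ ∧
        p ∈ convexHull ℝ {z t.1, z t.2.1, z t.2.2}} with hT
      set U : Set ℂ := ⋃ t ∈ {t ∈ T | x ∉ convexHull ℝ {z t.1, z t.2.1, z t.2.2}},
        convexHull ℝ {z t.1, z t.2.1, z t.2.2} with hU
      have hUc : IsClosed U := by
        apply (hfin.subset (Set.sep_subset _ _)).isClosed_biUnion
        intro t _
        exact Set.Finite.isClosed_convexHull ℝ (Set.toFinite _)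
      have hxU : x ∉ U := by
        rw [hU]
        simp only [Set.mem_iUnion, not_exists]
        rintro t ⟨_, ht⟩
        exact ht
      have h1 : ∀ᶠ y in 𝓝[X] x, y ∉ U := by
        apply nhdsWithin_le_nhds
        exact hUc.isOpen_compl.mem_nhds hxU
      have h2 : ∀ᶠ y in 𝓝[X] x, ‖y‖ < ρ := by
        apply nhdsWithin_le_nhds
        apply continuous_norm.continuousAt.eventually_lt continuousAt_const
        rw [hρ]; linarith
      filter_upwards [h1, h2, self_mem_nhdsWithin] with y hy1 hy2 hy3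
      intro a b c a' b' c' ht hpt ht' hqt
      have hx' : x ∈ convexHull ℝ {z a', z b', z c'} := by
        by_contra hc
        apply hy1
        rw [hU]
        simp only [Set.mem_iUnion]
        exact ⟨(a', b', c'), ⟨⟨ht', y, hy2.le, hqt⟩, hc⟩, hqt⟩
      exact hloc x hx a b c a' b' c' ht ht' hpt hx' y hy3 hqt
    · intro x y w hx hy hw hxy hyw a b c a' b' c' ht hpt ht' hqt
      obtain ⟨d, e, f, h1, h2, h3, h4, h5⟩ := h.cover y (hXD y hy)
      exact (hxy a b c d e f ht hpt ⟨h1, h2, h3, h5⟩ h4).trans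
        (hyw d e f a' b' c' ⟨h1, h2, h3, h5⟩ h4 ht' hqt)
    · intro x y hx hy hxy a b c a' b' c' ht hpt ht' hqt
      exact (hxy a' b' c' a b c ht' hqt ht hpt).symm
  exact main a b c a' b' c' ht hpt ht' hqt

end IsDiscPacking

/-- annuli are connected -/
lemma oe_annulus {ρ : ℝ} (hρ : 0 ≤ ρ) : IsPreconnected {p : ℂ | ρ < ‖p‖ ∧ ‖p‖ < 1} := by
  have h1 : {p : ℂ | ρ < ‖p‖ ∧ ‖p‖ < 1} =
      (fun x : ℝ × ℝ => (x.1 : ℂ) * Complex.exp (x.2 * Complex.I)) '' (Set.Ioo ρ 1 ×ˢ Set.univ) := by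
    ext p
    constructor
    · rintro ⟨h1, h2⟩
      exact ⟨(‖p‖, Complex.arg p), ⟨⟨h1, h2⟩, trivial⟩, Complex.norm_mul_exp_arg_mul_I p⟩
    · rintro ⟨⟨s, t⟩, ⟨⟨h1, h2⟩, -⟩, rfl⟩
      have h3 : ‖(s : ℂ) * Complex.exp (t * Complex.I)‖ = s := by
        rw [norm_mul, Complex.norm_exp_ofReal_mul_I, mul_one,
          Complex.norm_of_nonneg (by linarith)]
      show ρ < ‖(s : ℂ) * Complex.exp (t * Complex.I)‖ ∧ ‖(s : ℂ) * Complex.exp (t * Complex.I)‖ < 1
      rw [h3]
      exact ⟨h1, h2⟩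
  rw [h1]
  apply (isPreconnected_Ioo.prod isPreconnected_univ).image
  apply Continuous.continuousOn
  fun_prop

namespace IsDiscPacking

variable {V : Type*} {S : Set V} {G : SimpleGraph V} {z : V → ℂ} {r : V → ℝ}

/-- a covering triangle at a vertex -/
lemma oe_tri_at (h : IsDiscPacking S G z r) {x : V} (hx : x ∈ S) :
    ∃ a b c, OeTri S G z a b c ∧ z x ∈ convexHull ℝ {z a, z b, z c} ∧
      (x = a ∨ x = b ∨ x = c) := by
  have h0 := h.inside x hx
  have h1 := h.pos x hx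
  obtain ⟨a, b, c, h1, h2, h3, h4, h5⟩ := h.cover (z x) (by linarith)
  exact ⟨a, b, c, ⟨h1, h2, h3, h5⟩, h4, h5 x hx h4⟩

/-- the conclusion for vertices in `X` -/
lemma oe_conn' (h : IsDiscPacking S G z r) (F : Set V) (X : Set ℂ) (hX : IsPreconnected X)
    (hXD : ∀ p ∈ X, ‖p‖ < 1)
    (hav : ∀ p ∈ X, ∀ a b c, OeTri S G z a b c → p ∈ convexHull ℝ {z a, z b, z c} →
      a ∉ F ∧ b ∉ F ∧ c ∉ F) {x y : V} (hx : x ∈ S) (hy : y ∈ S) (hxX : z x ∈ X)
    (hyX : z y ∈ X) : OeR S G F x y := by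
  obtain ⟨a, b, c, ht, hp, hxa⟩ := h.oe_tri_at hx
  obtain ⟨a', b', c', ht', hp', hya⟩ := h.oe_tri_at hy
  have hin : ∀ p ∈ X, ∀ a b c, OeTri S G z a b c → p ∈ convexHull ℝ {z a, z b, z c} →
      ∀ x, (x = a ∨ x = b ∨ x = c) → OeR S G F a x := by
    intro p hp a b c ht hpt x hx
    obtain ⟨ha, hb, hc⟩ := hav p hp a b c ht hpt
    have sa := (h.oe_supp' ht.ab).1
    have sb := (h.oe_supp' ht.ab).2
    have sc := (h.oe_supp' ht.ac).2
    rcases hx with rfl | rfl | rfl
    · exact OeR.of_adj ⟨sa, ha⟩ ⟨sa, ha⟩ (Or.inl rfl)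
    · exact OeR.of_adj ⟨sa, ha⟩ ⟨sb, hb⟩ (Or.inr ht.ab)
    · exact OeR.of_adj ⟨sa, ha⟩ ⟨sc, hc⟩ (Or.inr ht.ac)
  exact ((hin _ hxX a b c ht hp x hxa).symm.trans
    (h.oe_conn F X hX hXD hav hxX hyX ht hp ht' hp')).trans (hin _ hyX a' b' c' ht' hp' y hya)

theorem reachable (h : IsDiscPacking S G z r) {x y : V} (hx : x ∈ S) (hy : y ∈ S) :
    G.Reachable x y := by
  have hX : IsPreconnected (Metric.ball (0 : ℂ) 1) := (convex_ball (0 : ℂ) 1).isPreconnected
  have hmem : ∀ x ∈ S, z x ∈ Metric.ball (0 : ℂ) 1 := by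
    intro x hx
    rw [mem_ball_zero_iff]
    have h0 := h.inside x hx
    have h1 := h.pos x hx
    linarith
  obtain ⟨hx', hy', hr⟩ := h.oe_conn' ∅ _ hX (fun p hp => mem_ball_zero_iff.mp hp)
    (fun p _ a b c _ _ => ⟨Set.notMem_empty _, Set.notMem_empty _, Set.notMem_empty _⟩)
    hx hy (hmem x hx) (hmem y hy)
  exact hr.map (SimpleGraph.Embedding.induce (S \ ∅)).toHom

/-- the vertex set is infinite -/
lemma oe_infinite (h : IsDiscPacking S G z r) : S.Infinite := by
  intro hfin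
  have h1 : ∃ ρ : ℝ, ρ < 1 ∧ 0 ≤ ρ ∧ ∀ x ∈ S, ‖z x‖ ≤ ρ := by
    rcases S.eq_empty_or_nonempty with h0 | h0
    · exact ⟨0, by norm_num, le_rfl, by simp [h0]⟩
    · obtain ⟨x, hx, hmax⟩ := hfin.exists_maximalFor (fun x => ‖z x‖) S h0
      refine ⟨‖z x‖, ?_, norm_nonneg _, ?_⟩
      · have := h.inside x hx
        have := h.pos x hx
        linarith
      · intro y hy
        by_contra hc
        push Not at hc
        exact absurd (hmax hy hc.le) (not_le.mpr hc)
  obtain ⟨ρ, hρ1, hρ0, hρ⟩ := h1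
  have hn : ‖(((1 + ρ) / 2 : ℝ) : ℂ)‖ = (1 + ρ) / 2 := Complex.norm_of_nonneg (by linarith)
  obtain ⟨a, b, c, h1, h2, h3, h4, -⟩ := h.cover (((1 + ρ) / 2 : ℝ) : ℂ) (by rw [hn]; linarith)
  have h5 : convexHull ℝ {z a, z b, z c} ⊆ Metric.closedBall (0 : ℂ) ρ := by
    apply convexHull_min _ (convex_closedBall _ _)
    intro w hw
    rw [mem_closedBall_zero_iff]
    simp only [Set.mem_insert_iff, Set.mem_singleton_iff] at hw
    rcases hw with rfl | rfl | rfl
    · exact hρ _ (h.oe_supp' h1).1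
    · exact hρ _ (h.oe_supp' h1).2
    · exact hρ _ (h.oe_supp' h2).2
  have h6 := h5 h4
  rw [mem_closedBall_zero_iff, hn] at h6
  linarith

theorem oneEnded (h : IsDiscPacking S G z r) : OneEnded S G := by
  intro F hF
  -- the radius
  have h1 : ∃ ρ : ℝ, ρ < 1 ∧ 0 ≤ ρ ∧ ∀ p : ℂ, ∀ a b c, OeTri S G z a b c →
      p ∈ convexHull ℝ {z a, z b, z c} → ρ < ‖p‖ → a ∉ F ∧ b ∉ F ∧ c ∉ F := by
    set M : Set V := (F ∩ S) ∪ ⋃ x ∈ F, G.neighborSet x with hM
    have hMf : M.Finite := (hF.subset Set.inter_subset_left).union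
      (hF.biUnion fun x _ => h.finite_nbr x)
    have hMS : M ⊆ S := by
      rintro x (hx | hx)
      · exact hx.2
      · simp only [Set.mem_iUnion] at hx
        obtain ⟨y, -, hy⟩ := hx
        exact (h.oe_supp' hy).2
    have h2 : ∃ ρ : ℝ, ρ < 1 ∧ 0 ≤ ρ ∧ ∀ x ∈ M, ‖z x‖ ≤ ρ := by
      rcases M.eq_empty_or_nonempty with h0 | h0
      · exact ⟨0, by norm_num, le_rfl, by simp [h0]⟩
      · obtain ⟨x, hx, hmax⟩ := hMf.exists_maximalFor (fun x => ‖z x‖) M h0
        refine ⟨‖z x‖, ?_, norm_nonneg _, ?_⟩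
        · have := h.inside x (hMS hx)
          have := h.pos x (hMS hx)
          linarith
        · intro y hy
          by_contra hc
          push Not at hc
          exact absurd (hmax hy hc.le) (not_le.mpr hc)
    obtain ⟨ρ, hρ1, hρ0, hρ⟩ := h2
    refine ⟨ρ, hρ1, hρ0, ?_⟩
    intro p a b c ht hp hpρ
    by_contra hcon
    have hex : a ∈ F ∨ b ∈ F ∨ c ∈ F := by tauto
    have sa := (h.oe_supp' ht.ab).1
    have sb := (h.oe_supp' ht.ab).2
    have sc := (h.oe_supp' ht.ac).2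
    have hadj : ∀ x ∈ F, ∀ y, G.Adj x y → y ∈ M := by
      intro x hx y hxy
      right
      exact Set.mem_biUnion hx hxy
    have hall : a ∈ M ∧ b ∈ M ∧ c ∈ M := by
      rcases hex with h1 | h1 | h1
      · exact ⟨Or.inl ⟨h1, sa⟩, hadj a h1 b ht.ab, hadj a h1 c ht.ac⟩
      · exact ⟨hadj b h1 a ht.ab.symm, Or.inl ⟨h1, sb⟩, hadj b h1 c ht.bc⟩
      · exact ⟨hadj c h1 a ht.ac.symm, hadj c h1 b ht.bc.symm, Or.inl ⟨h1, sc⟩⟩
    have h5 : convexHull ℝ {z a, z b, z c} ⊆ Metric.closedBall (0 : ℂ) ρ := by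
      apply convexHull_min _ (convex_closedBall _ _)
      intro w hw
      rw [mem_closedBall_zero_iff]
      simp only [Set.mem_insert_iff, Set.mem_singleton_iff] at hw
      rcases hw with rfl | rfl | rfl
      · exact hρ _ hall.1
      · exact hρ _ hall.2.1
      · exact hρ _ hall.2.2
    have h6 := h5 hp
    rw [mem_closedBall_zero_iff] at h6
    linarith
  obtain ⟨ρ, hρ1, hρ0, hρ⟩ := h1
  -- vertices in the annulus are joined
  have hjoin : ∀ x ∈ S, ∀ y ∈ S, ρ < ‖z x‖ → ρ < ‖z y‖ → OeR S G F x y := by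
    intro x hx y hy hxρ hyρ
    have ix := h.inside x hx
    have px := h.pos x hx
    have iy := h.inside y hy
    have py := h.pos y hy
    exact h.oe_conn' F _ (oe_annulus hρ0) (fun p hp => hp.2)
      (fun p hp a b c ht hpt => hρ p a b c ht hpt hp.1) hx hy ⟨hxρ, by linarith⟩
      ⟨hyρ, by linarith⟩
  have hfin : {x | x ∈ S ∧ ‖z x‖ ≤ ρ}.Finite := h.locfin ρ hρ1
  have hinf : (S \ {x | x ∈ S ∧ ‖z x‖ ≤ ρ}).Infinite := h.oe_infinite.sdiff hfin
  obtain ⟨x0, hx0⟩ := hinf.nonempty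
  have hx0S : x0 ∈ S := hx0.1
  have hx0ρ : ρ < ‖z x0‖ := by
    by_contra hc
    exact hx0.2 ⟨hx0S, not_lt.mp hc⟩
  have hx0F : x0 ∉ F := by
    obtain ⟨hx, -, -⟩ := hjoin x0 hx0S x0 hx0S hx0ρ hx0ρ
    exact hx.2
  have hx0' : x0 ∈ S \ F := ⟨hx0S, hx0F⟩
  -- all vertices of the annulus are in the component of x0
  have hcomp : ∀ (x : V) (hx : x ∈ S \ F), ρ < ‖z x‖ →
      (G.induce (S \ F)).connectedComponentMk ⟨x, hx⟩ =
        (G.induce (S \ F)).connectedComponentMk ⟨x0, hx0'⟩ := by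
    intro x hx hxρ
    obtain ⟨_, _, hr⟩ := hjoin x hx.1 x0 hx0S hxρ hx0ρ
    exact SimpleGraph.ConnectedComponent.sound hr
  refine ⟨(G.induce (S \ F)).connectedComponentMk ⟨x0, hx0'⟩, ?_, ?_⟩
  · -- infinite
    have hsub : (S \ F) \ {x | x ∈ S ∧ ‖z x‖ ≤ ρ} ⊆
        Subtype.val '' ((G.induce (S \ F)).connectedComponentMk ⟨x0, hx0'⟩).supp := by
      rintro x ⟨hx, hxρ⟩
      have hxρ' : ρ < ‖z x‖ := by
        by_contra hc
        exact hxρ ⟨hx.1, not_lt.mp hc⟩
      exact ⟨⟨x, hx⟩, hcomp x hx hxρ', rfl⟩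
    have hinf' : ((S \ F) \ {x | x ∈ S ∧ ‖z x‖ ≤ ρ}).Infinite :=
      (h.oe_infinite.sdiff hF).sdiff hfin
    exact (hinf'.mono hsub).of_image _
  · intro c' hc'
    have hex : ∃ x ∈ c'.supp, ρ < ‖z x.1‖ := by
      by_contra hcon
      push Not at hcon
      apply hc'
      apply Set.Finite.of_finite_image (f := Subtype.val) _ Subtype.val_injective.injOn
      apply hfin.subset
      rintro _ ⟨x, hx, rfl⟩
      exact ⟨x.2.1, hcon x hx⟩
    obtain ⟨x, hx, hxρ⟩ := hex
    have hx' : (G.induce (S \ F)).connectedComponentMk x = c' := hx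
    rw [← hx']
    exact hcomp x.1 x.2 hxρ

end IsDiscPacking

end HExit
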