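import Pool.Agent.HExit.Exit
import Pool.Agent.HExit.Mtp
import Pool.Agent.HExit.OneEnd

/-!
# HExit: the random triangulation whose exit measure is not Hölder
-/

open MeasureTheory ProbabilityTheory Filter Topology
open scoped ENNReal

namespace HExit

lemma comp_eq_SX (k : Sym2 V1 → ℕ) {x : VX} (hx : x ∈ SX k) : comp (GX k) x = SX k := by
  ext y
  constructor
  · intro h
    exact mem_SX_of_reachable hx h
  · intro h
    exact (packing k).reachable hx h

lemma measurableSet_adjX (x y : VX) :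
    MeasurableSet {ω : Idx → Bool | (GX (kk ω)).Adj x y} := by
  cases x with
  | p v =>
    cases y with
    | p w => exact MeasurableSet.const (MM v w = 2)
    | q u => exact MeasurableSet.const (NN v u = 1)
    | t F j => exact (measurableSet_lt_kk F.e j).inter (MeasurableSet.const (v ∈ F.e))
  | q u =>
    cases y with
    | p w => exact MeasurableSet.const (NN w u = 1)
    | q w => exact MeasurableSet.const False
    | t F j =>
      exact (MeasurableSet.const (j = 0)).inter
        ((measurableSet_lt_kk F.e 0).inter (MeasurableSet.const (u = F.u)))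
  | t F i =>
    cases y with
    | p w => exact (measurableSet_lt_kk F.e i).inter (MeasurableSet.const (w ∈ F.e))
    | q w =>
      exact (MeasurableSet.const (i = 0)).inter
        ((measurableSet_lt_kk F.e 0).inter (MeasurableSet.const (w = F.u)))
    | t F' j =>
      exact (MeasurableSet.const (F = F')).inter ((MeasurableSet.const (i = j + 1 ∨ j = i + 1)).inter
        ((measurableSet_lt_kk F.e i).inter (measurableSet_lt_kk F.e j)))

lemma isProbabilityMeasure_muR : IsProbabilityMeasure muR := by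
  refine ⟨?_⟩
  unfold muR
  rw [Measure.smul_apply, smul_eq_mul, ENNReal.inv_mul_cancel mu0_ne_zero mu0_ne_top]

lemma ae_muR_iff {Q : (Idx → Bool) × ℕ → Prop} : (∀ᵐ p ∂muR, Q p) ↔ ∀ᵐ p ∂mu0, Q p := by
  unfold muR
  rw [Measure.ae_ennreal_smul_measure_iff]
  exact ENNReal.inv_ne_zero.mpr mu0_ne_top

/-- almost surely the root is a vertex -/
lemma ae_root_mem : ∀ᵐ p ∂muR, root p.2 ∈ SX (kk p.1) := by
  rw [ae_muR_iff]
  classical
  unfold mu0
  have hm : MeasurableSet {p : (Idx → Bool) × ℕ | root p.2 ∈ SX (kk p.1)} := by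
    have : {p : (Idx → Bool) × ℕ | root p.2 ∈ SX (kk p.1)}
        = ⋃ j : ℕ, {ω | root j ∈ SX (kk ω)} ×ˢ {j} := by
      ext ⟨ω, j⟩
      simp
    rw [this]
    exact MeasurableSet.iUnion fun j => (measurableSet_SX _).prod (measurableSet_singleton j)
  rw [ae_iff]
  have e : {p : (Idx → Bool) × ℕ | ¬ root p.2 ∈ SX (kk p.1)}
      = {p : (Idx → Bool) × ℕ | root p.2 ∈ SX (kk p.1)}ᶜ := rfl
  rw [e, withDensity_apply _ hm.compl]
  rw [setLIntegral_congr_fun hm.compl (g := fun _ => 0)]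
  · simp
  · intro p hp
    have hp' : ¬ root p.2 ∈ SX (kk p.1) := hp
    simp only [if_neg hp']

/-- the root is the base point with positive probability, independently of the marks -/
lemma ae_zero_of_ae {Q : (Idx → Bool) × ℕ → Prop} (h : ∀ᵐ p ∂muR, Q p) :
    ∀ᵐ ω ∂PP, Q (ω, 0) := by
  rw [ae_muR_iff] at h
  obtain ⟨N, hN, hNm, hN0⟩ := exists_measurable_superset_of_null (ae_iff.mp h)
  have hprob : ∀ n, IsProbabilityMeasure (markLaw n) := markLaw_prob
  have hPP : IsProbabilityMeasure PP := by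
    unfold PP
    infer_instance
  set N0 : Set (Idx → Bool) := {ω | (ω, 0) ∈ N} with hN0def
  have hN0m : MeasurableSet N0 := measurable_prodMk_right hNm
  have h1 : ∫⁻ p, N.indicator (fun _ => (1 : ℝ≥0∞)) p ∂mu0 = 0 := by
    rw [lintegral_indicator_const hNm, hN0, mul_zero]
  have h2 := lintegral_mu0_split (fun ω j => N.indicator (fun _ => (1 : ℝ≥0∞)) (ω, j))
    (fun j => (measurable_const.indicator hNm).comp measurable_prodMk_right)
  have h3 : ∫⁻ ω, N.indicator (fun _ => (1 : ℝ≥0∞)) (ω, 0) ∂PP = 0 := by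
    have h4 : 1 / 8 * ∫⁻ ω, N.indicator (fun _ => (1 : ℝ≥0∞)) (ω, 0) ∂PP = 0 := by
      have h5 := h2.symm.trans h1
      exact (add_eq_zero.mp h5).1
    rcases mul_eq_zero.mp h4 with h6 | h6
    · simp at h6
    · exact h6
  have h7 : PP N0 = 0 := by
    have h8 : ∫⁻ ω, N0.indicator (fun _ => (1 : ℝ≥0∞)) ω ∂PP = 0 := h3
    rwa [lintegral_indicator_const hN0m, one_mul] at h8
  rw [ae_iff]
  refine measure_mono_null ?_ h7
  intro ω hω
  exact hN hω

theorem final : ∃ (Ω V : Type) (_ : MeasurableSpace Ω) (_ : MeasurableSpace V)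
    (_ : DiscreteMeasurableSpace V) (_ : Countable V) (μ : Measure Ω) (G : Ω → SimpleGraph V)
    (ρ : Ω → V) (z : Ω → V → ℂ) (r : Ω → V → ℝ),
    IsProbabilityMeasure μ ∧ (∀ x y, MeasurableSet {ω | (G ω).Adj x y}) ∧ Measurable ρ ∧
    Unimodular μ G ρ ∧
    (∀ᵐ ω ∂μ, IsDiscPacking (comp (G ω) (ρ ω)) (G ω) (z ω) (r ω) ∧
      OneEnded (comp (G ω) (ρ ω)) (G ω) ∧ ∀ x, ((G ω).neighborSet x).Finite) ∧
    ∫⁻ ω, (((G ω).neighborSet (ρ ω)).encard : ℝ≥0∞) ^ 2 ∂μ < ∞ ∧
    ¬ ∀ᵐ ω ∂μ, ∃ C c : ℝ, 0 < C ∧ 0 < c ∧ ∀ α l : ℝ, 0 < l → l ≤ 2 * Real.pi →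
      exitProb (G ω) (ρ ω) (z ω) (arc α l) ≤ ENNReal.ofReal (C * l ^ c) := by
  let mV : MeasurableSpace VX := ⊤
  have hV : DiscreteMeasurableSpace VX := ⟨fun s => trivial⟩
  refine ⟨(Idx → Bool) × ℕ, VX, inferInstance, mV, hV, countable_VX, muR,
    fun p => GX (kk p.1), fun p => root p.2, fun _ => zX, fun _ => rX,
    isProbabilityMeasure_muR, ?_, ?_, unimodular, ?_, deg_sq, ?_⟩
  · intro x y
    exact measurable_fst (measurableSet_adjX x y)
  · exact (measurable_from_nat (f := root)).comp measurable_snd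
  · filter_upwards [ae_root_mem] with p hp
    rw [comp_eq_SX _ hp]
    exact ⟨packing _, (packing _).oneEnded, finite_nbrX _⟩
  · intro h
    obtain ⟨M, hM⟩ := good_often
    apply hM
    filter_upwards [ae_zero_of_ae h, ae_sum_dz] with ω hω hsum hgood
    obtain ⟨C, c, hC, hc, hb⟩ := hω
    obtain ⟨α, l, hl, hl2, hlt⟩ := nonHolder M (kk ω) hsum hgood C c hC hc
    exact absurd (hb α l hl hl2) (not_le.mpr hlt)

end HExit
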