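import Pool.Agent.HExit.Lorentz

open MeasureTheory ProbabilityTheory Filter Topology
open scoped ENNReal

namespace HExit

/-! # HExit: orthonormal integer frames, and the local part of the covering statement -/

/-- orthonormal integer frame at a vertex -/
structure IsFr (v : V1) (e0 e1 e2 g0 g1 g2 : ℤ) : Prop where
  h1 : -3 * e0 ^ 2 + e1 ^ 2 + e2 ^ 2 = 1
  h2 : -3 * g0 ^ 2 + g1 ^ 2 + g2 ^ 2 = 1
  h3 : -3 * e0 * g0 + e1 * g1 + e2 * g2 = 0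
  h4 : -v.x * e0 + v.a * e1 + v.b * e2 = 0
  h5 : -v.x * g0 + v.a * g1 + v.b * g2 = 0

variable {v : V1} {e0 e1 e2 g0 g1 g2 : ℤ}

lemma IsFr.neg1 (h : IsFr v e0 e1 e2 g0 g1 g2) : IsFr v (-e0) (-e1) (-e2) g0 g1 g2 :=
  ⟨by linear_combination h.h1, h.h2, by linear_combination -h.h3, by linear_combination -h.h4, h.h5⟩

lemma IsFr.neg2 (h : IsFr v e0 e1 e2 g0 g1 g2) : IsFr v e0 e1 e2 (-g0) (-g1) (-g2) :=
  ⟨h.h1, by linear_combination h.h2, by linear_combination -h.h3, h.h4, by linear_combination -h.h5⟩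

lemma IsFr.swap (h : IsFr v e0 e1 e2 g0 g1 g2) : IsFr v g0 g1 g2 e0 e1 e2 :=
  ⟨h.h2, h.h1, by linear_combination h.h3, h.h5, h.h4⟩

/-- completeness relations -/
lemma IsFr.compl (h : IsFr v e0 e1 e2 g0 g1 g2) :
    3 * e0 ^ 2 + 3 * g0 ^ 2 = v.x ^ 2 - 1 ∧ e1 ^ 2 + g1 ^ 2 = 1 + 3 * v.a ^ 2 ∧
    e2 ^ 2 + g2 ^ 2 = 1 + 3 * v.b ^ 2 ∧ e0 * e1 + g0 * g1 = v.x * v.a ∧
    e0 * e2 + g0 * g2 = v.x * v.b ∧ e1 * e2 + g1 * g2 = 3 * v.a * v.b := by
  have hv := v.eq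
  obtain ⟨h1, h2, h3, h4, h5⟩ := h
  -- rational matrices
  let M : Matrix (Fin 3) (Fin 3) ℚ := !![(v.x : ℚ), 3 * v.a, 3 * v.b; e0, e1, e2; g0, g1, g2]
  let N : Matrix (Fin 3) (Fin 3) ℚ :=
    !![(v.x : ℚ), -3 * e0, -3 * g0; -v.a, e1, g1; -v.b, e2, g2]
  have hv' : (v.x : ℚ) ^ 2 = 1 + 3 * v.a ^ 2 + 3 * v.b ^ 2 := by exact_mod_cast hv
  have h1' : -3 * (e0 : ℚ) ^ 2 + e1 ^ 2 + e2 ^ 2 = 1 := by exact_mod_cast h1
  have h2' : -3 * (g0 : ℚ) ^ 2 + g1 ^ 2 + g2 ^ 2 = 1 := by exact_mod_cast h2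
  have h3' : -3 * (e0 : ℚ) * g0 + e1 * g1 + e2 * g2 = 0 := by exact_mod_cast h3
  have h4' : -(v.x : ℚ) * e0 + v.a * e1 + v.b * e2 = 0 := by exact_mod_cast h4
  have h5' : -(v.x : ℚ) * g0 + v.a * g1 + v.b * g2 = 0 := by exact_mod_cast h5
  have hMN : M * N = 1 := by
    ext i j
    fin_cases i <;> fin_cases j <;>
      simp [M, N, Matrix.mul_apply, Fin.sum_univ_three] <;>
      first
        | linear_combination hv'
        | linear_combination h1'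
        | linear_combination h2'
        | linear_combination h3'
        | linear_combination h4'
        | linear_combination h5'
        | linear_combination 3 * h4'
        | linear_combination 3 * h5'
        | linear_combination -h4'
        | linear_combination -h5'
  have hNM : N * M = 1 := mul_eq_one_comm.mp hMN
  have k (i j : Fin 3) : (N * M) i j = (1 : Matrix (Fin 3) (Fin 3) ℚ) i j := by rw [hNM]
  have k00 := k 0 0
  have k11 := k 1 1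
  have k22 := k 2 2
  have k10 := k 1 0
  have k20 := k 2 0
  have k12 := k 1 2
  simp [M, N, Matrix.mul_apply, Fin.sum_univ_three] at k00 k11 k22 k10 k20 k12
  refine ⟨?_, ?_, ?_, ?_, ?_, ?_⟩
  · have : (3 * e0 ^ 2 + 3 * g0 ^ 2 : ℚ) = v.x ^ 2 - 1 := by linear_combination -k00
    exact_mod_cast this
  · have : (e1 ^ 2 + g1 ^ 2 : ℚ) = 1 + 3 * v.a ^ 2 := by linear_combination k11
    exact_mod_cast this
  · have : (e2 ^ 2 + g2 ^ 2 : ℚ) = 1 + 3 * v.b ^ 2 := by linear_combination k22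
    exact_mod_cast this
  · have : (e0 * e1 + g0 * g1 : ℚ) = v.x * v.a := by linear_combination k10
    exact_mod_cast this
  · have : (e0 * e2 + g0 * g2 : ℚ) = v.x * v.b := by linear_combination k20
    exact_mod_cast this
  · have : (e1 * e2 + g1 * g2 : ℚ) = 3 * v.a * v.b := by linear_combination k12
    exact_mod_cast this

lemma IsFr.bound (h : IsFr v e0 e1 e2 g0 g1 g2) : 0 < 2 * v.x + 3 * e0 ∧ 0 < v.x + e0 + g0 := by
  obtain ⟨c1, -⟩ := h.compl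
  have hp := v.pos
  constructor
  · by_contra hc
    push Not at hc
    nlinarith [sq_nonneg g0, mul_nonneg (by linarith : (0 : ℤ) ≤ -(2 * v.x + 3 * e0)) hp.le]
  · by_contra hc
    push Not at hc
    nlinarith [sq_nonneg (e0 - g0), mul_nonneg (by linarith : (0 : ℤ) ≤ -(v.x + e0 + g0)) hp.le]

/-- the neighbour `2 v + 3 e` -/
def IsFr.nb (h : IsFr v e0 e1 e2 g0 g1 g2) : V1 where
  x := 2 * v.x + 3 * e0
  a := 2 * v.a + e1
  b := 2 * v.b + e2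
  eq := by
    have := v.eq
    linear_combination 4 * this - 12 * h.h4 - 3 * h.h1
  pos := h.bound.1

/-- the hexagon centre `v + e + g` -/
def IsFr.cc (h : IsFr v e0 e1 e2 g0 g1 g2) : V2 where
  y := v.x + e0 + g0
  c := 3 * v.a + e1 + g1
  d := 3 * v.b + e2 + g2
  eq := by
    have := v.eq
    linear_combination 3 * this - 6 * h.h4 - 6 * h.h5 - h.h1 - h.h2 - 2 * h.h3
  pos := h.bound.2

/-- the face with vertices `v`, `2 v + 3 e`, `v + e + g` -/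
def IsFr.face (h : IsFr v e0 e1 e2 g0 g1 g2) : Face where
  e := s(v, h.nb)
  u := h.cc
  he := by
    rw [SimpleGraph.mem_edgeSet]
    show MM v h.nb = 2
    have := v.eq
    simp only [MM, IsFr.nb]
    linear_combination 2 * this - 3 * h.h4
  hu := by
    have := v.eq
    intro w hw
    rw [Sym2.mem_iff] at hw
    rcases hw with rfl | rfl
    · simp only [NN, IsFr.cc]
      linear_combination this - h.h4 - h.h5
    · simp only [NN, IsFr.cc, IsFr.nb]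
      linear_combination 2 * this - 5 * h.h4 - 2 * h.h5 - h.h1 - h.h3

lemma local_aux {r S γ B : ℝ} (hr2 : r ^ 2 = 2) (hr1 : 1.414213 < r) (hr3 : r < 1.414214)
    (hS : 0 < S) (hγ : 0 < γ) (hB : 0 ≤ B) (hSc : S ≤ (r - 1) * γ)
    (e3 : 4 * (r - 1) * B * γ < 3 * S ^ 2) :
    0 < (24 - 15 * r) * (S * γ) + (15 / 2 - 9 * r) * S ^ 2 +
        (27 * r - 39) * (B * γ) + (18 * r - 21) * (S * B) + (7 - 6 * r) * B ^ 2 := by
  have hSγ : 0 < S * γ := mul_pos hS hγ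
  have hSS : S ^ 2 ≤ (r - 1) * (S * γ) := by
    have := mul_le_mul_of_nonneg_left hSc hS.le
    linarith [this, sq S, mul_left_comm S (r - 1) γ]
  have h5 : 0 < r - 1 := by linarith
  have hBγ : 4 * (B * γ) ≤ 3 * (S * γ) := by
    have h6 : (r - 1) * (4 * (B * γ)) ≤ (r - 1) * (3 * (S * γ)) := by linarith
    exact le_of_mul_le_mul_left h6 h5
  have hBS : 4 * B ≤ 3 * S := by
    have h6 : γ * (4 * B) ≤ γ * (3 * S) := by linarith
    exact le_of_mul_le_mul_left h6 hγ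
  have t1 : (15 / 2 - 9 * r) * ((r - 1) * (S * γ)) ≤ (15 / 2 - 9 * r) * S ^ 2 :=
    mul_le_mul_of_nonpos_left hSS (by linarith)
  have t2 : (27 * r - 39) * (3 / 4 * (S * γ)) ≤ (27 * r - 39) * (B * γ) :=
    mul_le_mul_of_nonpos_left (by linarith) (by linarith)
  have t3 : B ^ 2 ≤ 3 / 4 * (S * B) := by
    have := mul_le_mul_of_nonneg_right hBS hB
    linarith [sq B]
  have t4 : (7 - 6 * r) * (3 / 4 * (S * B)) ≤ (7 - 6 * r) * B ^ 2 :=
    mul_le_mul_of_nonpos_left t3 (by linarith)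
  have t5 : 0 ≤ S * B := mul_nonneg hS.le hB
  have t6 : 0 ≤ (18 * r - 21 + (7 - 6 * r) * (3 / 4)) * (S * B) :=
    mul_nonneg (by linarith) t5
  have t8 : (24 - 15 * r) + (15 / 2 - 9 * r) * (r - 1) + (27 * r - 39) * (3 / 4) =
      24 - 15 / 2 - 18 - 117 / 4 + (15 / 2 - 15 + 9 + 81 / 4) * r := by
    linear_combination (-9) * hr2
  have t7 : 0 < ((24 - 15 * r) + (15 / 2 - 9 * r) * (r - 1) + (27 * r - 39) * (3 / 4)) *
      (S * γ) := mul_pos (by rw [t8]; linarith) hSγ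
  linarith

/-- the local statement -/
lemma local_cov {α β γ σ : ℝ} (hσ : 0 < σ) (hf : 3 * α ^ 2 - β ^ 2 - γ ^ 2 = σ ^ 2)
    (h1 : 0 ≤ γ) (h2 : γ ≤ β) (h3 : β ≤ α) : √2 * α < σ ∨
    0 < (2 + √2) * (-3 * α + β + γ) + (2 * √2 + 1) * σ ∨
    0 ≤ -3 * (1 + √2) * α + (1 + √2) * β + γ + (2 + √2) * σ := by
  by_contra hcon
  push Not at hcon
  obtain ⟨k1, k2, k3⟩ := hcon
  have hr2 : √2 ^ 2 = (2 : ℝ) := Real.sq_sqrt (by norm_num)
  have hr0 : (0 : ℝ) ≤ √2 := Real.sqrt_nonneg 2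
  set r : ℝ := √2 with hr
  clear_value r
  have hr1 : 1.414213 < r := by nlinarith
  have hr3 : r < 1.414214 := by nlinarith
  obtain ⟨A, hA⟩ : ∃ A, A = α - β := ⟨_, rfl⟩
  obtain ⟨B, hB⟩ : ∃ B, B = β - γ := ⟨_, rfl⟩
  have hα : α = A + B + γ := by linarith
  have hβ : β = B + γ := by linarith
  have hA0 : 0 ≤ A := by linarith
  have hB0 : 0 ≤ B := by linarith
  clear hA hB
  subst hα
  subst hβ
  have e1 : A ^ 2 + 2 * A * B + 2 * A * γ ≤ γ ^ 2 := by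
    have : σ ^ 2 ≤ (r * (A + B + γ)) ^ 2 := pow_le_pow_left₀ hσ.le k1 2
    rw [mul_pow, hr2] at this
    nlinarith
  have e2 : r * σ < 3 * (A + B + γ) - (B + γ) - (r - 1) * γ := by
    by_contra hc
    push Not at hc
    have : (1 + r) * (3 * (A + B + γ) - (B + γ) - (r - 1) * γ) ≤ (1 + r) * (r * σ) :=
      mul_le_mul_of_nonneg_left hc (by linarith)
    nlinarith
  have e3 : 4 * (r - 1) * B * γ < 3 * ((r - 1) * γ - A) ^ 2 := by
    have : (r * σ) ^ 2 < (3 * (A + B + γ) - (B + γ) - (r - 1) * γ) ^ 2 :=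
      pow_lt_pow_left₀ e2 (mul_nonneg hr0 hσ.le) (by norm_num)
    rw [mul_pow, hr2] at this
    nlinarith
  -- S = (r-1) γ - A
  have hS0 : 0 ≤ (r - 1) * γ - A := by
    have : (A + γ) ^ 2 ≤ (r * γ) ^ 2 := by
      rw [mul_pow, hr2]
      nlinarith [mul_nonneg hA0 hB0]
    have := (abs_le_of_sq_le_sq' this (mul_nonneg hr0 h1)).2
    linarith
  obtain ⟨S, hS⟩ : ∃ S, S = (r - 1) * γ - A := ⟨_, rfl⟩
  rw [← hS] at e3 hS0
  have hA' : A = (r - 1) * γ - S := by linarith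
  have hSpos : 0 < S := by
    rcases hS0.lt_or_eq with h | h
    · exact h
    · rw [← h] at e3
      have : 0 ≤ 4 * (r - 1) * B * γ := by
        have : 0 ≤ r - 1 := by linarith
        positivity
      nlinarith
  have hSc : S ≤ (r - 1) * γ := by linarith
  have hγ : 0 < γ := by
    by_contra hc
    push Not at hc
    have : γ = 0 := le_antisymm hc h1
    rw [this] at hSc
    linarith
  -- R² < κ σ²
  have e4 : (3 * (A + B + γ) - (B + γ) - γ) ^ 2 < (11 / 2 - 3 * r) * σ ^ 2 := by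
    rw [← hf, ← sub_pos]
    have hid : (11 / 2 - 3 * r) * (3 * (A + B + γ) ^ 2 - (B + γ) ^ 2 - γ ^ 2) -
        (3 * (A + B + γ) - (B + γ) - γ) ^ 2 = (24 - 15 * r) * (S * γ) + (15 / 2 - 9 * r) * S ^ 2 +
        (27 * r - 39) * (B * γ) + (18 * r - 21) * (S * B) + (7 - 6 * r) * B ^ 2 := by
      subst hA'
      linear_combination (15 / 2 * γ ^ 2 - 9 * r * γ ^ 2 + 18 * γ * S - 18 * γ * B) * hr2
    rw [hid]
    exact local_aux hr2 hr1 hr3 hSpos hγ hB0 hSc e3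
  have e5 : ((2 + r) * (3 * (A + B + γ) - (B + γ) - γ)) ^ 2 < ((2 * r + 1) * σ) ^ 2 := by
    have h6 : (2 + r) ^ 2 * (3 * (A + B + γ) - (B + γ) - γ) ^ 2 <
        (2 + r) ^ 2 * ((11 / 2 - 3 * r) * σ ^ 2) :=
      mul_lt_mul_of_pos_left e4 (by positivity)
    have h7 : (2 + r) ^ 2 * ((11 / 2 - 3 * r) * σ ^ 2) = ((2 * r + 1) * σ) ^ 2 := by
      linear_combination (-3 * r - 12 + 11 / 2 - 4) * σ ^ 2 * hr2
    rw [mul_pow]
    linarith
  have e6 := lt_of_pow_lt_pow_left₀ 2 (mul_nonneg (by linarith) hσ.le) e5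
  linarith

lemma sqrt6 : √6 = √2 * √3 := by
  rw [← Real.sqrt_mul (by norm_num)]; norm_num

lemma ip_PV (p : ℂ) (v : V1) : R31.ip (Npt p) (PV v) =
    √3 * ((1 - ‖p‖ ^ 2) / 2 - √2 * ((1 + ‖p‖ ^ 2) / 2 / √3 * v.x - v.a * p.re - v.b * p.im)) := by
  have h3 : √3 ^ 2 = (3 : ℝ) := Real.sq_sqrt (by norm_num)
  have h30 : √3 ≠ 0 := by positivity
  simp only [R31.ip, Npt, PV, sqrt6]
  simp
  field_simp
  ring

lemma ip_PU (p : ℂ) (u : V2) : R31.ip (Npt p) (PU u) =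
    1 / √3 * ((2 + √2) * (-3 * ((1 + ‖p‖ ^ 2) / 2 / √3) * u.y + p.re * u.c + p.im * u.d) +
      (2 * √2 + 1) * ((1 - ‖p‖ ^ 2) / 2)) := by
  have h3 : √3 ^ 2 = (3 : ℝ) := Real.sq_sqrt (by norm_num)
  have h30 : √3 ≠ 0 := by positivity
  have h : (PU u).X = (((2 + √2) / √3 : ℝ) : ℂ) * (u.c + u.d * Complex.I) := by
    simp only [PU]; push_cast; ring
  have hre : (PU u).X.re = (2 + √2) / √3 * u.c := by rw [h]; simp
  have him : (PU u).X.im = (2 + √2) / √3 * u.d := by rw [h]; simp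
  simp only [R31.ip, hre, him]
  simp only [Npt, PU]
  field_simp
  linear_combination -((2 + √2) * (1 + ‖p‖ ^ 2) * u.y) * h3

lemma ip_PQ (p : ℂ) (F : Face) : R31.ip (Npt p) (PQ F) =
    (-3 * ((1 + ‖p‖ ^ 2) / 2 / √3) * F.u.y + p.re * F.u.c + p.im * F.u.d) +
      √2 * (-((1 + ‖p‖ ^ 2) / 2 / √3) * sx F.e + p.re * sa F.e + p.im * sb F.e) +
      (2 + √2) * ((1 - ‖p‖ ^ 2) / 2) := by
  have h3 : √3 ^ 2 = (3 : ℝ) := Real.sq_sqrt (by norm_num)
  have h30 : √3 ≠ 0 := by positivity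
  simp only [R31.ip, Npt, PQ, sqrt6]
  simp
  field_simp
  linear_combination -((1 + ‖p‖ ^ 2) * (3 * F.u.y + √2 * sx F.e)) * h3

/-- the statement in a frame -/
lemma cov_frame {p : ℂ} (hp : ‖p‖ < 1) (h : IsFr v e0 e1 e2 g0 g1 g2)
    (k1 : 0 ≤ -3 * ((1 + ‖p‖ ^ 2) / 2 / √3) * g0 + p.re * g1 + p.im * g2)
    (k2 : -3 * ((1 + ‖p‖ ^ 2) / 2 / √3) * g0 + p.re * g1 + p.im * g2 ≤
      -3 * ((1 + ‖p‖ ^ 2) / 2 / √3) * e0 + p.re * e1 + p.im * e2)
    (k3 : -3 * ((1 + ‖p‖ ^ 2) / 2 / √3) * e0 + p.re * e1 + p.im * e2 ≤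
      (1 + ‖p‖ ^ 2) / 2 / √3 * v.x - v.a * p.re - v.b * p.im) :
    (∃ v : V1, 0 < R31.ip (Npt p) (PV v)) ∨
    (∃ u : V2, 0 < R31.ip (Npt p) (PU u)) ∨ (∃ F : Face, 0 ≤ R31.ip (Npt p) (PQ F)) := by
  have hp0 : 0 ≤ ‖p‖ := norm_nonneg p
  have hσ : 0 < (1 - ‖p‖ ^ 2) / 2 := by nlinarith
  have hs3 : √3 ^ 2 = (3 : ℝ) := Real.sq_sqrt (by norm_num)
  have hs30 : 0 < √3 := by positivity
  have hn : ‖p‖ ^ 2 = p.re ^ 2 + p.im ^ 2 := by
    rw [Complex.sq_norm, Complex.normSq_apply]; ring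
  have hP : 3 * ((1 + ‖p‖ ^ 2) / 2 / √3) ^ 2 =
      ((1 - ‖p‖ ^ 2) / 2) ^ 2 + p.re ^ 2 + p.im ^ 2 := by
    rw [div_pow ((1 + ‖p‖ ^ 2) / 2), hs3, ← sub_eq_zero]
    linear_combination hn
  obtain ⟨c1, c2, c3, c4, c5, c6⟩ := h.compl
  have d1 : (3 * e0 ^ 2 + 3 * g0 ^ 2 : ℝ) = v.x ^ 2 - 1 := by exact_mod_cast c1
  have d2 : (e1 ^ 2 + g1 ^ 2 : ℝ) = 1 + 3 * v.a ^ 2 := by exact_mod_cast c2
  have d3 : (e2 ^ 2 + g2 ^ 2 : ℝ) = 1 + 3 * v.b ^ 2 := by exact_mod_cast c3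
  have d4 : (e0 * e1 + g0 * g1 : ℝ) = v.x * v.a := by exact_mod_cast c4
  have d5 : (e0 * e2 + g0 * g2 : ℝ) = v.x * v.b := by exact_mod_cast c5
  have d6 : (e1 * e2 + g1 * g2 : ℝ) = 3 * v.a * v.b := by exact_mod_cast c6
  have i1 := ip_PV p v
  have i2 := ip_PU p h.cc
  have i3 := ip_PQ p h.face
  have j1 : (h.cc.y : ℝ) = v.x + e0 + g0 := by simp [IsFr.cc]
  have j2 : (h.cc.c : ℝ) = 3 * v.a + e1 + g1 := by simp [IsFr.cc]
  have j3 : (h.cc.d : ℝ) = 3 * v.b + e2 + g2 := by simp [IsFr.cc]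
  have j4 : (sx h.face.e : ℝ) = 3 * v.x + 3 * e0 := by
    have : sx h.face.e = v.x + (2 * v.x + 3 * e0) := rfl
    rw [this]; push_cast; ring
  have j5 : (sa h.face.e : ℝ) = 3 * v.a + e1 := by
    have : sa h.face.e = v.a + (2 * v.a + e1) := rfl
    rw [this]; push_cast; ring
  have j6 : (sb h.face.e : ℝ) = 3 * v.b + e2 := by
    have : sb h.face.e = v.b + (2 * v.b + e2) := rfl
    rw [this]; push_cast; ring
  have j7 : h.face.u = h.cc := rfl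
  rw [j7, j4, j5, j6, j1, j2, j3] at i3
  rw [j1, j2, j3] at i2
  set P0 : ℝ := (1 + ‖p‖ ^ 2) / 2 / √3 with hP0
  set σ : ℝ := (1 - ‖p‖ ^ 2) / 2 with hσd
  have hf : 3 * (P0 * v.x - v.a * p.re - v.b * p.im) ^ 2 -
      (-3 * P0 * e0 + p.re * e1 + p.im * e2) ^ 2 - (-3 * P0 * g0 + p.re * g1 + p.im * g2) ^ 2 =
      σ ^ 2 := by
    linear_combination hP - 3 * P0 ^ 2 * d1 - p.re ^ 2 * d2 - p.im ^ 2 * d3 +
      6 * P0 * p.re * d4 + 6 * P0 * p.im * d5 - 2 * p.re * p.im * d6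
  rcases local_cov hσ hf k1 k2 k3 with H | H | H
  · left
    refine ⟨v, ?_⟩
    rw [i1]
    exact mul_pos hs30 (by linarith)
  · right; left
    refine ⟨h.cc, ?_⟩
    rw [i2]
    exact mul_pos (by positivity) (lt_of_lt_of_eq H (by ring))
  · right; right
    refine ⟨h.face, ?_⟩
    rw [i3]
    exact le_of_le_of_eq H (by ring)

end HExit
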