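import Pool.Agent.HExit.Arith

/-!
# HExit: the group of automorphisms, simply transitive on flags
-/

open MeasureTheory ProbabilityTheory Filter Topology
open scoped ENNReal

namespace HExit

/-- integer frames -/
@[ext] structure Fr where
  v : V1
  e0 : ℤ
  e1 : ℤ
  e2 : ℤ
  g0 : ℤ
  g1 : ℤ
  g2 : ℤ
  h1 : -3 * e0 ^ 2 + e1 ^ 2 + e2 ^ 2 = 1
  h2 : -3 * g0 ^ 2 + g1 ^ 2 + g2 ^ 2 = 1
  h3 : -3 * e0 * g0 + e1 * g1 + e2 * g2 = 0
  h4 : -v.x * e0 + v.a * e1 + v.b * e2 = 0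
  h5 : -v.x * g0 + v.a * g1 + v.b * g2 = 0

namespace Fr

/-- the dual relations -/
lemma dual (f : Fr) : f.v.x ^ 2 = 1 + 3 * f.e0 ^ 2 + 3 * f.g0 ^ 2 ∧
    f.e0 * f.e1 + f.g0 * f.g1 = f.v.x * f.v.a ∧
    f.e0 * f.e2 + f.g0 * f.g2 = f.v.x * f.v.b ∧
    f.e1 ^ 2 + f.g1 ^ 2 = 1 + 3 * f.v.a ^ 2 ∧
    f.e2 ^ 2 + f.g2 ^ 2 = 1 + 3 * f.v.b ^ 2 ∧
    f.e1 * f.e2 + f.g1 * f.g2 = 3 * f.v.a * f.v.b := by
  obtain ⟨v, e0, e1, e2, g0, g1, g2, h1, h2, h3, h4, h5⟩ := f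
  have h0 := v.eq
  simp only
  have key : (!![v.x, -v.a, -v.b; -3 * e0, e1, e2; -3 * g0, g1, g2] : Matrix (Fin 3) (Fin 3) ℤ) *
      !![v.x, e0, g0; 3 * v.a, e1, g1; 3 * v.b, e2, g2] = 1 := by
    ext i j
    fin_cases i <;> fin_cases j <;>
      simp [Matrix.mul_apply, Fin.sum_univ_three] <;> linarith
  have key2 := mul_eq_one_comm.mp key
  have e : ∀ i j, ((!![v.x, e0, g0; 3 * v.a, e1, g1; 3 * v.b, e2, g2] *
      !![v.x, -v.a, -v.b; -3 * e0, e1, e2; -3 * g0, g1, g2] : Matrix (Fin 3) (Fin 3) ℤ)) i j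
      = (1 : Matrix (Fin 3) (Fin 3) ℤ) i j := fun i j => by rw [key2]
  have e00 := e 0 0
  have e01 := e 0 1
  have e02 := e 0 2
  have e11 := e 1 1
  have e12 := e 1 2
  have e22 := e 2 2
  simp [Matrix.mul_apply, Fin.sum_univ_three] at e00 e01 e02 e11 e12 e22
  refine ⟨by linarith, by linarith, by linarith, by linarith, by linarith, by linarith⟩

/-- the first column of the inverse matrix -/
def vs (f : Fr) : V1 where
  x := f.v.x
  a := -f.e0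
  b := -f.g0
  eq := by have := f.dual.1; linarith
  pos := f.v.pos

/-- the inverse frame -/
def inv (f : Fr) : Fr where
  v := f.vs
  e0 := -f.v.a
  e1 := f.e1
  e2 := f.g1
  g0 := -f.v.b
  g1 := f.e2
  g2 := f.g2
  h1 := by have := f.dual.2.2.2.1; linarith
  h2 := by have := f.dual.2.2.2.2.1; linarith
  h3 := by have := f.dual.2.2.2.2.2; linarith
  h4 := by
    have := f.dual.2.1
    show -f.v.x * (-f.v.a) + (-f.e0) * f.e1 + (-f.g0) * f.g1 = 0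
    linarith
  h5 := by
    have := f.dual.2.2.1
    show -f.v.x * (-f.v.b) + (-f.e0) * f.e2 + (-f.g0) * f.g2 = 0
    linarith

lemma inv_inv (f : Fr) : f.inv.inv = f := by
  ext <;> simp [inv, vs]

/-- action on vertices of the first kind -/
def T1 (f : Fr) (x : V1) : V1 where
  x := x.x * f.v.x + 3 * x.a * f.e0 + 3 * x.b * f.g0
  a := x.x * f.v.a + x.a * f.e1 + x.b * f.g1
  b := x.x * f.v.b + x.a * f.e2 + x.b * f.g2
  eq := by
    have h0 := f.v.eq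
    have h1 := f.h1
    have h2 := f.h2
    have h3 := f.h3
    have h4 := f.h4
    have h5 := f.h5
    have hx := x.eq
    linear_combination hx + x.x ^ 2 * h0 - 3 * x.a ^ 2 * h1 - 3 * x.b ^ 2 * h2
      - 6 * x.a * x.b * h3 - 6 * x.x * x.a * h4 - 6 * x.x * x.b * h5
  pos := by
    have := one_le_MM x f.vs
    unfold MM vs at this
    simp only at this
    linarith

/-- action on vertices of the second kind -/
def T2 (f : Fr) (u : V2) : V2 where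
  y := u.y * f.v.x + u.c * f.e0 + u.d * f.g0
  c := 3 * u.y * f.v.a + u.c * f.e1 + u.d * f.g1
  d := 3 * u.y * f.v.b + u.c * f.e2 + u.d * f.g2
  eq := by
    have h0 := f.v.eq
    have h1 := f.h1
    have h2 := f.h2
    have h3 := f.h3
    have h4 := f.h4
    have h5 := f.h5
    have hx := u.eq
    linear_combination hx + 3 * u.y ^ 2 * h0 - u.c ^ 2 * h1 - u.d ^ 2 * h2
      - 2 * u.c * u.d * h3 - 6 * u.y * u.c * h4 - 6 * u.y * u.d * h5
  pos := by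
    have := one_le_NN f.vs u
    unfold NN vs at this
    simp only at this
    linarith

lemma T1_inv_T1 (f : Fr) (x : V1) : f.inv.T1 (f.T1 x) = x := by
  have h0 := f.v.eq
  have h1 := f.h1
  have h2 := f.h2
  have h3 := f.h3
  have h4 := f.h4
  have h5 := f.h5
  ext
  · simp only [T1, inv, vs]
    linear_combination x.x * h0 - 3 * x.a * h4 - 3 * x.b * h5
  · simp only [T1, inv, vs]
    linear_combination x.x * h4 + x.a * h1 + x.b * h3
  · simp only [T1, inv, vs]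
    linear_combination x.x * h5 + x.a * h3 + x.b * h2

lemma T2_inv_T2 (f : Fr) (x : V2) : f.inv.T2 (f.T2 x) = x := by
  have h0 := f.v.eq
  have h1 := f.h1
  have h2 := f.h2
  have h3 := f.h3
  have h4 := f.h4
  have h5 := f.h5
  ext
  · simp only [T2, inv, vs]
    linear_combination x.y * h0 - x.c * h4 - x.d * h5
  · simp only [T2, inv, vs]
    linear_combination 3 * x.y * h4 + x.c * h1 + x.d * h3
  · simp only [T2, inv, vs]
    linear_combination 3 * x.y * h5 + x.c * h3 + x.d * h2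

lemma T1_T1_inv (f : Fr) (x : V1) : f.T1 (f.inv.T1 x) = x := by
  have := f.inv.T1_inv_T1 x
  rwa [inv_inv] at this

lemma T2_T2_inv (f : Fr) (x : V2) : f.T2 (f.inv.T2 x) = x := by
  have := f.inv.T2_inv_T2 x
  rwa [inv_inv] at this

lemma MM_T1 (f : Fr) (x y : V1) : MM (f.T1 x) (f.T1 y) = MM x y := by
  have h0 := f.v.eq
  have h1 := f.h1
  have h2 := f.h2
  have h3 := f.h3
  have h4 := f.h4
  have h5 := f.h5
  simp only [MM, T1]
  linear_combination x.x * y.x * h0 - 3 * x.a * y.a * h1 - 3 * x.b * y.b * h2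
    - 3 * (x.a * y.b + x.b * y.a) * h3 - 3 * (x.x * y.a + x.a * y.x) * h4
    - 3 * (x.x * y.b + x.b * y.x) * h5

lemma NN_T (f : Fr) (x : V1) (y : V2) : NN (f.T1 x) (f.T2 y) = NN x y := by
  have h0 := f.v.eq
  have h1 := f.h1
  have h2 := f.h2
  have h3 := f.h3
  have h4 := f.h4
  have h5 := f.h5
  simp only [NN, T1, T2]
  linear_combination x.x * y.y * h0 - x.a * y.c * h1 - x.b * y.d * h2
    - (x.a * y.d + x.b * y.c) * h3 - (x.x * y.c + 3 * x.a * y.y) * h4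
    - (x.x * y.d + 3 * x.b * y.y) * h5

end Fr

/-- the group of automorphisms -/
def Gam : Subgroup (Equiv.Perm V1 × Equiv.Perm V2) where
  carrier := {g | (∀ v w, MM (g.1 v) (g.1 w) = MM v w) ∧ (∀ v u, NN (g.1 v) (g.2 u) = NN v u)}
  mul_mem' := by
    rintro g h ⟨g1, g2⟩ ⟨h1, h2⟩
    refine ⟨fun v w => ?_, fun v u => ?_⟩
    · show MM (g.1 (h.1 v)) (g.1 (h.1 w)) = _
      rw [g1, h1]
    · show NN (g.1 (h.1 v)) (g.2 (h.2 u)) = _
      rw [g2, h2]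
  one_mem' := ⟨fun _ _ => rfl, fun _ _ => rfl⟩
  inv_mem' := by
    rintro g ⟨g1, g2⟩
    refine ⟨fun v w => ?_, fun v u => ?_⟩
    · show MM (g.1.symm v) (g.1.symm w) = _
      rw [← g1, Equiv.apply_symm_apply, Equiv.apply_symm_apply]
    · show NN (g.1.symm v) (g.2.symm u) = _
      rw [← g2, Equiv.apply_symm_apply, Equiv.apply_symm_apply]

lemma gMM (γ : Gam) (v w : V1) : MM (γ.1.1 v) (γ.1.1 w) = MM v w := γ.2.1 v w
lemma gNN (γ : Gam) (v : V1) (u : V2) : NN (γ.1.1 v) (γ.1.2 u) = NN v u := γ.2.2 v u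

/-- the automorphism of a frame -/
def Fr.toGam (f : Fr) : Gam :=
  ⟨(⟨f.T1, f.inv.T1, f.T1_inv_T1, f.T1_T1_inv⟩, ⟨f.T2, f.inv.T2, f.T2_inv_T2, f.T2_T2_inv⟩),
    f.MM_T1, f.NN_T⟩

/-- flags -/
@[ext] structure Fl where
  v : V1
  w : V1
  u : V2
  h1 : MM v w = 2
  h2 : NN v u = 1
  h3 : NN w u = 1

/-- the reference flag -/
def Fl0 : Fl := ⟨o, w0, u0, by decide, by decide, by decide⟩

/-- image of the reference flag -/
def gfl (γ : Gam) : Fl :=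
  ⟨γ.1.1 o, γ.1.1 w0, γ.1.2 u0, by rw [gMM γ]; decide, by rw [gNN γ]; decide,
    by rw [gNN γ]; decide⟩

lemma V1_ext_of_fl (F : Fl) {x x' : V1} (e1 : MM x F.v = MM x' F.v) (e2 : MM x F.w = MM x' F.w)
    (e3 : NN x F.u = NN x' F.u) : x = x' := by
  obtain ⟨v, w, u, h1, h2, h3⟩ := F
  simp only at e1 e2 e3
  have hv := v.eq
  have hw := w.eq
  have hu := u.eq
  unfold MM at e1 e2 h1
  unfold NN at e3 h2 h3
  set Δ := v.x * (3 * w.a * u.d - 3 * w.b * u.c) - 3 * v.a * (w.x * u.d - 3 * w.b * u.y)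
    + 3 * v.b * (w.x * u.c - 3 * w.a * u.y) with hΔ
  have hdet : Δ ^ 2 = 9 := by
    have key : -3 * Δ ^ 2 =
        (-3 * v.x ^ 2 + 9 * v.a ^ 2 + 9 * v.b ^ 2) * ((-3 * w.x ^ 2 + 9 * w.a ^ 2 + 9 * w.b ^ 2) *
          (-3 * u.y ^ 2 + u.c ^ 2 + u.d ^ 2)
          - (-3 * (w.x * u.y - w.a * u.c - w.b * u.d)) ^ 2)
        - (-3 * (v.x * w.x - 3 * v.a * w.a - 3 * v.b * w.b)) *
          ((-3 * (v.x * w.x - 3 * v.a * w.a - 3 * v.b * w.b)) * (-3 * u.y ^ 2 + u.c ^ 2 + u.d ^ 2)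
          - (-3 * (w.x * u.y - w.a * u.c - w.b * u.d)) *
            (-3 * (v.x * u.y - v.a * u.c - v.b * u.d)))
        + (-3 * (v.x * u.y - v.a * u.c - v.b * u.d)) *
          ((-3 * (v.x * w.x - 3 * v.a * w.a - 3 * v.b * w.b)) *
            (-3 * (w.x * u.y - w.a * u.c - w.b * u.d))
          - (-3 * w.x ^ 2 + 9 * w.a ^ 2 + 9 * w.b ^ 2) *
            (-3 * (v.x * u.y - v.a * u.c - v.b * u.d))) := by
      rw [hΔ]; ring
    rw [h1, h2, h3, show -3 * v.x ^ 2 + 9 * v.a ^ 2 + 9 * v.b ^ 2 = -3 by linarith,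
      show -3 * w.x ^ 2 + 9 * w.a ^ 2 + 9 * w.b ^ 2 = -3 by linarith,
      show -3 * u.y ^ 2 + u.c ^ 2 + u.d ^ 2 = -1 by linarith] at key
    linarith
  have hne : Δ ≠ 0 := by
    intro h
    rw [h] at hdet
    norm_num at hdet
  have E1 : (x.x - x'.x) * v.x - 3 * (x.a - x'.a) * v.a - 3 * (x.b - x'.b) * v.b = 0 := by
    linarith
  have E2 : (x.x - x'.x) * w.x - 3 * (x.a - x'.a) * w.a - 3 * (x.b - x'.b) * w.b = 0 := by
    linarith
  have E3 : (x.x - x'.x) * u.y - (x.a - x'.a) * u.c - (x.b - x'.b) * u.d = 0 := by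
    linarith
  have D0 : Δ * (x.x - x'.x) = 0 := by
    rw [hΔ]
    linear_combination (3 * w.a * u.d - 3 * w.b * u.c) * E1 - (3 * v.a * u.d - 3 * v.b * u.c) * E2
      + (9 * v.a * w.b - 9 * v.b * w.a) * E3
  have D1 : Δ * (x.a - x'.a) = 0 := by
    rw [hΔ]
    linear_combination (w.x * u.d - 3 * w.b * u.y) * E1 - (v.x * u.d - 3 * v.b * u.y) * E2
      + (3 * v.x * w.b - 3 * v.b * w.x) * E3
  have D2 : Δ * (x.b - x'.b) = 0 := by
    rw [hΔ]
    linear_combination -(w.x * u.c - 3 * w.a * u.y) * E1 + (v.x * u.c - 3 * v.a * u.y) * E2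
      - (3 * v.x * w.a - 3 * v.a * w.x) * E3
  have F0 := (mul_eq_zero.mp D0).resolve_left hne
  have F1 := (mul_eq_zero.mp D1).resolve_left hne
  have F2 := (mul_eq_zero.mp D2).resolve_left hne
  ext <;> linarith

lemma V2_ext {u u' : V2} (h : ∀ v : V1, NN v u = NN v u') : u = u' := by
  have h1 := h o
  have h2 := h w0
  have h3 := h ⟨2, 0, 1, by norm_num, by norm_num⟩
  unfold NN at h1 h2 h3
  simp only [o, w0] at h1 h2 h3
  ext <;> linarith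

lemma gfl_injective : Function.Injective gfl := by
  intro γ γ' h
  have h1 : γ.1.1 o = γ'.1.1 o := congrArg Fl.v h
  have h2 : γ.1.1 w0 = γ'.1.1 w0 := congrArg Fl.w h
  have h3 : γ.1.2 u0 = γ'.1.2 u0 := congrArg Fl.u h
  have k1 : γ.1.1 = γ'.1.1 := by
    ext1 x
    apply V1_ext_of_fl (gfl γ)
    · show MM (γ.1.1 x) (γ.1.1 o) = MM (γ'.1.1 x) (γ.1.1 o)
      rw [gMM γ, h1, gMM γ']
    · show MM (γ.1.1 x) (γ.1.1 w0) = MM (γ'.1.1 x) (γ.1.1 w0)
      rw [gMM γ, h2, gMM γ']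
    · show NN (γ.1.1 x) (γ.1.2 u0) = NN (γ'.1.1 x) (γ.1.2 u0)
      rw [gNN γ, h3, gNN γ']
  have k2 : γ.1.2 = γ'.1.2 := by
    ext1 u
    apply V2_ext
    intro v
    have e1 := gNN γ (γ.1.1.symm v) u
    have e2 := gNN γ' (γ.1.1.symm v) u
    rw [← k1] at e2
    rw [Equiv.apply_symm_apply] at e1 e2
    rw [e1, e2]
  exact Subtype.ext (Prod.ext k1 k2)

lemma three_dvd {v w : V1} (h : MM v w = 2) : ∃ e0 : ℤ, w.x = 2 * v.x + 3 * e0 := by
  have h1 : v.x * w.x = 2 + 3 * (v.a * w.a + v.b * w.b) := by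
    unfold MM at h
    linarith
  have h2 : (v.x * w.x) % 3 = 2 := by
    rw [h1]; omega
  have h3 : v.x % 3 = 0 ∨ v.x % 3 = 1 ∨ v.x % 3 = 2 := by omega
  have h4 : w.x % 3 = 0 ∨ w.x % 3 = 1 ∨ w.x % 3 = 2 := by omega
  have h5 : (w.x - 2 * v.x) % 3 = 0 := by
    rw [Int.mul_emod] at h2
    rcases h3 with h3 | h3 | h3 <;> rcases h4 with h4 | h4 | h4 <;> rw [h3, h4] at h2 <;>
      first
        | (exfalso; revert h2; decide)
        | omega
  exact ⟨(w.x - 2 * v.x) / 3, by omega⟩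

lemma gfl_surjective : Function.Surjective gfl := by
  intro F
  obtain ⟨v, w, u, h1, h2, h3⟩ := F
  obtain ⟨e0, he0⟩ := three_dvd h1
  have hv := v.eq
  have hw := w.eq
  have hu := u.eq
  have h1' := h1
  have h2' := h2
  have h3' := h3
  unfold MM at h1'
  unfold NN at h2' h3'
  obtain ⟨e1, he1⟩ : ∃ e1, w.a = 2 * v.a + e1 := ⟨w.a - 2 * v.a, by ring⟩
  obtain ⟨e2, he2⟩ : ∃ e2, w.b = 2 * v.b + e2 := ⟨w.b - 2 * v.b, by ring⟩
  obtain ⟨g0, hg0⟩ : ∃ g0, u.y = v.x + e0 + g0 := ⟨u.y - v.x - e0, by ring⟩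
  obtain ⟨g1, hg1⟩ : ∃ g1, u.c = 3 * v.a + e1 + g1 := ⟨u.c - 3 * v.a - e1, by ring⟩
  obtain ⟨g2, hg2⟩ : ∃ g2, u.d = 3 * v.b + e2 + g2 := ⟨u.d - 3 * v.b - e2, by ring⟩
  rw [he0, he1, he2] at h1' h3' hw
  rw [hg0, hg1, hg2] at h2' h3' hu
  -- orthogonality of `v` and `e`
  have k4 : -v.x * e0 + v.a * e1 + v.b * e2 = 0 := by nlinarith
  have k1 : -3 * e0 ^ 2 + e1 ^ 2 + e2 ^ 2 = 1 := by nlinarith
  have k5 : -v.x * g0 + v.a * g1 + v.b * g2 = 0 := by nlinarith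
  have k3 : -3 * e0 * g0 + e1 * g1 + e2 * g2 = 0 := by nlinarith
  have k2 : -3 * g0 ^ 2 + g1 ^ 2 + g2 ^ 2 = 1 := by nlinarith
  refine ⟨(⟨v, e0, e1, e2, g0, g1, g2, k1, k2, k3, k4, k5⟩ : Fr).toGam, ?_⟩
  apply Fl.ext
  · apply V1.ext
    · show (1 : ℤ) * v.x + 3 * 0 * e0 + 3 * 0 * g0 = v.x
      ring
    · show (1 : ℤ) * v.a + 0 * e1 + 0 * g1 = v.a
      ring
    · show (1 : ℤ) * v.b + 0 * e2 + 0 * g2 = v.b
      ring
  · apply V1.ext
    · show (2 : ℤ) * v.x + 3 * 1 * e0 + 3 * 0 * g0 = w.x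
      linarith
    · show (2 : ℤ) * v.a + 1 * e1 + 0 * g1 = w.a
      linarith
    · show (2 : ℤ) * v.b + 1 * e2 + 0 * g2 = w.b
      linarith
  · apply V2.ext
    · show (1 : ℤ) * v.x + 1 * e0 + 1 * g0 = u.y
      linarith
    · show 3 * (1 : ℤ) * v.a + 1 * e1 + 1 * g1 = u.c
      linarith
    · show 3 * (1 : ℤ) * v.b + 1 * e2 + 1 * g2 = u.d
      linarith

/-- automorphisms are the same as flags -/
noncomputable def gamEquiv : Gam ≃ Fl := Equiv.ofBijective gfl ⟨gfl_injective, gfl_surjective⟩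

end HExit
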