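import Pool.Agent.HExit.MtpA

/-!
# HExit: orbit sums
-/

open MeasureTheory ProbabilityTheory Filter Topology
open scoped ENNReal

namespace HExit

lemma tsum_fiber {α β : Type*} (p : α → β) (n : ℕ) (hn0 : n ≠ 0)
    (hn : ∀ b, {a | p a = b}.ncard = n) (h : β → ℝ≥0∞) :
    ∑' a, h (p a) = n * ∑' b, h b := by
  have e1 : ∑' a, h (p a) = ∑' b, ∑' a : {a // p a = b}, h (p a.1) := by
    rw [← ENNReal.tsum_sigma' (fun x : (Σ b, {a // p a = b}) => h (p x.2.1))]
    exact ((Equiv.sigmaFiberEquiv p).tsum_eq (fun a => h (p a))).symm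
  rw [e1, ← ENNReal.tsum_mul_left]
  congr 1
  ext b
  have hfin : {a | p a = b}.Finite := Set.finite_of_ncard_ne_zero (by rw [hn b]; exact hn0)
  have : Fintype {a // p a = b} := hfin.fintype
  have e2 : ∀ a : {a // p a = b}, h (p a.1) = h b := fun a => by rw [a.2]
  rw [tsum_congr e2, tsum_fintype, Finset.sum_const, nsmul_eq_mul]
  congr 2
  have := hn b
  rw [← Nat.card_coe_set_eq] at this
  rw [Finset.card_univ, ← Nat.card_eq_fintype_card]
  exact this

/-- the face of a flag -/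
def Fl.fc (F : Fl) : Face where
  e := s(F.v, F.w)
  u := F.u
  he := F.h1
  hu := by
    intro x hx
    rcases Sym2.mem_iff.mp hx with rfl | rfl
    · exact F.h2
    · exact F.h3

/-- the directed edge of a flag -/
def Fl.de (F : Fl) : DE := ⟨F.v, F.w, F.h1⟩

/-- the pair of vertices of the two kinds of a flag -/
def Fl.vu (F : Fl) : {p : V1 × V2 // NN p.1 p.2 = 1} := ⟨(F.v, F.u), F.h2⟩

lemma Fl.v_ne_w (F : Fl) : F.v ≠ F.w := by
  intro h
  have h1 := F.h1
  rw [← h, MM_self] at h1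
  exact absurd h1 (by norm_num)

lemma fl_of_face {G : Face} {v w : V1} (h : G.e = s(v, w)) :
    MM v w = 2 ∧ NN v G.u = 1 ∧ NN w G.u = 1 := by
  refine ⟨?_, G.hu v (by rw [h]; simp), G.hu w (by rw [h]; simp)⟩
  have := G.he
  rw [h] at this
  exact this

lemma ncard_de (e : DE) : {F : Fl | F.de = e}.ncard = 2 := by
  rw [← ncard_face_edge (s := s(e.v, e.w)) e.h]
  apply Set.ncard_congr (fun F _ => F.fc)
  · rintro F hF
    show s(F.v, F.w) = s(e.v, e.w)
    rw [← (show F.de = e from hF)]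
    rfl
  · rintro F F' hF hF' h
    have hF1 : F.de = F'.de := (show F.de = e from hF).trans (show F'.de = e from hF').symm
    apply Fl.ext
    · exact congrArg DE.v hF1
    · exact congrArg DE.w hF1
    · exact congrArg Face.u h
  · rintro G hG
    obtain ⟨h1, h2, h3⟩ := fl_of_face (show G.e = s(e.v, e.w) from hG)
    refine ⟨⟨e.v, e.w, G.u, h1, h2, h3⟩, rfl, ?_⟩
    apply Face.ext
    · exact (show G.e = s(e.v, e.w) from hG).symm
    · rfl

lemma ncard_vu (p : {p : V1 × V2 // NN p.1 p.2 = 1}) : {F : Fl | F.vu = p}.ncard = 2 := by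
  obtain ⟨⟨v, u⟩, hp⟩ := p
  rw [← ncard_face_vu (v := v) (u := u) hp]
  apply Set.ncard_congr (fun F _ => F.fc)
  · rintro F hF
    have hF1 : F.vu = ⟨(v, u), hp⟩ := hF
    have h1 : F.v = v := congrArg (fun q => q.1.1) hF1
    have h2 : F.u = u := congrArg (fun q => q.1.2) hF1
    refine ⟨h2, ?_⟩
    show v ∈ s(F.v, F.w)
    rw [h1]
    simp
  · rintro F F' hF hF' h
    have hF1 : F.vu = F'.vu := (show F.vu = _ from hF).trans (show F'.vu = _ from hF').symm
    have h1 : F.v = F'.v := congrArg (fun q => q.1.1) hF1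
    have h2 : F.u = F'.u := congrArg (fun q => q.1.2) hF1
    apply Fl.ext h1 ?_ h2
    have h3 : s(F.v, F.w) = s(F'.v, F'.w) := congrArg Face.e h
    rw [h1] at h3
    exact Sym2.congr_right.mp h3
  · rintro G ⟨hG1, hG2⟩
    obtain ⟨w, hw⟩ := Sym2.mem_iff_exists.mp hG2
    obtain ⟨h1, h2, h3⟩ := fl_of_face hw
    refine ⟨⟨v, w, G.u, h1, h2, h3⟩, ?_, ?_⟩
    · show (⟨(v, G.u), _⟩ : {p : V1 × V2 // NN p.1 p.2 = 1}) = ⟨(v, u), hp⟩
      apply Subtype.ext
      show (v, G.u) = (v, u)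
      rw [hG1]
    · apply Face.ext
      · exact hw.symm
      · rfl

lemma ncard_fc (G : Face) : {F : Fl | F.fc = G}.ncard = 2 := by
  obtain ⟨v, w, hvw⟩ : ∃ v w, G.e = s(v, w) := by
    induction h : G.e with
    | _ v w => exact ⟨v, w, rfl⟩
  obtain ⟨h1, h2, h3⟩ := fl_of_face hvw
  obtain ⟨h1', h2', h3'⟩ := fl_of_face (hvw.trans Sym2.eq_swap)
  have hne : (⟨v, w, G.u, h1, h2, h3⟩ : Fl) ≠ ⟨w, v, G.u, h1', h2', h3'⟩ := by
    intro h
    exact Fl.v_ne_w ⟨v, w, G.u, h1, h2, h3⟩ (congrArg Fl.v h)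
  rw [show {F : Fl | F.fc = G} = {(⟨v, w, G.u, h1, h2, h3⟩ : Fl), ⟨w, v, G.u, h1', h2', h3'⟩} from ?_,
    Set.ncard_pair hne]
  ext F
  simp only [Set.mem_ofPred_eq, Set.mem_insert_iff, Set.mem_singleton_iff]
  constructor
  · intro h
    have k1 : s(F.v, F.w) = s(v, w) := (congrArg Face.e h).trans hvw
    have k2 : F.u = G.u := congrArg Face.u h
    rcases Sym2.eq_iff.mp k1 with ⟨a, b⟩ | ⟨a, b⟩
    · left
      exact Fl.ext a b k2
    · right
      exact Fl.ext a b k2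
  · rintro (rfl | rfl)
    · apply Face.ext
      · exact hvw.symm
      · rfl
    · apply Face.ext
      · exact (hvw.trans Sym2.eq_swap).symm
      · rfl

lemma tsum_fl_v (h : V1 → ℝ≥0∞) : ∑' F : Fl, h F.v = 8 * ∑' v, h v := by
  have e1 := tsum_fiber (fun F : Fl => F.de) 2 (by norm_num) ncard_de (fun e => h e.v)
  have e2 := tsum_fiber (fun e : DE => e.v) 4 (by norm_num) ncard_DE h
  rw [e2] at e1
  have e3 : ∑' F : Fl, h F.v = ((2 : ℕ) : ℝ≥0∞) * (((4 : ℕ) : ℝ≥0∞) * ∑' v, h v) := e1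
  rw [e3, ← mul_assoc]
  norm_num

lemma tsum_fl_u (h : V2 → ℝ≥0∞) : ∑' F : Fl, h F.u = 12 * ∑' u, h u := by
  have e1 := tsum_fiber (fun F : Fl => F.vu) 2 (by norm_num) ncard_vu (fun e => h e.1.2)
  have e2 := tsum_fiber (fun e : {p : V1 × V2 // NN p.1 p.2 = 1} => e.1.2) 6 (by norm_num)
    (fun u => by
      rw [← ncard_nbr21 u]
      apply Set.ncard_congr (fun e _ => e.1.1)
      · rintro ⟨⟨v, u'⟩, hv⟩ (rfl : u' = u)
        exact hv
      · rintro ⟨⟨v, u'⟩, hv⟩ ⟨⟨v', u''⟩, hv'⟩ (rfl : u' = u) (rfl : u'' = u') (rfl : v = v')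
        rfl
      · rintro v hv
        exact ⟨⟨(v, u), hv⟩, rfl, rfl⟩) h
  rw [e2] at e1
  have e3 : ∑' F : Fl, h F.u = ((2 : ℕ) : ℝ≥0∞) * (((6 : ℕ) : ℝ≥0∞) * ∑' v, h v) := e1
  rw [e3, ← mul_assoc]
  norm_num

lemma tsum_fl_fc (h : Face → ℝ≥0∞) : ∑' F : Fl, h F.fc = 2 * ∑' F, h F :=
  tsum_fiber (fun F : Fl => F.fc) 2 (by norm_num) ncard_fc h

/-! ### the action -/

/-- the action on faces -/
def fcMap (γ : Gam) (F : Face) : Face where
  e := F.e.map γ.1.1
  u := γ.1.2 F.u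
  he := by
    obtain ⟨e, u, he, hu⟩ := F
    revert he hu
    induction e with
    | _ v w =>
      intro he hu
      show MM (γ.1.1 v) (γ.1.1 w) = 2
      rw [gMM]
      exact he
  hu := by
    intro x hx
    obtain ⟨y, hy, rfl⟩ := Sym2.mem_map.mp hx
    rw [gNN]
    exact F.hu y hy

/-- the action on vertices -/
def vxMap (γ : Gam) : VX → VX
  | VX.p v => VX.p (γ.1.1 v)
  | VX.q u => VX.q (γ.1.2 u)
  | VX.t F j => VX.t (fcMap γ F) j

/-- the action on directed edges -/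
def deMap (γ : Gam) (e : DE) : DE := ⟨γ.1.1 e.v, γ.1.1 e.w, by rw [gMM]; exact e.h⟩

lemma fcMap_mul (γ δ : Gam) (F : Face) : fcMap (γ * δ) F = fcMap γ (fcMap δ F) := by
  apply Face.ext
  · show F.e.map (γ.1.1 * δ.1.1 : Equiv.Perm V1) = (F.e.map δ.1.1).map γ.1.1
    rw [Sym2.map_map]
    rfl
  · rfl

lemma fcMap_one (F : Face) : fcMap 1 F = F := by
  apply Face.ext
  · show F.e.map (id : V1 → V1) = F.e
    rw [Sym2.map_id]
    rfl
  · rfl

lemma vxMap_mul (γ δ : Gam) (x : VX) : vxMap (γ * δ) x = vxMap γ (vxMap δ x) := by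
  cases x with
  | p v => rfl
  | q u => rfl
  | t F j =>
    show VX.t (fcMap (γ * δ) F) j = VX.t (fcMap γ (fcMap δ F)) j
    rw [fcMap_mul]

lemma vxMap_one (x : VX) : vxMap 1 x = x := by
  cases x with
  | p v => rfl
  | q u => rfl
  | t F j =>
    show VX.t (fcMap 1 F) j = VX.t F j
    rw [fcMap_one]

/-- the action on vertices, as a permutation -/
def vxPerm (γ : Gam) : Equiv.Perm VX where
  toFun := vxMap γ
  invFun := vxMap γ⁻¹
  left_inv x := by rw [← vxMap_mul, inv_mul_cancel, vxMap_one]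
  right_inv x := by rw [← vxMap_mul, mul_inv_cancel, vxMap_one]

/-- the action on directed edges, as an equivalence -/
def dePerm (γ : Gam) : Equiv.Perm DE where
  toFun := deMap γ
  invFun := deMap γ⁻¹
  left_inv x := by
    apply DE.ext
    · show γ.1.1.symm (γ.1.1 x.v) = x.v
      simp
    · show γ.1.1.symm (γ.1.1 x.w) = x.w
      simp
  right_inv x := by
    apply DE.ext
    · show γ.1.1 (γ.1.1.symm x.v) = x.v
      simp
    · show γ.1.1 (γ.1.1.symm x.w) = x.w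
      simp

lemma fcMap_F0 (γ : Gam) : fcMap γ F0 = (gfl γ).fc := by
  apply Face.ext
  · rfl
  · rfl

/-! ### sums over all vertices -/

/-- the vertices as a sum type -/
def vxSum : VX ≃ V1 ⊕ V2 ⊕ (ℕ × Face) where
  toFun
    | VX.p v => Sum.inl v
    | VX.q u => Sum.inr (Sum.inl u)
    | VX.t F j => Sum.inr (Sum.inr (j, F))
  invFun
    | Sum.inl v => VX.p v
    | Sum.inr (Sum.inl u) => VX.q u
    | Sum.inr (Sum.inr (j, F)) => VX.t F j
  left_inv x := by cases x <;> rfl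
  right_inv x := by rcases x with _ | _ | _ <;> rfl

lemma tsum_VX (h : VX → ℝ≥0∞) :
    ∑' x, h x = ∑' v, h (VX.p v) + (∑' u, h (VX.q u) + ∑' j : ℕ, ∑' F, h (VX.t F j)) := by
  rw [← vxSum.symm.tsum_eq h, Summable.tsum_sum ENNReal.summable ENNReal.summable,
    Summable.tsum_sum ENNReal.summable ENNReal.summable, ENNReal.tsum_prod']
  rfl

lemma orbit_sum (h : VX → ℝ≥0∞) :
    ∑' x, h x = ∑' i : ℕ, cw i * ∑' γ : Gam, h (vxMap γ (root i)) := by
  rw [tsum_VX, tsum_eq_zero_add' (f := fun i : ℕ => cw i * ∑' γ : Gam, h (vxMap γ (root i)))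
    ENNReal.summable, tsum_eq_zero_add' (f := fun i : ℕ => cw (i + 1) *
      ∑' γ : Gam, h (vxMap γ (root (i + 1)))) ENNReal.summable]
  congr 1
  · have e1 : ∑' γ : Gam, h (vxMap γ (root 0)) = ∑' F : Fl, h (VX.p F.v) :=
      gamEquiv.tsum_eq (fun F : Fl => h (VX.p F.v))
    rw [e1, tsum_fl_v (fun v => h (VX.p v)), ← mul_assoc]
    show _ = (1 / 8 * 8) * _
    rw [ENNReal.div_mul_cancel (by norm_num) (by norm_num), one_mul]
  · congr 1
    · have e1 : ∑' γ : Gam, h (vxMap γ (root (0 + 1))) = ∑' F : Fl, h (VX.q F.u) :=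
        gamEquiv.tsum_eq (fun F : Fl => h (VX.q F.u))
      rw [e1, tsum_fl_u (fun v => h (VX.q v)), ← mul_assoc]
      show _ = (1 / 12 * 12) * _
      rw [ENNReal.div_mul_cancel (by norm_num) (by norm_num), one_mul]
    · congr 1
      ext j
      have e1 : ∑' γ : Gam, h (vxMap γ (root (j + 1 + 1))) = ∑' F : Fl, h (VX.t F.fc j) :=
        gamEquiv.tsum_eq (fun F : Fl => h (VX.t F.fc j))
      rw [e1, tsum_fl_fc (fun v => h (VX.t v j)), ← mul_assoc]
      show _ = (1 / 2 * 2) * _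
      rw [ENNReal.div_mul_cancel (by norm_num) (by norm_num), one_mul]

/-- mass transport for diagonally invariant functions -/
lemma mass_transport (φ : VX → VX → ℝ≥0∞)
    (hφ : ∀ (γ : Gam) (x y : VX), φ (vxMap γ x) (vxMap γ y) = φ x y) :
    ∑' j : ℕ, cw j * ∑' y, φ (root j) y = ∑' j : ℕ, cw j * ∑' y, φ y (root j) := by
  have e1 : ∀ j : ℕ, cw j * ∑' y, φ (root j) y
      = ∑' i : ℕ, cw j * (cw i * ∑' γ : Gam, φ (root j) (vxMap γ (root i))) := fun j => by
    rw [orbit_sum (fun y => φ (root j) y), ENNReal.tsum_mul_left]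
  have e2 : ∀ j : ℕ, cw j * ∑' y, φ y (root j)
      = ∑' i : ℕ, cw j * (cw i * ∑' γ : Gam, φ (vxMap γ (root i)) (root j)) := fun j => by
    rw [orbit_sum (fun y => φ y (root j)), ENNReal.tsum_mul_left]
  rw [tsum_congr e1, tsum_congr e2, ENNReal.tsum_comm]
  congr 1
  ext i
  congr 1
  ext j
  have e3 : ∑' γ : Gam, φ (root j) (vxMap γ (root i)) = ∑' γ : Gam, φ (vxMap γ (root j)) (root i) := by
    rw [← (Equiv.inv Gam).tsum_eq (fun γ : Gam => φ (vxMap γ (root j)) (root i))]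
    congr 1
    ext γ
    have := hφ γ⁻¹ (root j) (vxMap γ (root i))
    rw [← vxMap_mul, inv_mul_cancel, vxMap_one] at this
    exact this.symm
  rw [e3]
  ring

end HExit
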