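import Pool.Agent.HExit.MtpB
import Pool.Agent.HExit.Env

/-!
# HExit: invariance of the environment, unimodularity
-/

open MeasureTheory ProbabilityTheory Filter Topology
open scoped ENNReal

namespace HExit

/-! ### equivariance -/

lemma dist_le_map (γ : Gam) (x y : V1) : HG.dist (γ.1.1 x) (γ.1.1 y) ≤ HG.dist x y := by
  obtain ⟨w, hw⟩ := HG_connected.exists_walk_length_eq_dist x y
  let f : HG →g HG := ⟨γ.1.1, fun {a b} h => by
    show MM (γ.1.1 a) (γ.1.1 b) = 2
    rw [gMM]; exact h⟩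
  have := SimpleGraph.dist_le (w.map f)
  rw [SimpleGraph.Walk.length_map, hw] at this
  exact this

lemma dist_map (γ : Gam) (x y : V1) : HG.dist (γ.1.1 x) (γ.1.1 y) = HG.dist x y := by
  apply le_antisymm (dist_le_map γ x y)
  have := dist_le_map γ⁻¹ (γ.1.1 x) (γ.1.1 y)
  have e1 : ∀ x, (γ⁻¹).1.1 (γ.1.1 x) = x := fun x => γ.1.1.symm_apply_apply x
  rw [e1, e1] at this
  exact this

/-- the next vertex on a line is determined by products -/
lemma next_unique {v w x : V1} (h1 : MM v w = 2) (h2 : MM v x = 7) (h3 : MM w x = 2) :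
    x.x = 4 * w.x - v.x ∧ x.a = 4 * w.a - v.a ∧ x.b = 4 * w.b - v.b := by
  let y : V1 := (DE.next ⟨v, w, h1⟩).w
  have hyx : y.x = 4 * w.x - v.x := rfl
  have hya : y.a = 4 * w.a - v.a := rfl
  have hyb : y.b = 4 * w.b - v.b := rfl
  have : MM x y = 1 := by
    unfold MM at h2 h3 ⊢
    rw [hyx, hya, hyb]
    linarith
  have := MM_eq_one.mp this
  rw [this, hyx, hya, hyb]
  exact ⟨rfl, rfl, rfl⟩

lemma deMap_next (γ : Gam) (e : DE) : deMap γ e.next = (deMap γ e).next := by
  have h1 : MM (γ.1.1 e.v) (γ.1.1 e.w) = 2 := by rw [gMM]; exact e.h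
  have h2 : MM (γ.1.1 e.v) (γ.1.1 e.next.w) = 7 := by
    rw [gMM]
    have h := e.h
    have hv := e.v.eq
    have hw := e.w.eq
    unfold MM at h ⊢
    show e.v.x * (4 * e.w.x - e.v.x) - 3 * e.v.a * (4 * e.w.a - e.v.a)
      - 3 * e.v.b * (4 * e.w.b - e.v.b) = 7
    linarith
  have h3 : MM (γ.1.1 e.w) (γ.1.1 e.next.w) = 2 := by rw [gMM]; exact e.next.h
  obtain ⟨k1, k2, k3⟩ := next_unique h1 h2 h3
  apply DE.ext
  · rfl
  · exact V1.ext k1 k2 k3

lemma pth_map (γ : Gam) (e : DE) (i : ℕ) : pth (deMap γ e) i = γ.1.1 (pth e i) := by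
  have : ∀ i, DE.next^[i] (deMap γ e) = deMap γ (DE.next^[i] e) := by
    intro i
    induction i with
    | zero => rfl
    | succ i ih =>
      rw [Function.iterate_succ_apply', Function.iterate_succ_apply', ih, deMap_next]
  unfold pth
  rw [this]
  rfl

lemma Kc_map (γ : Gam) (e : DE) (n : ℕ) (y : V1) : γ.1.1 y ∈ Kc (deMap γ e) n ↔ y ∈ Kc e n := by
  unfold Kc
  simp only [Set.mem_ofPred_eq, pth_map, dist_map, EmbeddingLike.apply_eq_iff_eq]

lemma mem_edgeSet_map (γ : Gam) (s : Sym2 V1) : s.map γ.1.1 ∈ HG.edgeSet ↔ s ∈ HG.edgeSet := by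
  induction s with
  | _ v w =>
    show MM (γ.1.1 v) (γ.1.1 w) = 2 ↔ MM v w = 2
    rw [gMM]

lemma inK_map (γ : Gam) (e : DE) (n : ℕ) (s : Sym2 V1) :
    inK (deMap γ e) n (s.map γ.1.1) ↔ inK e n s := by
  unfold inK
  rw [mem_edgeSet_map]
  constructor
  · rintro ⟨h1, h2⟩
    refine ⟨h1, fun y hy => ?_⟩
    rw [← Kc_map γ]
    exact h2 _ (Sym2.mem_map.mpr ⟨y, hy, rfl⟩)
  · rintro ⟨h1, h2⟩
    refine ⟨h1, fun y hy => ?_⟩
    obtain ⟨z, hz, rfl⟩ := Sym2.mem_map.mp hy
    rw [Kc_map]
    exact h2 _ hz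

/-- the action on marks -/
def ixPerm (γ : Gam) : Equiv.Perm Idx := (dePerm γ).prodCongr (Equiv.refl ℕ)

/-- the action on environments -/
def envMap (γ : Gam) (ω : Idx → Bool) : Idx → Bool := fun i => ω (ixPerm γ i)

lemma kE_map (γ : Gam) (ω : Idx → Bool) (s : Sym2 V1) :
    kE ω (s.map γ.1.1) = kE (envMap γ ω) s := by
  unfold kE
  rw [← (ixPerm γ).tsum_eq]
  congr 1
  ext i
  have h1 : inK (ixPerm γ i).1 (ixPerm γ i).2 (s.map γ.1.1) ↔ inK i.1 i.2 s := inK_map γ i.1 i.2 s
  rw [h1]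
  rfl

lemma kk_map (γ : Gam) (ω : Idx → Bool) (s : Sym2 V1) :
    kk ω (s.map γ.1.1) = kk (envMap γ ω) s := by
  unfold kk
  rw [kE_map]

instance (n : ℕ) : IsProbabilityMeasure (markLaw n) := markLaw_prob n

instance : IsProbabilityMeasure PP := by unfold PP; infer_instance

lemma measurePreserving_envMap (γ : Gam) : MeasurePreserving (envMap γ) PP PP := by
  have h1 : Measurable (envMap γ) := by
    apply measurable_pi_lambda
    intro i
    exact measurable_pi_apply _
  refine ⟨h1, ?_⟩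
  have h2 := Measure.infinitePi_map_piCongrLeft (X := fun _ : Idx => Bool)
    (fun i : Idx => markLaw i.2) (ixPerm γ).symm
  have h3 : (MeasurableEquiv.piCongrLeft (fun _ : Idx => Bool) (ixPerm γ).symm : (Idx → Bool) →
      (Idx → Bool)) = envMap γ := by
    ext ω i
    have := MeasurableEquiv.piCongrLeft_apply_apply (ixPerm γ).symm (β := fun _ : Idx => Bool)
      ω (ixPerm γ i)
    rw [Equiv.symm_apply_apply] at this
    exact this
  rw [h3] at h2
  exact h2

lemma fcMap_injective (γ : Gam) : Function.Injective (fcMap γ) := by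
  intro F F' h
  have := congrArg (fcMap γ⁻¹) h
  rwa [← fcMap_mul, ← fcMap_mul, inv_mul_cancel, fcMap_one, fcMap_one] at this

lemma mem_map_iff (γ : Gam) (s : Sym2 V1) (v : V1) : γ.1.1 v ∈ s.map γ.1.1 ↔ v ∈ s := by
  rw [Sym2.mem_map]
  constructor
  · rintro ⟨w, hw, h⟩
    rwa [← γ.1.1.injective h]
  · intro h
    exact ⟨v, h, rfl⟩

lemma adj_vxMap (γ : Gam) {k k' : Sym2 V1 → ℕ} (hk : ∀ s, k' (s.map γ.1.1) = k s) (x y : VX) :
    (GX k').Adj (vxMap γ x) (vxMap γ y) ↔ (GX k).Adj x y := by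
  have hF : ∀ F : Face, k' (fcMap γ F).e = k F.e := fun F => hk F.e
  have hm : ∀ (F : Face) (v : V1), γ.1.1 v ∈ (fcMap γ F).e ↔ v ∈ F.e := fun F v =>
    mem_map_iff γ F.e v
  have hu : ∀ (F : Face) (u : V2), γ.1.2 u = (fcMap γ F).u ↔ u = F.u := fun F u =>
    γ.1.2.apply_eq_iff_eq
  have hi : ∀ F F' : Face, fcMap γ F = fcMap γ F' ↔ F = F' := fun F F' =>
    (fcMap_injective γ).eq_iff
  show adjX k' (vxMap γ x) (vxMap γ y) ↔ adjX k x y
  cases x <;> cases y <;> simp only [vxMap, adjX, gMM, gNN, hF, hm, hu, hi]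

lemma mem_SX_vxMap (γ : Gam) {k k' : Sym2 V1 → ℕ} (hk : ∀ s, k' (s.map γ.1.1) = k s) (x : VX) :
    vxMap γ x ∈ SX k' ↔ x ∈ SX k := by
  cases x with
  | p v => exact Iff.rfl
  | q u => exact Iff.rfl
  | t F j =>
    show j < k' (F.e.map γ.1.1) ↔ j < k F.e
    rw [hk]

/-! ### connectedness -/

lemma SX_of_adj {k : Sym2 V1 → ℕ} {x y : VX} (h : (GX k).Adj x y) : x ∈ SX k := by
  have h' : adjX k x y := h
  cases x with
  | p v => exact trivial
  | q u => exact trivial
  | t F j =>
    show j < k F.e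
    cases y <;> simp only [adjX] at h'
    · exact h'.1
    · rw [h'.1]; exact h'.2.1
    · exact h'.2.2.1

lemma reach_pp (k : Sym2 V1 → ℕ) (v w : V1) : (GX k).Reachable (VX.p v) (VX.p w) := by
  have h := HG_connected.preconnected v w
  let f : HG →g GX k := ⟨VX.p, fun {a b} h => h⟩
  exact h.map f

lemma exists_mem_e (F : Face) : ∃ v, v ∈ F.e := by
  induction h : F.e with
  | _ v w => exact ⟨v, by simp⟩

lemma reach_p (k : Sym2 V1 → ℕ) {x : VX} (hx : x ∈ SX k) (w : V1) :
    (GX k).Reachable x (VX.p w) := by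
  cases x with
  | p v => exact reach_pp k v w
  | q u =>
    obtain ⟨v, hv⟩ : {v : V1 | NN v u = 1}.Nonempty := by
      apply Set.nonempty_of_ncard_ne_zero
      rw [ncard_nbr21]
      norm_num
    have : (GX k).Adj (VX.q u) (VX.p v) := hv
    exact this.reachable.trans (reach_pp k v w)
  | t F j =>
    obtain ⟨v, hv⟩ := exists_mem_e F
    have : (GX k).Adj (VX.t F j) (VX.p v) := ⟨hx, hv⟩
    exact this.reachable.trans (reach_pp k v w)

lemma reach_SX {k : Sym2 V1 → ℕ} {x y : VX} (h : (GX k).Reachable x y) (hx : x ∈ SX k) :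
    y ∈ SX k := by
  obtain ⟨w⟩ := h
  induction w with
  | nil => exact hx
  | cons h p ih => exact ih (SX_of_adj h.symm)

lemma comp_eq {k : Sym2 V1 → ℕ} {x : VX} (hx : x ∈ SX k) : comp (GX k) x = SX k := by
  ext y
  constructor
  · intro h
    exact reach_SX h hx
  · intro h
    exact (reach_p k hx o).trans (reach_p k h o).symm

/-! ### measurability -/

lemma measurable_kk (s : Sym2 V1) : Measurable (fun ω : Idx → Bool => kk ω s) := by
  unfold kk
  exact Nat.measurable_floor.comp (measurable_kE s).ennreal_toReal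

lemma measurableSet_lt_kk (s : Sym2 V1) (j : ℕ) : MeasurableSet {ω : Idx → Bool | j < kk ω s} :=
  measurableSet_lt measurable_const (measurable_kk s)

lemma measurableSet_SX (x : VX) : MeasurableSet {ω : Idx → Bool | x ∈ SX (kk ω)} := by
  cases x with
  | p v => exact MeasurableSet.univ
  | q u => exact MeasurableSet.univ
  | t F j => exact measurableSet_lt_kk F.e j

lemma measurableSet_adj (x y : VX) : MeasurableSet {ω : Idx → Bool | (GX (kk ω)).Adj x y} := by
  show MeasurableSet {ω : Idx → Bool | adjX (kk ω) x y}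
  cases x <;> cases y <;> simp only [adjX]
  · exact MeasurableSet.const _
  · exact MeasurableSet.const _
  · exact (measurableSet_lt_kk _ _).inter (MeasurableSet.const _)
  · exact MeasurableSet.const _
  · exact MeasurableSet.const _
  · exact (MeasurableSet.const _).inter ((measurableSet_lt_kk _ _).inter (MeasurableSet.const _))
  · exact (measurableSet_lt_kk _ _).inter (MeasurableSet.const _)
  · exact (MeasurableSet.const _).inter ((measurableSet_lt_kk _ _).inter (MeasurableSet.const _))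
  · exact (MeasurableSet.const _).inter ((MeasurableSet.const _).inter
      ((measurableSet_lt_kk _ _).inter (measurableSet_lt_kk _ _)))

lemma measurable_adj : Measurable (fun ω : Idx → Bool => (GX (kk ω)).Adj) := by
  apply measurable_pi_lambda
  intro x
  apply measurable_pi_lambda
  intro y
  exact measurableSet_setOfPred.mp (measurableSet_adj x y)

/-! ### the transported mass -/

open Classical in
/-- mass sent from `x` to `y` in the environment `ω` -/
noncomputable def Ph (f : (VX → VX → Prop) → VX → VX → ℝ≥0∞) (ω : Idx → Bool) (x y : VX) : ℝ≥0∞ :=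
  if x ∈ SX (kk ω) ∧ y ∈ SX (kk ω) then f (GX (kk ω)).Adj x y else 0

lemma measurable_Ph {f : (VX → VX → Prop) → VX → VX → ℝ≥0∞}
    (hf : ∀ x y, Measurable (fun A => f A x y)) (x y : VX) : Measurable (fun ω => Ph f ω x y) := by
  unfold Ph
  apply Measurable.ite ((measurableSet_SX x).inter (measurableSet_SX y)) _ measurable_const
  exact (hf x y).comp measurable_adj

lemma Ph_map {f : (VX → VX → Prop) → VX → VX → ℝ≥0∞}
    (hf : ∀ (σ : Equiv.Perm VX) (A : VX → VX → Prop) (x y : VX),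
      f (fun a b => A (σ.symm a) (σ.symm b)) (σ x) (σ y) = f A x y) (γ : Gam)
    (ω : Idx → Bool) (x y : VX) : Ph f ω (vxMap γ x) (vxMap γ y) = Ph f (envMap γ ω) x y := by
  have hk : ∀ s : Sym2 V1, kk ω (s.map γ.1.1) = kk (envMap γ ω) s := kk_map γ ω
  unfold Ph
  rw [mem_SX_vxMap γ hk, mem_SX_vxMap γ hk]
  congr 1
  have h := hf (vxPerm γ) (GX (kk (envMap γ ω))).Adj x y
  have e1 : (fun a b => (GX (kk (envMap γ ω))).Adj ((vxPerm γ).symm a) ((vxPerm γ).symm b))
      = (GX (kk ω)).Adj := by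
    ext a b
    rw [← adj_vxMap γ hk]
    show (GX (kk ω)).Adj ((vxPerm γ) ((vxPerm γ).symm a)) ((vxPerm γ) ((vxPerm γ).symm b)) ↔ _
    rw [Equiv.apply_symm_apply, Equiv.apply_symm_apply]
  rw [e1] at h
  exact h

open Classical in
lemma lintegral_mu0 (g : (Idx → Bool) × ℕ → ℝ≥0∞) (g' : (Idx → Bool) → ℕ → ℝ≥0∞)
    (hg' : ∀ j, Measurable (fun ω => g' ω j))
    (h : ∀ ω j, root j ∈ SX (kk ω) → g (ω, j) = g' ω j) :
    ∫⁻ p, g p ∂mu0 = ∑' j : ℕ, cw j * ∫⁻ ω, (if root j ∈ SX (kk ω) then g' ω j else 0) ∂PP := by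
  have hD : Measurable (fun p : (Idx → Bool) × ℕ =>
      (if root p.2 ∈ SX (kk p.1) then cw p.2 else 0 : ℝ≥0∞)) := by
    apply measurable_from_prod_countable_left
    intro j
    show Measurable (fun ω : Idx → Bool => if root j ∈ SX (kk ω) then cw j else 0)
    exact Measurable.ite (measurableSet_SX (root j)) measurable_const measurable_const
  have hg'm : Measurable (fun p : (Idx → Bool) × ℕ => g' p.1 p.2) :=
    measurable_from_prod_countable_left hg'
  have e1 : ∫⁻ p, g p ∂mu0 = ∫⁻ p, g' p.1 p.2 ∂mu0 := by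
    apply lintegral_congr_ae
    unfold mu0
    rw [Filter.EventuallyEq, ae_withDensity_iff hD]
    refine ae_of_all _ fun p hp => h p.1 p.2 ?_
    by_contra hc
    rw [if_neg hc] at hp
    exact hp rfl
  rw [e1]
  unfold mu0
  rw [lintegral_withDensity_eq_lintegral_mul _ hD hg'm, lintegral_prod_symm _
    (hD.mul hg'm).aemeasurable, lintegral_count]
  congr 1
  ext j
  rw [← lintegral_const_mul _ (Measurable.ite (measurableSet_SX (root j)) (hg' j)
    measurable_const)]
  apply lintegral_congr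
  intro ω
  show (if root j ∈ SX (kk ω) then cw j else 0) * g' ω j = _
  split_ifs <;> simp

theorem unimodular_mu0 : Unimodular mu0 (fun p => GX (kk p.1)) (fun p => root p.2) := by
  classical
  intro f hfm hfi
  have := countable_VX
  have key : ∀ F : (Idx → Bool) → ℕ → VX → ℝ≥0∞, (∀ j y, Measurable (fun ω => F ω j y)) →
      ∫⁻ p, ∑' y : comp (GX (kk p.1)) (root p.2), F p.1 p.2 y.1 ∂mu0
        = ∑' j : ℕ, cw j * ∑' y, ∫⁻ ω, (if root j ∈ SX (kk ω) ∧ y ∈ SX (kk ω)
          then F ω j y else 0) ∂PP := by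
    intro F hF
    have hind : ∀ j y, Measurable (fun ω => if y ∈ SX (kk ω) then F ω j y else 0) := fun j y =>
      Measurable.ite (measurableSet_SX y) (hF j y) measurable_const
    rw [lintegral_mu0 _ (fun ω j => ∑' y, if y ∈ SX (kk ω) then F ω j y else 0)]
    · congr 1
      ext j
      congr 1
      rw [← lintegral_tsum]
      · apply lintegral_congr
        intro ω
        by_cases h : root j ∈ SX (kk ω)
        · simp [h]
        · simp [h]
      · intro y
        exact (Measurable.ite ((measurableSet_SX _).inter (measurableSet_SX y)) (hF j y)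
          measurable_const).aemeasurable
    · intro j
      exact Measurable.tsum (hind j)
    · intro ω j hj
      show ∑' y : comp (GX (kk ω)) (root j), F ω j y.1 = _
      rw [comp_eq hj, tsum_subtype (SX (kk ω)) (fun y => F ω j y)]
      congr 1
  rw [key (fun ω j y => f (GX (kk ω)).Adj (root j) y) (fun j y => (hfm _ _).comp measurable_adj),
    key (fun ω j y => f (GX (kk ω)).Adj y (root j)) (fun j y => (hfm _ _).comp measurable_adj)]
  have hφ : ∀ (γ : Gam) (x y : VX), ∫⁻ ω, Ph f ω (vxMap γ x) (vxMap γ y) ∂PP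
      = ∫⁻ ω, Ph f ω x y ∂PP := by
    intro γ x y
    rw [← (measurePreserving_envMap γ).lintegral_comp (measurable_Ph hfm x y)]
    apply lintegral_congr
    intro ω
    exact Ph_map hfi γ ω x y
  have := mass_transport (fun x y => ∫⁻ ω, Ph f ω x y ∂PP) hφ
  simp only [Ph] at this
  rw [this]
  congr 1
  ext j
  congr 1
  apply tsum_congr
  intro y
  apply lintegral_congr
  intro ω
  by_cases h1 : root j ∈ SX (kk ω) <;> by_cases h2 : y ∈ SX (kk ω) <;> simp [h1, h2]

end HExit
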