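import Pool.Agent.HExit.Geo
import Pool.Agent.HExit.Cov

/-!
# HExit: the circle packing
-/

open MeasureTheory ProbabilityTheory Filter Topology
open scoped ENNReal

namespace HExit

open R31

/-! ### convex hulls of three points -/

lemma mem_hull3 {A B C p : ℂ} : p ∈ convexHull ℝ ({A, B, C} : Set ℂ) ↔
    ∃ l₁ l₂ l₃ : ℝ, 0 ≤ l₁ ∧ 0 ≤ l₂ ∧ 0 ≤ l₃ ∧ l₁ + l₂ + l₃ = 1 ∧
      p = l₁ * A + l₂ * B + l₃ * C := by
  constructor
  · intro hp
    rw [convexHull_insert (by simp)] at hp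
    simp only [convexHull_pair, segment_eq_image, mem_convexJoin, Set.mem_singleton_iff,
      exists_eq_left, Set.mem_image, Set.mem_Icc] at hp
    obtain ⟨b, ⟨t, ⟨ht0, ht1⟩, rfl⟩, s, ⟨hs0, hs1⟩, rfl⟩ := hp
    refine ⟨1 - s, s * (1 - t), s * t, by linarith, by nlinarith, by nlinarith, by ring, ?_⟩
    simp only [Complex.real_smul]
    push_cast
    ring
  · rintro ⟨l₁, l₂, l₃, a1, a2, a3, hl, rfl⟩
    have m1 : A ∈ convexHull ℝ ({A, B, C} : Set ℂ) := subset_convexHull ℝ _ (by simp)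
    have m2 : B ∈ convexHull ℝ ({A, B, C} : Set ℂ) := subset_convexHull ℝ _ (by simp)
    have m3 : C ∈ convexHull ℝ ({A, B, C} : Set ℂ) := subset_convexHull ℝ _ (by simp)
    have := (convex_convexHull ℝ ({A, B, C} : Set ℂ)).sum_mem (t := Finset.univ)
      (w := ![l₁, l₂, l₃]) (z := ![A, B, C])
      (by intro i _; fin_cases i <;> simpa) (by simp [Fin.sum_univ_three, hl])
      (by intro i _; fin_cases i <;> simpa)
    simpa [Fin.sum_univ_three] using this

/-- subdivision of a triangle -/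
lemma subdiv {A B C D p : ℂ} (hD : D ∈ convexHull ℝ ({A, B, C} : Set ℂ))
    (hp : p ∈ convexHull ℝ ({A, B, C} : Set ℂ)) :
    p ∈ convexHull ℝ ({A, B, D} : Set ℂ) ∨ p ∈ convexHull ℝ ({A, D, C} : Set ℂ) ∨
      p ∈ convexHull ℝ ({B, D, C} : Set ℂ) := by
  obtain ⟨d1, d2, d3, hd1, hd2, hd3, hd, rfl⟩ := mem_hull3.mp hD
  obtain ⟨l1, l2, l3, hl1, hl2, hl3, hl, rfl⟩ := mem_hull3.mp hp
  have key : ∀ d l : Fin 3 → ℝ, (∀ i, 0 ≤ d i) → (∀ i, 0 ≤ l i) → ∑ i, d i = 1 →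
      ∃ i0, ∃ t : ℝ, 0 ≤ t ∧ (∀ i, 0 ≤ l i - t * d i) ∧ l i0 - t * d i0 = 0 := by
    intro d l h1 h2 h3
    have hne : (Finset.univ.filter (fun i => 0 < d i)).Nonempty := by
      by_contra hc
      rw [Finset.not_nonempty_iff_eq_empty] at hc
      have : ∀ i, d i = 0 := by
        intro i
        by_contra hi
        have : i ∈ Finset.univ.filter (fun i => 0 < d i) :=
          Finset.mem_filter.mpr ⟨Finset.mem_univ _, lt_of_le_of_ne (h1 i) (Ne.symm hi)⟩
        rw [hc] at this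
        exact absurd this (Finset.notMem_empty _)
      simp [this] at h3
    obtain ⟨i0, hi0, hmin⟩ := Finset.exists_min_image _ (fun i => l i / d i) hne
    have hi0' := (Finset.mem_filter.mp hi0).2
    refine ⟨i0, l i0 / d i0, div_nonneg (h2 _) (h1 _), fun i => ?_, ?_⟩
    · rcases eq_or_lt_of_le (h1 i) with h | h
      · rw [← h, mul_zero, sub_zero]
        exact h2 i
      · have := hmin i (Finset.mem_filter.mpr ⟨Finset.mem_univ _, h⟩)
        rw [le_div_iff₀ h] at this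
        linarith
    · field_simp
      ring
  obtain ⟨i0, t, ht, hpos, h0⟩ := key ![d1, d2, d3] ![l1, l2, l3]
    (by intro i; fin_cases i <;> simpa) (by intro i; fin_cases i <;> simpa)
    (by simp [Fin.sum_univ_three, hd])
  have p1 := hpos 0
  have p2 := hpos 1
  have p3 := hpos 2
  simp only [Matrix.cons_val_zero, Matrix.cons_val_one, Matrix.cons_val] at p1 p2 p3
  fin_cases i0
  · simp only [Fin.zero_eta, Matrix.cons_val_zero] at h0
    right; right
    refine mem_hull3.mpr ⟨l2 - t * d2, t, l3 - t * d3, p2, ht, p3, by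
      linear_combination hl - t * hd - h0, ?_⟩
    have : (l1 : ℂ) = t * d1 := by exact_mod_cast (by linarith : l1 = t * d1)
    rw [this]
    push_cast
    ring
  · simp only [Fin.mk_one, Matrix.cons_val_one, Matrix.cons_val_zero] at h0
    right; left
    refine mem_hull3.mpr ⟨l1 - t * d1, t, l3 - t * d3, p1, ht, p3, by
      linear_combination hl - t * hd - h0, ?_⟩
    have : (l2 : ℂ) = t * d2 := by exact_mod_cast (by linarith : l2 = t * d2)
    rw [this]
    push_cast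
    ring
  · simp only [Fin.reduceFinMk, Matrix.cons_val] at h0
    left
    refine mem_hull3.mpr ⟨l1 - t * d1, l2 - t * d2, t, p1, p2, ht, by
      linear_combination hl - t * hd - h0, ?_⟩
    have : (l3 : ℂ) = t * d3 := by exact_mod_cast (by linarith : l3 = t * d3)
    rw [this]
    push_cast
    ring

/-! ### positivity -/

lemma one_lt_sqrt3 : (1 : ℝ) < √3 := by
  rw [Real.lt_sqrt (by norm_num)]; norm_num
lemma sqrt2_pos : (0 : ℝ) < √2 := by positivity
lemma sqrt3_lt_two : √3 < (2 : ℝ) := by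
  rw [Real.sqrt_lt' (by norm_num)]; norm_num
lemma one_lt_sqrt2 : (1 : ℝ) < √2 := by
  rw [Real.lt_sqrt (by norm_num)]; norm_num

lemma PV_T' (v : V1) : 0 < (PV v).T := by
  have : (0 : ℝ) < v.x := by exact_mod_cast v.pos
  show 0 < √2 * (v.x : ℝ)
  positivity
lemma PV_σ' (v : V1) : 1 < (PV v).σ := one_lt_sqrt3
lemma PV_κ (v : V1) : 0 < κ (PV v) := by
  have := PV_T' v
  have := PV_σ' v
  unfold κ
  linarith
lemma PU_T' (u : V2) : 0 < (PU u).T := by
  have : (0 : ℝ) < u.y := by exact_mod_cast u.pos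
  show 0 < (2 + √2) * (u.y : ℝ)
  positivity
lemma PU_σ' (u : V2) : 1 < (PU u).σ := by
  show 1 < (2 * √2 + 1) / √3
  rw [lt_div_iff₀ (by positivity)]
  have := one_lt_sqrt2
  have := sqrt3_lt_two
  linarith
lemma PU_κ (u : V2) : 0 < κ (PU u) := by
  have := PU_T' u
  have := PU_σ' u
  unfold κ
  linarith

lemma Face.exists_mk' (F : Face) : ∃ v w, F.e = s(v, w) ∧ MM v w = 2 ∧ NN v F.u = 1 ∧
    NN w F.u = 1 := by
  obtain ⟨e, u, he, hu⟩ := F
  induction e with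
  | _ v w =>
    exact ⟨v, w, rfl, he, hu v (Sym2.mem_mk_left _ _), hu w (Sym2.mem_mk_right _ _)⟩

lemma PE_mk' (v w : V1) : PE s(v, w) = PV v + PV w := by
  unfold PE PV sx sa sb
  ext
  · simp; ring
  · simp; ring
  · simp; ring

lemma sx_pos (e : Sym2 V1) : 0 < sx e := by
  induction e with
  | _ v w =>
    have h1 := v.pos
    have h2 := w.pos
    show 0 < v.x + w.x
    omega

lemma PE_T' (e : Sym2 V1) : 0 < (PE e).T := by
  have : (0 : ℝ) < sx e := by exact_mod_cast sx_pos e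
  show 0 < √2 * (sx e : ℝ)
  positivity
lemma PE_σ' (e : Sym2 V1) : 1 < (PE e).σ := by
  show 1 < 2 * √3
  have := one_lt_sqrt3
  linarith
lemma PE_κ (e : Sym2 V1) : 0 < κ (PE e) := by
  have := PE_T' e
  have := PE_σ' e
  unfold κ
  linarith
lemma PQ_T' (F : Face) : 0 < (PQ F).T := by
  have h1 : (0 : ℝ) < sx F.e := by exact_mod_cast sx_pos F.e
  have h2 : (0 : ℝ) < F.u.y := by exact_mod_cast F.u.pos
  show 0 < √3 * (F.u.y : ℝ) + √6 / 3 * (sx F.e : ℝ)
  positivity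
lemma PQ_σ' (F : Face) : 1 < (PQ F).σ := by
  show 1 < 2 + √2
  have := one_lt_sqrt2
  linarith
lemma PQ_κ (F : Face) : 0 < κ (PQ F) := by
  have := PQ_T' F
  have := PQ_σ' F
  unfold κ
  linarith
lemma PT_T (F : Face) (j : ℕ) : 0 < (PT F j).T := by
  have h1 := PU_T' F.u
  have h2 := PQ_T' F
  have h3 := PE_T' F.e
  show 0 < (PU F.u).T + 2 * (j : ℝ) * (PQ F).T + (j : ℝ) ^ 2 * (PE F.e).T
  positivity
lemma PT_σ (F : Face) (j : ℕ) : 1 < (PT F j).σ := by
  have h1 := PU_σ' F.u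
  have h2 := PQ_σ' F
  have h3 := PE_σ' F.e
  show 1 < (PU F.u).σ + 2 * (j : ℝ) * (PQ F).σ + (j : ℝ) ^ 2 * (PE F.e).σ
  have : 0 ≤ 2 * (j : ℝ) * (PQ F).σ + (j : ℝ) ^ 2 * (PE F.e).σ := by
    have : 0 < (PQ F).σ := by linarith
    have : 0 < (PE F.e).σ := by linarith
    positivity
  linarith
lemma PX_T (x : VX) : 0 < (PX x).T := by
  cases x with
  | p v => exact PV_T' v
  | q u => exact PU_T' u
  | t F j => exact PT_T F _
lemma PX_σ (x : VX) : 1 < (PX x).σ := by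
  cases x with
  | p v => exact PV_σ' v
  | q u => exact PU_σ' u
  | t F j => exact PT_σ F _
lemma PX_κ (x : VX) : 0 < κ (PX x) := by
  have := PX_T x
  have := PX_σ x
  unfold κ
  linarith

/-! ### the circles of a face -/

/-- the stack of a face; `0` is the vertex of the second kind -/
def tv (F : Face) : ℕ → VX
  | 0 => VX.q F.u
  | (i + 1) => VX.t F i

lemma PT_zero' (F : Face) : PT F 0 = PU F.u := by
  unfold PT
  ext
  · simp
  · simp
  · simp

lemma PX_tv (F : Face) (i : ℕ) : PX (tv F i) = PT F i := by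
  cases i with
  | zero => exact (PT_zero' F).symm
  | succ i => rfl

/-- inner products of distinct vertices are at most `-1` -/
lemma ip_PX_le {k : Sym2 V1 → ℕ} {x y : VX} (hx : x ∈ SX k) (hy : y ∈ SX k) (hxy : x ≠ y) :
    ip (PX x) (PX y) ≤ -1 := by
  obtain ⟨h1, h2⟩ := ip_PX k hx hy hxy
  by_cases h : (GX k).Adj x y
  · exact (h1 h).le
  · exact (h2 h).le

lemma ip_PV_PV' {v w : V1} (h : MM v w = 2) : ip (PV v) (PV w) = -1 := by
  have := (ip_PX (fun _ => 0) (x := VX.p v) (y := VX.p w) trivial trivial (by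
    intro h'
    injection h' with h'
    subst h'
    rw [MM_self] at h
    exact absurd h (by norm_num))).1 h
  exact this
lemma ip_PV_PV_le' {v w : V1} (h : v ≠ w) : ip (PV v) (PV w) ≤ -1 :=
  ip_PX_le (k := fun _ => 0) (x := VX.p v) (y := VX.p w) trivial trivial (by
    intro h'
    injection h' with h'
    exact h h')
lemma ip_PV_PU' {v : V1} {u : V2} (h : NN v u = 1) : ip (PV v) (PU u) = -1 :=
  (ip_PX (fun _ => 0) (x := VX.p v) (y := VX.q u) trivial trivial (by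
    intro h'; cases h')).1 h
lemma ip_PV_PU_le' (v : V1) (u : V2) : ip (PV v) (PU u) ≤ -1 :=
  ip_PX_le (k := fun _ => 0) (x := VX.p v) (y := VX.q u) trivial trivial (by
    intro h'; cases h')
lemma ip_PU_PU_le' {u w : V2} (h : u ≠ w) : ip (PU u) (PU w) ≤ -1 :=
  ip_PX_le (k := fun _ => 0) (x := VX.q u) (y := VX.q w) trivial trivial (by
    intro h'
    injection h' with h'
    exact h h')
lemma ip_PV_self' (v : V1) : ip (PV v) (PV v) = 1 := ip_PX_self (VX.p v)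
lemma ip_PU_self' (u : V2) : ip (PU u) (PU u) = 1 := ip_PX_self (VX.q u)

lemma ip_PV_PE_of_mem {v : V1} {e : Sym2 V1} (he : e ∈ HG.edgeSet) (hv : v ∈ e) :
    ip (PV v) (PE e) = 0 := by
  induction e with
  | _ a b =>
    have he' : MM a b = 2 := he
    rw [PE_mk', ip_add_right]
    rcases Sym2.mem_iff.mp hv with rfl | rfl
    · rw [ip_PV_self', ip_PV_PV' he']; norm_num
    · rw [ip_PV_self', ip_comm, ip_PV_PV' he']; norm_num

lemma ip_PT_expand (F : Face) (j : ℕ) (W : R31) :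
    ip (PT F j) W = ip (PU F.u) W + 2 * j * ip (PQ F) W + j ^ 2 * ip (PE F.e) W := by
  unfold PT
  rw [ip_add_left, ip_add_left, ip_smul_left, ip_smul_left]

lemma ip_PT_PV {F : Face} {v : V1} (hv : v ∈ F.e) (j : ℕ) : ip (PT F j) (PV v) = -1 := by
  rw [ip_PT_expand, ip_PQ_PV_of_mem hv, ip_comm (PE F.e), ip_PV_PE_of_mem F.he hv,
    ip_comm (PU F.u), ip_PV_PU' (F.hu v hv)]
  ring
lemma ip_PT_PU (F : Face) (j : ℕ) : ip (PT F j) (PU F.u) = 1 - 2 * j ^ 2 := by
  rw [ip_PT_expand, ip_PU_self', ip_PQ_PU_self, ip_PE_PU_self]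
  ring
lemma ip_PT_PQ (F : Face) (j : ℕ) : ip (PT F j) (PQ F) = 2 * j := by
  rw [ip_PT_expand, ip_comm (PU F.u), ip_PQ_PU_self, ip_PQ_self, ip_PE_PQ_self]
  ring
lemma ip_PT_PE (F : Face) (j : ℕ) : ip (PT F j) (PE F.e) = -2 := by
  rw [ip_PT_expand, ip_comm (PU F.u), ip_PE_PU_self, ip_comm (PQ F), ip_PE_PQ_self, ip_PE_PE_self]
  ring
lemma ip_PT_PT (F : Face) (i j : ℕ) :
    ip (PT F i) (PT F j) = 1 - 2 * ((i : ℝ) - j) ^ 2 := by
  rw [ip_comm, ip_PT_expand, ip_comm (PU F.u), ip_PT_PU, ip_comm (PQ F), ip_PT_PQ,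
    ip_comm (PE F.e), ip_PT_PE]
  ring

/-- the dual circle of the triangle `(v, w, T_j)` -/
noncomputable def dA (F : Face) (j : ℕ) : R31 := PQ F + (j : ℝ) • PE F.e

/-- the dual circle of the triangle `(v, T_{j+1}, T_j)` -/
noncomputable def dB (F : Face) (j : ℕ) (v : V1) : R31 :=
  PV v + PU F.u + (2 * (j : ℝ) + 1) • PQ F + ((j : ℝ) * (j + 1)) • PE F.e

lemma ip_dA (F : Face) (j : ℕ) (W : R31) :
    ip W (dA F j) = ip W (PQ F) + j * ip W (PE F.e) := by
  unfold dA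
  rw [ip_add_right, ip_smul_right]
lemma ip_dB (F : Face) (j : ℕ) (v : V1) (W : R31) :
    ip W (dB F j v) = ip W (PV v) + ip W (PU F.u) + (2 * j + 1) * ip W (PQ F)
      + j * (j + 1) * ip W (PE F.e) := by
  unfold dB
  rw [ip_add_right, ip_add_right, ip_add_right, ip_smul_right, ip_smul_right]

lemma PT_κ (F : Face) (j : ℕ) : 0 < κ (PT F j) := by
  have := PT_T F j
  have := PT_σ F j
  unfold κ
  linarith

lemma PT_self (F : Face) (j : ℕ) : ip (PT F j) (PT F j) = 1 := by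
  rw [ip_PT_PT]; simp

lemma triA {F : Face} {v w : V1} (h : F.e = s(v, w)) (j : ℕ) :
    Tri (PV v) (PV w) (PT F j) (dA F j) := by
  have he := F.he
  have hv : v ∈ F.e := by rw [h]; exact Sym2.mem_mk_left _ _
  have hw : w ∈ F.e := by rw [h]; exact Sym2.mem_mk_right _ _
  have hvw : MM v w = 2 := by rw [h] at he; exact he
  refine ⟨ip_PV_self' v, ip_PV_self' w, PT_self F j, ?_, PV_κ v, PV_κ w, PT_κ F j, ?_,
    ip_PV_PV' hvw, ?_, ?_, ?_, ?_, ?_⟩
  · have e0 : ip (dA F j) (dA F j) = ip (PQ F) (PQ F) + j * ip (PQ F) (PE F.e)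
        + j * (ip (PE F.e) (PQ F) + j * ip (PE F.e) (PE F.e)) := by
      rw [ip_dA]
      unfold dA
      rw [ip_add_left, ip_add_left, ip_smul_left, ip_smul_left]
      ring
    rw [e0, ip_PQ_self, ip_comm (PQ F), ip_PE_PQ_self, ip_PE_PE_self]
    ring
  · unfold dA
    rw [κ_add, κ_smul]
    have := PQ_κ F
    have := PE_κ F.e
    positivity
  · rw [ip_comm]; exact ip_PT_PV hv j
  · rw [ip_comm]; exact ip_PT_PV hw j
  · rw [ip_dA, ip_comm, ip_PQ_PV_of_mem hv, ip_PV_PE_of_mem F.he hv]; ring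
  · rw [ip_dA, ip_comm, ip_PQ_PV_of_mem hw, ip_PV_PE_of_mem F.he hw]; ring
  · rw [ip_dA, ip_PT_PQ, ip_PT_PE]; ring

lemma triB {F : Face} {v : V1} (hv : v ∈ F.e) (j : ℕ) :
    Tri (PV v) (PT F (j + 1)) (PT F j) (dB F j v) := by
  refine ⟨ip_PV_self' v, PT_self F _, PT_self F j, ?_, PV_κ v, PT_κ F _, PT_κ F j, ?_,
    ?_, ?_, ?_, ?_, ?_, ?_⟩
  · rw [ip_dB, ip_comm _ (PV v), ip_comm _ (PU F.u), ip_comm _ (PQ F), ip_comm _ (PE F.e),
      ip_dB, ip_dB, ip_dB, ip_dB, ip_PV_self', ip_PV_PU' (F.hu v hv), ip_comm (PV v) (PQ F),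
      ip_PQ_PV_of_mem hv, ip_PV_PE_of_mem F.he hv, ip_comm (PU F.u) (PV v), ip_PV_PU' (F.hu v hv),
      ip_PU_self', ip_comm (PU F.u) (PQ F), ip_PQ_PU_self, ip_comm (PU F.u) (PE F.e), ip_PE_PU_self,
      ip_PQ_self, ip_comm (PQ F) (PE F.e), ip_PE_PQ_self, ip_comm (PE F.e) (PV v),
      ip_PV_PE_of_mem F.he hv, ip_PE_PE_self]
    ring
  · unfold dB
    rw [κ_add, κ_add, κ_add, κ_smul, κ_smul]
    have := PQ_κ F
    have := PE_κ F.e
    have := PV_κ v
    have := PU_κ F.u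
    positivity
  · rw [ip_comm]; exact ip_PT_PV hv _
  · rw [ip_comm]; exact ip_PT_PV hv _
  · rw [ip_PT_PT]; push_cast; ring
  · rw [ip_dB, ip_PV_self', ip_PV_PU' (F.hu v hv), ip_comm (PV v) (PQ F), ip_PQ_PV_of_mem hv,
      ip_PV_PE_of_mem F.he hv]
    ring
  · rw [ip_dB, ip_PT_PV hv, ip_PT_PU, ip_PT_PQ, ip_PT_PE]
    push_cast
    ring
  · rw [ip_dB, ip_PT_PV hv, ip_PT_PU, ip_PT_PQ, ip_PT_PE]
    ring

/-- stack circles of other faces -/
lemma ip_PT_PQ_other {F F' : Face} (h : F' ≠ F) {m : ℕ} (hm : 1 ≤ m) :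
    ip (PT F' m) (PQ F) ≤ -2 := by
  rw [ip_PT_expand]
  have h1 : ip (PU F'.u) (PQ F) ≤ 0 := by
    by_cases hu : F'.u = F.u
    · rw [hu, ip_comm, ip_PQ_PU_self]
    · rw [ip_comm]
      have := ip_PQ_PU (F := F) hu
      linarith
  have h2 : ip (PQ F') (PQ F) ≤ -1 := ip_PQ_PQ h
  have h3 : ip (PE F'.e) (PQ F) ≤ 0 := by
    obtain ⟨a, b, he, _⟩ := F'.exists_mk'
    have key : ∀ v : V1, ip (PV v) (PQ F) ≤ 0 := by
      intro v
      rw [ip_comm]
      by_cases hv : v ∈ F.e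
      · rw [ip_PQ_PV_of_mem hv]
      · have := ip_PQ_PV hv
        linarith
    rw [he, PE_mk', ip_add_left]
    have := key a
    have := key b
    linarith
  have hm' : (1 : ℝ) ≤ m := by exact_mod_cast hm
  nlinarith [mul_nonneg (by positivity : (0:ℝ) ≤ (m:ℝ)^2) (neg_nonneg.mpr h3)]

lemma ip_PE_le {k : Sym2 V1 → ℕ} {x : VX} (hx : x ∈ SX k) {v w : V1} (hv : x ≠ VX.p v)
    (hw : x ≠ VX.p w) : ip (PX x) (PE s(v, w)) ≤ -2 := by
  rw [PE_mk', ip_add_right]
  have h1 := ip_PX_le hx (y := VX.p v) trivial hv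
  have h2 := ip_PX_le hx (y := VX.p w) trivial hw
  have e1 : PX (VX.p v) = PV v := rfl
  have e2 : PX (VX.p w) = PV w := rfl
  rw [e1] at h1
  rw [e2] at h2
  linarith

lemma emptyA {k : Sym2 V1 → ℕ} {F : Face} {v w : V1} (h : F.e = s(v, w)) {x : VX}
    (hx : x ∈ SX k) (h1 : x ≠ VX.p v) (h2 : x ≠ VX.p w) (h3 : x ≠ tv F (k F.e)) :
    ip (PX x) (dA F (k F.e)) ≤ -1 := by
  rw [ip_dA]
  have hE : ip (PX x) (PE F.e) ≤ -2 := by rw [h]; exact ip_PE_le hx h1 h2
  have hk : (0 : ℝ) ≤ (k F.e : ℕ) := by positivity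
  cases x with
  | p v' =>
    have hv' : v' ∉ F.e := by
      rw [h, Sym2.mem_iff]
      rintro (rfl | rfl)
      · exact h1 rfl
      · exact h2 rfl
    have h4 : ip (PX (VX.p v')) (PQ F) < -1 := by rw [ip_comm]; exact ip_PQ_PV hv'
    nlinarith
  | q u =>
    by_cases hu : u = F.u
    · subst hu
      have hk1 : 1 ≤ k F.e := by
        by_contra hc
        have : k F.e = 0 := by omega
        rw [this] at h3
        exact h3 rfl
      have hk1' : (1 : ℝ) ≤ (k F.e : ℕ) := by exact_mod_cast hk1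
      have h4 : ip (PX (VX.q F.u)) (PQ F) = 0 := by rw [ip_comm]; exact ip_PQ_PU_self F
      rw [h4]
      nlinarith
    · have h4 : ip (PX (VX.q u)) (PQ F) < -1 := by rw [ip_comm]; exact ip_PQ_PU hu
      nlinarith
  | t F' j =>
    by_cases hF : F' = F
    · subst hF
      have hj : j < k F'.e := hx
      have h5 : j + 1 ≠ k F'.e := by
        intro h6
        rw [← h6] at h3
        exact h3 rfl
      have h6 : j + 2 ≤ k F'.e := by omega
      have h6' : (j : ℝ) + 2 ≤ (k F'.e : ℕ) := by exact_mod_cast h6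
      have e1 : ip (PX (VX.t F' j)) (PQ F') = 2 * ((j + 1 : ℕ) : ℝ) := ip_PT_PQ F' (j + 1)
      have e2 : ip (PX (VX.t F' j)) (PE F'.e) = -2 := ip_PT_PE F' (j + 1)
      rw [e1, e2]
      push_cast
      linarith
    · have h4 : ip (PX (VX.t F' j)) (PQ F) ≤ -2 := ip_PT_PQ_other hF (by omega)
      nlinarith

lemma emptyB {k : Sym2 V1 → ℕ} {F : Face} {v w : V1} (h : F.e = s(v, w)) {i : ℕ}
    (hi : i < k F.e) {x : VX}
    (hx : x ∈ SX k) (h1 : x ≠ VX.p v) (h2 : x ≠ VX.t F i) (h3 : x ≠ tv F i) :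
    ip (PX x) (dB F i v) ≤ -1 := by
  rw [ip_dB]
  have hv : v ∈ F.e := by rw [h]; exact Sym2.mem_mk_left _ _
  have hw : w ∈ F.e := by rw [h]; exact Sym2.mem_mk_right _ _
  have hvw : MM v w = 2 := by have := F.he; rw [h] at this; exact this
  have hV : ip (PX x) (PV v) ≤ -1 := ip_PX_le hx (y := VX.p v) trivial h1
  have hi0 : (0 : ℝ) ≤ i := by positivity
  have hii : (0 : ℝ) ≤ (i : ℝ) * (i + 1) := by positivity
  by_cases hxw : x = VX.p w
  · subst hxw
    have e1 : PX (VX.p w) = PV w := rfl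
    rw [e1, ip_comm (PV w) (PV v), ip_PV_PV' hvw, ip_PV_PU' (F.hu w hw), ip_comm (PV w) (PQ F),
      ip_PQ_PV_of_mem hw, ip_PV_PE_of_mem F.he hw]
    norm_num
  · have hE : ip (PX x) (PE F.e) ≤ -2 := by rw [h]; exact ip_PE_le hx h1 hxw
    have hE' : (i : ℝ) * (i + 1) * ip (PX x) (PE F.e) ≤ 0 :=
      mul_nonpos_of_nonneg_of_nonpos hii (by linarith)
    cases x with
    | p v' =>
      have hv' : v' ∉ F.e := by
        rw [h, Sym2.mem_iff]
        rintro (rfl | rfl)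
        · exact h1 rfl
        · exact hxw rfl
      have h4 : ip (PX (VX.p v')) (PQ F) < -1 := by rw [ip_comm]; exact ip_PQ_PV hv'
      have h5 : ip (PX (VX.p v')) (PU F.u) ≤ -1 := ip_PV_PU_le' v' F.u
      nlinarith
    | q u =>
      by_cases hu : u = F.u
      · subst hu
        have hi1 : 1 ≤ i := by
          by_contra hc
          have : i = 0 := by omega
          subst this
          exact h3 rfl
        have hi1' : (1 : ℝ) ≤ (i : ℕ) := by exact_mod_cast hi1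
        have h4 : ip (PX (VX.q F.u)) (PQ F) = 0 := by rw [ip_comm]; exact ip_PQ_PU_self F
        have h5 : ip (PX (VX.q F.u)) (PU F.u) = 1 := ip_PU_self' F.u
        have h6 : ip (PX (VX.q F.u)) (PE F.e) = -2 := by rw [ip_comm]; exact ip_PE_PU_self F
        rw [h4, h5, h6]
        nlinarith
      · have h4 : ip (PX (VX.q u)) (PQ F) < -1 := by rw [ip_comm]; exact ip_PQ_PU hu
        have h5 : ip (PX (VX.q u)) (PU F.u) ≤ -1 := ip_PU_PU_le' hu
        nlinarith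
    | t F' j =>
      by_cases hF : F' = F
      · subst hF
        have e1 : ip (PX (VX.t F' j)) (PQ F') = 2 * ((j + 1 : ℕ) : ℝ) := ip_PT_PQ F' (j + 1)
        have e2 : ip (PX (VX.t F' j)) (PE F'.e) = -2 := ip_PT_PE F' (j + 1)
        have e3 : ip (PX (VX.t F' j)) (PU F'.u) = 1 - 2 * ((j + 1 : ℕ) : ℝ) ^ 2 :=
          ip_PT_PU F' (j + 1)
        have e4 : ip (PX (VX.t F' j)) (PV v) = -1 := ip_PT_PV hv (j + 1)
        rw [e1, e2, e3, e4]
        have h5 : j ≠ i := by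
          rintro rfl
          exact h2 rfl
        have h6 : j + 1 ≠ i := by
          rintro rfl
          exact h3 rfl
        have h7 : 2 ≤ ((j : ℤ) + 1 - i) * ((j : ℤ) - i) := by
          rcases lt_or_gt_of_ne h5 with h8 | h8
          · have h9 : (j : ℤ) + 2 ≤ i := by omega
            nlinarith
          · have h9 : (i : ℤ) + 1 ≤ j := by omega
            nlinarith
        have h7' : (2 : ℝ) ≤ ((j : ℝ) + 1 - i) * ((j : ℝ) - i) := by exact_mod_cast h7
        push_cast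
        nlinarith
      · have h4 : ip (PX (VX.t F' j)) (PQ F) ≤ -2 := ip_PT_PQ_other hF (by omega)
        have h5 : ip (PX (VX.t F' j)) (PU F.u) ≤ -1 :=
          ip_PX_le hx (y := VX.q F.u) trivial (by intro h'; cases h')
        nlinarith

/-! ### the triangles cover the disc -/

lemma exists_bdry {c p : ℂ} {ρ : ℝ} (hρ : 0 < ρ) (h : ‖p - c‖ < ρ) :
    ∃ p', ‖p' - c‖ = ρ ∧ p ∈ segment ℝ c p' := by
  by_cases hpc : p = c
  · subst hpc
    refine ⟨p + ρ, ?_, left_mem_segment ℝ _ _⟩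
    rw [add_sub_cancel_left, Complex.norm_real, Real.norm_eq_abs, abs_of_pos hρ]
  · have h0 : 0 < ‖p - c‖ := norm_pos_iff.mpr (sub_ne_zero.mpr hpc)
    refine ⟨c + (ρ / ‖p - c‖ : ℝ) * (p - c), ?_, ?_⟩
    · rw [add_sub_cancel_left, norm_mul, Complex.norm_real, Real.norm_eq_abs,
        abs_of_pos (by positivity)]
      field_simp
    · rw [segment_eq_image]
      refine ⟨‖p - c‖ / ρ, ⟨by positivity, (div_le_one hρ).mpr h.le⟩, ?_⟩
      simp only [Complex.real_smul]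
      have h1 : ((‖p - c‖ / ρ : ℝ) : ℂ) * ((ρ / ‖p - c‖ : ℝ) : ℂ) = 1 := by
        rw [← Complex.ofReal_mul]
        have : ‖p - c‖ / ρ * (ρ / ‖p - c‖) = 1 := by field_simp
        rw [this, Complex.ofReal_one]
      have h2 : ((1 - ‖p - c‖ / ρ : ℝ) : ℂ) = 1 - ((‖p - c‖ / ρ : ℝ) : ℂ) := by push_cast; ring
      rw [h2]
      linear_combination (p - c) * h1

/-- a point outside all open discs is in a triangle -/
lemma base_cover_out {p : ℂ} (hp : ‖p‖ < 1) (hV : ∀ v, ip (Npt p) (PV v) ≤ 0)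
    (hU : ∀ u, ip (Npt p) (PU u) ≤ 0) : ∃ F : Face, 0 ≤ ip (Npt p) (PQ F) ∧
      ∀ v w, F.e = s(v, w) → p ∈ convexHull ℝ ({(PV v).ctr, (PV w).ctr, (PU F.u).ctr} : Set ℂ) := by
  rcases cov p hp with ⟨v, hv⟩ | ⟨u, hu⟩ | ⟨F, hF⟩
  · exact absurd hv (not_lt.mpr (hV v))
  · exact absurd hu (not_lt.mpr (hU u))
  · refine ⟨F, hF, fun v w hvw => ?_⟩
    have h := triA hvw 0
    have h0 : dA F 0 = PQ F := by
      unfold dA
      ext <;> simp
    rw [h0, PT_zero'] at h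
    exact h.mem_of_dual (hV v) (hV w) (hU _) hF

/-- a point which is on the boundary of a disc is outside of the open discs -/
lemma out_of_bdry {P W : R31} (hP : ip P P = 1) (hW : ip W W = 1) (kP : 0 < κ P) (kW : 0 < κ W)
    (h : P = W ∨ ip P W ≤ -1) {p : ℂ} (hp : ‖p - P.ctr‖ = 1 / κ P) : ip (Npt p) W ≤ 0 := by
  rw [ip_Npt_nonpos_iff hW kW]
  rcases h with rfl | h
  · exact hp.ge
  · have h1 := dist_ge hP hW kP kW h
    have h2 : ‖P.ctr - W.ctr‖ ≤ ‖p - P.ctr‖ + ‖p - W.ctr‖ := by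
      have := norm_sub_le (p - W.ctr) (p - P.ctr)
      have e : p - W.ctr - (p - P.ctr) = P.ctr - W.ctr := by ring
      rw [e] at this
      linarith
    linarith

lemma not_lt_of_touch {P W : R31} (hP : ip P P = 1) (hW : ip W W = 1) (kP : 0 < κ P)
    (kW : 0 < κ W) {p : ℂ} (hp : ‖p - P.ctr‖ = 1 / κ P) (h : 0 ≤ ip (Npt p) W) :
    ¬ ip P W < -1 := by
  intro h1
  rw [ip_Npt_nonneg_iff hW kW] at h
  have h2 := dist_gt hP hW kP kW h1
  have h3 : ‖P.ctr - W.ctr‖ ≤ ‖p - P.ctr‖ + ‖p - W.ctr‖ := by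
    have := norm_sub_le (p - W.ctr) (p - P.ctr)
    have e : p - W.ctr - (p - P.ctr) = P.ctr - W.ctr := by ring
    rw [e] at this
    linarith
  linarith

lemma norm_lt_of_bdry {P : R31} (hP : ip P P = 1) (kP : 0 < κ P) (hσ : 1 < P.σ) (hT : 0 < P.T)
    {p : ℂ} (hp : ‖p - P.ctr‖ = 1 / κ P) : ‖p‖ < 1 := by
  have h1 := inside hP kP hσ hT
  have h2 : ‖p‖ ≤ ‖p - P.ctr‖ + ‖P.ctr‖ := by
    have := norm_add_le (p - P.ctr) P.ctr
    rwa [sub_add_cancel] at this
  linarith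

lemma base_cover {p : ℂ} (hp : ‖p‖ < 1) : ∃ (F : Face) (v w : V1), F.e = s(v, w) ∧
    p ∈ convexHull ℝ ({(PV v).ctr, (PV w).ctr, (PU F.u).ctr} : Set ℂ) := by
  by_cases hV : ∃ v, 0 < ip (Npt p) (PV v)
  · obtain ⟨v, hv⟩ := hV
    rw [ip_Npt_pos_iff (ip_PV_self' v) (PV_κ v)] at hv
    obtain ⟨p', hp', hseg⟩ := exists_bdry (by have := PV_κ v; positivity) hv
    have hlt := norm_lt_of_bdry (ip_PV_self' v) (PV_κ v) (PV_σ' v) (PV_T' v) hp'
    obtain ⟨F, hF, hmem⟩ := base_cover_out hlt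
      (fun w => out_of_bdry (ip_PV_self' v) (ip_PV_self' w) (PV_κ v) (PV_κ w) (by
        by_cases h : v = w
        · left; rw [h]
        · right; exact ip_PV_PV_le' h) hp')
      (fun u => out_of_bdry (ip_PV_self' v) (ip_PU_self' u) (PV_κ v) (PU_κ u)
        (Or.inr (ip_PV_PU_le' v u)) hp')
    obtain ⟨a, b, hab, -⟩ := F.exists_mk'
    have hvF : v ∈ F.e := by
      by_contra hc
      have h1 := ip_PQ_PV hc
      rw [ip_comm] at h1
      exact not_lt_of_touch (ip_PV_self' v) (ip_PQ_self F) (PV_κ v) (PQ_κ F) hp' hF h1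
    refine ⟨F, a, b, hab, ?_⟩
    have hconv := convex_convexHull ℝ ({(PV a).ctr, (PV b).ctr, (PU F.u).ctr} : Set ℂ)
    refine hconv.segment_subset ?_ (hmem a b hab) hseg
    apply subset_convexHull
    rw [hab] at hvF
    rcases Sym2.mem_iff.mp hvF with rfl | rfl
    · simp
    · simp
  by_cases hU : ∃ u, 0 < ip (Npt p) (PU u)
  · obtain ⟨u, hu⟩ := hU
    rw [ip_Npt_pos_iff (ip_PU_self' u) (PU_κ u)] at hu
    obtain ⟨p', hp', hseg⟩ := exists_bdry (by have := PU_κ u; positivity) hu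
    have hlt := norm_lt_of_bdry (ip_PU_self' u) (PU_κ u) (PU_σ' u) (PU_T' u) hp'
    obtain ⟨F, hF, hmem⟩ := base_cover_out hlt
      (fun w => out_of_bdry (ip_PU_self' u) (ip_PV_self' w) (PU_κ u) (PV_κ w)
        (Or.inr (by rw [ip_comm]; exact ip_PV_PU_le' w u)) hp')
      (fun u' => out_of_bdry (ip_PU_self' u) (ip_PU_self' u') (PU_κ u) (PU_κ u') (by
        by_cases h : u = u'
        · left; rw [h]
        · right; exact ip_PU_PU_le' h) hp')
    obtain ⟨a, b, hab, -⟩ := F.exists_mk'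
    have hvF : u = F.u := by
      by_contra hc
      have h1 := ip_PQ_PU hc
      rw [ip_comm] at h1
      exact not_lt_of_touch (ip_PU_self' u) (ip_PQ_self F) (PU_κ u) (PQ_κ F) hp' hF h1
    refine ⟨F, a, b, hab, ?_⟩
    have hconv := convex_convexHull ℝ ({(PV a).ctr, (PV b).ctr, (PU F.u).ctr} : Set ℂ)
    refine hconv.segment_subset ?_ (hmem a b hab) hseg
    apply subset_convexHull
    rw [hvF]
    simp
  push Not at hV hU
  obtain ⟨F, -, hmem⟩ := base_cover_out hp hV hU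
  obtain ⟨a, b, hab, -⟩ := F.exists_mk'
  exact ⟨F, a, b, hab, hmem a b hab⟩

lemma PT_succ {F : Face} {v w : V1} (h : F.e = s(v, w)) (j : ℕ) :
    PT F (j + 1) = PV v + PV w + PT F j + (2 : ℝ) • dA F j := by
  have hE : PE F.e = PV v + PV w := by rw [h, PE_mk']
  unfold PT dA
  rw [hE]
  ext
  · simp; ring
  · simp; ring
  · simp; ring

/-- the triangles of a stack cover the triangle of the face -/
lemma stack_cover {F : Face} {v w : V1} (h : F.e = s(v, w)) {p : ℂ}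
    (hp : p ∈ convexHull ℝ ({(PV v).ctr, (PV w).ctr, (PU F.u).ctr} : Set ℂ)) (j : ℕ) :
    p ∈ convexHull ℝ ({(PV v).ctr, (PV w).ctr, (PT F j).ctr} : Set ℂ) ∨
      ∃ i < j, p ∈ convexHull ℝ ({(PV v).ctr, (PT F (i + 1)).ctr, (PT F i).ctr} : Set ℂ) ∨
        p ∈ convexHull ℝ ({(PV w).ctr, (PT F (i + 1)).ctr, (PT F i).ctr} : Set ℂ) := by
  induction j with
  | zero => left; rw [PT_zero']; exact hp
  | succ j ih =>
    rcases ih with ih | ⟨i, hi, ih⟩
    · have h1 := (triA h j).ctr_inner_mem (PT_succ h j)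
      rcases subdiv h1 ih with h2 | h2 | h2
      · left; exact h2
      · right; exact ⟨j, by omega, Or.inl h2⟩
      · right; exact ⟨j, by omega, Or.inr h2⟩
    · right; exact ⟨i, by omega, ih⟩

lemma tv_mem (k : Sym2 V1 → ℕ) (F : Face) {i : ℕ} (hi : i ≤ k F.e) : tv F i ∈ SX k := by
  cases i with
  | zero => trivial
  | succ i => exact hi

lemma adj_p_tv (k : Sym2 V1 → ℕ) (F : Face) {i : ℕ} (hi : i ≤ k F.e) {v : V1} (hv : v ∈ F.e) :
    (GX k).Adj (VX.p v) (tv F i) := by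
  cases i with
  | zero => exact F.hu v hv
  | succ i => exact ⟨hi, hv⟩

lemma adj_t_tv (k : Sym2 V1 → ℕ) (F : Face) {i : ℕ} (hi : i < k F.e) :
    (GX k).Adj (VX.t F i) (tv F i) := by
  cases i with
  | zero => exact ⟨rfl, hi, rfl⟩
  | succ i => exact ⟨rfl, Or.inl rfl, hi, by omega⟩

lemma cover_aux {k : Sym2 V1 → ℕ} {a b c : VX} (ha : a ∈ SX k) (hb : b ∈ SX k) (hc : c ∈ SX k)
    {Q : R31} (h : Tri (PX a) (PX b) (PX c) Q)
    (hQ : ∀ x ∈ SX k, x ≠ a → x ≠ b → x ≠ c → ip (PX x) Q ≤ -1) :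
    ∀ x ∈ SX k, zX x ∈ convexHull ℝ ({zX a, zX b, zX c} : Set ℂ) → x = a ∨ x = b ∨ x = c := by
  intro x hx hmem
  by_contra hcon
  push Not at hcon
  obtain ⟨h1, h2, h3⟩ := hcon
  exact h.empty (ip_PX_self x) (PX_κ x) (ip_PX_le hx ha h1) (ip_PX_le hx hb h2)
    (ip_PX_le hx hc h3) (hQ x hx h1 h2 h3) hmem

lemma coverX (k : Sym2 V1 → ℕ) (p : ℂ) (hp : ‖p‖ < 1) : ∃ a b c, (GX k).Adj a b ∧
    (GX k).Adj b c ∧ (GX k).Adj a c ∧ p ∈ convexHull ℝ {zX a, zX b, zX c} ∧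
    ∀ x ∈ SX k, zX x ∈ convexHull ℝ {zX a, zX b, zX c} → x = a ∨ x = b ∨ x = c := by
  obtain ⟨F, v, w, h, hmem⟩ := base_cover hp
  have hv : v ∈ F.e := by rw [h]; exact Sym2.mem_mk_left _ _
  have hw : w ∈ F.e := by rw [h]; exact Sym2.mem_mk_right _ _
  have hvw : MM v w = 2 := by have := F.he; rw [h] at this; exact this
  have h' : F.e = s(w, v) := by rw [h]; exact Sym2.eq_swap
  rcases stack_cover h hmem (k F.e) with h1 | ⟨i, hi, h1 | h1⟩
  · refine ⟨VX.p v, VX.p w, tv F (k F.e), hvw, adj_p_tv k F le_rfl hw, adj_p_tv k F le_rfl hv,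
      ?_, ?_⟩
    · unfold zX
      rw [PX_tv]
      exact h1
    · have ht := triA h (k F.e)
      rw [← PX_tv] at ht
      exact cover_aux (a := VX.p v) (b := VX.p w) trivial trivial (tv_mem k F le_rfl) ht
        (fun x hx e1 e2 e3 => emptyA h hx e1 e2 e3)
  · refine ⟨VX.p v, VX.t F i, tv F i, ⟨hi, hv⟩, adj_t_tv k F hi, adj_p_tv k F hi.le hv, ?_, ?_⟩
    · unfold zX
      rw [PX_tv]
      exact h1
    · have ht := triB hv i
      rw [← PX_tv F i] at ht
      exact cover_aux (a := VX.p v) (b := VX.t F i) trivial hi (tv_mem k F hi.le) ht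
        (fun x hx e1 e2 e3 => emptyB h hi hx e1 e2 e3)
  · refine ⟨VX.p w, VX.t F i, tv F i, ⟨hi, hw⟩, adj_t_tv k F hi, adj_p_tv k F hi.le hw, ?_, ?_⟩
    · unfold zX
      rw [PX_tv]
      exact h1
    · have ht := triB hw i
      rw [← PX_tv F i] at ht
      exact cover_aux (a := VX.p w) (b := VX.t F i) trivial hi (tv_mem k F hi.le) ht
        (fun x hx e1 e2 e3 => emptyB h' hi hx e1 e2 e3)

/-! ### local finiteness -/

lemma kappa_le {P : R31} (hP : ip P P = 1) (k0 : 0 < κ P) (hσ : 0 < P.σ) {ρ : ℝ} (h0 : 0 ≤ ρ)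
    (h1 : ρ < 1) (h : ‖P.ctr‖ ≤ ρ) : P.T ≤ 2 / (1 - ρ ^ 2) * P.σ := by
  have h2 := one_sub_norm_sq_le hP k0
  have h3 : ‖P.ctr‖ ^ 2 ≤ ρ ^ 2 := by gcongr
  have h4 : 0 < 1 - ρ ^ 2 := by nlinarith
  have h5 : 1 - ρ ^ 2 ≤ 2 * P.σ / κ P := by linarith
  rw [le_div_iff₀ k0] at h5
  rw [div_mul_eq_mul_div, le_div_iff₀ h4]
  have h6 : P.T ≤ κ P := by unfold κ; linarith
  nlinarith

lemma finite_sub_of_real_V1 (R : ℝ) : {v : V1 | (v.x : ℝ) ≤ R}.Finite := by
  refine (finite_x_le ⌊R⌋).subset ?_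
  intro v hv
  exact Int.le_floor.mpr hv

lemma finite_sub_of_real_V2 (R : ℝ) : {u : V2 | (u.y : ℝ) ≤ R}.Finite := by
  refine (finite_y_le ⌊R⌋).subset ?_
  intro v hv
  exact Int.le_floor.mpr hv

lemma finite_Face_le (R : ℝ) : {F : Face | (F.u.y : ℝ) ≤ R}.Finite := by
  have h1 := finite_sub_of_real_V2 R
  have h2 := finite_sub_of_real_V1 (18 * R)
  have h3 : {e : Sym2 V1 | ∀ v ∈ e, (v.x : ℝ) ≤ 18 * R}.Finite := by
    refine ((h2.prod h2).image (fun q : V1 × V1 => s(q.1, q.2))).subset ?_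
    intro e he
    induction e with
    | _ a b =>
      exact ⟨(a, b), ⟨he a (Sym2.mem_mk_left _ _), he b (Sym2.mem_mk_right _ _)⟩, rfl⟩
  refine Set.Finite.of_finite_image (f := fun F : Face => (F.e, F.u)) ((h3.prod h1).subset ?_) ?_
  · rintro _ ⟨F, hF, rfl⟩
    refine ⟨fun v hv => ?_, hF⟩
    have h4 := x_le_of_adj2 (F.hu v hv)
    have h4' : (v.x : ℝ) ≤ 18 * F.u.y := by exact_mod_cast h4
    have hF' : (F.u.y : ℝ) ≤ R := hF
    linarith
  · intro F _ F' _ hFF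
    simp only [Prod.mk.injEq] at hFF
    exact Face.ext hFF.1 hFF.2

lemma locfinX (k : Sym2 V1 → ℕ) (ρ : ℝ) (hρ : ρ < 1) : {x | x ∈ SX k ∧ ‖zX x‖ ≤ ρ}.Finite := by
  by_cases h0 : 0 ≤ ρ
  swap
  · convert Set.finite_empty
    ext x
    simp only [Set.mem_ofPred_eq, Set.mem_empty_iff_false, iff_false, not_and, not_le]
    intro _
    push Not at h0
    exact h0.trans_le (norm_nonneg _)
  set R := 2 / (1 - ρ ^ 2) with hR
  have hR0 : 0 < R := by
    have : 0 < 1 - ρ ^ 2 := by nlinarith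
    positivity
  have hT : ∀ x ∈ {x | x ∈ SX k ∧ ‖zX x‖ ≤ ρ}, (PX x).T ≤ R * (PX x).σ := by
    intro x hx
    exact kappa_le (ip_PX_self x) (PX_κ x) (by linarith [PX_σ x]) h0 hρ hx.2
  -- bound for the second coordinates
  set B : ℝ := 4 * (R * 10) with hB
  have hs2 := one_lt_sqrt2
  have hs3 := one_lt_sqrt3
  have hs3' := sqrt3_lt_two
  have hs2' : √2 < 2 := by
    rw [Real.sqrt_lt' (by norm_num)]; norm_num
  have hs6 : 2 < √6 := by
    rw [Real.lt_sqrt (by norm_num)]; norm_num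
  have f1 := (finite_sub_of_real_V1 B).image VX.p
  have f2 := (finite_sub_of_real_V2 B).image VX.q
  have f3 : (⋃ F ∈ {F : Face | (F.u.y : ℝ) ≤ B}, (fun j => VX.t F j) '' Set.Iio (k F.e)).Finite :=
    (finite_Face_le B).biUnion (fun F _ => (Set.finite_Iio _).image _)
  refine ((f1.union f2).union f3).subset ?_
  intro x hx
  have hxT := hT x hx
  cases x with
  | p v =>
    left; left
    refine ⟨v, ?_, rfl⟩
    have h1 : √2 * (v.x : ℝ) ≤ R * √3 := hxT
    have hv : (0 : ℝ) < v.x := by exact_mod_cast v.pos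
    show (v.x : ℝ) ≤ B
    nlinarith
  | q u =>
    left; right
    refine ⟨u, ?_, rfl⟩
    have h1 : (2 + √2) * (u.y : ℝ) ≤ R * ((2 * √2 + 1) / √3) := hxT
    have hv : (0 : ℝ) < u.y := by exact_mod_cast u.pos
    have h2 : (2 * √2 + 1) / √3 ≤ 10 := by
      rw [div_le_iff₀ (by positivity)]
      linarith
    show (u.y : ℝ) ≤ B
    nlinarith
  | t F j =>
    right
    rw [Set.mem_iUnion₂]
    refine ⟨F, ?_, j, hx.1, rfl⟩
    show (F.u.y : ℝ) ≤ B
    by_contra hc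
    push Not at hc
    have hU : R * (PU F.u).σ < (PU F.u).T := by
      show R * ((2 * √2 + 1) / √3) < (2 + √2) * (F.u.y : ℝ)
      have h2 : (2 * √2 + 1) / √3 ≤ 10 := by
        rw [div_le_iff₀ (by positivity)]
        linarith
      nlinarith
    have hQ : R * (PQ F).σ < (PQ F).T := by
      have h1 : (0 : ℝ) < sx F.e := by exact_mod_cast sx_pos F.e
      show R * (2 + √2) < √3 * (F.u.y : ℝ) + √6 / 3 * (sx F.e : ℝ)
      have : 0 < √6 / 3 * (sx F.e : ℝ) := by positivity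
      nlinarith
    have hE : R * (PE F.e).σ < (PE F.e).T := by
      obtain ⟨a, b, hab, -, ha, hb⟩ := F.exists_mk'
      have h1 : (F.u.y : ℝ) ≤ 4 * a.x := by exact_mod_cast y_le_of_adj ha
      have h2 : (F.u.y : ℝ) ≤ 4 * b.x := by exact_mod_cast y_le_of_adj hb
      have h3 : (sx F.e : ℝ) = a.x + b.x := by
        rw [hab]
        show ((a.x + b.x : ℤ) : ℝ) = _
        push_cast
        ring
      show R * (2 * √3) < √2 * (sx F.e : ℝ)
      rw [h3]
      nlinarith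
    have h5 : (PX (VX.t F j)).T = (PU F.u).T + 2 * ((j + 1 : ℕ) : ℝ) * (PQ F).T
        + ((j + 1 : ℕ) : ℝ) ^ 2 * (PE F.e).T := rfl
    have h6 : (PX (VX.t F j)).σ = (PU F.u).σ + 2 * ((j + 1 : ℕ) : ℝ) * (PQ F).σ
        + ((j + 1 : ℕ) : ℝ) ^ 2 * (PE F.e).σ := rfl
    rw [h5, h6] at hxT
    have h7 : 0 ≤ 2 * ((j + 1 : ℕ) : ℝ) := by positivity
    have h8 : 0 ≤ ((j + 1 : ℕ) : ℝ) ^ 2 := by positivity
    nlinarith [mul_le_mul_of_nonneg_left hQ.le h7, mul_le_mul_of_nonneg_left hE.le h8]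

/-! ### the packing -/

lemma SX_of_adj' (k : Sym2 V1 → ℕ) {x y : VX} (h : (GX k).Adj x y) : x ∈ SX k := by
  cases x with
  | p v => trivial
  | q u => trivial
  | t F j =>
    cases y with
    | p v => exact h.1
    | q u =>
      obtain ⟨h1, h2, h3⟩ := h
      subst h1
      exact h2
    | t F' i => exact h.2.2.1

theorem packing (k : Sym2 V1 → ℕ) : IsDiscPacking (SX k) (GX k) zX rX where
  supp x y h := SX_of_adj' k h
  pos x _ := by
    have := PX_κ x
    unfold rX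
    positivity
  inside x _ := R31.inside (ip_PX_self x) (PX_κ x) (PX_σ x) (PX_T x)
  sep x hx y hy hxy := dist_ge (ip_PX_self x) (ip_PX_self y) (PX_κ x) (PX_κ y)
    (ip_PX_le hx hy hxy)
  adj x hx y hy hxy := by
    obtain ⟨h1, h2⟩ := ip_PX k hx hy hxy
    constructor
    · intro h
      exact dist_eq (ip_PX_self x) (ip_PX_self y) (PX_κ x) (PX_κ y) (h1 h)
    · intro h
      by_contra hc
      have := dist_gt (ip_PX_self x) (ip_PX_self y) (PX_κ x) (PX_κ y) (h2 hc)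
      have h' : ‖(PX x).ctr - (PX y).ctr‖ = 1 / κ (PX x) + 1 / κ (PX y) := h
      linarith
  locfin := locfinX k
  cover := coverX k

end HExit
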